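import Pool.Agent.H91.Fatou.Hom
import Pool.Agent.H79.Eul.CopDeg
import Pool.Agent.H79.Par.It

/-!
# The iterates of a rational map are rational maps

`exists_iter`: for every `N` there is `V : E (d ^ N)` with coprime polynomials of degree exactly `d ^ N` and
`Rf V = (Rf v0)^[N]`.
-/

set_option autoImplicit false

open Filter Topology Polynomial Metric Set

namespace Pool.Agent.H79.PJ

open Pool.Agent.H44.Fatou Pool.Agent.H32.BT Pool.Agent.H79.Eul Pool.Agent.H79.Par
open Pool.Agent.H91.Fatou (hom rat_pt hom_ne)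

/-- numerator and denominator of a composition -/
noncomputable def homP (D : ℕ) (P A B : Polynomial ℂ) : Polynomial ℂ :=
  ∑ i ∈ Finset.range (D + 1), C (P.coeff i) * A ^ i * B ^ (D - i)

theorem homP_eval (D : ℕ) (P A B : Polynomial ℂ) (z : ℂ) :
    (homP D P A B).eval z = hom D P (A.eval z) (B.eval z) := by
  unfold homP hom
  rw [eval_finsetSum]
  refine Finset.sum_congr rfl fun i _ => ?_
  rw [eval_mul, eval_mul, eval_C, eval_pow, eval_pow]

theorem homP_deg (D : ℕ) (P : Polynomial ℂ) {A B : Polynomial ℂ} {m : ℕ} (hA : A.natDegree ≤ m)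
    (hB : B.natDegree ≤ m) : (homP D P A B).natDegree ≤ D * m := by
  refine natDegree_sum_le_of_forall_le _ _ fun i hi => ?_
  have hi' : i ≤ D := by
    have := Finset.mem_range.1 hi
    omega
  have h1 : (C (P.coeff i) * A ^ i).natDegree ≤ i * m :=
    (natDegree_C_mul_le _ _).trans (natDegree_pow_le_of_le i hA)
  have h2 : (B ^ (D - i)).natDegree ≤ (D - i) * m := natDegree_pow_le_of_le _ hB
  refine (natDegree_mul_le_of_le h1 h2).trans (le_of_eq ?_)
  rw [← Nat.add_mul]
  congr 1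
  omega

theorem homP_coeff (D : ℕ) (P : Polynomial ℂ) {A B : Polynomial ℂ} {m : ℕ} (hA : A.natDegree ≤ m)
    (hB : B.natDegree ≤ m) : (homP D P A B).coeff (D * m) = hom D P (A.coeff m) (B.coeff m) := by
  unfold homP hom
  rw [finsetSum_coeff]
  refine Finset.sum_congr rfl fun i hi => ?_
  have hi' : i ≤ D := by
    have := Finset.mem_range.1 hi
    omega
  have h1 : (C (P.coeff i) * A ^ i).natDegree ≤ i * m :=
    (natDegree_C_mul_le _ _).trans (natDegree_pow_le_of_le i hA)
  have h2 : (B ^ (D - i)).natDegree ≤ (D - i) * m := natDegree_pow_le_of_le _ hB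
  have e : D * m = i * m + (D - i) * m := by
    rw [← Nat.add_mul]
    congr 1
    omega
  rw [e, coeff_mul_add_eq_of_natDegree_le h1 h2, coeff_C_mul, coeff_pow_of_natDegree_le hA,
    coeff_pow_of_natDegree_le hB]

theorem rat_compose {P1 Q1 P2 Q2 : Polynomial ℂ} (h1 : IsCoprime P1 Q1) (h2 : IsCoprime P2 Q2) :
    IsCoprime (homP (dg P1 Q1) P1 P2 Q2) (homP (dg P1 Q1) Q1 P2 Q2) ∧
    dg (homP (dg P1 Q1) P1 P2 Q2) (homP (dg P1 Q1) Q1 P2 Q2) = dg P1 Q1 * dg P2 Q2 ∧
    ∀ x, rat (homP (dg P1 Q1) P1 P2 Q2) (homP (dg P1 Q1) Q1 P2 Q2) x =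
      rat P1 Q1 (rat P2 Q2 x) := by
  have hA : P2.natDegree ≤ dg P2 Q2 := le_max_left _ _
  have hB : Q2.natDegree ≤ dg P2 Q2 := le_max_right _ _
  have hc := coeff_dg h2
  have hdeg : dg (homP (dg P1 Q1) P1 P2 Q2) (homP (dg P1 Q1) Q1 P2 Q2) =
      dg P1 Q1 * dg P2 Q2 := by
    refine le_antisymm (max_le (homP_deg _ _ hA hB) (homP_deg _ _ hA hB)) ?_
    rcases hom_ne h1 hc with h3 | h3
    · rw [← homP_coeff _ _ hA hB] at h3
      exact (le_natDegree_of_ne_zero h3).trans (le_max_left _ _)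
    · rw [← homP_coeff _ _ hA hB] at h3
      exact (le_natDegree_of_ne_zero h3).trans (le_max_right _ _)
  refine ⟨cop_of_roots fun z => ?_, hdeg, fun x => ?_⟩
  · rw [homP_eval, homP_eval]
    exact hom_ne h1 (coprime_eval h2 z)
  · induction x using OnePoint.rec with
    | infty =>
      rw [rat_infty, rat_infty, hdeg, homP_coeff _ _ hA hB, homP_coeff _ _ hA hB, rat_pt hc]
    | coe z =>
      rw [rat_coe, rat_coe, homP_eval, homP_eval, rat_pt (coprime_eval h2 z)]

theorem rat_iter {P Q : Polynomial ℂ} (h : IsCoprime P Q) (hd : 1 ≤ dg P Q) (N : ℕ) :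
    ∃ A B : Polynomial ℂ, IsCoprime A B ∧ dg A B = dg P Q ^ N ∧ ∀ x, rat A B x = (rat P Q)^[N] x := by
  induction N with
  | zero =>
    refine ⟨X, 1, isCoprime_one_right, ?_, fun x => ?_⟩
    · unfold dg
      simp
    · rw [Function.iterate_zero, id]
      have hdg : dg (X : Polynomial ℂ) 1 = 1 := by
        unfold dg
        simp
      induction x using OnePoint.rec with
      | infty =>
        rw [rat_infty, hdg]
        unfold pt
        rw [if_pos (by simp [coeff_one])]
      | coe z =>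
        rw [rat_coe]
        unfold pt
        rw [eval_X, eval_one, if_neg one_ne_zero, div_one]
  | succ N ih =>
    obtain ⟨A, B, h1, h2, h3⟩ := ih
    obtain ⟨h4, h5, h6⟩ := rat_compose h1 h
    refine ⟨_, _, h4, ?_, fun x => ?_⟩
    · rw [h5, h2, pow_succ]
    · rw [h6, h3, Function.iterate_succ_apply]

/-- the iterate as a point of `E (d ^ N)` -/
theorem exists_iter {d : ℕ} (hd : 1 ≤ d) {v0 : E d} (hcop : IsCoprime (pol v0.1) (pol v0.2))
    (hdeg : max (pol v0.1).natDegree (pol v0.2).natDegree = d) (N : ℕ) :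
    ∃ V : E (d ^ N), IsCoprime (pol V.1) (pol V.2) ∧
      max (pol V.1).natDegree (pol V.2).natDegree = d ^ N ∧ ∀ x, Rf V x = (Rf v0)^[N] x := by
  have hdg : dg (pol v0.1) (pol v0.2) = d := hdeg
  obtain ⟨A, B, h1, h2, h3⟩ := rat_iter hcop (by rw [hdg]; exact hd) N
  rw [hdg] at h2
  have hA : A.natDegree ≤ d ^ N := (le_max_left _ _).trans (le_of_eq h2)
  have hB : B.natDegree ≤ d ^ N := (le_max_right _ _).trans (le_of_eq h2)
  refine ⟨(cf (d ^ N) A, cf (d ^ N) B), ?_, ?_, ?_⟩
  · show IsCoprime (pol (cf (d ^ N) A)) (pol (cf (d ^ N) B))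
    rw [pol_cf hA, pol_cf hB]
    exact h1
  · show max (pol (cf (d ^ N) A)).natDegree (pol (cf (d ^ N) B)).natDegree = d ^ N
    rw [pol_cf hA, pol_cf hB]
    exact h2
  · intro x
    show rat (pol (cf (d ^ N) A)) (pol (cf (d ^ N) B)) x = _
    rw [pol_cf hA, pol_cf hB]
    exact h3 x

end Pool.Agent.H79.PJ
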