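import Pool.Agent.H79.PJ.Rth

/-!
# A relative neighbourhood of `JP` avoided by the attracted orbits

All parabolic points are fixed with multiplier `1`. `avp_one`: the orbit of an attracted point does not meet the
relative thickening, if it is thin. `avp`: the common choice for infinity and the critical points which are not in `JP`.
-/

set_option autoImplicit false

open Filter Topology Polynomial Metric Set

namespace Pool.Agent.H79.PJ

open Pool.Agent.H44.Fatou Pool.Agent.H32.BT Pool.Agent.H79.Eul Pool.Agent.H79.Par Pool.Agent.H79.PB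
open Pool.Agent.H80.AJ (fixMult_fix iter_fixed)

theorem ty2_one {F : OnePoint ℂ → OnePoint ℂ} (hF : Continuous F) {x z : OnePoint ℂ} {n : ℕ}
    (h1 : FixMult F^[1] z 1) (h : Ty2 F x z n) : Ty2 F x z 1 := by
  obtain ⟨hn, -, hlim, hne⟩ := h
  have hz : F z = z := fixMult_fix h1
  refine ⟨one_pos, h1, ?_, fun k hk => ?_⟩
  · rw [Filter.tendsto_atTop']
    intro U hU
    have h2 : ∀ᶠ k : ℕ in atTop, ∀ r ∈ Finset.range n, F^[r] (F^[n * k] x) ∈ U := by
      rw [Filter.eventually_all_finset]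
      intro r _
      have h3 := ((hF.iterate r).tendsto z).comp hlim
      rw [Function.iterate_fixed hz r] at h3
      exact h3.eventually hU
    obtain ⟨K, hK⟩ := eventually_atTop.1 h2
    refine ⟨n * K, fun m hm => ?_⟩
    have h3 : K ≤ m / n := (Nat.le_div_iff_mul_le hn).2 (by rw [Nat.mul_comm]; exact hm)
    have h4 := hK (m / n) h3 (m % n) (Finset.mem_range.2 (Nat.mod_lt _ hn))
    rw [← Function.iterate_add_apply, Nat.mod_add_div] at h4
    rwa [Nat.one_mul]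
  · rw [Nat.one_mul] at hk
    apply hne k
    obtain ⟨m, rfl⟩ : ∃ m, n = m + 1 := ⟨n - 1, by omega⟩
    have e : (m + 1) * k = m * k + k := by ring
    rw [e, Function.iterate_add_apply, hk, Function.iterate_fixed hz]

theorem avp_ev {J : Set ℂ} (hJ : IsCompact J) {W : Set ℂ} (hW : IsOpen W) (hJW : J ⊆ W) :
    ∀ᶠ δ : ℝ in 𝓝[>] 0, cthickening δ J ⊆ W := by
  obtain ⟨δ0, hδ0, h⟩ := hJ.exists_cthickening_subset_open hW hJW
  filter_upwards [Ioc_mem_nhdsGT hδ0] with δ hδ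
  exact (cthickening_mono hδ.2 J).trans h

/-- a compact set of attracted points avoids a thickening of `JP` -/
theorem avp_cpt {J : Set ℂ} (hJ : IsCompact J) {K : Set (OnePoint ℂ)} (hK : IsCompact K)
    (hKJ : ∀ y ∈ J, (y : OnePoint ℂ) ∉ K) :
    ∀ᶠ δ : ℝ in 𝓝[>] 0, ∀ y : ℂ, (y : OnePoint ℂ) ∈ K → y ∉ cthickening δ J := by
  have hopen : IsOpen ((fun y : ℂ => (y : OnePoint ℂ)) ⁻¹' Kᶜ) :=
    hK.isClosed.isOpen_compl.preimage OnePoint.continuous_coe
  filter_upwards [avp_ev hJ hopen hKJ] with δ hδ y hy hyJ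
  exact hδ hyJ hy

theorem rth_cthick {J : Set ℂ} (hJ : J.Nonempty) {Pa : Finset ℂ} {δ : ℝ} (hδ : 0 ≤ δ) :
    Rth J Pa δ ⊆ cthickening δ J :=
  (rth_thick hJ hδ).trans (thickening_subset_cthickening _ _)

theorem avp_one {d : ℕ} (hd : 2 ≤ d) {v0 : E d} (hcop : IsCoprime (pol v0.1) (pol v0.2))
    (hdeg : max (pol v0.1).natDegree (pol v0.2).natDegree = d) (hper : NPer v0)
    (hinf : OnePoint.infty ∈ Fa v0) (h1 : ∀ p ∈ PP v0, FixMult (Rf v0)^[1] (p : OnePoint ℂ) 1)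
    {Pa : Finset ℂ} (hPa : ∀ p, p ∈ Pa ↔ p ∈ PP v0) (hne : Pa.Nonempty) {x : OnePoint ℂ}
    (hx : x ∈ Fa v0) :
    ∀ᶠ δ : ℝ in 𝓝[>] 0, ∀ (m : ℕ) (y : ℂ), (Rf v0)^[m] x = (y : OnePoint ℂ) →
      y ∉ Rth (JP v0) Pa δ := by
  have hF : Continuous (Rf v0) := rat_continuous hcop
  have hJ : IsCompact (JP v0) := jp_cpt hd hcop hdeg hper hinf
  have hJn : (JP v0).Nonempty := by
    obtain ⟨p, hp⟩ := hne
    rw [hPa] at hp
    obtain ⟨n, hn, h⟩ := hp
    exact ⟨p, par_jp hd hcop hdeg hper hn h⟩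
  have hpos : ∀ᶠ δ : ℝ in 𝓝[>] 0, 0 < δ := self_mem_nhdsWithin
  obtain ⟨z, n, h | h⟩ := id hx
  · -- a sink
    have hn : 0 < n := h.1.1
    have hzA : z ∈ Fa v0 := by
      refine ⟨z, n, Or.inl ⟨h.1, ?_⟩⟩
      refine tendsto_const_nhds.congr fun k => ?_
      exact (iter_fixed h.1.2.1 k).symm
    set K : Set (OnePoint ℂ) := ⋃ j ∈ Finset.range n,
      insert ((Rf v0)^[j] z) (range fun k : ℕ => (Rf v0)^[j + n * k] x) with hK
    have hKc : IsCompact K := by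
      refine (Finset.range n).isCompact_biUnion fun j _ => ?_
      refine Filter.Tendsto.isCompact_insert_range ?_
      have h2 : (fun k : ℕ => (Rf v0)^[j + n * k] x) =
          fun k : ℕ => (Rf v0)^[j] ((Rf v0)^[n * k] x) := by
        funext k
        rw [Function.iterate_add_apply]
      rw [h2]
      exact ((hF.iterate j).tendsto z).comp h.2
    have hKA : ∀ p ∈ K, p ∈ Fa v0 := by
      intro p hp
      simp only [hK, mem_iUnion, mem_insert_iff, mem_range] at hp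
      obtain ⟨j, -, hp | ⟨k, hp⟩⟩ := hp
      · rw [hp, fa_iter hcop hper]; exact hzA
      · rw [← hp, fa_iter hcop hper]; exact hx
    have hmem : ∀ m : ℕ, (Rf v0)^[m] x ∈ K := by
      intro m
      simp only [hK, mem_iUnion, mem_insert_iff, mem_range]
      refine ⟨m % n, Finset.mem_range.2 (Nat.mod_lt _ hn), Or.inr ⟨m / n, ?_⟩⟩
      rw [Nat.mod_add_div]
    filter_upwards [avp_cpt hJ hKc fun y hy hyK => hy (hKA _ hyK), hpos] with δ hδ hδ0 m y hy hyR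
    exact hδ y (by rw [← hy]; exact hmem m) (rth_cthick hJn hδ0.le hyR)
  · -- a parabolic point
    obtain ⟨p, a, q, rfl, hP'⟩ := par_pt hd hcop hdeg hper h.1 h.2.1
    have hp : p ∈ PP v0 := ⟨n, h.1, h.2.1⟩
    have hfm := h1 p hp
    obtain ⟨p', a, q, hpp, hP⟩ := par_pt hd hcop hdeg hper one_pos hfm
    have e := OnePoint.coe_injective hpp
    subst e
    have h2 := ty2_one hF hfm h
    obtain ⟨J0, u, h3, h4, h5, h6⟩ := ty2_dir hP h2
    obtain ⟨δ1, r1, hδ1, -, hr1, h7⟩ := cone_rth hJn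
      (fun ε hε => cone_J hP hε) (ε := 1) one_pos le_rfl
    obtain ⟨M, hM⟩ := eventually_atTop.1
      (h6.and (h5.eventually (ball_mem_nhds (0 : ℂ) hr1)))
    have hfin : ∀ᶠ δ : ℝ in 𝓝[>] 0, ∀ m ∈ Finset.range (J0 + M), ∀ y : ℂ,
        (y : OnePoint ℂ) ∈ ({(Rf v0)^[m] x} : Set (OnePoint ℂ)) → y ∉ cthickening δ (JP v0) := by
      rw [Filter.eventually_all_finset]
      intro m _
      refine avp_cpt hJ isCompact_singleton fun y hy hyK => hy ?_
      rw [mem_singleton_iff] at hyK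
      rw [hyK, fa_iter hcop hper]
      exact hx
    have hle : ∀ᶠ δ : ℝ in 𝓝[>] 0, δ < δ1 := nhdsWithin_le_nhds (gt_mem_nhds hδ1)
    filter_upwards [hfin, hpos, hle] with δ hδ hδ0 hδδ m y hy hyR
    by_cases hm : m < J0 + M
    · exact hδ m (Finset.mem_range.2 hm) y (by rw [hy]; rfl) (rth_cthick hJn hδ0.le hyR)
    · obtain ⟨j, rfl⟩ : ∃ j, m = J0 + (M + j) := ⟨m - J0 - M, by omega⟩
      have h8 := h3 (M + j)
      rw [Nat.one_mul, hy] at h8
      have h9 := OnePoint.coe_injective h8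
      obtain ⟨h10, h11⟩ := hM (M + j) (by omega)
      rw [dist_zero_right] at h11
      have hyp : y - p = u (M + j) := by rw [h9]; ring
      have h12 : infDist y (JP v0) < δ1 * ‖y - p‖ := by
        have h13 : infDist y (JP v0) < δ * dp Pa y := hyR
        refine h13.trans_le ?_
        refine (mul_le_mul_of_nonneg_right hδδ.le (dp_nonneg Pa y)).trans ?_
        exact mul_le_mul_of_nonneg_left (dp_le Pa ((hPa p).2 hp) y) hδ1.le
      have h14 := h7 y h12 (by rw [hyp]; exact h11)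
      rw [sub_self, zero_mul, hyp] at h14
      linarith

theorem avp {d : ℕ} (hd : 2 ≤ d) {v0 : E d} (hcop : IsCoprime (pol v0.1) (pol v0.2))
    (hdeg : max (pol v0.1).natDegree (pol v0.2).natDegree = d) (hper : NPer v0)
    (hinf : OnePoint.infty ∈ Fa v0) (h1 : ∀ p ∈ PP v0, FixMult (Rf v0)^[1] (p : OnePoint ℂ) 1)
    {Pa : Finset ℂ} (hPa : ∀ p, p ∈ Pa ↔ p ∈ PP v0) (hne : Pa.Nonempty) :
    ∀ᶠ δ : ℝ in 𝓝[>] 0, (∀ z ∈ cthickening δ (JP v0), ev v0.2 z ≠ 0) ∧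
      (∀ z ∈ cthickening δ (JP v0), wv v0 z = 0 → z ∈ JP v0) ∧
      ∀ x : OnePoint ℂ, (x = OnePoint.infty ∨ ∃ c : ℂ, wv v0 c = 0 ∧ c ∉ JP v0 ∧
        x = (c : OnePoint ℂ)) → ∀ (n : ℕ) (y : ℂ), (Rf v0)^[n] x = (y : OnePoint ℂ) →
          y ∉ Rth (JP v0) Pa δ := by
  have hJ : IsCompact (JP v0) := jp_cpt hd hcop hdeg hper hinf
  have hfin : {c : ℂ | wv v0 c = 0}.Finite := Pool.Agent.H91.CE.wv_ne hd hcop hdeg
  have hevc : Continuous (fun z : ℂ => ev v0.2 z) :=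
    ev_cont.comp (continuous_const.prodMk continuous_id)
  have e1 : ∀ᶠ δ : ℝ in 𝓝[>] 0, cthickening δ (JP v0) ⊆ {z : ℂ | ev v0.2 z ≠ 0} :=
    avp_ev hJ (isOpen_ne_fun hevc continuous_const) fun z hz => (jp_step hcop hper hinf hz).1
  have hfin' : {c : ℂ | wv v0 c = 0 ∧ c ∉ JP v0}.Finite := hfin.subset fun c hc => hc.1
  have e2 : ∀ᶠ δ : ℝ in 𝓝[>] 0, cthickening δ (JP v0) ⊆ {c : ℂ | wv v0 c = 0 ∧ c ∉ JP v0}ᶜ :=
    avp_ev hJ hfin'.isClosed.isOpen_compl fun z hz h => h.2 hz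
  have e3 := avp_one hd hcop hdeg hper hinf h1 hPa hne hinf
  have e4 : ∀ᶠ δ : ℝ in 𝓝[>] 0, ∀ c ∈ hfin'.toFinset, ∀ (m : ℕ) (y : ℂ),
      (Rf v0)^[m] (c : OnePoint ℂ) = (y : OnePoint ℂ) → y ∉ Rth (JP v0) Pa δ := by
    rw [Filter.eventually_all_finset]
    intro c hc
    have hc' : (c : OnePoint ℂ) ∈ Fa v0 := by
      by_contra h
      exact (hfin'.mem_toFinset.1 hc).2 h
    exact avp_one hd hcop hdeg hper hinf h1 hPa hne hc'
  filter_upwards [e1, e2, e3, e4] with δ h2 h3 h4 h5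
  refine ⟨fun z hz => h2 hz, fun z hz hw => ?_, ?_⟩
  · by_contra h
    exact h3 hz ⟨hw, h⟩
  · rintro x (rfl | ⟨c, hc, hcJ, rfl⟩)
    · exact h4
    · exact h5 c (hfin'.mem_toFinset.2 ⟨hc, hcJ⟩)

end Pool.Agent.H79.PJ
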