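import Pool.Agent.H79.PJ.Fit

/-!
# The region `VV`: a thickening of `J`, near the parabolic points only the cones

`VV J Pa a q δ R t`: the points at distance less than `δ` from `J`, not in `Pa`, and in the cone
`t |a (z - p)^q| < Re (a (z - p)^q)` if `|z - p| ≤ R`. `avv_one`: the orbit of an attracted point does not meet it if
`δ` is small. `nnv`: no normality. `fit_par`: the data of a parabolic point for the iterate.
-/

set_option autoImplicit false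

open Filter Topology Polynomial Metric Set MeasureTheory

namespace Pool.Agent.H79.PJ

open Pool.Agent.H44.Fatou Pool.Agent.H32.BT Pool.Agent.H79.Eul Pool.Agent.H79.Par Pool.Agent.H79.PB
open Pool.Agent.H80.AJ (fixMult_fix iter_fixed)

/-- a thickening of `J`, near the parabolic points only the cones -/
def VV (J : Set ℂ) (Pa : Finset ℂ) (a : ℂ → ℂ) (q : ℂ → ℕ) (δ R t : ℝ) : Set ℂ :=
  {z | infDist z J < δ ∧ ∀ p ∈ Pa, z ≠ p ∧
    (‖z - p‖ ≤ R → t * ‖a p * (z - p) ^ q p‖ < (a p * (z - p) ^ q p).re)}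

theorem fit_par {d D N : ℕ} {v0 : E d} {V : E D} (hV : ∀ x : OnePoint ℂ, Rf V x = (Rf v0)^[N] x)
    {p a : ℂ} {q : ℕ} (hP : ParPt v0 N p a q) : ParPt V 1 p a q := by
  obtain ⟨-, hq, ha, x, k, rfl, ho, hx, hmul, hnf⟩ := hP
  have hG : x 0 ∈ GN v0 N := by
    intro j hj
    rw [orb_it ho j hj.le]
    exact (ho j hj).1
  have hfix : it V 1 (x 0) = x 0 := by
    rw [(fit_den hV hG).2, orb_it ho N le_rfl, hx]
  have h1 : HasDerivAt (it V 1) (wv V (x 0) / ev V.2 (x 0) ^ 2) (x 0) :=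
    tr_hasDerivAt_ev V (x 0) (fit_den hV hG).1
  have h2 : HasDerivAt (it V 1) (trD v0 N (x 0)) (x 0) :=
    (gn_deriv hG).congr_of_eventuallyEq (fit_ev hV hG)
  refine ⟨one_pos, hq, ha, fun _ => x 0, k, rfl, ?_, rfl, ?_, ?_⟩
  · intro j _
    exact ⟨(fit_den hV hG).1, hfix⟩
  · have h3 : trD V 1 (x 0) = wv V (x 0) / ev V.2 (x 0) ^ 2 := by
      unfold trD
      rw [Finset.prod_range_one]
      rfl
    show trD V 1 (x 0) = 1
    rw [h3, h1.unique h2, hmul]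
  · obtain ⟨hk, hk0, he⟩ := hnf
    refine ⟨hk, hk0, ?_⟩
    have h3 : Tendsto (fun u : ℂ => x 0 + u) (𝓝 0) (𝓝 (x 0)) := by
      have h4 : ContinuousAt (fun u : ℂ => x 0 + u) 0 := by fun_prop
      have h5 := h4.tendsto
      rwa [add_zero] at h5
    filter_upwards [he, h3.eventually (fit_ev hV hG)] with u hu hu2
    show it V 1 (x 0 + u) - x 0 = _
    rw [hu2]
    exact hu

theorem avv_one {d : ℕ} (hd : 2 ≤ d) {v0 : E d} (hcop : IsCoprime (pol v0.1) (pol v0.2))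
    (hdeg : max (pol v0.1).natDegree (pol v0.2).natDegree = d) (hper : NPer v0)
    (h1 : ∀ p ∈ PP v0, FixMult (Rf v0)^[1] (p : OnePoint ℂ) 1)
    {Pa : Finset ℂ} (hPa : ∀ p, p ∈ Pa ↔ p ∈ PP v0) {aa : ℂ → ℂ} {qq : ℂ → ℕ}
    (hA : ∀ p ∈ Pa, ParPt v0 1 p (aa p) (qq p)) {J : Set ℂ} (hJc : IsCompact J) (hJn : J.Nonempty)
    (hJ : J ⊆ JP v0) {R t : ℝ} (hR : 0 < R) (ht : 0 ≤ t) {x : OnePoint ℂ} (hx : x ∈ Fa v0) :
    ∀ᶠ δ : ℝ in 𝓝[>] 0, ∀ (m : ℕ) (y : ℂ), (Rf v0)^[m] x = (y : OnePoint ℂ) →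
      y ∉ VV J Pa aa qq δ R t := by
  have hF : Continuous (Rf v0) := rat_continuous hcop
  have hpos : ∀ᶠ δ : ℝ in 𝓝[>] 0, 0 < δ := self_mem_nhdsWithin
  have hVJ : ∀ δ : ℝ, 0 < δ → VV J Pa aa qq δ R t ⊆ cthickening δ J := by
    intro δ _ z hz
    refine thickening_subset_cthickening _ _ ?_
    rw [mem_thickening_iff_infDist_lt hJn]
    exact hz.1
  obtain ⟨z, n, h | h⟩ := id hx
  · -- a sink
    have hn : 0 < n := h.1.1
    have hzA : z ∈ Fa v0 := by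
      refine ⟨z, n, Or.inl ⟨h.1, ?_⟩⟩
      refine tendsto_const_nhds.congr fun k => ?_
      exact (iter_fixed h.1.2.1 k).symm
    set K : Set (OnePoint ℂ) := ⋃ j ∈ Finset.range n,
      insert ((Rf v0)^[j] z) (range fun k : ℕ => (Rf v0)^[j + n * k] x) with hK
    have hKc : IsCompact K := by
      refine (Finset.range n).isCompact_biUnion fun j _ => ?_
      refine Filter.Tendsto.isCompact_insert_range ?_
      have h2 : (fun k : ℕ => (Rf v0)^[j + n * k] x) =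
          fun k : ℕ => (Rf v0)^[j] ((Rf v0)^[n * k] x) := by
        funext k
        rw [Function.iterate_add_apply]
      rw [h2]
      exact ((hF.iterate j).tendsto z).comp h.2
    have hKA : ∀ p ∈ K, p ∈ Fa v0 := by
      intro p hp
      simp only [hK, mem_iUnion, mem_insert_iff, mem_range] at hp
      obtain ⟨j, -, hp | ⟨k, hp⟩⟩ := hp
      · rw [hp, fa_iter hcop hper]; exact hzA
      · rw [← hp, fa_iter hcop hper]; exact hx
    have hmem : ∀ m : ℕ, (Rf v0)^[m] x ∈ K := by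
      intro m
      simp only [hK, mem_iUnion, mem_insert_iff, mem_range]
      refine ⟨m % n, Finset.mem_range.2 (Nat.mod_lt _ hn), Or.inr ⟨m / n, ?_⟩⟩
      rw [Nat.mod_add_div]
    filter_upwards [avp_cpt hJc hKc fun y hy hyK => hJ hy (hKA _ hyK), hpos] with δ hδ hδ0 m y hy
      hyR
    exact hδ y (by rw [← hy]; exact hmem m) (hVJ δ hδ0 hyR)
  · -- a parabolic point
    obtain ⟨p, a, q, rfl, hP'⟩ := par_pt hd hcop hdeg hper h.1 h.2.1
    have hp : p ∈ PP v0 := ⟨n, h.1, h.2.1⟩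
    have h2 := ty2_one hF (h1 p hp) h
    obtain ⟨J0, u, h3, h4, h5, h6⟩ := ty2_dir (hA p ((hPa p).2 hp)) h2
    obtain ⟨M, hM⟩ := eventually_atTop.1
      (h6.and (h5.eventually (ball_mem_nhds (0 : ℂ) hR)))
    have hfin : ∀ᶠ δ : ℝ in 𝓝[>] 0, ∀ m ∈ Finset.range (J0 + M), ∀ y : ℂ,
        (y : OnePoint ℂ) ∈ ({(Rf v0)^[m] x} : Set (OnePoint ℂ)) → y ∉ cthickening δ J := by
      rw [Filter.eventually_all_finset]
      intro m _
      refine avp_cpt hJc isCompact_singleton fun y hy hyK => hJ hy ?_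
      rw [mem_singleton_iff] at hyK
      rw [hyK, fa_iter hcop hper]
      exact hx
    filter_upwards [hfin, hpos] with δ hδ hδ0 m y hy hyR
    by_cases hm : m < J0 + M
    · exact hδ m (Finset.mem_range.2 hm) y (by rw [hy]; rfl) (hVJ δ hδ0 hyR)
    · obtain ⟨j, rfl⟩ : ∃ j, m = J0 + (M + j) := ⟨m - J0 - M, by omega⟩
      have h8 := h3 (M + j)
      rw [Nat.one_mul, hy] at h8
      have h9 := OnePoint.coe_injective h8
      obtain ⟨h10, h11⟩ := hM (M + j) (by omega)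
      rw [dist_zero_right] at h11
      have hyp : y - p = u (M + j) := by rw [h9]; ring
      have h12 := (hyR.2 p ((hPa p).2 hp)).2 (by rw [hyp]; exact h11.le)
      rw [hyp] at h12
      have h13 : 0 ≤ t * ‖aa p * u (M + j) ^ qq p‖ := mul_nonneg ht (norm_nonneg _)
      linarith

/-- the common choice for infinity and the critical points which are not in `JP` -/
theorem avv {d : ℕ} (hd : 2 ≤ d) {v0 : E d} (hcop : IsCoprime (pol v0.1) (pol v0.2))
    (hdeg : max (pol v0.1).natDegree (pol v0.2).natDegree = d) (hper : NPer v0)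
    (hinf : OnePoint.infty ∈ Fa v0) (h1 : ∀ p ∈ PP v0, FixMult (Rf v0)^[1] (p : OnePoint ℂ) 1)
    {Pa : Finset ℂ} (hPa : ∀ p, p ∈ Pa ↔ p ∈ PP v0) {aa : ℂ → ℂ} {qq : ℂ → ℕ}
    (hA : ∀ p ∈ Pa, ParPt v0 1 p (aa p) (qq p)) {J : Set ℂ} (hJc : IsCompact J) (hJn : J.Nonempty)
    (hJ : J ⊆ JP v0) {R t : ℝ} (hR : 0 < R) (ht : 0 ≤ t) :
    ∀ᶠ δ : ℝ in 𝓝[>] 0,
      ∀ x : OnePoint ℂ, (x = OnePoint.infty ∨ ∃ c : ℂ, wv v0 c = 0 ∧ c ∉ JP v0 ∧
        x = (c : OnePoint ℂ)) → ∀ (n : ℕ) (y : ℂ), (Rf v0)^[n] x = (y : OnePoint ℂ) →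
          y ∉ VV J Pa aa qq δ R t := by
  have hfin : {c : ℂ | wv v0 c = 0}.Finite := Pool.Agent.H91.CE.wv_ne hd hcop hdeg
  have hfin' : {c : ℂ | wv v0 c = 0 ∧ c ∉ JP v0}.Finite := hfin.subset fun c hc => hc.1
  have e3 := avv_one hd hcop hdeg hper h1 hPa hA hJc hJn hJ hR ht hinf
  have e4 : ∀ᶠ δ : ℝ in 𝓝[>] 0, ∀ c ∈ hfin'.toFinset, ∀ (m : ℕ) (y : ℂ),
      (Rf v0)^[m] (c : OnePoint ℂ) = (y : OnePoint ℂ) → y ∉ VV J Pa aa qq δ R t := by
    rw [Filter.eventually_all_finset]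
    intro c hc
    have hc' : (c : OnePoint ℂ) ∈ Fa v0 := by
      by_contra h
      exact (hfin'.mem_toFinset.1 hc).2 h
    exact avv_one hd hcop hdeg hper h1 hPa hA hJc hJn hJ hR ht hc'
  filter_upwards [e3, e4] with δ h4 h5
  rintro x (rfl | ⟨c, hc, hcJ, rfl⟩)
  · exact h4
  · exact h5 c (hfin'.mem_toFinset.2 ⟨hc, hcJ⟩)

end Pool.Agent.H79.PJ
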