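import Pool.Agent.H79.PB.BasinNear
import Pool.Agent.H80.AJ.Types
import Pool.Agent.H44.DN.ATB

/-!
# The set of attracted points (sinks and parabolic basins)

`Fa v0`: the points of the sphere which are attracted by a sink or, without landing, by a parabolic cycle. `JP v0`: the
points of the plane which are not in `Fa v0`. `NPer v0`: infinity is not periodic.
-/

set_option autoImplicit false

open Filter Topology Polynomial Metric Set

namespace Pool.Agent.H79.PJ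

open Pool.Agent.H44.Fatou Pool.Agent.H32.BT Pool.Agent.H79.Eul Pool.Agent.H79.Par Pool.Agent.H79.PB
open Pool.Agent.H80.AJ (fixMult_fix iter_fixed)

/-- attracted by a sink, or by a parabolic cycle without landing -/
def Fa {d : ℕ} (v0 : E d) : Set (OnePoint ℂ) := {x | ∃ z n, Ty12 (Rf v0) x z n}

/-- the points of the plane which are not attracted -/
def JP {d : ℕ} (v0 : E d) : Set ℂ := {z | (z : OnePoint ℂ) ∉ Fa v0}

/-- infinity is not periodic -/
def NPer {d : ℕ} (v0 : E d) : Prop := ∀ n : ℕ, 0 < n → (Rf v0)^[n] OnePoint.infty ≠ OnePoint.infty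

theorem fin_of_per {d : ℕ} {v0 : E d} (hper : NPer v0) {z : OnePoint ℂ} {n : ℕ} (hn : 0 < n)
    (hz : (Rf v0)^[n] z = z) (j : ℕ) : (Rf v0)^[j] z ≠ OnePoint.infty := by
  intro hj
  apply hper n hn
  rw [← hj, ← Function.iterate_add_apply, Nat.add_comm, Function.iterate_add_apply, hz]

/-- the orbit of a parabolic point -/
theorem par_data {d : ℕ} {v0 : E d} (hper : NPer v0) {z : OnePoint ℂ} {n : ℕ} (hn : 0 < n)
    (h : FixMult (Rf v0)^[n] z 1) :
    ∃ p : ℂ, z = (p : OnePoint ℂ) ∧ (∀ m, Orb v0 (fun j => it v0 j p) m) ∧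
      (∀ j, (Rf v0)^[j] z = ((it v0 j p : ℂ) : OnePoint ℂ)) ∧ it v0 n p = p ∧ trD v0 n p = 1 := by
  have hfin := fin_of_per hper hn (fixMult_fix h)
  induction z using OnePoint.rec with
  | infty => exact absurd rfl (hfin 0)
  | coe p =>
    obtain ⟨h1, h2⟩ := orb_all hfin
    obtain ⟨h3, h4⟩ := fix_trD (x := fun j => it v0 j p) (h1 n) h
    exact ⟨p, rfl, h1, h2, h3, h4⟩

/-- the next point of a parabolic cycle -/
theorem par_next {d : ℕ} {v0 : E d} (hper : NPer v0) {z : OnePoint ℂ} {n : ℕ} (hn : 0 < n)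
    (h : FixMult (Rf v0)^[n] z 1) : FixMult (Rf v0)^[n] (Rf v0 z) 1 := by
  obtain ⟨p, rfl, ho, hj, hp, ht⟩ := par_data hper hn h
  have h1 : Rf v0 (p : OnePoint ℂ) = ((it v0 1 p : ℂ) : OnePoint ℂ) := hj 1
  rw [h1]
  have ho' : Orb v0 (fun j => it v0 j (it v0 1 p)) n := by
    intro j hjn
    have h2 := ho (j + 1 + 1) (j + 1) (by omega)
    have e : ∀ i : ℕ, it v0 i (it v0 1 p) = it v0 (i + 1) p := fun i =>
      (Pool.Agent.H79.Par.it_add v0 i 1 p).symm
    show ev v0.2 (it v0 j (it v0 1 p)) ≠ 0 ∧ ev v0.1 (it v0 j (it v0 1 p)) /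
      ev v0.2 (it v0 j (it v0 1 p)) = it v0 (j + 1) (it v0 1 p)
    rw [e, e]
    exact h2
  have hx' : it v0 n (it v0 1 p) = it v0 1 p := by
    rw [← Pool.Agent.H79.Par.it_add, Nat.add_comm, Pool.Agent.H79.Par.it_add, hp]
  have h2 := fixMult_of_orb (x := fun j => it v0 j (it v0 1 p)) ho' hx'
  have h3 : trD v0 (1 + n) p = trD v0 n (it v0 1 p) * trD v0 1 p := trD_add v0 n 1 p
  have h4 : trD v0 (n + 1) p = trD v0 1 (it v0 n p) * trD v0 n p := trD_add v0 1 n p
  rw [hp, ht, mul_one, Nat.add_comm, h3] at h4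
  have h5 : trD v0 1 p ≠ 0 := by
    obtain ⟨m, rfl⟩ : ∃ m, n = 1 + m := ⟨n - 1, by omega⟩
    intro h0
    have h6 : trD v0 (1 + m) p = trD v0 m (it v0 1 p) * trD v0 1 p := trD_add v0 m 1 p
    rw [h0, mul_zero, ht] at h6
    exact one_ne_zero h6
  have h6 : trD v0 n (it v0 1 p) = 1 := by
    have h7 : trD v0 n (it v0 1 p) * trD v0 1 p = 1 * trD v0 1 p := by rw [h4, one_mul]
    exact mul_right_cancel₀ h5 h7
  have h7 : trD v0 n ((fun j => it v0 j (it v0 1 p)) 0) = 1 := h6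
  rw [h7] at h2
  exact h2

theorem par_iter {d : ℕ} {v0 : E d} (hper : NPer v0) {z : OnePoint ℂ} {n : ℕ} (hn : 0 < n)
    (h : FixMult (Rf v0)^[n] z 1) (j : ℕ) : FixMult (Rf v0)^[n] ((Rf v0)^[j] z) 1 := by
  induction j with
  | zero => exact h
  | succ j ih =>
    rw [Function.iterate_succ_apply']
    exact par_next hper hn ih

theorem ty2_push {d : ℕ} {v0 : E d} (hcop : IsCoprime (pol v0.1) (pol v0.2)) (hper : NPer v0)
    {x z : OnePoint ℂ} {n : ℕ} (h : Ty2 (Rf v0) x z n) : Ty2 (Rf v0) (Rf v0 x) (Rf v0 z) n := by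
  obtain ⟨hn, hfix, hlim, hne⟩ := h
  have hc : Continuous (Rf v0) := rat_continuous hcop
  have e : ∀ k : ℕ, (Rf v0)^[k] (Rf v0 x) = Rf v0 ((Rf v0)^[k] x) := fun k => by
    rw [← Function.iterate_succ_apply, Function.iterate_succ_apply']
  refine ⟨hn, par_next hper hn hfix, ?_, fun k hk => ?_⟩
  · have h1 := (hc.tendsto z).comp hlim
    exact h1.congr fun k => (e (n * k)).symm
  · rw [e] at hk
    apply hne (k + 1)
    have h1 : (Rf v0)^[n] ((Rf v0)^[n * k] x) = (Rf v0)^[n] z := by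
      obtain ⟨m, rfl⟩ : ∃ m, n = m + 1 := ⟨n - 1, by omega⟩
      rw [Function.iterate_succ_apply, hk, ← Function.iterate_succ_apply]
    rw [Nat.mul_succ, Nat.add_comm, Function.iterate_add_apply, h1, fixMult_fix hfix]

theorem ty2_pull {d : ℕ} {v0 : E d} (hcop : IsCoprime (pol v0.1) (pol v0.2)) (hper : NPer v0)
    {x z : OnePoint ℂ} {n : ℕ} (h : Ty2 (Rf v0) (Rf v0 x) z n) :
    Ty2 (Rf v0) x ((Rf v0)^[n - 1] z) n := by
  obtain ⟨hn, hfix, hlim, hne⟩ := h
  have hc : Continuous (Rf v0) := rat_continuous hcop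
  obtain ⟨m, rfl⟩ : ∃ m, n = m + 1 := ⟨n - 1, by omega⟩
  rw [Nat.add_sub_cancel]
  refine ⟨hn, par_iter hper hn hfix m, ?_, fun k hk => ?_⟩
  · have h1 := ((hc.iterate m).tendsto z).comp hlim
    rw [← tendsto_add_atTop_iff_nat 1]
    refine h1.congr fun k => ?_
    simp only [Function.comp_apply]
    rw [← Function.iterate_succ_apply, ← Function.iterate_add_apply]
    congr 1
    rw [Nat.succ_eq_add_one]
    ring
  · apply hne k
    rw [← Function.iterate_succ_apply, Function.iterate_succ_apply', hk,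
      ← Function.iterate_succ_apply' (Rf v0), fixMult_fix hfix]

theorem fa_map {d : ℕ} {v0 : E d} (hcop : IsCoprime (pol v0.1) (pol v0.2)) (hper : NPer v0)
    (x : OnePoint ℂ) : Rf v0 x ∈ Fa v0 ↔ x ∈ Fa v0 := by
  have hc : Continuous (Rf v0) := rat_continuous hcop
  constructor
  · rintro ⟨z, n, h | h⟩
    · obtain ⟨z', n', h1, h2⟩ := (att_map hc x).1 ⟨z, n, h⟩
      exact ⟨z', n', Or.inl ⟨h1, h2⟩⟩
    · exact ⟨_, n, Or.inr (ty2_pull hcop hper h)⟩
  · rintro ⟨z, n, h | h⟩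
    · obtain ⟨z', n', h1, h2⟩ := (att_map hc x).2 ⟨z, n, h⟩
      exact ⟨z', n', Or.inl ⟨h1, h2⟩⟩
    · exact ⟨_, n, Or.inr (ty2_push hcop hper h)⟩

theorem fa_iter {d : ℕ} {v0 : E d} (hcop : IsCoprime (pol v0.1) (pol v0.2)) (hper : NPer v0)
    (n : ℕ) (x : OnePoint ℂ) : (Rf v0)^[n] x ∈ Fa v0 ↔ x ∈ Fa v0 := by
  induction n with
  | zero => rfl
  | succ n ih => rw [Function.iterate_succ_apply', fa_map hcop hper, ih]

theorem fa_of_basin {d : ℕ} {v0 : E d} {z : ℂ} (h : Basin v0 z) : (z : OnePoint ℂ) ∈ Fa v0 := by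
  obtain ⟨z', n, h, -⟩ := h
  exact ⟨_, n, h⟩

/-- a convergent orbit ends in the attracting directions -/
theorem ty2_dir {d : ℕ} {v0 : E d} {p a : ℂ} {q n : ℕ} (hP : ParPt v0 n p a q)
    {x : OnePoint ℂ} (h : Ty2 (Rf v0) x (p : OnePoint ℂ) n) :
    ∃ (J : ℕ) (u : ℕ → ℂ), (∀ j, (Rf v0)^[n * (J + j)] x = ((p + u j : ℂ) : OnePoint ℂ)) ∧
      (∀ j, u j ≠ 0) ∧ Tendsto u atTop (𝓝 0) ∧ ∀ᶠ j in atTop, (a * u j ^ q).re < 0 := by
  obtain ⟨hn, hq, ha, x', k, rfl, ho, hx, hmul, hnf⟩ := hP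
  obtain ⟨-, -, hlim, hne⟩ := h
  have h1 : ∀ᶠ k in atTop, (Rf v0)^[n * k] x ≠ OnePoint.infty :=
    hlim.eventually_ne (OnePoint.coe_ne_infty _)
  obtain ⟨J0, hJ0⟩ := eventually_atTop.1 h1
  have h2 : ∀ j : ℕ, ∃ y : ℂ, (Rf v0)^[n * (J0 + j)] x = (y : OnePoint ℂ) := by
    intro j
    obtain ⟨y, hy⟩ := OnePoint.ne_infty_iff_exists.1 (hJ0 (J0 + j) (by omega))
    exact ⟨y, hy.symm⟩
  choose y hy using h2
  have hylim : Tendsto y atTop (𝓝 (x' 0)) := by
    rw [OnePoint.isOpenEmbedding_coe.tendsto_nhds_iff]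
    have h3 : Tendsto (fun j : ℕ => J0 + j) atTop atTop :=
      tendsto_atTop_mono (fun j => Nat.le_add_left j J0) tendsto_id
    exact (hlim.comp h3).congr fun j => hy j
  have hulim : Tendsto (fun j => y j - x' 0) atTop (𝓝 0) := by
    have h3 := hylim.sub_const (x' 0)
    rwa [sub_self] at h3
  have hune : ∀ j, y j - x' 0 ≠ 0 := by
    intro j h0
    apply hne (J0 + j)
    rw [hy j, sub_eq_zero.1 h0]
  have hrec : ∀ᶠ j in atTop, (fun j => y j - x' 0) (j + 1) =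
      (fun u => it v0 n (x' 0 + u) - x' 0) ((fun j => y j - x' 0) j) := by
    filter_upwards [hylim.eventually (orb_shift ho)] with j hj
    have h4 : (Rf v0)^[n] ((y j : ℂ) : OnePoint ℂ) = ((it v0 n (y j) : ℂ) : OnePoint ℂ) :=
      rat_it fun i hi => (hj i hi).1
    have h5 : (Rf v0)^[n * (J0 + (j + 1))] x = (Rf v0)^[n] ((y j : ℂ) : OnePoint ℂ) := by
      rw [← hy j, ← Function.iterate_add_apply]
      congr 1
      ring
    rw [h4, hy (j + 1)] at h5
    have h6 := OnePoint.coe_injective h5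
    show y (j + 1) - x' 0 = it v0 n (x' 0 + (y j - x' 0)) - x' 0
    rw [add_sub_cancel, h6]
  have hre := basin_re hq ha hnf hrec hulim hune
  refine ⟨J0, fun j => y j - x' 0, fun j => ?_, hune, hulim, ?_⟩
  · rw [hy j, add_sub_cancel]
  · filter_upwards [hre.eventually (eventually_gt_atTop 0)] with j hj
    have hZ : a * (y j - x' 0) ^ q ≠ 0 := mul_ne_zero ha (pow_ne_zero q (hune j))
    by_contra hcon
    rw [not_lt] at hcon
    have hqr : (0 : ℝ) < q := by exact_mod_cast (by omega : 0 < q)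
    have hn2 : 0 < Complex.normSq (a * (y j - x' 0) ^ q) := Complex.normSq_pos.2 hZ
    have h7 : (-(1 / (q * a * (y j - x' 0) ^ q))).re =
        -((a * (y j - x' 0) ^ q).re / (q * Complex.normSq (a * (y j - x' 0) ^ q))) := by
      have e : (1 : ℂ) / (q * a * (y j - x' 0) ^ q) =
          ((1 / q : ℝ) : ℂ) * (a * (y j - x' 0) ^ q)⁻¹ := by
        push_cast
        rw [mul_assoc, one_div, mul_inv, one_div]
      rw [Complex.neg_re, e, Complex.re_ofReal_mul, Complex.inv_re]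
      field_simp
    rw [h7] at hj
    have h8 : 0 ≤ (a * (y j - x' 0) ^ q).re / (q * Complex.normSq (a * (y j - x' 0) ^ q)) :=
      div_nonneg hcon (by positivity)
    linarith

/-- every parabolic point has the data `ParPt` -/
theorem par_pt {d : ℕ} (hd : 2 ≤ d) {v0 : E d} (hcop : IsCoprime (pol v0.1) (pol v0.2))
    (hdeg : max (pol v0.1).natDegree (pol v0.2).natDegree = d) (hper : NPer v0)
    {z : OnePoint ℂ} {n : ℕ} (hn : 0 < n) (h : FixMult (Rf v0)^[n] z 1) :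
    ∃ (p a : ℂ) (q : ℕ), z = (p : OnePoint ℂ) ∧ ParPt v0 n p a q := by
  obtain ⟨p, rfl, ho, -, hp, ht⟩ := par_data hper hn h
  obtain ⟨q, a, k, h1, h2, h3⟩ := exists_nf hd hcop hdeg (x := fun j => it v0 j p) hn (ho n) hp ht
  exact ⟨p, a, q, rfl, hn, h1, h2, fun j => it v0 j p, k, rfl, ho n, hp, ht, h3⟩

theorem fa_open {d : ℕ} (hd : 2 ≤ d) {v0 : E d} (hcop : IsCoprime (pol v0.1) (pol v0.2))
    (hdeg : max (pol v0.1).natDegree (pol v0.2).natDegree = d) (hper : NPer v0) :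
    IsOpen (Fa v0) := by
  have hc : Continuous (Rf v0) := rat_continuous hcop
  rw [isOpen_iff_mem_nhds]
  rintro x ⟨z, n, h | h⟩
  · filter_upwards [Pool.Agent.H80.AJ.ty1_open hc h] with y hy
    exact ⟨z, n, Or.inl ⟨h.1, hy.2.2⟩⟩
  · obtain ⟨p, a, q, rfl, hP⟩ := par_pt hd hcop hdeg hper h.1 h.2.1
    obtain ⟨r, hr, hb⟩ := basin_near_par hP (ε := 1) one_pos
    obtain ⟨J, u, h1, h2, h3, h4⟩ := ty2_dir hP h
    obtain ⟨j, h5, h6⟩ := (h4.and (h3.eventually (ball_mem_nhds (0 : ℂ) hr))).exists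
    rw [dist_zero_right] at h6
    have hO : IsOpen {y : ℂ | y - p ≠ 0 ∧ ‖y - p‖ < r ∧ (a * (y - p) ^ q).re < 0} := by
      have c1 : Continuous (fun y : ℂ => y - p) := by fun_prop
      have c2 : Continuous (fun y : ℂ => ‖y - p‖) := c1.norm
      have c3 : Continuous (fun y : ℂ => (a * (y - p) ^ q).re) :=
        Complex.continuous_re.comp (by fun_prop)
      exact (isOpen_ne_fun c1 continuous_const).inter
        ((isOpen_lt c2 continuous_const).inter (isOpen_lt c3 continuous_const))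
    have hO' := OnePoint.isOpenEmbedding_coe.isOpenMap _ hO
    have hmem : (Rf v0)^[n * (J + j)] x ∈
        ((↑) : ℂ → OnePoint ℂ) '' {y : ℂ | y - p ≠ 0 ∧ ‖y - p‖ < r ∧ (a * (y - p) ^ q).re < 0} := by
      refine ⟨p + u j, ⟨?_, ?_, ?_⟩, (h1 j).symm⟩
      · rw [add_sub_cancel_left]; exact h2 j
      · rw [add_sub_cancel_left]; exact h6
      · rw [add_sub_cancel_left]; exact h5
    filter_upwards [(hO'.preimage (hc.iterate (n * (J + j)))).mem_nhds hmem] with y hy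
    obtain ⟨y', ⟨h7, h8, h9⟩, h10⟩ := hy
    rw [← fa_iter hcop hper (n * (J + j)), ← h10]
    have h11 := hb (y' - p) h7 h8 (by rw [sub_self, zero_mul]; exact h9.le)
    rw [add_sub_cancel] at h11
    exact fa_of_basin h11

theorem jp_cpt {d : ℕ} (hd : 2 ≤ d) {v0 : E d} (hcop : IsCoprime (pol v0.1) (pol v0.2))
    (hdeg : max (pol v0.1).natDegree (pol v0.2).natDegree = d) (hper : NPer v0)
    (hinf : OnePoint.infty ∈ Fa v0) : IsCompact (JP v0) :=
  ((OnePoint.isOpen_iff_of_mem hinf).1 (fa_open hd hcop hdeg hper)).2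

theorem jp_step {d : ℕ} {v0 : E d} (hcop : IsCoprime (pol v0.1) (pol v0.2)) (hper : NPer v0)
    (hinf : OnePoint.infty ∈ Fa v0) {z : ℂ} (hz : z ∈ JP v0) :
    ev v0.2 z ≠ 0 ∧ Rf v0 (z : OnePoint ℂ) = (it v0 1 z : OnePoint ℂ) ∧ it v0 1 z ∈ JP v0 := by
  have h0 : ev v0.2 z ≠ 0 := by
    intro h0
    apply hz
    rw [← fa_map hcop hper]
    have h1 : Rf v0 (z : OnePoint ℂ) = OnePoint.infty := by
      show rat (pol v0.1) (pol v0.2) (z : OnePoint ℂ) = OnePoint.infty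
      rw [rat_coe, pol_eval, pol_eval]
      unfold pt
      rw [if_pos h0]
    rw [h1]
    exact hinf
  have h2 : Rf v0 (z : OnePoint ℂ) = (it v0 1 z : OnePoint ℂ) := by
    show rat (pol v0.1) (pol v0.2) (z : OnePoint ℂ) = _
    rw [rat_coe_of_ne (by rw [pol_eval]; exact h0), pol_eval, pol_eval]
    rfl
  refine ⟨h0, h2, ?_⟩
  show (it v0 1 z : OnePoint ℂ) ∉ Fa v0
  rw [← h2, fa_map hcop hper]
  exact hz

theorem jp_fin {d : ℕ} {v0 : E d} (hcop : IsCoprime (pol v0.1) (pol v0.2)) (hper : NPer v0)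
    (hinf : OnePoint.infty ∈ Fa v0) {z : ℂ} (hz : z ∈ JP v0) (j : ℕ) :
    (Rf v0)^[j] (z : OnePoint ℂ) ≠ OnePoint.infty := by
  intro h
  apply hz
  rw [← fa_iter hcop hper j, h]
  exact hinf

/-- the parabolic points are in `JP` -/
theorem par_jp {d : ℕ} (hd : 2 ≤ d) {v0 : E d} (hcop : IsCoprime (pol v0.1) (pol v0.2))
    (hdeg : max (pol v0.1).natDegree (pol v0.2).natDegree = d) (hper : NPer v0)
    {p : ℂ} {n : ℕ} (hn : 0 < n) (h : FixMult (Rf v0)^[n] (p : OnePoint ℂ) 1) : p ∈ JP v0 := by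
  obtain ⟨p', hpp, ho, hj, hp, ht⟩ := par_data hper hn h
  have e := OnePoint.coe_injective hpp
  subst e
  have hfix : (Rf v0)^[n] (p : OnePoint ℂ) = (p : OnePoint ℂ) := fixMult_fix h
  have hlim : ∀ (z : OnePoint ℂ) (m : ℕ),
      Tendsto (fun k : ℕ => (Rf v0)^[m * k] (p : OnePoint ℂ)) atTop (𝓝 z) →
      z = (p : OnePoint ℂ) := by
    intro z m h1
    have h2 : Tendsto (fun k : ℕ => n * k) atTop atTop :=
      tendsto_atTop_mono (fun k => Nat.le_mul_of_pos_left k hn) tendsto_id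
    have h3 := h1.comp h2
    have h4 : ((fun k : ℕ => (Rf v0)^[m * k] (p : OnePoint ℂ)) ∘ fun k : ℕ => n * k) =
        fun _ => (p : OnePoint ℂ) := by
      funext k
      simp only [Function.comp_apply]
      rw [show m * (n * k) = n * (m * k) by ring]
      exact iter_fixed hfix _
    rw [h4] at h3
    exact tendsto_nhds_unique h3 tendsto_const_nhds
  rintro ⟨z, m, h1 | h1⟩
  · have hz := hlim z m h1.2
    subst hz
    have hm := h1.1.1
    obtain ⟨x, hx0, -, hQ, hstep, hxm, hmul⟩ := sink_mult_fin (P := pol v0.1) (Q := pol v0.2) hcop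
      (by rw [hdeg]; exact hd) h1.1 (fin_of_per hper hn hfix)
    have hv0 : v0 = ((cf d (pol v0.1), cf d (pol v0.2)) : E d) := by
      rw [cf_pol, cf_pol]
    have hwv : ∀ u : ℂ, wv v0 u = (Wr (pol v0.1) (pol v0.2)).eval u := by
      intro u
      rw [← wv_cf (pol_deg v0.1) (pol_deg v0.2), ← hv0]
    have hox : Orb v0 x m := by
      intro j _
      rw [← pol_eval, ← pol_eval]
      exact ⟨hQ j, hstep j⟩
    have h2 : trD v0 m (x 0) = ∏ j ∈ Finset.range m, (Wr (pol v0.1) (pol v0.2)).eval (x j) /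
        ((pol v0.2).eval (x j)) ^ 2 := by
      unfold trD
      refine Finset.prod_congr rfl fun j hj => ?_
      rw [orb_it hox j (Finset.mem_range.mp hj).le, hwv, pol_eval]
    have h3 : ‖trD v0 m (x 0)‖ < 1 := by rw [h2]; exact hmul
    have h4 : trD v0 (m * n) (x 0) = trD v0 m (x 0) ^ n := trD_mul hox hxm
    have h5 : trD v0 (n * m) p = trD v0 n p ^ m :=
      trD_mul (x := fun j => it v0 j p) (ho n) hp
    rw [ht, one_pow] at h5
    rw [hx0, mul_comm, h5] at h4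
    have h6 : ‖trD v0 m p ^ n‖ < 1 := by
      rw [norm_pow]
      rw [hx0] at h3
      exact pow_lt_one₀ (norm_nonneg _) h3 (by omega)
    rw [← h4, norm_one] at h6
    exact lt_irrefl _ h6
  · have hz := hlim z m h1.2.2.1
    exact h1.2.2.2 0 (by rw [Nat.mul_zero, Function.iterate_zero, id, hz])

end Pool.Agent.H79.PJ
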