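import Pool.Agent.H79.PJ.PDefs
import Pool.Agent.H44.DN.ITG

/-!
# The terminal time (port of TAU, H44/DN)
-/

set_option autoImplicit false

open Filter Topology Metric Set

namespace Pool.Agent.H79.PJ

open Pool.Agent.H44.DN (itg_diff itg_ne itg_succ itg_add)

theorem orb (X : W0) {z : ℂ} (hz : z ∈ X.J) (n : ℕ) : X.f^[n] z ∈ X.J ∧ X.f^[n] z ∈ X.G := by
  have hJG : X.J ⊆ X.G := (self_subset_cthickening _).trans X.hU
  have h1 : X.f^[n] z ∈ X.J := by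
    induction n with
    | zero => exact hz
    | succ n ih =>
      rw [Function.iterate_succ_apply']
      exact X.hJf _ ih
  exact ⟨h1, hJG h1⟩

theorem orb_cr (X : W0) {z : ℂ} (hz : z ∈ X.J) (n : ℕ) :
    deriv (X.f^[n]) z ≠ 0 ↔ ∀ i < n, X.f^[i] z ∉ X.Cr := by
  rw [itg_ne X.hG X.hf (fun i _ => (orb X hz i).2)]
  refine forall₂_congr fun i _ => ?_
  rw [Ne, X.hcr _ (self_subset_cthickening _ (orb X hz i).1)]

/-- the parabolic points are fixed -/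
theorem pa_fix (X : W0) {p : ℂ} (hp : p ∈ X.Pa) (n : ℕ) : X.f^[n] p = p :=
  Function.iterate_fixed (X.hpf p hp) n

/-- landing points -/
theorem tau_l (X : W0) {c : ℂ} (hl : ∃ n, X.f^[n] c ∈ X.Pa) :
    X.f^[X.tau c] c ∈ X.Pa ∧ (∀ j < X.tau c, X.f^[j] c ∉ X.Pa) ∧
      (∀ j, X.tau c ≤ j → X.f^[j] c = X.f^[X.tau c] c) ∧ ∀ n, X.f^[n] c ∈ X.Pa → X.tau c ≤ n := by
  have e : X.tau c = sInf {n : ℕ | X.f^[n] c ∈ X.Pa} := by
    unfold W0.tau
    rw [if_pos hl]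
  have h1 : X.f^[X.tau c] c ∈ X.Pa := by
    rw [e]
    exact Nat.sInf_mem (s := {n : ℕ | X.f^[n] c ∈ X.Pa}) hl
  have h2 : ∀ n, X.f^[n] c ∈ X.Pa → X.tau c ≤ n := fun n hn => by
    rw [e]
    exact Nat.sInf_le hn
  refine ⟨h1, fun j hj hn => ?_, fun j hj => ?_, h2⟩
  · have := h2 j hn
    omega
  · obtain ⟨i, rfl⟩ := Nat.exists_eq_add_of_le hj
    rw [Nat.add_comm, Function.iterate_add_apply, pa_fix X h1]

theorem tau_e (X : W0) {c : ℂ} (hc : c ∈ X.Cr) (hl : ∀ n, X.f^[n] c ∉ X.Pa) :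
    1 ≤ X.tau c ∧ (∀ j, X.tau c ≤ j → X.f^[j] c ∉ X.Cr) ∧
      ∀ n, 1 ≤ n → (∀ j, n ≤ j → X.f^[j] c ∉ X.Cr) → X.tau c ≤ n := by
  have hnl : ¬ ∃ n, X.f^[n] c ∈ X.Pa := fun ⟨n, hn⟩ => hl n hn
  have e : X.tau c = sInf {n : ℕ | 1 ≤ n ∧ ∀ j, n ≤ j → X.f^[j] c ∉ X.Cr} := by
    unfold W0.tau
    rw [if_neg hnl]
  have hne : {n : ℕ | 1 ≤ n ∧ ∀ j, n ≤ j → X.f^[j] c ∉ X.Cr}.Nonempty := by
    obtain ⟨m, C, q, hq, hce⟩ := X.ce c hc hl
    refine ⟨max m 1, le_max_right _ _, fun j hj => ?_⟩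
    obtain ⟨i, rfl⟩ := Nat.exists_eq_add_of_le ((le_max_left m 1).trans hj)
    have h1 : X.f^[m] c ∈ X.J := (orb X (X.hCr c hc) m).1
    have h2 : deriv (X.f^[i + 1]) (X.f^[m] c) ≠ 0 := by
      intro h0
      have h3 := hce (i + 1)
      rw [h0, norm_zero, mul_zero] at h3
      have h4 : 0 < q ^ (i + 1) := pow_pos (by linarith) _
      linarith
    have h5 := (orb_cr X h1 (i + 1)).1 h2 i (Nat.lt_succ_self i)
    rwa [← Function.iterate_add_apply, add_comm] at h5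
  have h1 := Nat.sInf_mem hne
  rw [← e] at h1
  refine ⟨h1.1, h1.2, fun n hn hn' => ?_⟩
  rw [e]
  exact Nat.sInf_le ⟨hn, hn'⟩

theorem tau_spec (X : W0) {c : ℂ} (hc : c ∈ X.Cr) :
    1 ≤ X.tau c ∧ ∀ j, X.tau c ≤ j → X.f^[j] c ∉ X.Cr := by
  by_cases hl : ∃ n, X.f^[n] c ∈ X.Pa
  · obtain ⟨h1, h2, h3, -⟩ := tau_l X hl
    constructor
    · by_contra h0
      have h4 : X.tau c = 0 := by omega
      rw [h4] at h1
      exact X.hcp c hc h1
    · intro j hj hcr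
      rw [h3 j hj] at hcr
      exact X.hcp _ hcr h1
  · have hl' : ∀ n, X.f^[n] c ∉ X.Pa := fun n hn => hl ⟨n, hn⟩
    obtain ⟨h1, h2, -⟩ := tau_e X hc hl'
    exact ⟨h1, h2⟩

theorem tau_pa (X : W0) {p : ℂ} (hp : p ∈ X.Pa) : X.tau p = 0 := by
  obtain ⟨-, -, -, h⟩ := tau_l X (c := p) ⟨0, hp⟩
  have := h 0 hp
  omega

theorem MM_pa (X : W0) {p : ℂ} (hp : p ∈ X.Pa) : X.MM p = 1 := by
  unfold W0.MM
  rw [tau_pa X hp]
  unfold W0.Mi
  rw [Finset.prod_range_zero]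

theorem tau_rel (X : W0) {c : ℂ} (hc : c ∈ X.Cr) {i : ℕ} (h : X.f^[i + 1] c ∈ X.Cr) :
    X.tau c = i + 1 + X.tau (X.f^[i + 1] c) := by
  have e : ∀ j, X.f^[j] (X.f^[i + 1] c) = X.f^[i + 1 + j] c := fun j => by
    rw [← Function.iterate_add_apply, add_comm]
  have h5 : i + 1 < X.tau c := by
    by_contra hcon
    exact (tau_spec X hc).2 (i + 1) (not_lt.1 hcon) h
  by_cases hl : ∃ n, X.f^[n] c ∈ X.Pa
  · obtain ⟨h1, h2, h3, h4⟩ := tau_l X hl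
    obtain ⟨k, hk⟩ := Nat.exists_eq_add_of_le h5.le
    have hl' : ∃ n, X.f^[n] (X.f^[i + 1] c) ∈ X.Pa := by
      refine ⟨k, ?_⟩
      rw [e k, ← hk]
      exact h1
    obtain ⟨h1', h2', h3', h4'⟩ := tau_l X hl'
    have h6 : X.tau (X.f^[i + 1] c) ≤ k := h4' k (by rw [e k, ← hk]; exact h1)
    have h7 : X.tau c ≤ i + 1 + X.tau (X.f^[i + 1] c) := h4 _ (by rw [← e]; exact h1')
    omega
  · have hl' : ∀ n, X.f^[n] c ∉ X.Pa := fun n hn => hl ⟨n, hn⟩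
    have hl'' : ∀ n, X.f^[n] (X.f^[i + 1] c) ∉ X.Pa := fun n => by
      rw [e n]
      exact hl' _
    obtain ⟨h1, h2, h3⟩ := tau_e X hc hl'
    obtain ⟨h1', h2', h3'⟩ := tau_e X h hl''
    refine le_antisymm ?_ ?_
    · refine h3 _ (by omega) fun j hj => ?_
      obtain ⟨k, rfl⟩ := Nat.exists_eq_add_of_le (show i + 1 ≤ j by omega)
      rw [← e k]
      exact h2' k (by omega)
    · obtain ⟨n, hn⟩ := Nat.exists_eq_add_of_le h5.le
      have h6 : X.tau (X.f^[i + 1] c) ≤ n := by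
        refine h3' n (by omega) fun j hj => ?_
        rw [e j]
        exact h2 _ (by omega)
      omega

theorem MM_rel (X : W0) {c : ℂ} (hc : c ∈ X.Cr) {i : ℕ}
    (hfree : ∀ j, 1 ≤ j → j ≤ i → X.f^[j] c ∉ X.Cr) (h : X.f^[i + 1] c ∈ X.Cr) :
    X.MM c = X.mm c * X.MM (X.f^[i + 1] c) := by
  classical
  have e : ∀ j, X.f^[j] (X.f^[i + 1] c) = X.f^[i + 1 + j] c := fun j => by
    rw [← Function.iterate_add_apply, add_comm]
  unfold W0.MM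
  rw [tau_rel X hc h]
  unfold W0.Mi
  rw [Finset.prod_range_add, Finset.prod_range_succ']
  have h1 : ∏ j ∈ Finset.range i,
      (if X.f^[j + 1] c ∈ X.Cr then X.mm (X.f^[j + 1] c) else 1) = 1 := by
    refine Finset.prod_eq_one fun j hj => ?_
    rw [Finset.mem_range] at hj
    rw [if_neg (hfree (j + 1) (by omega) (by omega))]
  rw [h1, one_mul, Function.iterate_zero, id_eq, if_pos hc]
  congr 1
  refine Finset.prod_congr rfl fun j _ => ?_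
  rw [e j]

theorem mm_le_MM (X : W0) (h1 : ∀ c ∈ X.Cr, 1 ≤ X.mm c) {c : ℂ} (hc : c ∈ X.Cr) :
    X.mm c ≤ X.MM c := by
  classical
  obtain ⟨h2, h3⟩ := tau_spec X hc
  obtain ⟨n, hn⟩ := Nat.exists_eq_add_of_le' h2
  unfold W0.MM
  rw [hn]
  unfold W0.Mi
  rw [Finset.prod_range_succ', Function.iterate_zero, id_eq, if_pos hc]
  refine Nat.le_mul_of_pos_left _ ?_
  refine Finset.prod_pos fun j _ => ?_
  split_ifs with h
  · exact h1 _ h
  · exact one_pos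

end Pool.Agent.H79.PJ
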