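import Pool.Agent.H79.PJ.Loc1
import Pool.Agent.H79.PJ.TauW

/-!
# The Collet-Eckmann condition at the terminal value (port of CE1, H44/DN)
-/

set_option autoImplicit false

open Filter Topology Metric Set

namespace Pool.Agent.H79.PJ

open Pool.Agent.H44.DN (itg_diff itg_ne itg_succ itg_add)

private theorem ce1_fin (a : ℕ → ℝ) (P : ℕ → Prop) (ha0 : ∀ n, 0 ≤ a n) (ha : ∀ n, P n → 0 < a n)
    {q C : ℝ} (hq : 1 < q) (l : ℕ) (h : ∀ n, l ≤ n → P n → q ^ n ≤ C * a n) :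
    ∃ C' : ℝ, 1 ≤ C' ∧ ∀ n, P n → q ^ n ≤ C' * a n := by
  have hS : ∀ n, 0 ≤ q ^ n / a n := fun n => div_nonneg (by positivity) (ha0 n)
  have hS0 : 0 ≤ ∑ n ∈ Finset.range l, q ^ n / a n := Finset.sum_nonneg fun n _ => hS n
  refine ⟨max 1 C + ∑ n ∈ Finset.range l, q ^ n / a n, ?_, fun n hn => ?_⟩
  · linarith [le_max_left (1 : ℝ) C]
  · have hp := ha n hn
    rcases le_or_gt l n with h1 | h1
    · refine (h n h1 hn).trans (mul_le_mul_of_nonneg_right ?_ hp.le)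
      linarith [le_max_right (1 : ℝ) C]
    · have h2 : q ^ n / a n ≤ ∑ n ∈ Finset.range l, q ^ n / a n :=
        Finset.single_le_sum (f := fun n => q ^ n / a n) (fun n _ => hS n)
          (Finset.mem_range.2 h1)
      calc q ^ n = (q ^ n / a n) * a n := by field_simp
        _ ≤ _ := mul_le_mul_of_nonneg_right (by linarith [le_max_left (1 : ℝ) C]) hp.le

private theorem ce1_one (X : W0) {c : ℂ} (hc : c ∈ X.Cr) (hl : ∀ n, X.f^[n] c ∉ X.Pa) : ∃ C q : ℝ, 1 ≤ C ∧ 1 < q ∧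
    (∀ n : ℕ, q ^ n ≤ C * ‖deriv (X.f^[n]) (X.f^[X.tau c] c)‖) ∧
    ∀ i : ℕ, (∀ j, 1 ≤ j → j ≤ i → X.f^[j] c ∉ X.Cr) →
      q ^ i ≤ C * ‖deriv (X.f^[i]) (X.f c)‖ := by
  obtain ⟨m, C, q, hq, hce⟩ := X.ce c hc hl
  have hq0 : 0 < q := by linarith
  have hcJ := X.hCr c hc
  obtain ⟨hτ1, hτ2⟩ := tau_spec X hc
  set τ := X.tau c with hτ
  set v := X.f^[τ] c with hv
  have hvJ : v ∈ X.J := (orb X hcJ τ).1
  have hC0 : 0 < C := by
    have h0 := hce 0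
    rw [pow_zero] at h0
    by_contra hneg
    have := mul_nonpos_of_nonpos_of_nonneg (not_lt.1 hneg)
      (norm_nonneg (deriv (X.f^[0]) (X.f^[m] c)))
    linarith
  have hG : ∀ z ∈ X.J, ∀ n, ∀ i < n, X.f^[i] z ∈ X.G := fun z hz n i _ => (orb X hz i).2
  have ha : ∀ n, 0 < ‖deriv (X.f^[n]) v‖ := fun n => by
    rw [norm_pos_iff, orb_cr X hvJ]
    intro i _
    rw [hv, ← Function.iterate_add_apply]
    exact hτ2 _ (by omega)
  have h1 : ∃ C1 : ℝ, 1 ≤ C1 ∧ ∀ n : ℕ, True → q ^ n ≤ C1 * ‖deriv (X.f^[n]) v‖ := by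
    rcases le_or_gt m τ with hm | hm
    · refine ce1_fin (fun n => ‖deriv (X.f^[n]) v‖) (fun _ => True) (fun n => norm_nonneg _)
        (fun n _ => ha n) (C := C * ‖deriv (X.f^[τ - m]) (X.f^[m] c)‖) hq 0 (fun n _ _ => ?_)
      have hmJ := (orb X hcJ m).1
      have e := itg_add X.hG X.hf (a := τ - m) (b := n) (hG _ hmJ _)
      rw [← Function.iterate_add_apply, Nat.sub_add_cancel hm, ← hv] at e
      have h2 := hce (τ - m + n)
      rw [e, norm_mul] at h2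
      have h3 : q ^ n ≤ q ^ (τ - m + n) := pow_le_pow_right₀ hq.le (by omega)
      calc q ^ n ≤ q ^ (τ - m + n) := h3
        _ ≤ _ := h2
        _ = _ := by ring
    · refine ce1_fin (fun n => ‖deriv (X.f^[n]) v‖) (fun _ => True) (fun n => norm_nonneg _)
        (fun n _ => ha n) (C := q ^ (m - τ) * C / ‖deriv (X.f^[m - τ]) v‖) hq (m - τ)
        (fun n hn _ => ?_)
      obtain ⟨p, rfl⟩ := Nat.exists_eq_add_of_le hn
      have e := itg_add X.hG X.hf (a := m - τ) (b := p) (hG _ hvJ _)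
      have e2 : X.f^[m - τ] v = X.f^[m] c := by
        rw [hv, ← Function.iterate_add_apply, Nat.sub_add_cancel hm.le]
      rw [e2] at e
      have hl := ha (m - τ)
      have h2 := hce p
      rw [e, norm_mul, pow_add]
      calc q ^ (m - τ) * q ^ p
          ≤ q ^ (m - τ) * (C * ‖deriv (X.f^[p]) (X.f^[m] c)‖) :=
            mul_le_mul_of_nonneg_left h2 (by positivity)
        _ = _ := by field_simp
  obtain ⟨C1, hC11, hb1⟩ := h1
  have hfcJ : X.f c ∈ X.J := X.hJf c hcJ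
  have h3 : ∃ C3 : ℝ, 1 ≤ C3 ∧ ∀ i : ℕ, (∀ j, 1 ≤ j → j ≤ i → X.f^[j] c ∉ X.Cr) →
      q ^ i ≤ C3 * ‖deriv (X.f^[i]) (X.f c)‖ := by
    have hpos : ∀ i : ℕ, (∀ j, 1 ≤ j → j ≤ i → X.f^[j] c ∉ X.Cr) →
        0 < ‖deriv (X.f^[i]) (X.f c)‖ := by
      intro i hi
      rw [norm_pos_iff, orb_cr X hfcJ]
      intro j hj
      rw [← Function.iterate_succ_apply]
      exact hi (j + 1) (by omega) (by omega)
    refine ce1_fin (fun i => ‖deriv (X.f^[i]) (X.f c)‖)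
      (fun i => ∀ j, 1 ≤ j → j ≤ i → X.f^[j] c ∉ X.Cr) (fun n => norm_nonneg _) hpos
      (C := q ^ (τ - 1) * C1 / ‖deriv (X.f^[τ - 1]) (X.f c)‖) hq (τ - 1) (fun i hi hfree => ?_)
    obtain ⟨n, rfl⟩ := Nat.exists_eq_add_of_le hi
    have e := itg_add X.hG X.hf (a := τ - 1) (b := n) (hG _ hfcJ _)
    have e2 : X.f^[τ - 1] (X.f c) = v := by
      rw [hv, ← Function.iterate_succ_apply]
      congr 2
      omega
    rw [e2] at e
    have hl := hpos (τ - 1) (fun j h1 h2 => hfree j h1 (by omega))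
    have h2 := hb1 n trivial
    rw [e, norm_mul, pow_add]
    calc q ^ (τ - 1) * q ^ n
        ≤ q ^ (τ - 1) * (C1 * ‖deriv (X.f^[n]) v‖) :=
          mul_le_mul_of_nonneg_left h2 (by positivity)
      _ = _ := by field_simp
  obtain ⟨C3, hC31, hb3⟩ := h3
  refine ⟨max C1 C3, q, hC11.trans (le_max_left _ _), hq, fun n => ?_, fun i hi => ?_⟩
  · exact (hb1 n trivial).trans
      (mul_le_mul_of_nonneg_right (le_max_left _ _) (norm_nonneg _))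
  · exact (hb3 i hi).trans
      (mul_le_mul_of_nonneg_right (le_max_right _ _) (norm_nonneg _))

/-- a landing point: finitely many times -/
private theorem ce1_land (X : W0) {c : ℂ} (hc : c ∈ X.Cr) (hl : ∃ n, X.f^[n] c ∈ X.Pa) :
    ∃ C : ℝ, 1 ≤ C ∧ ∀ i : ℕ, ((∀ j, 1 ≤ j → j ≤ i → X.f^[j] c ∉ X.Cr) ∧
      X.f^[i + 1] c ∉ X.Pa) → (2 : ℝ) ^ i ≤ C * ‖deriv (X.f^[i]) (X.f c)‖ := by
  have hfcJ : X.f c ∈ X.J := X.hJf c (X.hCr c hc)
  refine ce1_fin (fun i => ‖deriv (X.f^[i]) (X.f c)‖)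
    (fun i => (∀ j, 1 ≤ j → j ≤ i → X.f^[j] c ∉ X.Cr) ∧ X.f^[i + 1] c ∉ X.Pa)
    (fun n => norm_nonneg _) ?_ (C := 1) (by norm_num) (X.tau c) ?_
  · rintro i ⟨hi, -⟩
    rw [norm_pos_iff, orb_cr X hfcJ]
    intro j hj
    rw [← Function.iterate_succ_apply]
    exact hi (j + 1) (by omega) (by omega)
  · rintro i hi ⟨-, h⟩
    exfalso
    obtain ⟨h1, -, h3, -⟩ := tau_l X hl
    apply h
    rw [h3 (i + 1) (by omega)]
    exact h1

theorem ce_term (X : W0) : ∃ C q : ℝ, 1 ≤ C ∧ 1 < q ∧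
    (∀ c ∈ X.Cr, (∀ n, X.f^[n] c ∉ X.Pa) → ∀ n : ℕ,
      q ^ n ≤ C * ‖deriv (X.f^[n]) (X.f^[X.tau c] c)‖) ∧
    ∀ c ∈ X.Cr, ∀ i : ℕ, (∀ j, 1 ≤ j → j ≤ i → X.f^[j] c ∉ X.Cr) → X.f^[i + 1] c ∉ X.Pa →
      q ^ i ≤ C * ‖deriv (X.f^[i]) (X.f c)‖ := by
  classical
  have key : ∀ s : Finset ℂ, s ⊆ X.Cr → ∃ C q : ℝ, 1 ≤ C ∧ 1 < q ∧
      (∀ c ∈ s, (∀ n, X.f^[n] c ∉ X.Pa) → ∀ n : ℕ,
        q ^ n ≤ C * ‖deriv (X.f^[n]) (X.f^[X.tau c] c)‖) ∧
      ∀ c ∈ s, ∀ i : ℕ, (∀ j, 1 ≤ j → j ≤ i → X.f^[j] c ∉ X.Cr) → X.f^[i + 1] c ∉ X.Pa →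
        q ^ i ≤ C * ‖deriv (X.f^[i]) (X.f c)‖ := by
    intro s
    induction s using Finset.induction_on with
    | empty => intro _; exact ⟨1, 2, le_refl _, by norm_num, by simp, by simp⟩
    | insert a s ha ih =>
      intro hs
      obtain ⟨C1, q1, hC1, hq1, h1, h1'⟩ := ih (fun x hx => hs (Finset.mem_insert_of_mem hx))
      obtain ⟨C2, q2, hC2, hq2, h2, h2'⟩ : ∃ C q : ℝ, 1 ≤ C ∧ 1 < q ∧
          ((∀ n, X.f^[n] a ∉ X.Pa) → ∀ n : ℕ,
            q ^ n ≤ C * ‖deriv (X.f^[n]) (X.f^[X.tau a] a)‖) ∧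
          ∀ i : ℕ, (∀ j, 1 ≤ j → j ≤ i → X.f^[j] a ∉ X.Cr) → X.f^[i + 1] a ∉ X.Pa →
            q ^ i ≤ C * ‖deriv (X.f^[i]) (X.f a)‖ := by
        by_cases hl : ∃ n, X.f^[n] a ∈ X.Pa
        · obtain ⟨C, hC, h⟩ := ce1_land X (hs (Finset.mem_insert_self a s)) hl
          obtain ⟨n, hn⟩ := hl
          exact ⟨C, 2, hC, by norm_num, fun h' => absurd hn (h' n), fun i h1 h2 => h i ⟨h1, h2⟩⟩
        · have hl' : ∀ n, X.f^[n] a ∉ X.Pa := fun n hn => hl ⟨n, hn⟩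
          obtain ⟨C, q, hC, hq, h1, h2⟩ := ce1_one X (hs (Finset.mem_insert_self a s)) hl'
          exact ⟨C, q, hC, hq, fun _ => h1, fun i h3 _ => h2 i h3⟩
      have hq0 : 0 ≤ min q1 q2 := by
        have := lt_min hq1 hq2
        linarith
      have up : ∀ (C q t : ℝ) (n : ℕ), C ≤ max C1 C2 → min q1 q2 ≤ q → 0 ≤ t →
          q ^ n ≤ C * t → min q1 q2 ^ n ≤ max C1 C2 * t := by
        intro C q t n hC hq ht h
        exact (pow_le_pow_left₀ hq0 hq n).trans (h.trans (mul_le_mul_of_nonneg_right hC ht))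
      refine ⟨max C1 C2, min q1 q2, hC1.trans (le_max_left _ _), lt_min hq1 hq2, ?_, ?_⟩
      · intro c hc hl n
        rcases Finset.mem_insert.mp hc with rfl | hc
        · exact up _ _ _ n (le_max_right _ _) (min_le_right _ _) (norm_nonneg _) (h2 hl n)
        · exact up _ _ _ n (le_max_left _ _) (min_le_left _ _) (norm_nonneg _) (h1 c hc hl n)
      · intro c hc i hi hp
        rcases Finset.mem_insert.mp hc with rfl | hc
        · exact up _ _ _ i (le_max_right _ _) (min_le_right _ _) (norm_nonneg _) (h2' i hi hp)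
        · exact up _ _ _ i (le_max_left _ _) (min_le_left _ _) (norm_nonneg _) (h1' c hc i hi hp)
  exact key X.Cr (Finset.Subset.refl _)

end Pool.Agent.H79.PJ
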