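import Pool.Agent.H79.PJ.Loc2
import Pool.Agent.H79.PJ.TauW
import Pool.Agent.H44.DN.PMM

/-!
# Local form until the terminal value (port of PMM, H44/DN)
-/

set_option autoImplicit false

open Filter Topology Metric Set

namespace Pool.Agent.H79.PJ

open Pool.Agent.H44.DN (itg_diff itg_ne itg_succ itg_add pmm_reg)

/-- local form at a point of `J` -/
theorem pmm_loc (X : W0) {y : ℂ} (hy : y ∈ X.J) : ∃ (C : ℝ) (m : ℕ), 1 ≤ C ∧ 1 ≤ m ∧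
    (y ∈ X.Cr → m = X.mm y) ∧ (y ∉ X.Cr → m = 1) ∧ ∀ᶠ u in 𝓝 y, u ∈ X.G ∧
      ‖X.f u - X.f y‖ ≤ C * ‖u - y‖ ^ m ∧ ‖u - y‖ ^ m ≤ C * ‖X.f u - X.f y‖ ∧
      ‖deriv X.f u‖ ≤ C * ‖u - y‖ ^ (m - 1) ∧ ‖u - y‖ ^ (m - 1) ≤ C * ‖deriv X.f u‖ := by
  have hyG : y ∈ X.G := (orb X hy 0).2
  by_cases hc : y ∈ X.Cr
  · obtain ⟨C, r, hC, hr, h⟩ := loc2 X
    obtain ⟨h1, h2, h3⟩ := h y hc
    refine ⟨C, X.mm y, hC, by omega, fun _ => rfl, fun h => absurd hc h, ?_⟩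
    filter_upwards [ball_mem_nhds y hr, X.hG.mem_nhds hyG] with u hu huG
    exact ⟨huG, (h2 u hu).1, (h2 u hu).2, (h3 u hu).1, (h3 u hu).2⟩
  · have hd : deriv X.f y ≠ 0 := fun h0 =>
      hc ((X.hcr y (self_subset_cthickening X.J hy)).mp h0)
    obtain ⟨C, hC, h⟩ := pmm_reg X.hG X.hf hyG hd
    refine ⟨C, 1, hC, le_rfl, fun h => absurd h hc, fun _ => rfl, ?_⟩
    filter_upwards [h, X.hG.mem_nhds hyG] with u hu huG
    simp only [pow_one, Nat.sub_self, pow_zero, mul_one]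
    exact ⟨huG, hu.1, hu.2.1, hu.2.2.1, hu.2.2.2⟩

/-- near a point the distance to the finite set is at least the distance to the point -/
theorem pmm_dist (X : W0) (y : ℂ) : ∀ᶠ u in 𝓝 y, ‖u - y‖ ≤ infDist u (X.S : Set ℂ) := by
  have h1 : ∀ c' ∈ X.S, ∀ᶠ u in 𝓝 y, ‖u - y‖ ≤ dist u c' := by
    intro c' _
    by_cases hc : c' = y
    · refine Eventually.of_forall fun u => ?_
      rw [hc, dist_eq_norm]
    · have h2 : ContinuousAt (fun u => dist u c' - ‖u - y‖) y := by fun_prop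
      have h3 : 0 < dist y c' - ‖y - y‖ := by
        rw [sub_self, norm_zero, sub_zero]
        exact dist_pos.mpr (Ne.symm hc)
      filter_upwards [h2.eventually (lt_mem_nhds h3)] with u hu
      linarith
  have h2 : ∀ᶠ u in 𝓝 y, ∀ c' ∈ X.S, ‖u - y‖ ≤ dist u c' :=
    (Filter.eventually_all_finset X.S).mpr h1
  filter_upwards [h2] with u hu
  refine (le_infDist ?_).mpr fun c' hc' => hu c' hc'
  obtain ⟨c, hc⟩ := X.hne
  exact ⟨c, Finset.mem_coe.2 (X.mem_S.2 (Or.inl hc))⟩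

theorem Mi_zero (X : W0) (c : ℂ) : X.Mi c 0 = 1 := by
  simp [W0.Mi]

theorem Mi_succ_mem (X : W0) (c : ℂ) {j : ℕ} (h : X.f^[j] c ∈ X.Cr) :
    X.Mi c (j + 1) = X.Mi c j * X.mm (X.f^[j] c) := by
  unfold W0.Mi
  rw [Finset.prod_range_succ, if_pos h]

theorem Mi_succ_not (X : W0) (c : ℂ) {j : ℕ} (h : X.f^[j] c ∉ X.Cr) :
    X.Mi c (j + 1) = X.Mi c j := by
  unfold W0.Mi
  rw [Finset.prod_range_succ, if_neg h, mul_one]

theorem pmm_cont (X : W0) {c : ℂ} (hc : c ∈ X.J) (j : ℕ) : ContinuousAt (X.f^[j]) c :=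
  (itg_diff X.hG X.hf fun i _ => (orb X hc i).2).continuousAt

/-- local form of the iterate `j` -/
theorem pmm_ind (X : W0) {c : ℂ} (hc : c ∈ X.J) (j : ℕ) : 1 ≤ X.Mi c j ∧ ∃ C : ℝ, 1 ≤ C ∧
    ∀ᶠ z in 𝓝 c, (∀ i ≤ j, X.f^[i] z ∈ X.G) ∧
      ‖X.f^[j] z - X.f^[j] c‖ ≤ C * ‖z - c‖ ^ X.Mi c j ∧
      ‖z - c‖ ^ X.Mi c j ≤ C * ‖X.f^[j] z - X.f^[j] c‖ ∧
      ‖deriv (X.f^[j]) z‖ ≤ C * ‖z - c‖ ^ (X.Mi c j - 1) ∧
      ‖z - c‖ ^ (X.Mi c j - 1) ≤ C * ‖deriv (X.f^[j]) z‖ := by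
  induction j with
  | zero =>
    rw [Mi_zero]
    refine ⟨le_rfl, 1, le_rfl, ?_⟩
    filter_upwards [X.hG.mem_nhds (orb X hc 0).2] with z hz
    refine ⟨fun i hi => ?_, ?_, ?_, ?_, ?_⟩
    · have h0 : i = 0 := by omega
      rw [h0]
      exact hz
    · simp
    · simp
    · simp
    · simp
  | succ j ih =>
    obtain ⟨hM, C, hC, hev⟩ := ih
    obtain ⟨C1, m, hC1, hm, hm1, hm2, hev1⟩ := pmm_loc X (orb X hc j).1
    have hMs : X.Mi c (j + 1) = X.Mi c j * m := by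
      by_cases hcr : X.f^[j] c ∈ X.Cr
      · rw [Mi_succ_mem X c hcr, hm1 hcr]
      · rw [Mi_succ_not X c hcr, hm2 hcr, mul_one]
    have hev2 := (pmm_cont X hc j).eventually hev1
    have hev3 := (pmm_cont X hc (j + 1)).eventually (X.hG.mem_nhds (orb X hc (j + 1)).2)
    set M := X.Mi c j with hMdef
    have hMm : 1 ≤ M * m := Nat.one_le_iff_ne_zero.mpr (Nat.mul_ne_zero (by omega) (by omega))
    have hexp : M * m - 1 = M * (m - 1) + (M - 1) := by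
      obtain ⟨m', rfl⟩ : ∃ m', m = m' + 1 := ⟨m - 1, by omega⟩
      obtain ⟨M', hM'⟩ : ∃ M', M = M' + 1 := ⟨M - 1, by omega⟩
      rw [hM']
      simp only [Nat.add_sub_cancel]
      rw [Nat.mul_add, mul_one]
      omega
    rw [hMs]
    refine ⟨hMm, C1 * C ^ m, ?_, ?_⟩
    · exact one_le_mul_of_one_le_of_one_le hC1 (one_le_pow₀ hC)
    filter_upwards [hev, hev2, hev3] with z hz hz2 hz3
    obtain ⟨hzG, hz4, hz5, hz6, hz7⟩ := hz
    obtain ⟨-, hz8, hz9, hz10, hz11⟩ := hz2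
    have hC0 : 0 ≤ C := by linarith
    have hC10 : 0 ≤ C1 := by linarith
    have hall : ∀ i ≤ j + 1, X.f^[i] z ∈ X.G := by
      intro i hi
      rcases Nat.lt_or_ge i (j + 1) with h | h
      · exact hzG i (by omega)
      · have h0 : i = j + 1 := by omega
        rw [h0]
        exact hz3
    have hder := itg_succ X.hG X.hf (z := z) (n := j) fun i hi => hzG i (by omega)
    rw [Function.iterate_succ_apply', Function.iterate_succ_apply', hder, norm_mul]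
    set u := X.f^[j] z with hu
    set y := X.f^[j] c with hy
    have hr : 0 ≤ ‖z - c‖ := norm_nonneg _
    have hpm : C ^ m = C ^ (m - 1) * C := by
      rw [← pow_succ]
      congr 1
      omega
    refine ⟨hall, ?_, ?_, ?_, ?_⟩
    · calc ‖X.f u - X.f y‖ ≤ C1 * ‖u - y‖ ^ m := hz8
        _ ≤ C1 * (C * ‖z - c‖ ^ M) ^ m := by gcongr
        _ = C1 * C ^ m * ‖z - c‖ ^ (M * m) := by rw [mul_pow, ← pow_mul]; ring
    · calc ‖z - c‖ ^ (M * m) = (‖z - c‖ ^ M) ^ m := by rw [pow_mul]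
        _ ≤ (C * ‖u - y‖) ^ m := by gcongr
        _ = C ^ m * ‖u - y‖ ^ m := by rw [mul_pow]
        _ ≤ C ^ m * (C1 * ‖X.f u - X.f y‖) := by gcongr
        _ = C1 * C ^ m * ‖X.f u - X.f y‖ := by ring
    · calc ‖deriv X.f u‖ * ‖deriv (X.f^[j]) z‖
          ≤ (C1 * ‖u - y‖ ^ (m - 1)) * (C * ‖z - c‖ ^ (M - 1)) := by gcongr
        _ ≤ (C1 * (C * ‖z - c‖ ^ M) ^ (m - 1)) * (C * ‖z - c‖ ^ (M - 1)) := by gcongr
        _ = C1 * (C ^ (m - 1) * C) * (‖z - c‖ ^ (M * (m - 1)) * ‖z - c‖ ^ (M - 1)) := by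
            rw [mul_pow, ← pow_mul]; ring
        _ = C1 * C ^ m * ‖z - c‖ ^ (M * m - 1) := by rw [← hpm, ← pow_add, ← hexp]
    · calc ‖z - c‖ ^ (M * m - 1) = (‖z - c‖ ^ M) ^ (m - 1) * ‖z - c‖ ^ (M - 1) := by
            rw [hexp, pow_add, pow_mul]
        _ ≤ (C * ‖u - y‖) ^ (m - 1) * (C * ‖deriv (X.f^[j]) z‖) := by gcongr
        _ = (C ^ (m - 1) * C) * (‖u - y‖ ^ (m - 1) * ‖deriv (X.f^[j]) z‖) := by
            rw [mul_pow]; ring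
        _ ≤ (C ^ (m - 1) * C) * ((C1 * ‖deriv X.f u‖) * ‖deriv (X.f^[j]) z‖) := by gcongr
        _ = C1 * C ^ m * (‖deriv X.f u‖ * ‖deriv (X.f^[j]) z‖) := by rw [hpm]; ring

/-- part (3) for one time -/
theorem pmm_three (X : W0) {c : ℂ} (hc : c ∈ X.J) (j : ℕ) : ∃ C : ℝ, 1 ≤ C ∧
    ∀ᶠ z in 𝓝 c, X.f^[j] z ∈ X.G ∧
      ‖deriv (X.f^[j]) z‖ * ‖z - c‖ ≤ C * infDist (X.f^[j] z) (X.S : Set ℂ) := by
  obtain ⟨hM, C, hC, hev⟩ := pmm_ind X hc j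
  have hev2 := (pmm_cont X hc j).eventually (pmm_dist X (X.f^[j] c))
  refine ⟨C * C, one_le_mul_of_one_le_of_one_le hC hC, ?_⟩
  filter_upwards [hev, hev2] with z hz hz2
  obtain ⟨hzG, hz4, hz5, hz6, hz7⟩ := hz
  have hC0 : 0 ≤ C := by linarith
  have hpm : ‖z - c‖ ^ X.Mi c j = ‖z - c‖ ^ (X.Mi c j - 1) * ‖z - c‖ := by
    rw [← pow_succ]
    congr 1
    omega
  refine ⟨hzG j le_rfl, ?_⟩
  calc ‖deriv (X.f^[j]) z‖ * ‖z - c‖ ≤ (C * ‖z - c‖ ^ (X.Mi c j - 1)) * ‖z - c‖ := by gcongr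
    _ = C * ‖z - c‖ ^ X.Mi c j := by rw [hpm]; ring
    _ ≤ C * (C * ‖X.f^[j] z - X.f^[j] c‖) := by gcongr
    _ ≤ C * (C * infDist (X.f^[j] z) (X.S : Set ℂ)) := by gcongr
    _ = C * C * infDist (X.f^[j] z) (X.S : Set ℂ) := by ring

/-- part (3) for all times less than `n` -/
theorem pmm_three_all (X : W0) {c : ℂ} (hc : c ∈ X.J) (n : ℕ) : ∃ C : ℝ, 1 ≤ C ∧
    ∀ᶠ z in 𝓝 c, ∀ j < n, X.f^[j] z ∈ X.G ∧
      ‖deriv (X.f^[j]) z‖ * ‖z - c‖ ≤ C * infDist (X.f^[j] z) (X.S : Set ℂ) := by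
  induction n with
  | zero => exact ⟨1, le_rfl, Eventually.of_forall fun z j hj => absurd hj (Nat.not_lt_zero j)⟩
  | succ n ih =>
    obtain ⟨C, hC, hev⟩ := ih
    obtain ⟨C1, hC1, hev1⟩ := pmm_three X hc n
    refine ⟨max C C1, le_max_of_le_left hC, ?_⟩
    filter_upwards [hev, hev1] with z hz hz1 j hj
    have hinf : 0 ≤ infDist (X.f^[j] z) (X.S : Set ℂ) := infDist_nonneg
    rcases Nat.lt_or_ge j n with h | h
    · refine ⟨(hz j h).1, (hz j h).2.trans ?_⟩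
      gcongr
      exact le_max_left _ _
    · have h0 : j = n := by omega
      rw [h0] at hinf ⊢
      refine ⟨hz1.1, hz1.2.trans ?_⟩
      gcongr
      exact le_max_right _ _

theorem pmm (X : W0) : ∃ C r : ℝ, 1 ≤ C ∧ 0 < r ∧ ∀ c ∈ X.Cr, ∀ z ∈ ball c r,
    (‖X.f^[X.tau c] z - X.f^[X.tau c] c‖ ≤ C * ‖z - c‖ ^ X.MM c ∧
      ‖z - c‖ ^ X.MM c ≤ C * ‖X.f^[X.tau c] z - X.f^[X.tau c] c‖) ∧
    (‖deriv (X.f^[X.tau c]) z‖ ≤ C * ‖z - c‖ ^ (X.MM c - 1) ∧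
      ‖z - c‖ ^ (X.MM c - 1) ≤ C * ‖deriv (X.f^[X.tau c]) z‖) ∧
    ∀ j < X.tau c, X.f^[j] z ∈ X.G ∧
      ‖deriv (X.f^[j]) z‖ * ‖z - c‖ ≤ C * infDist (X.f^[j] z) (X.S : Set ℂ) := by
  have key : ∀ c : ℂ, ∃ C r : ℝ, 1 ≤ C ∧ 0 < r ∧ (c ∈ X.Cr → ∀ z ∈ ball c r,
      (‖X.f^[X.tau c] z - X.f^[X.tau c] c‖ ≤ C * ‖z - c‖ ^ X.MM c ∧
        ‖z - c‖ ^ X.MM c ≤ C * ‖X.f^[X.tau c] z - X.f^[X.tau c] c‖) ∧
      (‖deriv (X.f^[X.tau c]) z‖ ≤ C * ‖z - c‖ ^ (X.MM c - 1) ∧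
        ‖z - c‖ ^ (X.MM c - 1) ≤ C * ‖deriv (X.f^[X.tau c]) z‖) ∧
      ∀ j < X.tau c, X.f^[j] z ∈ X.G ∧
        ‖deriv (X.f^[j]) z‖ * ‖z - c‖ ≤ C * infDist (X.f^[j] z) (X.S : Set ℂ)) := by
    intro c
    by_cases hc : c ∈ X.Cr
    · obtain ⟨-, C, hC, hev⟩ := pmm_ind X (X.hCr c hc) (X.tau c)
      obtain ⟨C1, hC1, hev1⟩ := pmm_three_all X (X.hCr c hc) (X.tau c)
      obtain ⟨r, hr, hr1⟩ := Metric.eventually_nhds_iff_ball.mp (hev.and hev1)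
      refine ⟨max C C1, r, le_max_of_le_left hC, hr, fun _ z hz => ?_⟩
      obtain ⟨⟨-, h1, h2, h3, h4⟩, h5⟩ := hr1 z hz
      have hCC : C ≤ max C C1 := le_max_left _ _
      have hCC1 : C1 ≤ max C C1 := le_max_right _ _
      refine ⟨⟨h1.trans ?_, h2.trans ?_⟩, ⟨h3.trans ?_, h4.trans ?_⟩, fun j hj =>
        ⟨(h5 j hj).1, (h5 j hj).2.trans ?_⟩⟩
      · change C * ‖z - c‖ ^ X.MM c ≤ max C C1 * ‖z - c‖ ^ X.MM c
        gcongr
      · gcongr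
      · change C * ‖z - c‖ ^ (X.MM c - 1) ≤ max C C1 * ‖z - c‖ ^ (X.MM c - 1)
        gcongr
      · gcongr
      · have hinf : 0 ≤ infDist (X.f^[j] z) (X.S : Set ℂ) := infDist_nonneg
        gcongr
    · exact ⟨1, 1, le_rfl, one_pos, fun h => absurd h hc⟩
  choose Cf rf hCf hrf hf using key
  refine ⟨X.Cr.sup' X.hne Cf, X.Cr.inf' X.hne rf, ?_, ?_, ?_⟩
  · obtain ⟨c, hc⟩ := X.hne
    exact (hCf c).trans (Finset.le_sup' Cf hc)
  · rw [Finset.lt_inf'_iff]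
    exact fun c _ => hrf c
  · intro c hc z hz
    have hCC : Cf c ≤ X.Cr.sup' X.hne Cf := Finset.le_sup' Cf hc
    obtain ⟨⟨h1, h2⟩, ⟨h3, h4⟩, h5⟩ := hf c hc z (ball_subset_ball (Finset.inf'_le rf hc) hz)
    refine ⟨⟨h1.trans ?_, h2.trans ?_⟩, ⟨h3.trans ?_, h4.trans ?_⟩, fun j hj =>
      ⟨(h5 j hj).1, (h5 j hj).2.trans ?_⟩⟩
    · gcongr
    · gcongr
    · gcongr
    · gcongr
    · have hinf : 0 ≤ infDist (X.f^[j] z) (X.S : Set ℂ) := infDist_nonneg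
      gcongr

theorem pmm4 (X : W0) {ϑ : ℝ} (hϑ : 0 < ϑ) : ∃ r : ℝ, 0 < r ∧ ∀ c ∈ X.Cr, ∀ z ∈ ball c r,
    ∀ j ≤ X.tau c, X.f^[j] z ∈ thickening ϑ X.J := by
  have key : ∀ c : ℂ, ∃ r : ℝ, 0 < r ∧ (c ∈ X.Cr → ∀ z ∈ ball c r,
      ∀ j ≤ X.tau c, X.f^[j] z ∈ thickening ϑ X.J) := by
    intro c
    by_cases hc : c ∈ X.Cr
    · have h1 : ∀ j ∈ Finset.range (X.tau c + 1), ∀ᶠ z in 𝓝 c,
          X.f^[j] z ∈ thickening ϑ X.J := fun j _ =>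
        (pmm_cont X (X.hCr c hc) j).eventually (isOpen_thickening.mem_nhds
          (self_subset_thickening hϑ X.J (orb X (X.hCr c hc) j).1))
      have h2 := (Filter.eventually_all_finset (Finset.range (X.tau c + 1))).mpr h1
      obtain ⟨r, hr, hr1⟩ := Metric.eventually_nhds_iff_ball.mp h2
      exact ⟨r, hr, fun _ z hz j hj => hr1 z hz j (Finset.mem_range.mpr (by omega))⟩
    · exact ⟨1, one_pos, fun h => absurd h hc⟩
  choose rf hrf hf using key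
  refine ⟨X.Cr.inf' X.hne rf, ?_, ?_⟩
  · rw [Finset.lt_inf'_iff]
    exact fun c _ => hrf c
  · intro c hc z hz j hj
    exact hf c hc z (ball_subset_ball (Finset.inf'_le rf hc) hz) j hj

/-- before the terminal time the orbit is far from the parabolic points -/
theorem pmm5 (X : W0) : ∃ C r : ℝ, 1 ≤ C ∧ 0 < r ∧ ∀ c ∈ X.Cr, ∀ z ∈ ball c r,
    ∀ j < X.tau c, ∀ p ∈ X.Pa, 1 ≤ C * ‖X.f^[j] z - p‖ := by
  have key : ∀ c : ℂ, ∃ κ r : ℝ, 0 < κ ∧ 0 < r ∧ (c ∈ X.Cr → ∀ z ∈ ball c r,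
      ∀ j < X.tau c, ∀ p ∈ X.Pa, κ ≤ ‖X.f^[j] z - p‖) := by
    intro c
    by_cases hc : c ∈ X.Cr
    · have h0 : ∀ j < X.tau c, ∀ p ∈ X.Pa, X.f^[j] c ≠ p := by
        intro j hj p hp h
        by_cases hl : ∃ n, X.f^[n] c ∈ X.Pa
        · exact (tau_l X hl).2.1 j hj (by rw [h]; exact hp)
        · exact hl ⟨j, by rw [h]; exact hp⟩
      have h1 : ∀ᶠ κ : ℝ in 𝓝[>] 0, ∀ j ∈ Finset.range (X.tau c), ∀ p ∈ X.Pa,
          κ < ‖X.f^[j] c - p‖ := by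
        rw [Filter.eventually_all_finset]
        intro j hj
        rw [Filter.eventually_all_finset]
        intro p hp
        have h2 : 0 < ‖X.f^[j] c - p‖ :=
          norm_pos_iff.2 (sub_ne_zero.2 (h0 j (Finset.mem_range.1 hj) p hp))
        exact nhdsWithin_le_nhds (gt_mem_nhds h2)
      have hpos : ∀ᶠ κ : ℝ in 𝓝[>] 0, 0 < κ := self_mem_nhdsWithin
      obtain ⟨κ, h2, hκ⟩ := (h1.and hpos).exists
      have h3 : ∀ᶠ z in 𝓝 c, ∀ j ∈ Finset.range (X.tau c), ∀ p ∈ X.Pa,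
          κ < ‖X.f^[j] z - p‖ := by
        rw [Filter.eventually_all_finset]
        intro j hj
        rw [Filter.eventually_all_finset]
        intro p hp
        have h4 : ContinuousAt (fun z => ‖X.f^[j] z - p‖) c :=
          ((pmm_cont X (X.hCr c hc) j).sub continuousAt_const).norm
        exact h4.eventually (lt_mem_nhds (h2 j hj p hp))
      obtain ⟨r, hr, hr1⟩ := Metric.eventually_nhds_iff_ball.mp h3
      exact ⟨κ, r, hκ, hr, fun _ z hz j hj p hp => (hr1 z hz j (Finset.mem_range.2 hj) p hp).le⟩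
    · exact ⟨1, 1, one_pos, one_pos, fun h => absurd h hc⟩
  choose κf rf hκf hrf hf using key
  obtain ⟨c0, hc0⟩ := X.hne
  refine ⟨max 1 (X.Cr.sup' X.hne fun c => 1 / κf c), X.Cr.inf' X.hne rf, le_max_left _ _, ?_, ?_⟩
  · rw [Finset.lt_inf'_iff]
    exact fun c _ => hrf c
  · intro c hc z hz j hj p hp
    have h1 := hf c hc z (ball_subset_ball (Finset.inf'_le rf hc) hz) j hj p hp
    have h2 : 1 / κf c ≤ max 1 (X.Cr.sup' X.hne fun c => 1 / κf c) :=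
      (Finset.le_sup' (fun c => 1 / κf c) hc).trans (le_max_right _ _)
    have h3 := hκf c
    calc (1 : ℝ) = 1 / κf c * κf c := by field_simp
      _ ≤ max 1 (X.Cr.sup' X.hne fun c => 1 / κf c) * ‖X.f^[j] z - p‖ := by
        refine mul_le_mul h2 h1 h3.le ?_
        exact le_trans zero_le_one (le_max_left _ _)

/-- the terminal value of a Collet-Eckmann point is far from `S` -/
theorem pmm6 (X : W0) : ∃ C r : ℝ, 1 ≤ C ∧ 0 < r ∧ ∀ c ∈ X.Cr, (∀ n, X.f^[n] c ∉ X.Pa) →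
    ∀ z ∈ ball c r, ∀ c' ∈ X.S, 1 ≤ C * ‖X.f^[X.tau c] z - c'‖ := by
  have key : ∀ c : ℂ, ∃ κ r : ℝ, 0 < κ ∧ 0 < r ∧ (c ∈ X.Cr → (∀ n, X.f^[n] c ∉ X.Pa) →
      ∀ z ∈ ball c r, ∀ c' ∈ X.S, κ ≤ ‖X.f^[X.tau c] z - c'‖) := by
    intro c
    by_cases hc : c ∈ X.Cr ∧ ∀ n, X.f^[n] c ∉ X.Pa
    · have h0 : ∀ c' ∈ X.S, X.f^[X.tau c] c ≠ c' := by
        intro c' hc' h
        rcases X.mem_S.1 hc' with h1 | h1
        · exact (tau_e X hc.1 hc.2).2.1 (X.tau c) le_rfl (by rw [h]; exact h1)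
        · exact hc.2 (X.tau c) (by rw [h]; exact h1)
      have h1 : ∀ᶠ κ : ℝ in 𝓝[>] 0, ∀ c' ∈ X.S, κ < ‖X.f^[X.tau c] c - c'‖ := by
        rw [Filter.eventually_all_finset]
        intro p hp
        have h2 : 0 < ‖X.f^[X.tau c] c - p‖ := norm_pos_iff.2 (sub_ne_zero.2 (h0 p hp))
        exact nhdsWithin_le_nhds (gt_mem_nhds h2)
      have hpos : ∀ᶠ κ : ℝ in 𝓝[>] 0, 0 < κ := self_mem_nhdsWithin
      obtain ⟨κ, h2, hκ⟩ := (h1.and hpos).exists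
      have h3 : ∀ᶠ z in 𝓝 c, ∀ c' ∈ X.S, κ < ‖X.f^[X.tau c] z - c'‖ := by
        rw [Filter.eventually_all_finset]
        intro p hp
        have h4 : ContinuousAt (fun z => ‖X.f^[X.tau c] z - p‖) c :=
          ((pmm_cont X (X.hCr c hc.1) (X.tau c)).sub continuousAt_const).norm
        exact h4.eventually (lt_mem_nhds (h2 p hp))
      obtain ⟨r, hr, hr1⟩ := Metric.eventually_nhds_iff_ball.mp h3
      exact ⟨κ, r, hκ, hr, fun _ _ z hz p hp => (hr1 z hz p hp).le⟩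
    · exact ⟨1, 1, one_pos, one_pos, fun h h' => absurd ⟨h, h'⟩ hc⟩
  choose κf rf hκf hrf hf using key
  refine ⟨max 1 (X.Cr.sup' X.hne fun c => 1 / κf c), X.Cr.inf' X.hne rf, le_max_left _ _, ?_, ?_⟩
  · rw [Finset.lt_inf'_iff]
    exact fun c _ => hrf c
  · intro c hc hl z hz p hp
    have h1 := hf c hc hl z (ball_subset_ball (Finset.inf'_le rf hc) hz) p hp
    have h2 : 1 / κf c ≤ max 1 (X.Cr.sup' X.hne fun c => 1 / κf c) :=
      (Finset.le_sup' (fun c => 1 / κf c) hc).trans (le_max_right _ _)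
    have h3 := hκf c
    calc (1 : ℝ) = 1 / κf c * κf c := by field_simp
      _ ≤ max 1 (X.Cr.sup' X.hne fun c => 1 / κf c) * ‖X.f^[X.tau c] z - p‖ := by
        refine mul_le_mul h2 h1 h3.le ?_
        exact le_trans zero_le_one (le_max_left _ _)

end Pool.Agent.H79.PJ
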