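import Pool.Agent.H79.PJ.Ce1W
import Pool.Agent.H79.PJ.PmmW

/-!
# The Collet-Eckmann condition at a passage (port of CE2, H44/DN)
-/

set_option autoImplicit false

open Filter Topology Metric Set

namespace Pool.Agent.H79.PJ

open Pool.Agent.H44.DN (itg_diff itg_ne itg_succ itg_add)

private theorem fin_max {α : Type} (S : Finset α) (P : α → ℝ → Prop)
    (hmono : ∀ a C C', C ≤ C' → P a C → P a C') (h : ∀ a ∈ S, ∃ C, P a C) :
    ∃ C : ℝ, 1 ≤ C ∧ ∀ a ∈ S, P a C := by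
  classical
  choose! K hK using h
  refine ⟨1 + ∑ a ∈ S, |K a|, ?_, ?_⟩
  · have : 0 ≤ ∑ a ∈ S, |K a| := Finset.sum_nonneg fun _ _ => abs_nonneg _
    linarith
  · intro a ha
    refine hmono a (K a) _ ?_ (hK a ha)
    have h1 : |K a| ≤ ∑ a ∈ S, |K a| :=
      Finset.single_le_sum (f := fun a => |K a|) (fun _ _ => abs_nonneg _) ha
    have h2 := le_abs_self (K a)
    linarith

theorem ce_pass (X : W0) : ∃ C q : ℝ, 1 ≤ C ∧ 1 < q ∧
    (∀ c ∈ X.Cr, (∀ n, X.f^[n] c ∉ X.Pa) → ∀ n : ℕ,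
      q ^ n ≤ C * ‖deriv (X.f^[n]) (X.f^[X.tau c] c)‖) ∧
    (∀ c ∈ X.Cr, ∀ i : ℕ, (∀ j, 1 ≤ j → j ≤ i → X.f^[j] c ∉ X.Cr) → X.f^[i + 1] c ∉ X.Pa →
      q ^ i ≤ C * ‖deriv (X.f^[i]) (X.f c)‖) ∧
    (∀ c ∈ X.Cr, (∀ n, X.f^[n] c ∉ X.Pa) → ∀ c' ∈ X.S, ∀ n : ℕ,
      q ^ n ≤ C * ‖deriv (X.f^[n]) (X.f^[X.tau c] c)‖ *
        ‖X.f^[n] (X.f^[X.tau c] c) - c'‖ ^ (X.MM c' - 1)) ∧
    ∀ c ∈ X.Cr, ∀ i : ℕ, (∀ j, 1 ≤ j → j ≤ i → X.f^[j] c ∉ X.Cr) → X.f^[i + 1] c ∉ X.Pa →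
      ∀ c' ∈ X.S, X.f^[i + 1] c ≠ c' →
        q ^ i ≤ C * ‖deriv (X.f^[i]) (X.f c)‖ * ‖X.f^[i + 1] c - c'‖ ^ (X.MM c' - 1) := by
  classical
  obtain ⟨C0, q, hC0, hq, h1, h3⟩ := ce_term X
  obtain ⟨C1, r, hC1, hr, hp⟩ := pmm X
  have hq0 : (0 : ℝ) < q := by linarith
  -- (2)
  have h2 : ∃ C : ℝ, 1 ≤ C ∧ ∀ c' ∈ X.S, ∀ c ∈ X.Cr, (∀ n, X.f^[n] c ∉ X.Pa) → ∀ n : ℕ,
      q ^ n ≤ C * ‖deriv (X.f^[n]) (X.f^[X.tau c] c)‖ *
        ‖X.f^[n] (X.f^[X.tau c] c) - c'‖ ^ (X.MM c' - 1) := by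
    refine fin_max X.S (fun c' C => ∀ c ∈ X.Cr, (∀ n, X.f^[n] c ∉ X.Pa) → ∀ n : ℕ,
      q ^ n ≤ C * ‖deriv (X.f^[n]) (X.f^[X.tau c] c)‖ *
        ‖X.f^[n] (X.f^[X.tau c] c) - c'‖ ^ (X.MM c' - 1)) ?_ ?_
    · intro c' C C' hCC hP c hc hl n
      refine (hP c hc hl n).trans ?_
      gcongr
    · intro c' hc'S
      by_cases hc' : c' ∈ X.Cr
      swap
      · have hpa : c' ∈ X.Pa := (X.mem_S.1 hc'S).resolve_left hc'
        refine ⟨C0, fun c hc hl n => ?_⟩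
        rw [MM_pa X hpa, Nat.sub_self, pow_zero, mul_one]
        exact h1 c hc hl n
      have hr1 : 0 < min r 1 := lt_min hr one_pos
      refine ⟨C0 * C1 + C0 / (min r 1) ^ (X.MM c' - 1), ?_⟩
      intro c hc hl n
      set v := X.f^[X.tau c] c with hv
      set y := X.f^[n] v with hy
      have hJ : v ∈ X.J := (orb X (X.hCr c hc) _).1
      have hD0 : 0 ≤ ‖deriv (X.f^[n]) v‖ := norm_nonneg _
      have hpw : 0 < (min r 1) ^ (X.MM c' - 1) := pow_pos hr1 _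
      have hA : 0 ≤ ‖deriv (X.f^[n]) v‖ * ‖y - c'‖ ^ (X.MM c' - 1) := by positivity
      have hsplit : (C0 * C1 + C0 / (min r 1) ^ (X.MM c' - 1)) * ‖deriv (X.f^[n]) v‖ *
          ‖y - c'‖ ^ (X.MM c' - 1) =
          C0 * C1 * (‖deriv (X.f^[n]) v‖ * ‖y - c'‖ ^ (X.MM c' - 1)) +
          C0 / (min r 1) ^ (X.MM c' - 1) *
            (‖deriv (X.f^[n]) v‖ * ‖y - c'‖ ^ (X.MM c' - 1)) := by ring
      have hn1 : 0 ≤ C0 * C1 * (‖deriv (X.f^[n]) v‖ * ‖y - c'‖ ^ (X.MM c' - 1)) :=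
        mul_nonneg (by positivity) hA
      have hn2 : 0 ≤ C0 / (min r 1) ^ (X.MM c' - 1) *
            (‖deriv (X.f^[n]) v‖ * ‖y - c'‖ ^ (X.MM c' - 1)) :=
        mul_nonneg (by positivity) hA
      rw [hsplit]
      rcases le_or_gt (min r 1) ‖y - c'‖ with hge | hlt
      · -- far
        have hb : (min r 1) ^ (X.MM c' - 1) ≤ ‖y - c'‖ ^ (X.MM c' - 1) :=
          pow_le_pow_left₀ hr1.le hge _
        have h11 := h1 c hc hl n
        rw [← hv] at h11
        have : C0 * ‖deriv (X.f^[n]) v‖ ≤ C0 / (min r 1) ^ (X.MM c' - 1) *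
            (‖deriv (X.f^[n]) v‖ * ‖y - c'‖ ^ (X.MM c' - 1)) := by
          have he : C0 * ‖deriv (X.f^[n]) v‖ = C0 / (min r 1) ^ (X.MM c' - 1) *
            (‖deriv (X.f^[n]) v‖ * (min r 1) ^ (X.MM c' - 1)) := by
            field_simp
          rw [he]
          have : 0 ≤ C0 / (min r 1) ^ (X.MM c' - 1) := by positivity
          exact mul_le_mul_of_nonneg_left (mul_le_mul_of_nonneg_left hb hD0) this
        linarith
      · have hyb : y ∈ ball c' r := by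
          rw [mem_ball, dist_eq_norm]
          exact lt_of_lt_of_le hlt (min_le_left _ _)
        have hd := (hp c' hc' y hyb).2.1.1
        have h11 := h1 c hc hl (n + X.tau c')
        rw [← hv] at h11
        have hadd := itg_add X.hG X.hf (z := v) (a := n) (b := X.tau c')
          (fun i _ => (orb X hJ i).2)
        rw [hadd, norm_mul, ← hy] at h11
        have hqq : q ^ n ≤ q ^ (n + X.tau c') := pow_le_pow_right₀ hq.le (Nat.le_add_right _ _)
        have : C0 * (‖deriv (X.f^[X.tau c']) y‖ * ‖deriv (X.f^[n]) v‖) ≤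
            C0 * C1 * (‖deriv (X.f^[n]) v‖ * ‖y - c'‖ ^ (X.MM c' - 1)) := by
          have e1 : C0 * (‖deriv (X.f^[X.tau c']) y‖ * ‖deriv (X.f^[n]) v‖) ≤
            C0 * ((C1 * ‖y - c'‖ ^ (X.MM c' - 1)) * ‖deriv (X.f^[n]) v‖) :=
            mul_le_mul_of_nonneg_left (mul_le_mul_of_nonneg_right hd hD0) (by linarith)
          calc _ ≤ _ := e1
            _ = _ := by ring
        linarith
  obtain ⟨C2, hC2, h2⟩ := h2
  -- (4)
  have h4 : ∃ C : ℝ, 1 ≤ C ∧ ∀ c ∈ X.Cr, ∀ i : ℕ,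
      (∀ j, 1 ≤ j → j ≤ i → X.f^[j] c ∉ X.Cr) → X.f^[i + 1] c ∉ X.Pa →
      ∀ c' ∈ X.S, X.f^[i + 1] c ≠ c' →
        q ^ i ≤ C * ‖deriv (X.f^[i]) (X.f c)‖ * ‖X.f^[i + 1] c - c'‖ ^ (X.MM c' - 1) := by
    refine fin_max X.Cr (fun c C => ∀ i : ℕ,
      (∀ j, 1 ≤ j → j ≤ i → X.f^[j] c ∉ X.Cr) → X.f^[i + 1] c ∉ X.Pa →
      ∀ c' ∈ X.S, X.f^[i + 1] c ≠ c' →
        q ^ i ≤ C * ‖deriv (X.f^[i]) (X.f c)‖ * ‖X.f^[i + 1] c - c'‖ ^ (X.MM c' - 1)) ?_ ?_
    · intro c C C' hCC hP i hi hp c' hc' hne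
      refine (hP i hi hp c' hc' hne).trans ?_
      gcongr
    · intro c hc
      have hcJ := X.hCr c hc
      have hfcJ : X.f c ∈ X.J := X.hJf c hcJ
      obtain ⟨hτ1, hτ2⟩ := tau_spec X hc
      -- small times
      have hs : ∃ C : ℝ, 1 ≤ C ∧ ∀ i ∈ Finset.range (X.tau c),
          (∀ j, 1 ≤ j → j ≤ i → X.f^[j] c ∉ X.Cr) → ∀ c' ∈ X.S, X.f^[i + 1] c ≠ c' →
          q ^ i ≤ C * ‖deriv (X.f^[i]) (X.f c)‖ * ‖X.f^[i + 1] c - c'‖ ^ (X.MM c' - 1) := by
        refine fin_max (Finset.range (X.tau c)) (fun i C =>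
          (∀ j, 1 ≤ j → j ≤ i → X.f^[j] c ∉ X.Cr) → ∀ c' ∈ X.S, X.f^[i + 1] c ≠ c' →
          q ^ i ≤ C * ‖deriv (X.f^[i]) (X.f c)‖ * ‖X.f^[i + 1] c - c'‖ ^ (X.MM c' - 1)) ?_ ?_
        · intro i C C' hCC hP hi c' hc' hne
          refine (hP hi c' hc' hne).trans ?_
          gcongr
        · intro i _
          have hs' : ∃ C : ℝ, 1 ≤ C ∧ ∀ c' ∈ X.S,
              (∀ j, 1 ≤ j → j ≤ i → X.f^[j] c ∉ X.Cr) → X.f^[i + 1] c ≠ c' →
              q ^ i ≤ C * ‖deriv (X.f^[i]) (X.f c)‖ *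
                ‖X.f^[i + 1] c - c'‖ ^ (X.MM c' - 1) := by
            refine fin_max X.S (fun c' C =>
              (∀ j, 1 ≤ j → j ≤ i → X.f^[j] c ∉ X.Cr) → X.f^[i + 1] c ≠ c' →
              q ^ i ≤ C * ‖deriv (X.f^[i]) (X.f c)‖ *
                ‖X.f^[i + 1] c - c'‖ ^ (X.MM c' - 1)) ?_ ?_
            · intro c' C C' hCC hP hi hne
              refine (hP hi hne).trans ?_
              gcongr
            · intro c' hc'
              refine ⟨q ^ i / (‖deriv (X.f^[i]) (X.f c)‖ *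
                ‖X.f^[i + 1] c - c'‖ ^ (X.MM c' - 1)), ?_⟩
              intro hi hne
              have hd : deriv (X.f^[i]) (X.f c) ≠ 0 := by
                rw [orb_cr X hfcJ]
                intro j hj
                have := hi (j + 1) (by omega) (by omega)
                rwa [Function.iterate_succ_apply] at this
              have hp1 : 0 < ‖deriv (X.f^[i]) (X.f c)‖ := norm_pos_iff.mpr hd
              have hp2 : 0 < ‖X.f^[i + 1] c - c'‖ ^ (X.MM c' - 1) :=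
                pow_pos (norm_pos_iff.mpr (sub_ne_zero.mpr hne)) _
              rw [mul_assoc, div_mul_cancel₀]
              exact (mul_pos hp1 hp2).ne'
          obtain ⟨C, _, hC⟩ := hs'
          exact ⟨C, fun hi c' hc' hne => hC c' hc' hi hne⟩
      obtain ⟨Cs, hCs, hs⟩ := hs
      -- large times
      set κ := ‖deriv (X.f^[X.tau c - 1]) (X.f c)‖ with hκ
      refine ⟨Cs + C2 * q ^ (X.tau c - 1) / κ, ?_⟩
      intro i hi hp c' hc' hne
      set A := ‖deriv (X.f^[i]) (X.f c)‖ * ‖X.f^[i + 1] c - c'‖ ^ (X.MM c' - 1) with hA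
      have hA0 : 0 ≤ A := by positivity
      have hκ0 : 0 ≤ κ := norm_nonneg _
      have hCq : 0 ≤ C2 * q ^ (X.tau c - 1) / κ := by positivity
      rw [mul_assoc, ← hA, add_mul]
      rcases lt_or_ge i (X.tau c) with hlt | hge
      · have := hs i (Finset.mem_range.mpr hlt) hi c' hc' hne
        rw [mul_assoc, ← hA] at this
        have h5 := mul_nonneg hCq hA0
        linarith
      · -- i ≥ τ
        have hl : ∀ n, X.f^[n] c ∉ X.Pa := by
          intro n hn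
          obtain ⟨a1, -, a3, -⟩ := tau_l X ⟨n, hn⟩
          apply hp
          rw [a3 (i + 1) (by omega)]
          exact a1
        obtain ⟨n, hn⟩ : ∃ n, i + 1 = X.tau c + n := ⟨i + 1 - X.tau c, by omega⟩
        have hin : i = (X.tau c - 1) + n := by omega
        have hd : deriv (X.f^[X.tau c - 1]) (X.f c) ≠ 0 := by
          rw [orb_cr X hfcJ]
          intro j hj
          have := hi (j + 1) (by omega) (by omega)
          rwa [Function.iterate_succ_apply] at this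
        have hκp : 0 < κ := norm_pos_iff.mpr hd
        have hv : X.f^[X.tau c - 1] (X.f c) = X.f^[X.tau c] c := by
          rw [← Function.iterate_succ_apply]
          congr 2
          omega
        have hadd := itg_add X.hG X.hf (z := X.f c) (a := X.tau c - 1) (b := n)
          (fun i _ => (orb X hfcJ i).2)
        rw [hv, ← hin] at hadd
        have hit : X.f^[i + 1] c = X.f^[n] (X.f^[X.tau c] c) := by
          rw [hn, add_comm, Function.iterate_add_apply]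
        have h22 := h2 c' hc' c hc hl n
        rw [← hit, mul_assoc] at h22
        have hAe : A = κ * (‖deriv (X.f^[n]) (X.f^[X.tau c] c)‖ *
            ‖X.f^[i + 1] c - c'‖ ^ (X.MM c' - 1)) := by
          rw [hA, hadd, norm_mul, hκ]
          ring
        have hfin : q ^ i ≤ C2 * q ^ (X.tau c - 1) / κ * A := by
          rw [hAe]
          have e1 : C2 * q ^ (X.tau c - 1) / κ * (κ * (‖deriv (X.f^[n]) (X.f^[X.tau c] c)‖ *
            ‖X.f^[i + 1] c - c'‖ ^ (X.MM c' - 1))) =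
            q ^ (X.tau c - 1) * (C2 * (‖deriv (X.f^[n]) (X.f^[X.tau c] c)‖ *
            ‖X.f^[i + 1] c - c'‖ ^ (X.MM c' - 1))) := by
            field_simp
          rw [e1]
          have e2 : q ^ i = q ^ (X.tau c - 1) * q ^ n := by
            conv_lhs => rw [hin]
            rw [pow_add]
          rw [e2]
          exact mul_le_mul_of_nonneg_left h22 (by positivity)
        have h6 : 0 ≤ Cs * A := mul_nonneg (by linarith) hA0
        linarith
  obtain ⟨C4, hC4, h4⟩ := h4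
  refine ⟨C0 + C2 + C4, q, by linarith, hq, ?_, ?_, ?_, ?_⟩
  · intro c hc hl n
    refine (h1 c hc hl n).trans ?_
    gcongr
    linarith
  · intro c hc i hi hp
    refine (h3 c hc i hi hp).trans ?_
    gcongr
    linarith
  · intro c hc hl c' hc' n
    refine (h2 c' hc' c hc hl n).trans ?_
    gcongr
    linarith
  · intro c hc i hi hp c' hc' hne
    refine (h4 c hc i hi hp c' hc' hne).trans ?_
    gcongr
    linarith

end Pool.Agent.H79.PJ
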