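import Pool.Agent.H79.PJ.Parb

/-!
# A Collet-Eckmann orbit does not come close to the parabolic and the landing points
-/

set_option autoImplicit false

open Filter Topology Polynomial Metric Set

namespace Pool.Agent.H79.PJ

open Pool.Agent.H44.DN (itg_diff itg_ne itg_succ itg_add)

theorem fin_maxR {α : Type} (S : Finset α) (P : α → ℝ → Prop)
    (hmono : ∀ a C C', C ≤ C' → P a C → P a C') (h : ∀ a ∈ S, ∃ C, P a C) :
    ∃ C : ℝ, 1 ≤ C ∧ ∀ a ∈ S, P a C := by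
  classical
  choose! K hK using h
  refine ⟨1 + ∑ a ∈ S, |K a|, ?_, ?_⟩
  · have : 0 ≤ ∑ a ∈ S, |K a| := Finset.sum_nonneg fun _ _ => abs_nonneg _
    linarith
  · intro a ha
    refine hmono a (K a) _ ?_ (hK a ha)
    have h1 : |K a| ≤ ∑ a ∈ S, |K a| :=
      Finset.single_le_sum (f := fun a => |K a|) (fun _ _ => abs_nonneg _) ha
    have h2 := le_abs_self (K a)
    linarith

/-- derivatives of iterates with a bound along the orbit -/
theorem der_bound (X : W0) {z : ℂ} (hz : z ∈ X.J) {B : ℝ} (hB : 0 ≤ B) (j : ℕ)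
    (h : ∀ i < j, ‖deriv X.f (X.f^[i] z)‖ ≤ B) : ‖deriv (X.f^[j]) z‖ ≤ B ^ j := by
  induction j with
  | zero => simp
  | succ j ih =>
    rw [itg_succ X.hG X.hf (fun i _ => (orb X hz i).2), norm_mul, pow_succ, mul_comm]
    exact mul_le_mul (ih fun i hi => h i (by omega)) (h j (by omega)) (norm_nonneg _)
      (by positivity)

theorem ce6_pa (X : P0) : ∃ C : ℝ, 1 ≤ C ∧ ∀ c ∈ X.Cr, (∀ n, X.f^[n] c ∉ X.Pa) → ∀ p ∈ X.Pa,
    ∀ n : ℕ, 1 ≤ C * ((n : ℝ) + 1) * ‖X.f^[n] (X.f^[X.tau c] c) - p‖ := by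
  obtain ⟨C0, q0, hC0, hq0, hce, -⟩ := ce_pass X.toW0
  obtain ⟨L, -, -, hL, -, hLf, -⟩ := loc1 X.toW0
  obtain ⟨T, hT, hP⟩ := pbd_all X one_pos
  have hlq : 0 < Real.log q0 := Real.log_pos hq0
  have hlL : 0 ≤ Real.log L := Real.log_nonneg hL
  have hlC : 0 ≤ Real.log (2 * C0) := Real.log_nonneg (by linarith)
  obtain ⟨A, hA⟩ : ∃ A : ℝ, A = (Real.log (2 * C0) + Real.log L) / Real.log q0 := ⟨_, rfl⟩
  have hA0 : 0 ≤ A := by rw [hA]; positivity
  refine ⟨4 * T * (A + 1), by nlinarith, fun c hc hl p hp n => ?_⟩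
  obtain ⟨v, hv⟩ : ∃ v : ℂ, v = X.f^[X.tau c] c := ⟨_, rfl⟩
  have hvJ : v ∈ X.J := by rw [hv]; exact (orb X.toW0 (X.hCr c hc) _).1
  obtain ⟨y, hy⟩ : ∃ y : ℂ, y = X.f^[n] v := ⟨_, rfl⟩
  have hyJ : y ∈ X.J := by rw [hy]; exact (orb X.toW0 hvJ _).1
  rw [← hv, ← hy]
  obtain ⟨e, he⟩ : ∃ e : ℝ, e = ‖y - p‖ := ⟨_, rfl⟩
  have hyp : y ≠ p := by
    intro h
    apply hl (n + X.tau c)
    rw [Function.iterate_add_apply, ← hv, ← hy, h]
    exact hp
  have he0 : 0 < e := by rw [he]; exact norm_pos_iff.2 (sub_ne_zero.2 hyp)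
  have hn0 : (0 : ℝ) ≤ n := Nat.cast_nonneg n
  have hT0 : 0 < T := by linarith
  rw [← he]
  rcases le_or_gt (1 / T) (2 * e) with h1 | h1
  · rw [div_le_iff₀ hT0] at h1
    have h2 : 2 * e * T ≤ 4 * T * (A + 1) * ((n : ℝ) + 1) * e := by
      have h3 : 0 ≤ T * e := by positivity
      have h4 : 2 * e * T = 2 * (T * e) * 1 * 1 := by ring
      have h5 : 4 * T * (A + 1) * ((n : ℝ) + 1) * e = 4 * (T * e) * (A + 1) * ((n : ℝ) + 1) := by
        ring
      rw [h4, h5]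
      have h6 : 2 * (T * e) * 1 ≤ 4 * (T * e) * (A + 1) := by nlinarith
      exact mul_le_mul h6 (by linarith) zero_le_one (by positivity)
    linarith
  · -- a long stay
    obtain ⟨j, hj⟩ : ∃ j : ℕ, j = ⌊1 / (4 * T * e)⌋₊ := ⟨_, rfl⟩
    have hTe : 0 < 4 * T * e := by positivity
    have hj1 : (j : ℝ) ≤ 1 / (4 * T * e) := by
      rw [hj]
      exact Nat.floor_le (by positivity)
    have hj2 : 1 / (4 * T * e) < (j : ℝ) + 1 := by
      rw [hj]
      exact Nat.lt_floor_add_one _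
    have h2e : 2 * e ≤ 1 := by
      have h3 : 1 / T ≤ 1 := by
        rw [div_le_iff₀ hT0]
        linarith
      linarith
    have hpow : (2 * e) ^ X.qq p ≤ 2 * e := by
      calc (2 * e) ^ X.qq p ≤ (2 * e) ^ 1 := pow_le_pow_of_le_one (by positivity) h2e (X.hq p hp)
        _ = 2 * e := pow_one _
    have hjs : T * (2 * e) ^ X.qq p * j ≤ 1 / 2 := by
      calc T * (2 * e) ^ X.qq p * j ≤ T * (2 * e) * (1 / (4 * T * e)) := by
            refine mul_le_mul (mul_le_mul_of_nonneg_left hpow hT0.le) hj1 (Nat.cast_nonneg j) ?_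
            positivity
        _ = 1 / 2 := by field_simp; ring
    have hst := stay_par hT (hP p hp) (z := y) (by rw [← he]; exact h1) (j := j)
      (by rw [← he]; exact hjs)
    -- the derivative
    have hd1 : ‖deriv (X.f^[j]) y‖ ≤ 2 := by
      have h3 := der_bound X.toW0 hyJ (B := Real.exp (T * (2 * e) ^ X.qq p))
        (Real.exp_pos _).le j (fun i hi => by
          have h4 := hst.2 i hi
          rw [← he] at h4
          have h5 := ((hP p hp).1 (X.f^[i] y) (by rw [mem_ball, dist_eq_norm]; linarith)).2.2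
          refine h5.trans (Real.exp_le_exp.2 ?_)
          exact mul_le_mul_of_nonneg_left (pow_le_pow_left₀ (norm_nonneg _) h4 _) hT0.le)
      refine h3.trans ?_
      rw [← Real.exp_nat_mul]
      have hexp : Real.exp (1 / 2) ≤ 2 := by
        have h1 := Real.abs_exp_sub_one_le (x := 1 / 2) (by rw [abs_of_nonneg] <;> norm_num)
        rw [abs_of_nonneg (show (0 : ℝ) ≤ 1 / 2 by norm_num)] at h1
        have h2 := le_abs_self (Real.exp (1 / 2) - 1)
        linarith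
      refine (Real.exp_le_exp.2 ?_).trans hexp
      linarith
    have hd2 : ‖deriv (X.f^[n]) v‖ ≤ L ^ n :=
      der_bound X.toW0 hvJ (by linarith) n fun i _ =>
        hLf _ (self_subset_cthickening _ (orb X.toW0 hvJ i).1)
    have hd3 : ‖deriv (X.f^[n + j]) v‖ ≤ 2 * L ^ n := by
      have h3 := itg_add X.hG X.hf (z := v) (a := n) (b := j) (fun i _ => (orb X.toW0 hvJ i).2)
      rw [h3, norm_mul, ← hy]
      exact mul_le_mul hd1 hd2 (norm_nonneg _) (by norm_num)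
    have hce' := hce c hc hl (n + j)
    rw [← hv] at hce'
    have h3 : q0 ^ (n + j) ≤ 2 * C0 * L ^ n := by
      calc q0 ^ (n + j) ≤ C0 * ‖deriv (X.f^[n + j]) v‖ := hce'
        _ ≤ C0 * (2 * L ^ n) := mul_le_mul_of_nonneg_left hd3 (by linarith)
        _ = _ := by ring
    have h4 : ((n : ℝ) + j) * Real.log q0 ≤ Real.log (2 * C0) + n * Real.log L := by
      have h5 := Real.log_le_log (by positivity) h3
      rw [Real.log_pow, Real.log_mul (by linarith) (by positivity), Real.log_pow] at h5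
      push_cast at h5
      exact h5
    have h5 : (j : ℝ) ≤ A * ((n : ℝ) + 1) := by
      have h6 : (j : ℝ) * Real.log q0 ≤ (Real.log (2 * C0) + Real.log L) * ((n : ℝ) + 1) := by
        have h7 : 0 ≤ (n : ℝ) * Real.log q0 := by positivity
        have h8 : 0 ≤ (n : ℝ) * Real.log (2 * C0) := by positivity
        nlinarith
      rw [hA, div_mul_eq_mul_div, le_div_iff₀ hlq]
      exact h6
    have h6 : 1 / (4 * T * e) < (A + 1) * ((n : ℝ) + 1) := by nlinarith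
    rw [div_lt_iff₀ hTe] at h6
    have h7 : (A + 1) * ((n : ℝ) + 1) * (4 * T * e) = 4 * T * (A + 1) * ((n : ℝ) + 1) * e := by ring
    linarith

theorem ce6 (X : P0) : ∃ C : ℝ, 1 ≤ C ∧ ∀ c' ∈ X.S, (∃ n, X.f^[n] c' ∈ X.Pa) →
    ∀ c ∈ X.Cr, (∀ n, X.f^[n] c ∉ X.Pa) →
    ∀ n : ℕ, 1 ≤ C * ((n : ℝ) + 1) * ‖X.f^[n] (X.f^[X.tau c] c) - c'‖ := by
  obtain ⟨C1, hC1, h1⟩ := ce6_pa X
  obtain ⟨C2, r, hC2, hr, h2⟩ := pmm X.toW0
  obtain ⟨C3, r3, hC3, hr3, h3⟩ := loc2 X.toW0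
  have hmm : ∀ c ∈ X.Cr, 1 ≤ X.mm c := fun c hc => by
    have := (h3 c hc).1
    omega
  refine fin_maxR X.S (fun c' C => (∃ n, X.f^[n] c' ∈ X.Pa) →
    ∀ c ∈ X.Cr, (∀ n, X.f^[n] c ∉ X.Pa) →
    ∀ n : ℕ, 1 ≤ C * ((n : ℝ) + 1) * ‖X.f^[n] (X.f^[X.tau c] c) - c'‖) ?_ ?_
  · intro c' C C' hCC h hl' c hc hl n
    refine (h hl' c hc hl n).trans ?_
    gcongr
  · intro c' hc'S
    rcases X.mem_S.1 hc'S with hc' | hc'
    swap
    · exact ⟨C1, fun _ c hc hl n => h1 c hc hl c' hc' n⟩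
    refine ⟨C1 * C2 * (X.tau c' + 1) + 1 / min r 1, fun hl' c hc hl n => ?_⟩
    obtain ⟨hp', -⟩ := tau_l X.toW0 hl'
    obtain ⟨y, hy⟩ : ∃ y : ℂ, y = X.f^[n] (X.f^[X.tau c] c) := ⟨_, rfl⟩
    rw [← hy]
    have hm : 0 < min r 1 := lt_min hr one_pos
    have hn0 : (0 : ℝ) ≤ n := Nat.cast_nonneg n
    have ht0 : (0 : ℝ) ≤ X.tau c' := Nat.cast_nonneg _
    have hpos1 : 0 ≤ C1 * C2 * (X.tau c' + 1) * ((n : ℝ) + 1) * ‖y - c'‖ := by positivity
    have hpos2 : 0 ≤ 1 / min r 1 * ((n : ℝ) + 1) * ‖y - c'‖ := by positivity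
    have hsplit : (C1 * C2 * (X.tau c' + 1) + 1 / min r 1) * ((n : ℝ) + 1) * ‖y - c'‖ =
        C1 * C2 * (X.tau c' + 1) * ((n : ℝ) + 1) * ‖y - c'‖ +
          1 / min r 1 * ((n : ℝ) + 1) * ‖y - c'‖ := by ring
    rw [hsplit]
    rcases le_or_gt (min r 1) ‖y - c'‖ with h4 | h4
    · have h5 : 1 ≤ 1 / min r 1 * ((n : ℝ) + 1) * ‖y - c'‖ := by
        calc (1 : ℝ) = 1 / min r 1 * 1 * min r 1 := by field_simp
          _ ≤ _ := by gcongr; linarith
      linarith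
    · have hyb : y ∈ ball c' r := by
        rw [mem_ball, dist_eq_norm]
        exact h4.trans_le (min_le_left _ _)
      have h5 := (h2 c' hc' y hyb).1.1
      have hM : 1 ≤ X.MM c' := (hmm c' hc').trans (mm_le_MM X.toW0 hmm hc')
      have h6 : ‖y - c'‖ ^ X.MM c' ≤ ‖y - c'‖ := by
        calc ‖y - c'‖ ^ X.MM c' ≤ ‖y - c'‖ ^ 1 :=
              pow_le_pow_of_le_one (norm_nonneg _) (h4.le.trans (min_le_right _ _)) hM
          _ = ‖y - c'‖ := pow_one _
      have h7 := h1 c hc hl _ hp' (n + X.tau c')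
      have h8 : X.f^[n + X.tau c'] (X.f^[X.tau c] c) = X.f^[X.tau c'] y := by
        rw [hy, Nat.add_comm n, Function.iterate_add_apply]
      rw [h8] at h7
      have h9 : ((n + X.tau c' : ℕ) : ℝ) + 1 ≤ (X.tau c' + 1) * ((n : ℝ) + 1) := by
        push_cast
        nlinarith
      have h10 : 1 ≤ C1 * C2 * (X.tau c' + 1) * ((n : ℝ) + 1) * ‖y - c'‖ := by
        calc (1 : ℝ) ≤ C1 * (((n + X.tau c' : ℕ) : ℝ) + 1) *
              ‖X.f^[X.tau c'] y - X.f^[X.tau c'] c'‖ := h7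
          _ ≤ C1 * ((X.tau c' + 1) * ((n : ℝ) + 1)) * (C2 * ‖y - c'‖) := by
            refine mul_le_mul (mul_le_mul_of_nonneg_left h9 (by linarith)) ?_ (norm_nonneg _)
              (by positivity)
            exact h5.trans (mul_le_mul_of_nonneg_left h6 (by linarith))
          _ = _ := by ring
      linarith

end Pool.Agent.H79.PJ
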