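import Pool.Agent.H79.PJ.RepPs
import Pool.Agent.H44.LD.CHLD
import Pool.Agent.H91.CE.CHAV

/-!
# A good chart with infinity attracted

`chart_p`: if each critical point is attracted, landing or Collet-Eckmann and there is an attracting or a parabolic
cycle, there is a chart in which infinity is attracted (without landing), not periodic, and not on a critical orbit.
-/

set_option autoImplicit false

open Filter Topology Polynomial Metric Set MeasureTheory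

namespace Pool.Agent.H79.PJ

open Pool.Agent.H44.Fatou Pool.Agent.H32.BT Pool.Agent.H79.Eul Pool.Agent.H79.Par Pool.Agent.H79.PB
open Pool.Agent.H35.RL Pool.Agent.H35.EX Pool.Agent.H91.CE

open Pool.Agent.H80.AJ in
/-- an open set avoiding the closures of finitely many orbits, inside a given one -/
theorem avoid_in {f : OnePoint ℂ → OnePoint ℂ} (hf : Continuous f) {F : Set (OnePoint ℂ)}
    (hF : F.Finite) {U0 : Set (OnePoint ℂ)} {z : OnePoint ℂ} {n : ℕ} (hU0 : IsOpen U0)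
    (hU1 : U0.Nonempty) (hU2 : ∀ x ∈ U0, CL f x z n) :
    ∃ U : Set (OnePoint ℂ), IsOpen U ∧ U.Nonempty ∧ U ⊆ U0 ∧
      ∀ x ∈ F, Disjoint (closure (Set.range fun j : ℕ => f^[j] x)) U := by
  set G : Set (OnePoint ℂ) := {x | x ∈ F ∧ ∃ j : ℕ, f^[j] x ∈ U0} with hG
  have hGF : G.Finite := hF.subset fun x hx => hx.1
  set B : Set (OnePoint ℂ) := ⋃ x ∈ G, closure (Set.range fun j : ℕ => f^[j] x) with hB
  have hBc : IsClosed B := hGF.isClosed_biUnion fun x _ => isClosed_closure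
  have hBn : B.Countable := by
    refine hGF.countable.biUnion fun x hx => ?_
    obtain ⟨-, j, hj⟩ := hx
    exact chav_closure_countable hf (hU2 _ hj)
  refine ⟨U0 \ B, hU0.sdiff hBc, ?_, Set.sdiff_subset, ?_⟩
  · have hden : DenseRange ((↑) : ℂ → OnePoint ℂ) := OnePoint.denseRange_coe
    have hne : (((↑) : ℂ → OnePoint ℂ) ⁻¹' U0).Nonempty := by
      obtain ⟨y, hy⟩ := hden.exists_mem_open hU0 hU1
      exact ⟨y, hy⟩
    have hop : IsOpen (((↑) : ℂ → OnePoint ℂ) ⁻¹' U0) := hU0.preimage OnePoint.continuous_coe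
    have hbad : {b : ℂ | (b : OnePoint ℂ) ∈ B}.Countable := hBn.preimage OnePoint.coe_injective
    obtain ⟨s, hsU, hsS⟩ := (hbad.dense_compl ℂ).inter_open_nonempty _ hop hne
    exact ⟨(s : OnePoint ℂ), hsU, hsS⟩
  · intro x hx
    by_cases hxG : ∃ j : ℕ, f^[j] x ∈ U0
    · refine Set.disjoint_left.2 fun y hy hyU => hyU.2 ?_
      exact Set.mem_biUnion (show x ∈ G from ⟨hx, hxG⟩) hy
    · have hd : Disjoint (Set.range fun j : ℕ => f^[j] x) U0 := by
        refine Set.disjoint_left.2 ?_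
        rintro y ⟨j, rfl⟩ hy
        exact hxG ⟨j, hy⟩
      exact (hd.closure_left hU0).mono_right Set.sdiff_subset

open Pool.Agent.H80.AJ in
theorem chart_p {d : ℕ} (hd : 2 ≤ d) {v0 : E d} (hcop : IsCoprime (pol v0.1) (pol v0.2))
    (hdeg : max (pol v0.1).natDegree (pol v0.2).natDegree = d)
    (h : ∀ c, IsCrit (Rf v0) c → (∃ z n, Ty12 (Rf v0) c z n ∨ Ty4 (Rf v0) c z n) ∨
      ∃ m : ℕ, CEAt (Rf v0) ((Rf v0)^[m] c))
    (hex : ∃ z n, NRCycle (Rf v0) z n) :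
    ∃ s : ℂ, Chart0 (Lin s v0) ∧ ¬ IsCrit (Rf (Lin s v0)) OnePoint.infty ∧
      OnePoint.infty ∈ Fa (Lin s v0) ∧
      ∀ c : ℂ, IsCrit (Rf (Lin s v0)) (c : OnePoint ℂ) →
        (∃ (z : ℂ) (n : ℕ), (Ty12 (Rf (Lin s v0)) (c : OnePoint ℂ) (z : OnePoint ℂ) n ∨
            Ty4 (Rf (Lin s v0)) (c : OnePoint ℂ) (z : OnePoint ℂ) n) ∧
          ∀ j, (Rf (Lin s v0))^[j] (z : OnePoint ℂ) ≠ OnePoint.infty) ∨
        ∃ m : ℕ, Gr (Lin s v0) (it (Lin s v0) m c) := by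
  classical
  have hd1 : 1 ≤ max (pol v0.1).natDegree (pol v0.2).natDegree := by rw [hdeg]; omega
  have hd2 : 2 ≤ max (pol v0.1).natDegree (pol v0.2).natDegree := by rw [hdeg]; exact hd
  have hcont : Continuous (Rf v0) := rat_continuous hcop
  have hfin : {c | IsCrit (Rf v0) c}.Finite := crit_finite hcop hd1
  obtain ⟨x0, z0, n0, U0, hT0, hU0, hx0, hU0C⟩ := cyc_open hd hcop hdeg hex
  obtain ⟨U, hU, hUn, hUU0, hUd⟩ := avoid_in hcont hfin hU0 hx0 hU0C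
  obtain ⟨S, hS⟩ : ∃ S : Set (OnePoint ℂ), S =
      (({x : OnePoint ℂ | ∃ n : ℕ, 0 < n ∧ (Rf v0)^[n] x = x} ∪ {c | IsCrit (Rf v0) c}) ∪
      (⋃ c ∈ {c | IsCrit (Rf v0) c}, Set.range (fun j : ℕ => (Rf v0)^[j] c))) ∪
      {x : OnePoint ℂ | ∃ j : ℕ, (Rf v0)^[j] x = z0} := ⟨_, rfl⟩
  have hScount : S.Countable := by
    rw [hS]
    exact (((per_all_countable hcop hd2).union hfin.countable).union
      (hfin.countable.biUnion fun c _ => Set.countable_range _)).union (pre_countable hcop hd1 z0)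
  obtain ⟨s, φ, hsS, hsU, hφs, hφ, hφi, hconj, hcop1, hdeg1⟩ := good_U hd hcop hdeg hScount hU hUn
  rw [hS] at hsS
  have hs0 : ∀ n : ℕ, 0 < n → (Rf v0)^[n] (s : OnePoint ℂ) ≠ s :=
    fun n hn hh => hsS (Or.inl (Or.inl (Or.inl ⟨n, hn, hh⟩)))
  have hs1 : ¬ IsCrit (Rf v0) (s : OnePoint ℂ) :=
    fun hh => hsS (Or.inl (Or.inl (Or.inr hh)))
  have hs2 : ∀ c, IsCrit (Rf v0) c → ∀ j, (Rf v0)^[j] c ≠ (s : OnePoint ℂ) := by
    intro c hc j hj
    apply hsS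
    refine Or.inl (Or.inr ?_)
    rw [Set.mem_iUnion₂]
    exact ⟨c, hc, j, hj⟩
  have hs3 : ∀ j, (Rf v0)^[j] (s : OnePoint ℂ) ≠ z0 := fun j hj => hsS (Or.inr ⟨j, hj⟩)
  have hne : ∀ x : OnePoint ℂ, x ≠ (s : OnePoint ℂ) → φ x ≠ OnePoint.infty := by
    intro x hx hh
    rw [← hφs] at hh
    exact hx (φ.injective hh)
  have hic : ∀ (j : ℕ) (x : OnePoint ℂ), (Rf (Lin s v0))^[j] (φ x) = φ ((Rf v0)^[j] x) :=
    fun j x => iter_conj φ hconj j x
  -- the compact set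
  obtain ⟨KK, hKKe⟩ : ∃ KK : Set (OnePoint ℂ), KK = ⋃ c ∈ {c | IsCrit (Rf v0) c},
    closure (Set.range (fun j : ℕ => (Rf v0)^[j] c)) := ⟨_, rfl⟩
  have hKKc : IsCompact KK := by
    rw [hKKe]
    exact (hfin.isClosed_biUnion fun c _ => isClosed_closure).isCompact
  have hsKK : (s : OnePoint ℂ) ∉ KK := by
    rw [hKKe, Set.mem_iUnion₂]
    rintro ⟨c, hc, hcs⟩
    exact Set.disjoint_left.1 (hUd c hc) hcs hsU
  have hKKm : ∀ x ∈ KK, Rf v0 x ∈ KK := by
    intro x hx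
    rw [hKKe, Set.mem_iUnion₂] at hx ⊢
    obtain ⟨c, hc, hx⟩ := hx
    refine ⟨c, hc, ?_⟩
    have h1 : MapsTo (Rf v0) (Set.range (fun j : ℕ => (Rf v0)^[j] c))
        (Set.range (fun j : ℕ => (Rf v0)^[j] c)) := by
      rintro _ ⟨j, rfl⟩
      exact ⟨j + 1, Function.iterate_succ_apply' _ _ _⟩
    exact h1.closure hcont hx
  have hKKi : ∀ c, IsCrit (Rf v0) c → ∀ j, (Rf v0)^[j] c ∈ KK := by
    intro c hc j
    rw [hKKe, Set.mem_iUnion₂]
    exact ⟨c, hc, subset_closure ⟨j, rfl⟩⟩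
  have hKKit : ∀ (n : ℕ), ∀ x ∈ KK, (Rf v0)^[n] x ∈ KK := by
    intro n
    induction n with
    | zero => intro x hx; exact hx
    | succ n ih =>
      intro x hx
      rw [Function.iterate_succ_apply']
      exact hKKm _ (ih x hx)
  have hKfin : ∀ x ∈ KK, φ x ≠ OnePoint.infty := by
    intro x hx
    apply hne
    intro hh
    rw [hh] at hx
    exact hsKK hx
  have horb : ∀ w : ℂ, (∃ x ∈ KK, φ x = (w : OnePoint ℂ)) →
      (∀ n, Orb (Lin s v0) (fun j => it (Lin s v0) j w) n) ∧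
      ∀ j, (Rf (Lin s v0))^[j] (w : OnePoint ℂ) = ((it (Lin s v0) j w : ℂ) : OnePoint ℂ) := by
    rintro w ⟨x, hx, hxw⟩
    apply orb_all
    intro j
    rw [← hxw, hic]
    exact hKfin _ (hKKit j x hx)
  have hcomp : IsCompact {w : ℂ | ∃ x ∈ KK, φ x = (w : OnePoint ℂ)} := by
    rw [OnePoint.isOpenEmbedding_coe.isInducing.isCompact_iff]
    have h1 : ((fun w : ℂ => (w : OnePoint ℂ)) '' {w : ℂ | ∃ x ∈ KK, φ x = (w : OnePoint ℂ)})
        = φ '' KK := by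
      ext y
      constructor
      · rintro ⟨w, ⟨x, hx, hxw⟩, rfl⟩
        exact ⟨x, hx, hxw⟩
      · rintro ⟨x, hx, rfl⟩
        obtain ⟨w, hw⟩ := OnePoint.ne_infty_iff_exists.1 (hKfin x hx)
        exact ⟨w, ⟨x, hx, hw.symm⟩, hw⟩
    have h2 : IsCompact (φ '' KK) := hKKc.image φ.continuous
    rw [← h1] at h2
    exact h2
  have hper : ∀ z : OnePoint ℂ, ∀ n : ℕ, 0 < n → (Rf v0)^[n] z = z →
      ∀ j, (Rf v0)^[j] z ≠ (s : OnePoint ℂ) := by
    intro z n hn hz j hj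
    apply hs0 n hn
    rw [← hj, ← Function.iterate_add_apply, Nat.add_comm, Function.iterate_add_apply, hz]
  have hper12 : ∀ (x z : OnePoint ℂ) (n : ℕ), Ty12 (Rf v0) x z n → 0 < n ∧ (Rf v0)^[n] z = z := by
    intro x z n hT
    rcases hT with h3 | ⟨hn, hfix, -⟩
    · exact ⟨h3.1.1, h3.1.2.1⟩
    · exact ⟨hn, Pool.Agent.H80.AJ.fixMult_fix hfix⟩
  have hchart : Chart0 (Lin s v0) := by
    refine ⟨hcop1, hdeg1, ?_, ?_⟩
    · intro n hn hcon
      rw [← hφs, hic] at hcon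
      exact hs0 n hn (φ.injective hcon)
    · intro c hc j
      obtain ⟨c', rfl⟩ := φ.surjective c
      rw [isCrit_conj φ hconj] at hc
      rw [hic]
      exact hne _ (hs2 c' hc j)
  have hTs : Ty12 (Rf v0) (s : OnePoint ℂ) z0 n0 := by
    obtain ⟨-, -, hcl⟩ := hU0C _ (hUU0 hsU)
    rcases hT0 with hT0 | hT0
    · exact Or.inl ⟨hT0.1, hcl⟩
    · exact Or.inr ⟨hT0.1, hT0.2.1, hcl, fun k => hs3 _⟩
  have hz0s : z0 ≠ (s : OnePoint ℂ) := hper z0 n0 (hper12 _ _ _ hT0).1 (hper12 _ _ _ hT0).2 0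
  refine ⟨s, hchart, ?_, ?_, ?_⟩
  · rw [← hφs, isCrit_conj φ hconj]
    exact hs1
  · refine ⟨φ z0, n0, ?_⟩
    rw [← hφs]
    obtain ⟨t1, t2, -, -⟩ := ty_conj hφs hφ hφi hconj (c := (s : OnePoint ℂ)) hz0s (n := n0)
    exact hTs.imp t1 t2
  · intro c hc
    obtain ⟨c', hc'⟩ := φ.surjective (c : OnePoint ℂ)
    have hcr : IsCrit (Rf v0) c' := by
      rw [← isCrit_conj φ hconj, hc']
      exact hc
    rcases h c' hcr with ⟨z, n, hT⟩ | ⟨m, hm⟩
    · have hzp : 0 < n ∧ (Rf v0)^[n] z = z := by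
        rcases hT with hT | ⟨hn, hfix, -⟩
        · exact hper12 _ _ _ hT
        · exact ⟨hn, Pool.Agent.H80.AJ.fixMult_fix hfix⟩
      have hz := hper z n hzp.1 hzp.2
      have hz0 : z ≠ (s : OnePoint ℂ) := hz 0
      obtain ⟨z', hz'⟩ := OnePoint.ne_infty_iff_exists.1 (hne z hz0)
      refine Or.inl ⟨z', n, ?_, fun j => ?_⟩
      · rw [hz', ← hc']
        obtain ⟨t1, t2, t3, t4⟩ := ty_conj hφs hφ hφi hconj (c := c') hz0 (n := n)
        rcases hT with hT | hT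
        · exact Or.inl (hT.imp t1 t2)
        · exact Or.inr (t4 hT)
      · rw [hz', hic]
        exact hne _ (hz j)
    · have hcK : ∃ x ∈ KK, φ x = (c : OnePoint ℂ) := ⟨c', hKKi c' hcr 0, hc'⟩
      have hitK : ∀ j, ∃ x ∈ KK, φ x = ((it (Lin s v0) j c : ℂ) : OnePoint ℂ) := by
        intro j
        refine ⟨(Rf v0)^[j] c', hKKi c' hcr j, ?_⟩
        rw [← (horb c hcK).2 j, ← hc', hic]
      refine Or.inr ⟨m, ?_⟩
      have hxw : φ ((Rf v0)^[m] c') = ((it (Lin s v0) m c : ℂ) : OnePoint ℂ) := by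
        rw [← (horb c hcK).2 m, ← hc', hic]
      refine gr_conj hφs hφ hφi hconj hxw hm hcomp ?_ ?_
      · intro j
        have h1 := hitK (j + m)
        rw [it_add] at h1
        exact h1
      · intro j
        rw [← hxw, hic]
        exact hKfin _ (hKKit j _ (hKKi c' hcr m))

end Pool.Agent.H79.PJ
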