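import Pool.Agent.H79.PJ.Fit

/-!
# The data of a map near its Julia set, with parabolic points

`DP0`: as `D0` (H44/DN/MDefs), with parabolic fixed points `Pa` of multiplier `1`, the relative thickening `Rth` and
critical points which are Collet-Eckmann or land on `Pa`. `RepP v0 N X`: the data belong to the `N`-th iterate of the
rational map `Rf v0`.
-/

set_option autoImplicit false

open Filter Topology Polynomial Metric Set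

namespace Pool.Agent.H79.PJ

open Pool.Agent.H44.Fatou Pool.Agent.H32.BT Pool.Agent.H79.Eul Pool.Agent.H79.Par Pool.Agent.H79.PB

/-- a map near its Julia set with parabolic points, before the constants are chosen -/
structure DP0 where
  f : ℂ → ℂ
  J : Set ℂ
  G : Set ℂ
  Cr : Finset ℂ
  Pa : Finset ℂ
  aa : ℂ → ℂ
  qq : ℂ → ℕ
  δ : ℝ
  hJ : IsCompact J
  hJf : ∀ z ∈ J, f z ∈ J
  hG : IsOpen G
  hf : DifferentiableOn ℂ f G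
  hδ : 0 < δ
  hδ1 : δ ≤ 1 / 2
  hU : cthickening δ J ⊆ G
  hCr : ∀ c ∈ Cr, c ∈ J
  hPa : ∀ p ∈ Pa, p ∈ J
  hPn : Pa.Nonempty
  hcr : ∀ z ∈ cthickening δ J, (deriv f z = 0 ↔ z ∈ Cr)
  hq : ∀ p ∈ Pa, 1 ≤ qq p
  ha : ∀ p ∈ Pa, aa p ≠ 0
  /-- the parabolic points are fixed with multiplier `1` -/
  par : ∀ p ∈ Pa, ∃ k : ℂ → ℂ, NF (fun u => f (p + u) - p) k (qq p) (aa p)
  /-- near a parabolic point `J` is in the cones of the repelling directions -/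
  cone : ∀ p ∈ Pa, ∀ ε : ℝ, 0 < ε → ∃ r : ℝ, 0 < r ∧ ∀ z ∈ J, z ≠ p → ‖z - p‖ < r →
    (1 - ε) * ‖aa p * (z - p) ^ qq p‖ < (aa p * (z - p) ^ qq p).re
  /-- the critical points in `J` are Collet-Eckmann or land on a parabolic point -/
  ce : ∀ c ∈ Cr, (∃ (m : ℕ) (C q : ℝ), 1 < q ∧ ∀ n : ℕ, q ^ n ≤ C * ‖deriv (f^[n]) (f^[m] c)‖) ∨
    ∃ m : ℕ, f^[m] c ∈ Pa
  /-- no normality at the points of `J` -/
  nn : ∀ x ∈ J, ∀ ρ : ℝ, 0 < ρ → ∃ N : ℕ, ∀ n ≥ N,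
    ¬ ((∀ i < n, ∀ z ∈ ball x ρ, f^[i] z ∈ G) ∧ ∀ z ∈ ball x ρ, f^[n] z ∈ Rth J Pa δ)
  /-- continuation of inverse branches -/
  cn : ∀ (i : ℕ) (x : ℂ) (r : ℝ) (g : ℂ → ℂ) (u0 : ℂ), 0 < r → ball x r ⊆ Rth J Pa δ →
    DifferentiableOn ℂ g (ball x r) →
    (∀ w ∈ ball x r, f^[i] (g w) = w ∧ ∀ j < i, f^[j] (g w) ∈ G) →
    u0 ∈ G → f u0 = g x → deriv f u0 ≠ 0 →
    (∃ h : ℂ → ℂ, DifferentiableOn ℂ h (ball x r) ∧ h x = u0 ∧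
      ∀ w ∈ ball x r, h w ∈ G ∧ f (h w) = g w) ∨
    ∃ (ρ : ℝ) (b c : ℂ) (h : ℂ → ℂ), 0 < ρ ∧ ρ < r ∧ ‖b - x‖ = ρ ∧ c ∈ Cr ∧ g b = f c ∧
      DifferentiableOn ℂ h (ball x ρ) ∧ h x = u0 ∧
      (∀ w ∈ ball x ρ, h w ∈ G ∧ f (h w) = g w) ∧ Tendsto h (𝓝[ball x ρ] b) (𝓝 c)

/-- `X` belongs to the `N`-th iterate of the rational map `Rf v0` -/
structure RepP {d : ℕ} (v0 : E d) (N : ℕ) (X : DP0) : Prop where
  hN : 0 < N
  f : ∀ z, X.f z = it v0 N z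
  J : X.J = JP v0
  G : X.G = GN v0 N
  Cr : ∀ z, z ∈ X.Cr ↔ z ∈ JP v0 ∧ ∃ j < N, wv v0 (it v0 j z) = 0
  Pa : ∀ p, p ∈ X.Pa ↔ p ∈ PP v0
  /-- the parabolic points as points of period `N` of `Rf v0` -/
  pt : ∀ p ∈ X.Pa, ParPt v0 N p (X.aa p) (X.qq p)

end Pool.Agent.H79.PJ
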