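import Pool.Agent.H79.PJ.PcrA

/-!
# Parabolic germs: bounds in exponential form, local inverse
-/

set_option autoImplicit false

open Filter Topology Polynomial Metric Set

namespace Pool.Agent.H79.PJ

open Pool.Agent.H44.Fatou Pool.Agent.H32.BT Pool.Agent.H79.Eul Pool.Agent.H79.Par Pool.Agent.H79.PB

/-- upper bounds near `0` -/
theorem exp_up {F k : ℂ → ℂ} {N : ℕ} {a : ℂ} (hN : 1 ≤ N) (ha : a ≠ 0) (h : NF F k N a) :
    ∃ r C : ℝ, 0 < r ∧ 1 ≤ C ∧ ∀ u : ℂ, ‖u‖ < r →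
      ‖F u‖ ≤ ‖u‖ * Real.exp (C * ‖u‖ ^ N) ∧ ‖u‖ ≤ ‖F u‖ * Real.exp (C * ‖u‖ ^ N) ∧
        ‖deriv F u‖ ≤ Real.exp (C * ‖u‖ ^ N) := by
  obtain ⟨r1, -, C1, hr1, -, hC1, -, h1⟩ := cone_exp hN ha h
  obtain ⟨hk, hk0, hF⟩ := h
  obtain ⟨r2, hr2, h2⟩ := Metric.eventually_nhds_iff_ball.1 hF
  obtain ⟨r3, hr3, h3⟩ := Metric.continuousAt_iff.1 hk.continuousAt 1 one_pos
  obtain ⟨B, hB⟩ : ∃ B : ℝ, B = ‖a‖ + 1 := ⟨_, rfl⟩
  have hBp : 0 < B := by rw [hB]; positivity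
  have hNn : N ≠ 0 := by omega
  obtain ⟨r4, hr4, h4⟩ : ∃ r4 : ℝ, 0 < r4 ∧ ∀ s : ℝ, 0 ≤ s → s < r4 → B * s ^ N ≤ 1 / 2 := by
    have h5 : ContinuousAt (fun s : ℝ => B * s ^ N) 0 := by fun_prop
    obtain ⟨e, he, he'⟩ := Metric.continuousAt_iff.1 h5 (1 / 2) (by norm_num)
    refine ⟨e, he, fun s hs hs' => ?_⟩
    have h6 := he' (x := s) (by rw [dist_zero_right, Real.norm_of_nonneg hs]; exact hs')
    rw [dist_eq_norm, zero_pow hNn, mul_zero, sub_zero, Real.norm_of_nonneg (by positivity)] at h6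
    exact h6.le
  refine ⟨min (min r1 r2) (min r3 r4), max 1 (max C1 (2 * B)), by positivity, le_max_left _ _,
    fun u hu => ?_⟩
  have hu1 : ‖u‖ < r1 := hu.trans_le ((min_le_left _ _).trans (min_le_left _ _))
  have hu2 : ‖u‖ < r2 := hu.trans_le ((min_le_left _ _).trans (min_le_right _ _))
  have hu3 : ‖u‖ < r3 := hu.trans_le ((min_le_right _ _).trans (min_le_left _ _))
  have hu4 : ‖u‖ < r4 := hu.trans_le ((min_le_right _ _).trans (min_le_right _ _))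
  have hx : 0 ≤ ‖u‖ ^ N := by positivity
  have hCa : C1 ≤ max 1 (max C1 (2 * B)) := (le_max_left _ _).trans (le_max_right _ _)
  have hCb : 2 * B ≤ max 1 (max C1 (2 * B)) := (le_max_right _ _).trans (le_max_right _ _)
  have hea : 1 + C1 * ‖u‖ ^ N ≤ Real.exp (max 1 (max C1 (2 * B)) * ‖u‖ ^ N) := by
    have h5 := Real.add_one_le_exp (C1 * ‖u‖ ^ N)
    have h6 : Real.exp (C1 * ‖u‖ ^ N) ≤ Real.exp (max 1 (max C1 (2 * B)) * ‖u‖ ^ N) :=
      Real.exp_le_exp.2 (mul_le_mul_of_nonneg_right hCa hx)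
    linarith
  obtain ⟨-, h5, h6⟩ := h1 u hu1
  refine ⟨h6.trans (mul_le_mul_of_nonneg_left hea (norm_nonneg _)), ?_, h5.trans hea⟩
  have h7 := h2 u (by rw [mem_ball, dist_zero_right]; exact hu2)
  have h8 := h3 (by rw [dist_zero_right]; exact hu3)
  rw [dist_eq_norm, hk0] at h8
  have h9 : ‖k u‖ ≤ B := by
    have h10 := norm_add_le a (k u - a)
    rw [add_sub_cancel] at h10
    rw [hB]
    linarith
  have h10 : B * ‖u‖ ^ N ≤ 1 / 2 := h4 _ (norm_nonneg _) hu4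
  have h11 : 1 - B * ‖u‖ ^ N ≤ ‖1 + u ^ N * k u‖ := by
    have h12 := norm_sub_norm_le (1 : ℂ) (-(u ^ N * k u))
    rw [sub_neg_eq_add, norm_neg, norm_one, norm_mul, norm_pow] at h12
    have h13 : ‖u‖ ^ N * ‖k u‖ ≤ B * ‖u‖ ^ N := by
      rw [mul_comm]
      exact mul_le_mul_of_nonneg_right h9 hx
    linarith
  have e : F u = u * (1 + u ^ N * k u) := by rw [h7]; ring
  have h12 : 1 + 2 * (B * ‖u‖ ^ N) ≤ Real.exp (max 1 (max C1 (2 * B)) * ‖u‖ ^ N) := by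
    have h5 := Real.add_one_le_exp (2 * B * ‖u‖ ^ N)
    have h6 : Real.exp (2 * B * ‖u‖ ^ N) ≤ Real.exp (max 1 (max C1 (2 * B)) * ‖u‖ ^ N) :=
      Real.exp_le_exp.2 (mul_le_mul_of_nonneg_right hCb hx)
    linarith
  have hy0 : 0 ≤ B * ‖u‖ ^ N := by positivity
  rw [e, norm_mul, mul_assoc]
  have h13 : 1 ≤ ‖1 + u ^ N * k u‖ * Real.exp (max 1 (max C1 (2 * B)) * ‖u‖ ^ N) := by
    calc (1 : ℝ) ≤ (1 - B * ‖u‖ ^ N) * (1 + 2 * (B * ‖u‖ ^ N)) := by nlinarith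
      _ ≤ _ := mul_le_mul h11 h12 (by positivity) (norm_nonneg _)
  calc ‖u‖ = ‖u‖ * 1 := (mul_one _).symm
    _ ≤ _ := mul_le_mul_of_nonneg_left h13 (norm_nonneg _)

theorem exp_half {c x : ℝ} (hc : 0 ≤ c) (hx : 0 ≤ x) (h : c * x ≤ 1) :
    Real.exp (c / 2 * x) ≤ 1 + c * x := by
  have h1 : |c / 2 * x| ≤ 1 := by
    rw [abs_of_nonneg (by positivity)]
    have : 0 ≤ c * x := by positivity
    linarith
  have h2 := Real.abs_exp_sub_one_le h1
  rw [abs_of_nonneg (show 0 ≤ c / 2 * x by positivity)] at h2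
  have h3 := le_abs_self (Real.exp (c / 2 * x) - 1)
  linarith

/-- expansion in the cones -/
theorem exp_lo {F k : ℂ → ℂ} {N : ℕ} {a : ℂ} (hN : 1 ≤ N) (ha : a ≠ 0) (h : NF F k N a) :
    ∃ r κ : ℝ, 0 < r ∧ 0 < κ ∧ ∀ u : ℂ, ‖u‖ < r → 1 / 2 * ‖a * u ^ N‖ ≤ (a * u ^ N).re →
      ‖u‖ * Real.exp (κ * ‖u‖ ^ N) ≤ ‖F u‖ ∧
        ‖F u‖ * Real.exp (κ * ‖u‖ ^ N) ≤ ‖u‖ * ‖deriv F u‖ := by
  obtain ⟨K, hKa, hK0, hKF⟩ := nf_der h
  obtain ⟨hk, hk0, hF⟩ := h
  have hNr : (0 : ℝ) < (N : ℝ) := by exact_mod_cast (by omega : 0 < N)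
  have hNn : N ≠ 0 := by omega
  obtain ⟨r1, c1, hr1, hc1, h1⟩ := fac_low (N := N) (a := a) (b := a)
    (m := 1) one_pos (by push_cast; ring) ha hk.continuousAt hk0
  obtain ⟨K2, hK2⟩ : ∃ K2 : ℂ → ℂ, K2 = fun u => (K u - k u) / (1 + u ^ N * k u) := ⟨_, rfl⟩
  have hden : (1 : ℂ) + 0 ^ N * k 0 ≠ 0 := by
    rw [zero_pow hNn, zero_mul, add_zero]
    exact one_ne_zero
  have hcd : ContinuousAt (fun u : ℂ => 1 + u ^ N * k u) 0 :=
    continuousAt_const.add ((continuousAt_id.pow N).mul hk.continuousAt)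
  have hK2c : ContinuousAt K2 0 := by
    rw [hK2]
    exact (hKa.continuousAt.sub hk.continuousAt).div hcd hden
  have hK20 : K2 0 = (N : ℂ) * a := by
    rw [hK2]
    simp only
    rw [hK0, hk0, zero_pow hNn, zero_mul, add_zero, div_one]
    ring
  obtain ⟨r2, c2, hr2, hc2, h2⟩ := fac_low (N := N) (a := a) (b := (N : ℂ) * a)
    (m := (N : ℝ)) hNr (by push_cast; ring) ha hK2c hK20
  obtain ⟨r3, hr3, h3⟩ := Metric.eventually_nhds_iff_ball.1
    ((hKF.and hF).and (hcd.eventually_ne hden))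
  obtain ⟨c, hc, hcc1, hcc2⟩ : ∃ c : ℝ, 0 < c ∧ c ≤ c1 ∧ c ≤ c2 :=
    ⟨min c1 c2, lt_min hc1 hc2, min_le_left _ _, min_le_right _ _⟩
  obtain ⟨r4, hr4, h4⟩ : ∃ r4 : ℝ, 0 < r4 ∧ ∀ s : ℝ, 0 ≤ s → s < r4 → c * s ^ N ≤ 1 := by
    have h5 : ContinuousAt (fun s : ℝ => c * s ^ N) 0 := by fun_prop
    obtain ⟨e, he, he'⟩ := Metric.continuousAt_iff.1 h5 1 (by norm_num)
    refine ⟨e, he, fun s hs hs' => ?_⟩
    have h6 := he' (x := s) (by rw [dist_zero_right, Real.norm_of_nonneg hs]; exact hs')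
    rw [dist_eq_norm, zero_pow hNn, mul_zero, sub_zero, Real.norm_of_nonneg (by positivity)] at h6
    exact h6.le
  refine ⟨min (min r1 r2) (min r3 r4), c / 2, by positivity, by positivity, fun u hu hcu => ?_⟩
  have hu1 : ‖u‖ < r1 := hu.trans_le ((min_le_left _ _).trans (min_le_left _ _))
  have hu2 : ‖u‖ < r2 := hu.trans_le ((min_le_left _ _).trans (min_le_right _ _))
  have hu3 : ‖u‖ < r3 := hu.trans_le ((min_le_right _ _).trans (min_le_left _ _))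
  have hu4 : ‖u‖ < r4 := hu.trans_le ((min_le_right _ _).trans (min_le_right _ _))
  have hx : 0 ≤ ‖u‖ ^ N := by positivity
  have hexp := exp_half hc.le hx (h4 _ (norm_nonneg _) hu4)
  obtain ⟨⟨h5, h6⟩, h7⟩ := h3 u (by rw [mem_ball, dist_zero_right]; exact hu3)
  have e : F u = u * (1 + u ^ N * k u) := by rw [h6]; ring
  have h8 := h1 u hu1 hcu
  have h9 := h2 u hu2 hcu
  have h10 : c * ‖u‖ ^ N ≤ c1 * ‖u‖ ^ N := mul_le_mul_of_nonneg_right hcc1 hx
  have h11 : c * ‖u‖ ^ N ≤ c2 * ‖u‖ ^ N := mul_le_mul_of_nonneg_right hcc2 hx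
  constructor
  · rw [e, norm_mul]
    exact mul_le_mul_of_nonneg_left (by linarith) (norm_nonneg _)
  · have h12 : 1 + u ^ N * K u = (1 + u ^ N * k u) * (1 + u ^ N * K2 u) := by
      rw [hK2]
      field_simp
      ring
    rw [h5.deriv, e, norm_mul, h12, norm_mul, mul_assoc]
    refine mul_le_mul_of_nonneg_left ?_ (norm_nonneg _)
    exact mul_le_mul_of_nonneg_left (by linarith) (norm_nonneg _)

/-- a local inverse -/
theorem loc_inv {F k : ℂ → ℂ} {N : ℕ} {a : ℂ} (hN : 1 ≤ N) (h : NF F k N a) {η : ℝ} (hη : 0 < η) :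
    ∃ (r : ℝ) (φ : ℂ → ℂ), 0 < r ∧ DifferentiableOn ℂ φ (ball 0 r) ∧
      (∀ w ∈ ball (0 : ℂ) r, F (φ w) = w ∧ ‖φ w‖ < η ∧ ‖φ w‖ ≤ 2 * ‖w‖ ∧ ‖deriv φ w‖ ≤ 2) ∧
      ∀ u ∈ ball (0 : ℂ) r, φ (F u) = u := by
  obtain ⟨K, -, -, hKF⟩ := nf_der h
  obtain ⟨hk, hk0, hF⟩ := h
  have hNn : N ≠ 0 := by omega
  have hF0 : F 0 = 0 := by
    have h1 := hF.self_of_nhds
    rw [h1, zero_pow (by omega), zero_mul, add_zero]
  have hFa : AnalyticAt ℂ F 0 := by
    have h1 : AnalyticAt ℂ (fun u => u + u ^ (N + 1) * k u) 0 :=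
      analyticAt_id.add ((analyticAt_id.pow (N + 1)).mul hk)
    exact h1.congr (hF.mono fun u hu => hu.symm)
  have hd1 : HasDerivAt F 1 0 := by
    have h1 := hKF.self_of_nhds
    rwa [zero_pow hNn, zero_mul, add_zero] at h1
  have hs : HasStrictDerivAt F 1 0 := by
    have h1 := hFa.hasStrictDerivAt
    rwa [hd1.deriv] at h1
  obtain ⟨φ, hφ⟩ : ∃ φ : ℂ → ℂ, φ = hs.localInverse F 1 0 one_ne_zero := ⟨_, rfl⟩
  have hφd : HasStrictDerivAt φ (1 : ℂ)⁻¹ (F 0) := by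
    rw [hφ]
    exact hs.to_localInverse one_ne_zero
  rw [hF0, inv_one] at hφd
  have hφ0 : φ 0 = 0 := by
    have h1 := hs.hasStrictFDerivAt_equiv one_ne_zero
    have h2 := h1.localInverse_apply_image
    rw [hF0] at h2
    rw [hφ]
    exact h2
  have hl : ∀ᶠ u in 𝓝 (0 : ℂ), φ (F u) = u := by
    have h1 := hs.hasStrictFDerivAt_equiv one_ne_zero
    have h2 := h1.eventually_left_inverse
    rw [hφ]
    exact h2
  have hr : ∀ᶠ w in 𝓝 (0 : ℂ), F (φ w) = w := by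
    have h1 := hs.hasStrictFDerivAt_equiv one_ne_zero
    have h2 := h1.eventually_right_inverse
    rw [hF0] at h2
    rw [hφ]
    exact h2
  -- differentiable nearby
  have hdiff : ∀ᶠ w in 𝓝 (0 : ℂ), HasDerivAt φ (deriv F (φ w))⁻¹ w := by
    have hφc : ContinuousAt φ 0 := hφd.hasDerivAt.continuousAt
    have h1 : Tendsto φ (𝓝 0) (𝓝 0) := by
      have h2 := hφc.tendsto
      rwa [hφ0] at h2
    have h3 : ∀ᶠ u in 𝓝 (0 : ℂ), AnalyticAt ℂ F u ∧ deriv F u ≠ 0 := by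
      refine hFa.eventually_analyticAt.and ?_
      have h4 : ContinuousAt (deriv F) 0 := hFa.deriv.continuousAt
      refine h4.eventually_ne ?_
      rw [hd1.deriv]
      exact one_ne_zero
    have hev : ∀ᶠ w in 𝓝 (0 : ℂ), ContinuousAt φ w := by
      have h4 : ∀ᶠ w in 𝓝 (0 : ℂ), ContDiffAt ℂ 1 φ w := by
        have h5 : ContDiffAt ℂ 1 F 0 := hFa.contDiffAt
        have h6 : HasFDerivAt F ((ContinuousLinearEquiv.unitsEquivAut ℂ (Units.mk0 1 one_ne_zero)) : ℂ →L[ℂ] ℂ) 0 :=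
          (hs.hasStrictFDerivAt_equiv one_ne_zero).hasFDerivAt
        have h7 := h5.to_localInverse h6 (by norm_num)
        rw [hF0] at h7
        have h8 : h5.localInverse h6 (by norm_num) =ᶠ[𝓝 0] φ := by
          have h9 := (h5.hasStrictFDerivAt' h6 (by norm_num)).eventually_right_inverse
          rw [hF0] at h9
          have h10 : Tendsto (h5.localInverse h6 (by norm_num)) (𝓝 0) (𝓝 0) := by
            have h11 := h7.continuousAt.tendsto
            have h12 : h5.localInverse h6 (by norm_num) 0 = 0 := by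
              have h13 := (h5.hasStrictFDerivAt' h6 (by norm_num)).localInverse_apply_image
              rw [hF0] at h13
              exact h13
            rwa [h12] at h11
          filter_upwards [h9, h10.eventually hl] with w hw1 hw2
          have h13 : F (h5.localInverse h6 (by norm_num) w) = w := hw1
          rw [h13] at hw2
          exact hw2.symm
        exact (h7.congr_of_eventuallyEq h8.symm).eventually (by simp)
      filter_upwards [h4] with w hw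
      exact hw.continuousAt
    filter_upwards [hr.eventually_nhds, h1.eventually h3, hev] with w h5 h6 h7
    exact h6.1.differentiableAt.hasDerivAt.of_local_left_inverse h7 h6.2 h5
  have hφc : ContinuousAt φ 0 := hφd.hasDerivAt.continuousAt
  have hT : Tendsto φ (𝓝 0) (𝓝 0) := by
    have h2 := hφc.tendsto
    rwa [hφ0] at h2
  have hsmall : ∀ᶠ w in 𝓝 (0 : ℂ), ‖φ w‖ < η := by
    have h1 := hT.norm
    rw [norm_zero] at h1
    exact h1.eventually (gt_mem_nhds hη)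
  have hd2 : ∀ᶠ w in 𝓝 (0 : ℂ), ‖deriv φ w‖ ≤ 2 := by
    have h1 : ContinuousAt (fun w => ‖(deriv F (φ w))⁻¹‖) 0 := by
      have h2 : ContinuousAt (deriv F) (φ 0) := by
        rw [hφ0]
        exact hFa.deriv.continuousAt
      refine (ContinuousAt.inv₀ (ContinuousAt.comp h2 hφc) ?_).norm
      show deriv F (φ 0) ≠ 0
      rw [hφ0, hd1.deriv]
      exact one_ne_zero
    have h3 : ‖(deriv F (φ 0))⁻¹‖ < 2 := by
      rw [hφ0, hd1.deriv]
      norm_num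
    filter_upwards [hdiff, h1.eventually (gt_mem_nhds h3)] with w hw hw2
    rw [hw.deriv]
    exact hw2.le
  obtain ⟨r, hr0, hrb⟩ := Metric.eventually_nhds_iff_ball.1
    (hl.and (hr.and (hdiff.and (hsmall.and hd2))))
  refine ⟨r, φ, hr0, fun w hw => ?_, fun w hw => ?_, fun u hu => (hrb u hu).1⟩
  · exact (hrb w hw).2.2.1.differentiableAt.differentiableWithinAt
  · obtain ⟨-, h1, h2, h3, h4⟩ := hrb w hw
    refine ⟨h1, h3, ?_, h4⟩
    have h5 := (convex_ball (0 : ℂ) r).norm_image_sub_le_of_norm_deriv_le (f := φ) (C := 2)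
      (fun x hx => (hrb x hx).2.2.1.differentiableAt) (fun x hx => (hrb x hx).2.2.2.2)
      (mem_ball_self hr0) hw
    rwa [hφ0, sub_zero, sub_zero] at h5

end Pool.Agent.H79.PJ
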