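import Pool.Agent.H79.PJ.Nnp

/-!
# An iterate of a rational map in the coordinates of the map

`V : E D` with `Rf V = (Rf v0)^[N]`: the same attracted points, the same parabolic points; on the open set
`GN v0 N` (no pole among the first `N` points) `it V 1 = it v0 N`.
-/

set_option autoImplicit false

open Filter Topology Polynomial Metric Set

namespace Pool.Agent.H79.PJ

open Pool.Agent.H44.Fatou Pool.Agent.H32.BT Pool.Agent.H79.Eul Pool.Agent.H79.Par Pool.Agent.H79.PB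
open Pool.Agent.H80.AJ (fixMult_fix iter_fixed)

/-- no pole among the first `N` points of the orbit -/
def GN {d : ℕ} (v0 : E d) (N : ℕ) : Set ℂ := {z | ∀ j < N, ev v0.2 (it v0 j z) ≠ 0}

theorem gn_orb {d : ℕ} {v0 : E d} {N : ℕ} {z : ℂ} (hz : z ∈ GN v0 N) :
    Orb v0 (fun j => it v0 j z) N := fun j hj => ⟨hz j hj, rfl⟩

theorem gn_open {d : ℕ} (v0 : E d) (N : ℕ) : IsOpen (GN v0 N) := by
  rw [isOpen_iff_mem_nhds]
  intro z hz
  filter_upwards [orb_shift (gn_orb hz)] with y hy j hj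
  exact (hy j hj).1

theorem gn_deriv {d : ℕ} {v0 : E d} {N : ℕ} {z : ℂ} (hz : z ∈ GN v0 N) :
    HasDerivAt (fun z => it v0 N z) (trD v0 N z) z := tr_hasDerivAt v0 z N hz

theorem gn_rat {d : ℕ} {v0 : E d} {N : ℕ} {z : ℂ} (hz : z ∈ GN v0 N) {j : ℕ} (hj : j ≤ N) :
    (Rf v0)^[j] (z : OnePoint ℂ) = ((it v0 j z : ℂ) : OnePoint ℂ) :=
  rat_it fun i hi => hz i (lt_of_lt_of_le hi hj)

theorem gn_of_fin {d : ℕ} {v0 : E d} {N : ℕ} {z : ℂ}
    (h : ∀ j ≤ N, (Rf v0)^[j] (z : OnePoint ℂ) ≠ OnePoint.infty) : z ∈ GN v0 N :=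
  fun j hj => (orb_of_fin h j hj).1

theorem trD_zero {d : ℕ} {v0 : E d} {N : ℕ} {z : ℂ} (hz : z ∈ GN v0 N) :
    trD v0 N z = 0 ↔ ∃ j < N, wv v0 (it v0 j z) = 0 := by
  unfold trD
  rw [Finset.prod_eq_zero_iff]
  constructor
  · rintro ⟨j, hj, h⟩
    rw [div_eq_zero_iff] at h
    rcases h with h | h
    · exact ⟨j, Finset.mem_range.1 hj, h⟩
    · exact absurd h (pow_ne_zero 2 (hz j (Finset.mem_range.1 hj)))
  · rintro ⟨j, hj, h⟩
    exact ⟨j, Finset.mem_range.2 hj, by rw [h, zero_div]⟩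

section

variable {d D N : ℕ} {v0 : E d} {V : E D}

theorem fit_den (hV : ∀ x : OnePoint ℂ, Rf V x = (Rf v0)^[N] x) {z : ℂ} (hz : z ∈ GN v0 N) :
    ev V.2 z ≠ 0 ∧ it V 1 z = it v0 N z := by
  have h1 := hV (z : OnePoint ℂ)
  rw [gn_rat hz le_rfl] at h1
  have h2 : ev V.2 z ≠ 0 := by
    intro h0
    have h3 : Rf V (z : OnePoint ℂ) = OnePoint.infty := by
      show rat (pol V.1) (pol V.2) (z : OnePoint ℂ) = OnePoint.infty
      rw [rat_coe, pol_eval, pol_eval]
      unfold pt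
      rw [if_pos h0]
    rw [h3] at h1
    exact OnePoint.infty_ne_coe _ h1
  refine ⟨h2, ?_⟩
  have h3 : Rf V (z : OnePoint ℂ) = (it V 1 z : OnePoint ℂ) := by
    show rat (pol V.1) (pol V.2) (z : OnePoint ℂ) = _
    rw [rat_coe_of_ne (by rw [pol_eval]; exact h2), pol_eval, pol_eval]
    rfl
  rw [h3] at h1
  exact OnePoint.coe_injective h1

theorem fit_ev (hV : ∀ x : OnePoint ℂ, Rf V x = (Rf v0)^[N] x) {z : ℂ} (hz : z ∈ GN v0 N) :
    it V 1 =ᶠ[𝓝 z] fun z => it v0 N z := by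
  filter_upwards [(gn_open v0 N).mem_nhds hz] with y hy
  exact (fit_den hV hy).2

theorem fit_wv (hV : ∀ x : OnePoint ℂ, Rf V x = (Rf v0)^[N] x) {z : ℂ} (hz : z ∈ GN v0 N) :
    wv V z = 0 ↔ ∃ j < N, wv v0 (it v0 j z) = 0 := by
  rw [← trD_zero hz]
  have h1 : HasDerivAt (it V 1) (wv V z / ev V.2 z ^ 2) z :=
    tr_hasDerivAt_ev V z (fit_den hV hz).1
  have h2 : HasDerivAt (it V 1) (trD v0 N z) z := (gn_deriv hz).congr_of_eventuallyEq (fit_ev hV hz)
  rw [← h1.unique h2, div_eq_zero_iff]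
  constructor
  · intro h
    exact Or.inl h
  · rintro (h | h)
    · exact h
    · exact absurd h (pow_ne_zero 2 (fit_den hV hz).1)

theorem fit_iter (hV : ∀ x : OnePoint ℂ, Rf V x = (Rf v0)^[N] x) (n : ℕ) (x : OnePoint ℂ) :
    (Rf V)^[n] x = (Rf v0)^[N * n] x := by
  rw [Function.iterate_mul]
  congr 1
  have h : Rf V = (Rf v0)^[N] := by
    funext x
    exact hV x
  rw [h]

theorem fit_fa (hN : 0 < N) (hV : ∀ x : OnePoint ℂ, Rf V x = (Rf v0)^[N] x) : Fa V = Fa v0 := by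
  have hfun : Rf V = (Rf v0)^[N] := by
    funext x
    exact hV x
  ext x
  constructor
  · rintro ⟨z, n, ⟨⟨hn, hz, U, hU, hUt⟩, ht⟩ | ⟨hn, hm, hl, hne⟩⟩
    · refine ⟨z, N * n, Or.inl ⟨⟨Nat.mul_pos hN hn, ?_, U, hU, fun w hw => ?_⟩, ?_⟩⟩
      · rwa [fit_iter hV] at hz
      · refine (hUt w hw).congr fun k => ?_
        rw [fit_iter hV, Nat.mul_assoc]
      · refine ht.congr fun k => ?_
        rw [fit_iter hV, Nat.mul_assoc]
    · refine ⟨z, N * n, Or.inr ⟨Nat.mul_pos hN hn, ?_, ?_, fun k => ?_⟩⟩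
      · rwa [hfun, ← Function.iterate_mul] at hm
      · refine hl.congr fun k => ?_
        rw [fit_iter hV, Nat.mul_assoc]
      · have h := hne k
        rwa [fit_iter hV, ← Nat.mul_assoc] at h
  · have hT : Tendsto (fun k : ℕ => N * k) atTop atTop :=
      tendsto_atTop_mono (fun k => Nat.le_mul_of_pos_left k hN) tendsto_id
    rintro ⟨z, n, ⟨⟨hn, hz, U, hU, hUt⟩, ht⟩ | ⟨hn, hm, hl, hne⟩⟩
    · refine ⟨z, n, Or.inl ⟨⟨hn, ?_, U, hU, fun w hw => ?_⟩, ?_⟩⟩
      · rw [fit_iter hV, Nat.mul_comm]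
        exact iter_fixed hz N
      · refine ((hUt w hw).comp hT).congr fun k => ?_
        simp only [Function.comp_apply]
        rw [fit_iter hV]
        congr 1
        ring
      · refine (ht.comp hT).congr fun k => ?_
        simp only [Function.comp_apply]
        rw [fit_iter hV]
        congr 1
        ring
    · refine ⟨z, n, Or.inr ⟨hn, ?_, ?_, fun k => ?_⟩⟩
      · rw [hfun, ← Function.iterate_mul, Nat.mul_comm]
        exact fixMult_mul hm N
      · refine (hl.comp hT).congr fun k => ?_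
        simp only [Function.comp_apply]
        rw [fit_iter hV]
        congr 1
        ring
      · rw [fit_iter hV]
        have h := hne (N * k)
        have e : n * (N * k) = N * (n * k) := by ring
        rwa [e] at h

theorem fit_jp (hN : 0 < N) (hV : ∀ x : OnePoint ℂ, Rf V x = (Rf v0)^[N] x) : JP V = JP v0 := by
  unfold JP
  rw [fit_fa hN hV]

theorem fit_pp (hN : 0 < N) (hV : ∀ x : OnePoint ℂ, Rf V x = (Rf v0)^[N] x) : PP V = PP v0 := by
  have hfun : Rf V = (Rf v0)^[N] := by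
    funext x
    exact hV x
  ext p
  constructor
  · rintro ⟨n, hn, h⟩
    rw [hfun, ← Function.iterate_mul] at h
    exact ⟨N * n, Nat.mul_pos hN hn, h⟩
  · rintro ⟨n, hn, h⟩
    refine ⟨n, hn, ?_⟩
    rw [hfun, ← Function.iterate_mul, Nat.mul_comm]
    exact fixMult_mul h N

/-- the iterates of the iterate -/
theorem fit_its (hV : ∀ x : OnePoint ℂ, Rf V x = (Rf v0)^[N] x) {z : ℂ} {i : ℕ}
    (hz : ∀ j < i, (fun z => it v0 N z)^[j] z ∈ GN v0 N) :
    (∀ j ≤ i, (it V 1)^[j] z = (fun z => it v0 N z)^[j] z) ∧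
      ∀ j < i, ev V.2 ((it V 1)^[j] z) ≠ 0 := by
  have h1 : ∀ j ≤ i, (it V 1)^[j] z = (fun z => it v0 N z)^[j] z := by
    intro j
    induction j with
    | zero => intro _; rfl
    | succ j ih =>
      intro hj
      rw [Function.iterate_succ_apply', Function.iterate_succ_apply', ih (by omega)]
      exact (fit_den hV (hz j (by omega))).2
  refine ⟨h1, fun j hj => ?_⟩
  rw [h1 j hj.le]
  exact (fit_den hV (hz j hj)).1

end

/-- the iterates of `it v0 N` -/
theorem itN_iter {d : ℕ} (v0 : E d) (N j : ℕ) (z : ℂ) :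
    (fun z => it v0 N z)^[j] z = it v0 (N * j) z := by
  induction j with
  | zero => rfl
  | succ j ih =>
    rw [Function.iterate_succ_apply', ih]
    show it v0 N (it v0 (N * j) z) = it v0 (N * (j + 1)) z
    rw [← Pool.Agent.H79.Par.it_add, Nat.mul_succ, Nat.add_comm]

theorem jp_it {d : ℕ} {v0 : E d} (hcop : IsCoprime (pol v0.1) (pol v0.2)) (hper : NPer v0)
    (hinf : OnePoint.infty ∈ Fa v0) {z : ℂ} (hz : z ∈ JP v0) (j : ℕ) : it v0 j z ∈ JP v0 := by
  induction j with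
  | zero => exact hz
  | succ j ih =>
    have h := (jp_step hcop hper hinf ih).2.2
    rwa [← Pool.Agent.H79.Par.it_add, Nat.add_comm] at h

theorem jp_gn {d : ℕ} {v0 : E d} (hcop : IsCoprime (pol v0.1) (pol v0.2)) (hper : NPer v0)
    (hinf : OnePoint.infty ∈ Fa v0) {z : ℂ} (hz : z ∈ JP v0) (N : ℕ) : z ∈ GN v0 N :=
  gn_of_fin fun j _ => jp_fin hcop hper hinf hz j

end Pool.Agent.H79.PJ
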