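import Pool.Agent.H79.PJ.Nnv

/-!
# The frontier of the set of attracted points

`AF v0`: the attracted points of the plane, `JF v0` its frontier: compact, invariant, contains the parabolic points and
the points with Collet-Eckmann or landing orbits.
-/

set_option autoImplicit false

open Filter Topology Polynomial Metric Set MeasureTheory

namespace Pool.Agent.H79.PJ

open Pool.Agent.H44.Fatou Pool.Agent.H32.BT Pool.Agent.H79.Eul Pool.Agent.H79.Par Pool.Agent.H79.PB
open Pool.Agent.H80.AJ (fixMult_fix iter_fixed)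
open Pool.Agent.H91.CE (Gr)

/-- the attracted points of the plane -/
def AF {d : ℕ} (v0 : E d) : Set ℂ := {z | (z : OnePoint ℂ) ∈ Fa v0}

/-- the frontier of the set of attracted points -/
def JF {d : ℕ} (v0 : E d) : Set ℂ := frontier (AF v0)

section

variable {d : ℕ} {v0 : E d}

theorem af_open (hd : 2 ≤ d) (hcop : IsCoprime (pol v0.1) (pol v0.2))
    (hdeg : max (pol v0.1).natDegree (pol v0.2).natDegree = d) (hper : NPer v0) :
    IsOpen (AF v0) :=
  (fa_open hd hcop hdeg hper).preimage OnePoint.continuous_coe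

theorem jf_iff (hd : 2 ≤ d) (hcop : IsCoprime (pol v0.1) (pol v0.2))
    (hdeg : max (pol v0.1).natDegree (pol v0.2).natDegree = d) (hper : NPer v0) (z : ℂ) :
    z ∈ JF v0 ↔ z ∈ closure (AF v0) ∧ z ∈ JP v0 := by
  have h := (af_open hd hcop hdeg hper).frontier_eq
  show z ∈ frontier (AF v0) ↔ _
  rw [h]
  rfl

theorem jf_cpt (hd : 2 ≤ d) (hcop : IsCoprime (pol v0.1) (pol v0.2))
    (hdeg : max (pol v0.1).natDegree (pol v0.2).natDegree = d) (hper : NPer v0)
    (hinf : OnePoint.infty ∈ Fa v0) : IsCompact (JF v0) :=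
  (jp_cpt hd hcop hdeg hper hinf).of_isClosed_subset isClosed_frontier
    fun z hz => ((jf_iff hd hcop hdeg hper z).1 hz).2

theorem jf_sub (hd : 2 ≤ d) (hcop : IsCoprime (pol v0.1) (pol v0.2))
    (hdeg : max (pol v0.1).natDegree (pol v0.2).natDegree = d) (hper : NPer v0) :
    JF v0 ⊆ JP v0 := fun z hz => ((jf_iff hd hcop hdeg hper z).1 hz).2

theorem it1_cont {z : ℂ} (hz : ev v0.2 z ≠ 0) : ContinuousAt (it v0 1) z :=
  (tr_hasDerivAt_ev v0 z hz).continuousAt

theorem ev_nhds {z : ℂ} (hz : ev v0.2 z ≠ 0) : ∀ᶠ y in 𝓝 z, ev v0.2 y ≠ 0 := by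
  have hevc : Continuous (fun z : ℂ => ev v0.2 z) :=
    ev_cont.comp (continuous_const.prodMk continuous_id)
  exact (isOpen_ne_fun hevc continuous_const).mem_nhds hz

theorem af_step (hcop : IsCoprime (pol v0.1) (pol v0.2)) (hper : NPer v0) {z : ℂ}
    (hz : ev v0.2 z ≠ 0) : it v0 1 z ∈ AF v0 ↔ z ∈ AF v0 := by
  have h2 : Rf v0 (z : OnePoint ℂ) = (it v0 1 z : OnePoint ℂ) := by
    show rat (pol v0.1) (pol v0.2) (z : OnePoint ℂ) = _
    rw [rat_coe_of_ne (by rw [pol_eval]; exact hz), pol_eval, pol_eval]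
    rfl
  show (it v0 1 z : OnePoint ℂ) ∈ Fa v0 ↔ _
  rw [← h2, fa_map hcop hper]
  rfl

theorem jf_step (hd : 2 ≤ d) (hcop : IsCoprime (pol v0.1) (pol v0.2))
    (hdeg : max (pol v0.1).natDegree (pol v0.2).natDegree = d) (hper : NPer v0)
    (hinf : OnePoint.infty ∈ Fa v0) {z : ℂ} (hz : z ∈ JF v0) : it v0 1 z ∈ JF v0 := by
  rw [jf_iff hd hcop hdeg hper] at hz ⊢
  obtain ⟨hc, hJ⟩ := hz
  obtain ⟨h0, -, h2⟩ := jp_step hcop hper hinf hJ
  refine ⟨?_, h2⟩
  rw [mem_closure_iff_nhds]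
  intro U hU
  have h3 : ∀ᶠ y in 𝓝 z, it v0 1 y ∈ U ∧ ev v0.2 y ≠ 0 :=
    ((it1_cont h0).eventually hU).and (ev_nhds h0)
  obtain ⟨y, ⟨hy1, hy2⟩, hy3⟩ := mem_closure_iff_nhds.1 hc _ h3
  exact ⟨it v0 1 y, hy1, (af_step hcop hper hy2).2 hy3⟩

theorem jf_it (hd : 2 ≤ d) (hcop : IsCoprime (pol v0.1) (pol v0.2))
    (hdeg : max (pol v0.1).natDegree (pol v0.2).natDegree = d) (hper : NPer v0)
    (hinf : OnePoint.infty ∈ Fa v0) {z : ℂ} (hz : z ∈ JF v0) (j : ℕ) : it v0 j z ∈ JF v0 := by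
  induction j with
  | zero => exact hz
  | succ j ih =>
    have h := jf_step hd hcop hdeg hper hinf ih
    rwa [← Pool.Agent.H79.Par.it_add, Nat.add_comm] at h

theorem par_jf (hd : 2 ≤ d) (hcop : IsCoprime (pol v0.1) (pol v0.2))
    (hdeg : max (pol v0.1).natDegree (pol v0.2).natDegree = d) (hper : NPer v0) {p : ℂ}
    (hp : p ∈ PP v0) : p ∈ JF v0 := by
  obtain ⟨n, hn, h⟩ := hp
  rw [jf_iff hd hcop hdeg hper]
  refine ⟨?_, par_jp hd hcop hdeg hper hn h⟩
  obtain ⟨p', a, q, hpp, hP⟩ := par_pt hd hcop hdeg hper hn h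
  have e := OnePoint.coe_injective hpp
  subst e
  obtain ⟨r, hr, hb⟩ := basin_near_par hP (ε := 1) one_pos
  obtain ⟨-, hq, ha, x, k, rfl, -, -, -, hnf⟩ := hP
  obtain ⟨u0, -, hu, hlim⟩ := att_orbit hq ha hnf hr
  have h1 : Tendsto (fun j : ℕ => x 0 + (fun u => it v0 n (x 0 + u) - x 0)^[j] u0) atTop
      (𝓝 (x 0)) := by
    have h2 := hlim.const_add (x 0)
    rwa [add_zero] at h2
  refine mem_closure_of_tendsto h1 (Eventually.of_forall fun j => ?_)
  obtain ⟨h2, h3, h4⟩ := hu j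
  refine fa_of_basin (hb _ h2 h3 (h4.trans ?_))
  have h5 := norm_nonneg (a * (fun u => it v0 n (x 0 + u) - x 0)^[j] u0 ^ q)
  rw [sub_self, zero_mul]
  linarith

theorem int_of_not (hd : 2 ≤ d) (hcop : IsCoprime (pol v0.1) (pol v0.2))
    (hdeg : max (pol v0.1).natDegree (pol v0.2).natDegree = d) (hper : NPer v0) {z : ℂ}
    (hz : z ∈ JP v0) (hz' : z ∉ JF v0) : z ∈ interior (JP v0) := by
  have h1 : z ∉ closure (AF v0) := fun h => hz' ((jf_iff hd hcop hdeg hper z).2 ⟨h, hz⟩)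
  rw [mem_interior_iff_mem_nhds]
  filter_upwards [isClosed_closure.isOpen_compl.mem_nhds h1] with y hy hyA
  exact hy (subset_closure hyA)

theorem int_not (hd : 2 ≤ d) (hcop : IsCoprime (pol v0.1) (pol v0.2))
    (hdeg : max (pol v0.1).natDegree (pol v0.2).natDegree = d) (hper : NPer v0) {z : ℂ}
    (hz : z ∈ interior (JP v0)) : z ∉ JF v0 := by
  intro h
  rw [jf_iff hd hcop hdeg hper] at h
  obtain ⟨y, hy1, hy2⟩ := mem_closure_iff_nhds.1 h.1 _ (mem_interior_iff_mem_nhds.1 hz)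
  exact hy1 hy2

theorem int_step (hd : 2 ≤ d) (hcop : IsCoprime (pol v0.1) (pol v0.2))
    (hdeg : max (pol v0.1).natDegree (pol v0.2).natDegree = d) (hper : NPer v0)
    (hinf : OnePoint.infty ∈ Fa v0) {z : ℂ} (hz : z ∈ interior (JP v0)) :
    it v0 1 z ∈ interior (JP v0) := by
  have hJ : z ∈ JP v0 := interior_subset hz
  have h0 := (jp_step hcop hper hinf hJ).1
  have hG : IsOpen {y : ℂ | ev v0.2 y ≠ 0} := by
    have hevc : Continuous (fun z : ℂ => ev v0.2 z) :=
      ev_cont.comp (continuous_const.prodMk continuous_id)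
    exact isOpen_ne_fun hevc continuous_const
  have hf : DifferentiableOn ℂ (it v0 1) {y : ℂ | ev v0.2 y ≠ 0} := fun y hy =>
    (tr_hasDerivAt_ev v0 y hy).differentiableAt.differentiableWithinAt
  have han : AnalyticAt ℂ (it v0 1) z := hf.analyticAt (hG.mem_nhds h0)
  rcases han.eventually_constant_or_nhds_le_map_nhds with h | h
  · exfalso
    have h1 : ∀ᶠ y in 𝓝 z, wv v0 y = 0 := by
      filter_upwards [h.eventually_nhds, ev_nhds h0] with y hy hy0
      have h2 : HasDerivAt (it v0 1) (wv v0 y / ev v0.2 y ^ 2) y := tr_hasDerivAt_ev v0 y hy0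
      have h3 : it v0 1 =ᶠ[𝓝 y] fun _ => it v0 1 z := hy
      have h4 : HasDerivAt (it v0 1) 0 y := (hasDerivAt_const y _).congr_of_eventuallyEq h3
      have h5 := h2.unique h4
      rcases div_eq_zero_iff.1 h5 with h6 | h6
      · exact h6
      · exact absurd h6 (pow_ne_zero 2 hy0)
    exact (infinite_of_mem_nhds z h1) (Pool.Agent.H91.CE.wv_ne hd hcop hdeg)
  · rw [mem_interior_iff_mem_nhds]
    apply h
    show (it v0 1) ⁻¹' (JP v0) ∈ 𝓝 z
    filter_upwards [isOpen_interior.mem_nhds hz] with y hy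
    exact (jp_step hcop hper hinf (interior_subset hy)).2.2

theorem int_it (hd : 2 ≤ d) (hcop : IsCoprime (pol v0.1) (pol v0.2))
    (hdeg : max (pol v0.1).natDegree (pol v0.2).natDegree = d) (hper : NPer v0)
    (hinf : OnePoint.infty ∈ Fa v0) {z : ℂ} (hz : z ∈ interior (JP v0)) (j : ℕ) :
    it v0 j z ∈ interior (JP v0) := by
  induction j with
  | zero => exact hz
  | succ j ih =>
    have h := int_step hd hcop hdeg hper hinf ih
    rwa [← Pool.Agent.H79.Par.it_add, Nat.add_comm] at h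

/-- no exponential growth in the interior of the complement -/
theorem int_gr (hd : 2 ≤ d) (hcop : IsCoprime (pol v0.1) (pol v0.2))
    (hdeg : max (pol v0.1).natDegree (pol v0.2).natDegree = d) (hper : NPer v0)
    (hinf : OnePoint.infty ∈ Fa v0) {y : ℂ} (hy : y ∈ interior (JP v0)) : ¬ Gr v0 y := by
  rintro ⟨c, q, hc, hq, h⟩
  obtain ⟨r, hr, hball⟩ := Metric.mem_nhds_iff.1 (mem_interior_iff_mem_nhds.1 hy)
  obtain ⟨B, hB⟩ := (jp_cpt hd hcop hdeg hper hinf).isBounded.exists_norm_le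
  have hbd : ∀ n : ℕ, ‖trD v0 n y‖ ≤ B / (r / 2) := by
    intro n
    have hd1 : ∀ z ∈ ball y r, HasDerivAt (fun z => it v0 n z) (trD v0 n z) z := fun z hz =>
      gn_deriv (jp_gn hcop hper hinf (hball hz) n)
    have hsub : closedBall y (r / 2) ⊆ ball y r := closedBall_subset_ball (by linarith)
    rw [← (hd1 y (mem_ball_self hr)).deriv]
    refine Complex.norm_deriv_le_of_forall_mem_sphere_norm_le (by positivity) ?_ fun w hw =>
      hB _ (jp_it hcop hper hinf (hball (hsub (sphere_subset_closedBall hw))) n)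
    refine DifferentiableOn.diffContOnCl ?_
    rw [closure_ball _ (by positivity : r / 2 ≠ 0)]
    exact fun z hz => (hd1 z (hsub hz)).differentiableAt.differentiableWithinAt
  have h1 : Tendsto (fun n : ℕ => c * q ^ n) atTop atTop :=
    (tendsto_pow_atTop_atTop_of_one_lt hq).const_mul_atTop hc
  obtain ⟨n, hn⟩ := (h1.eventually_gt_atTop (B / (r / 2))).exists
  have h2 := (h n).trans (hbd n)
  linarith

/-- the points with Collet-Eckmann or landing orbits are in the frontier -/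
theorem cr_jf (hd : 2 ≤ d) (hcop : IsCoprime (pol v0.1) (pol v0.2))
    (hdeg : max (pol v0.1).natDegree (pol v0.2).natDegree = d) (hper : NPer v0)
    (hinf : OnePoint.infty ∈ Fa v0) {c : ℂ} (hc : c ∈ JP v0)
    (h : (∃ m : ℕ, Gr v0 (it v0 m c)) ∨ ∃ m : ℕ, it v0 m c ∈ PP v0) : c ∈ JF v0 := by
  by_contra hcon
  have h1 := int_of_not hd hcop hdeg hper hc hcon
  rcases h with ⟨m, h⟩ | ⟨m, h⟩
  · exact int_gr hd hcop hdeg hper hinf (int_it hd hcop hdeg hper hinf h1 m) h
  · exact int_not hd hcop hdeg hper (int_it hd hcop hdeg hper hinf h1 m)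
      (par_jf hd hcop hdeg hper h)

end

end Pool.Agent.H79.PJ
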