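import Pool.Agent.H79.PJ.PDefs

/-!
# Port of LOC2 (H44/DN) to the data `W0`
-/

set_option autoImplicit false

open Filter Topology Metric Set

namespace Pool.Agent.H79.PJ



/-- the points of the critical set are interior points of the thickening -/
theorem loc2_nhds (X : W0) {c : ℂ} (hc : c ∈ X.Cr) : ∀ᶠ z in 𝓝 c, z ∈ cthickening X.δ X.J := by
  have h1 : c ∈ thickening X.δ X.J := self_subset_thickening X.hδ _ (X.hCr c hc)
  filter_upwards [isOpen_thickening.mem_nhds h1] with z hz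
  exact thickening_subset_cthickening _ _ hz

theorem loc2_an (X : W0) {c : ℂ} (hc : c ∈ X.Cr) : AnalyticAt ℂ X.f c := by
  have h1 : c ∈ X.G := X.hU (self_subset_cthickening _ (X.hCr c hc))
  exact X.hf.analyticAt (X.hG.mem_nhds h1)

theorem loc2_form (X : W0) {c : ℂ} (hc : c ∈ X.Cr) : ∃ h : ℂ → ℂ, AnalyticAt ℂ h c ∧ h c ≠ 0 ∧
    ∀ᶠ z in 𝓝 c, X.f z - X.f c = (z - c) ^ X.mm c * h z := by
  have hF : AnalyticAt ℂ (fun z => X.f z - X.f c) c := (loc2_an X hc).sub analyticAt_const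
  have hne : analyticOrderAt (fun z => X.f z - X.f c) c ≠ ⊤ := by
    intro htop
    rw [analyticOrderAt_eq_top] at htop
    have h1 : ∀ᶠ z in 𝓝 c, deriv X.f z = 0 := by
      have h2 : ∀ᶠ z in 𝓝 c, ∀ᶠ w in 𝓝 z, X.f w - X.f c = 0 := htop.eventually_nhds
      filter_upwards [h2] with z hz
      have h3 : X.f =ᶠ[𝓝 z] fun _ => X.f c := by
        filter_upwards [hz] with w hw
        exact sub_eq_zero.mp hw
      rw [h3.deriv_eq]
      exact deriv_const _ _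
    have h2 : ∀ᶠ z in 𝓝 c, z ∈ X.Cr := by
      filter_upwards [h1, loc2_nhds X hc] with z hz hz1
      exact (X.hcr z hz1).mp hz
    have h3 : ∀ᶠ z in 𝓝[≠] c, z ∈ X.Cr := h2.filter_mono nhdsWithin_le_nhds
    have h4 : ∀ᶠ z in 𝓝[≠] c, z ∉ X.Cr := by
      have h5 : IsClosed ((X.Cr.erase c : Finset ℂ) : Set ℂ) := (Finset.finite_toSet _).isClosed
      have h6 : c ∉ ((X.Cr.erase c : Finset ℂ) : Set ℂ) := by simp
      have h7 : ∀ᶠ z in 𝓝 c, z ∉ ((X.Cr.erase c : Finset ℂ) : Set ℂ) :=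
        h5.isOpen_compl.mem_nhds h6
      rw [eventually_nhdsWithin_iff]
      filter_upwards [h7] with z hz hz1 hz2
      apply hz
      simp only [Finset.coe_erase, Set.mem_sdiff, Finset.mem_coe, Set.mem_singleton_iff]
      exact ⟨hz2, hz1⟩
    obtain ⟨z, hz, hz'⟩ := (h3.and h4).exists
    exact hz' hz
  obtain ⟨h, h1, h2, h3⟩ := hF.analyticOrderAt_ne_top.mp hne
  refine ⟨h, h1, h2, ?_⟩
  filter_upwards [h3] with z hz
  rw [hz, smul_eq_mul]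
  rfl

theorem loc2_deriv (X : W0) {c : ℂ} (hc : c ∈ X.Cr) : 2 ≤ X.mm c ∧
    ∃ h : ℂ → ℂ, AnalyticAt ℂ h c ∧ h c ≠ 0 ∧
      ∀ᶠ z in 𝓝 c, deriv X.f z = (z - c) ^ (X.mm c - 1) * h z := by
  obtain ⟨h, h1, h2, h3⟩ := loc2_form X hc
  have hm1 : X.mm c ≠ 0 := by
    intro h0
    have h4 := h3.self_of_nhds
    rw [h0] at h4
    simp only [sub_self, pow_zero, one_mul] at h4
    exact h2 h4.symm
  have hd : ∀ᶠ z in 𝓝 c, deriv X.f z =
      (z - c) ^ (X.mm c - 1) * ((X.mm c : ℂ) * h z + (z - c) * deriv h z) := by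
    filter_upwards [h3.eventually_nhds, h1.eventually_analyticAt] with z hz hz1
    have h5 : X.f =ᶠ[𝓝 z] fun w => (w - c) ^ X.mm c * h w + X.f c := by
      filter_upwards [hz] with w hw
      rw [← hw]; ring
    rw [h5.deriv_eq]
    have h6 : HasDerivAt (fun w => (w - c) ^ X.mm c * h w + X.f c)
        (((X.mm c : ℂ) * (z - c) ^ (X.mm c - 1) * 1) * h z + (z - c) ^ X.mm c * deriv h z) z :=
      ((((hasDerivAt_id' z).sub_const c).pow (X.mm c)).mul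
        hz1.differentiableAt.hasDerivAt).add_const _
    rw [h6.deriv]
    have h7 : (z - c) ^ X.mm c = (z - c) ^ (X.mm c - 1) * (z - c) := by
      rw [← pow_succ]
      congr 1
      omega
    rw [h7]; ring
  have h0 : ((X.mm c : ℂ) * h c + (c - c) * deriv h c) ≠ 0 := by
    rw [sub_self, zero_mul, add_zero]
    exact mul_ne_zero (Nat.cast_ne_zero.mpr hm1) h2
  refine ⟨?_, fun z => (X.mm c : ℂ) * h z + (z - c) * deriv h z, ?_, h0, hd⟩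
  · by_contra hlt
    have h1' : X.mm c - 1 = 0 := by omega
    have h4 := hd.self_of_nhds
    rw [h1', pow_zero, one_mul] at h4
    have h5 : deriv X.f c = 0 :=
      (X.hcr c (self_subset_cthickening _ (X.hCr c hc))).mpr hc
    rw [h5] at h4
    exact h0 h4.symm
  · exact (analyticAt_const.mul h1).add ((analyticAt_id.sub analyticAt_const).mul h1.deriv)

theorem loc2_bd {h : ℂ → ℂ} {c : ℂ} (ha : AnalyticAt ℂ h c) (h0 : h c ≠ 0) :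
    ∃ C : ℝ, 1 ≤ C ∧ ∀ᶠ z in 𝓝 c, ‖h z‖ ≤ C ∧ 1 ≤ C * ‖h z‖ := by
  have hp : 0 < ‖h c‖ := norm_pos_iff.mpr h0
  have ht : Tendsto (fun z => ‖h z‖) (𝓝 c) (𝓝 ‖h c‖) := ha.continuousAt.norm
  refine ⟨1 + 2 * ‖h c‖ + 2 / ‖h c‖, ?_, ?_⟩
  · have : 0 < 2 / ‖h c‖ := by positivity
    linarith
  · have h1 : ∀ᶠ z in 𝓝 c, ‖h z‖ < 2 * ‖h c‖ := ht.eventually_lt_const (by linarith)
    have h2 : ∀ᶠ z in 𝓝 c, ‖h c‖ / 2 < ‖h z‖ := ht.eventually_const_lt (by linarith)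
    filter_upwards [h1, h2] with z hz1 hz2
    have h3 : 0 < 2 / ‖h c‖ := by positivity
    refine ⟨by linarith, ?_⟩
    have h4 : 2 / ‖h c‖ * (‖h c‖ / 2) = 1 := by field_simp
    have h5 : 2 / ‖h c‖ * (‖h c‖ / 2) ≤ 2 / ‖h c‖ * ‖h z‖ :=
      mul_le_mul_of_nonneg_left hz2.le h3.le
    have h6 : 0 ≤ ‖h z‖ := norm_nonneg _
    have h7 : 0 ≤ 2 * ‖h c‖ * ‖h z‖ := by positivity
    nlinarith

theorem loc2_one (X : W0) {c : ℂ} (hc : c ∈ X.Cr) : ∃ C r : ℝ, 1 ≤ C ∧ 0 < r ∧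
    ∀ z ∈ ball c r, (‖X.f z - X.f c‖ ≤ C * ‖z - c‖ ^ X.mm c ∧
      ‖z - c‖ ^ X.mm c ≤ C * ‖X.f z - X.f c‖) ∧
    (‖deriv X.f z‖ ≤ C * ‖z - c‖ ^ (X.mm c - 1) ∧
      ‖z - c‖ ^ (X.mm c - 1) ≤ C * ‖deriv X.f z‖) := by
  obtain ⟨h, h1, h2, h3⟩ := loc2_form X hc
  obtain ⟨-, g, g1, g2, g3⟩ := loc2_deriv X hc
  obtain ⟨C1, hC1, hb1⟩ := loc2_bd h1 h2
  obtain ⟨C2, hC2, hb2⟩ := loc2_bd g1 g2
  have hall : ∀ᶠ z in 𝓝 c, (‖X.f z - X.f c‖ ≤ max C1 C2 * ‖z - c‖ ^ X.mm c ∧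
      ‖z - c‖ ^ X.mm c ≤ max C1 C2 * ‖X.f z - X.f c‖) ∧
    (‖deriv X.f z‖ ≤ max C1 C2 * ‖z - c‖ ^ (X.mm c - 1) ∧
      ‖z - c‖ ^ (X.mm c - 1) ≤ max C1 C2 * ‖deriv X.f z‖) := by
    filter_upwards [h3, g3, hb1, hb2] with z a1 a2 a3 a4
    rw [a1, a2, norm_mul, norm_mul, norm_pow, norm_pow]
    have l1 : C1 ≤ max C1 C2 := le_max_left _ _
    have l2 : C2 ≤ max C1 C2 := le_max_right _ _
    have p1 : 0 ≤ ‖z - c‖ ^ X.mm c := by positivity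
    have p2 : 0 ≤ ‖z - c‖ ^ (X.mm c - 1) := by positivity
    have n1 : 0 ≤ ‖h z‖ := norm_nonneg _
    have n2 : 0 ≤ ‖g z‖ := norm_nonneg _
    refine ⟨⟨?_, ?_⟩, ?_, ?_⟩
    · rw [mul_comm]
      exact mul_le_mul_of_nonneg_right (a3.1.trans l1) p1
    · have h5 : 1 ≤ max C1 C2 * ‖h z‖ := a3.2.trans (mul_le_mul_of_nonneg_right l1 n1)
      calc ‖z - c‖ ^ X.mm c = 1 * ‖z - c‖ ^ X.mm c := (one_mul _).symm
        _ ≤ (max C1 C2 * ‖h z‖) * ‖z - c‖ ^ X.mm c := mul_le_mul_of_nonneg_right h5 p1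
        _ = _ := by ring
    · rw [mul_comm]
      exact mul_le_mul_of_nonneg_right (a4.1.trans l2) p2
    · have h5 : 1 ≤ max C1 C2 * ‖g z‖ := a4.2.trans (mul_le_mul_of_nonneg_right l2 n2)
      calc ‖z - c‖ ^ (X.mm c - 1) = 1 * ‖z - c‖ ^ (X.mm c - 1) := (one_mul _).symm
        _ ≤ (max C1 C2 * ‖g z‖) * ‖z - c‖ ^ (X.mm c - 1) := mul_le_mul_of_nonneg_right h5 p2
        _ = _ := by ring
  obtain ⟨r, hr, hball⟩ := Metric.eventually_nhds_iff_ball.mp hall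
  exact ⟨max C1 C2, r, hC1.trans (le_max_left _ _), hr, hball⟩

theorem loc2 (X : W0) : ∃ C r : ℝ, 1 ≤ C ∧ 0 < r ∧ ∀ c ∈ X.Cr, 2 ≤ X.mm c ∧
    (∀ z ∈ ball c r, ‖X.f z - X.f c‖ ≤ C * ‖z - c‖ ^ X.mm c ∧
      ‖z - c‖ ^ X.mm c ≤ C * ‖X.f z - X.f c‖) ∧
    ∀ z ∈ ball c r, ‖deriv X.f z‖ ≤ C * ‖z - c‖ ^ (X.mm c - 1) ∧
      ‖z - c‖ ^ (X.mm c - 1) ≤ C * ‖deriv X.f z‖ := by
  classical
  have key : ∀ s : Finset ℂ, s ⊆ X.Cr → ∃ C r : ℝ, 1 ≤ C ∧ 0 < r ∧ ∀ c ∈ s,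
      ∀ z ∈ ball c r, (‖X.f z - X.f c‖ ≤ C * ‖z - c‖ ^ X.mm c ∧
        ‖z - c‖ ^ X.mm c ≤ C * ‖X.f z - X.f c‖) ∧
      (‖deriv X.f z‖ ≤ C * ‖z - c‖ ^ (X.mm c - 1) ∧
        ‖z - c‖ ^ (X.mm c - 1) ≤ C * ‖deriv X.f z‖) := by
    intro s
    induction s using Finset.induction_on with
    | empty => intro _; exact ⟨1, 1, le_refl _, one_pos, by simp⟩
    | insert a s ha ih =>
      intro hs
      obtain ⟨C1, r1, hC1, hr1, h1⟩ := ih (fun x hx => hs (Finset.mem_insert_of_mem hx))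
      obtain ⟨C2, r2, hC2, hr2, h2⟩ := loc2_one X (hs (Finset.mem_insert_self a s))
      refine ⟨max C1 C2, min r1 r2, hC1.trans (le_max_left _ _), lt_min hr1 hr2, ?_⟩
      have up : ∀ (C : ℝ), C ≤ max C1 C2 → ∀ c z : ℂ,
          ((‖X.f z - X.f c‖ ≤ C * ‖z - c‖ ^ X.mm c ∧
            ‖z - c‖ ^ X.mm c ≤ C * ‖X.f z - X.f c‖) ∧
          (‖deriv X.f z‖ ≤ C * ‖z - c‖ ^ (X.mm c - 1) ∧
            ‖z - c‖ ^ (X.mm c - 1) ≤ C * ‖deriv X.f z‖)) →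
          ((‖X.f z - X.f c‖ ≤ max C1 C2 * ‖z - c‖ ^ X.mm c ∧
            ‖z - c‖ ^ X.mm c ≤ max C1 C2 * ‖X.f z - X.f c‖) ∧
          (‖deriv X.f z‖ ≤ max C1 C2 * ‖z - c‖ ^ (X.mm c - 1) ∧
            ‖z - c‖ ^ (X.mm c - 1) ≤ max C1 C2 * ‖deriv X.f z‖)) := by
        intro C hC c z h
        exact ⟨⟨h.1.1.trans (mul_le_mul_of_nonneg_right hC (by positivity)),
          h.1.2.trans (mul_le_mul_of_nonneg_right hC (norm_nonneg _))⟩,
          h.2.1.trans (mul_le_mul_of_nonneg_right hC (by positivity)),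
          h.2.2.trans (mul_le_mul_of_nonneg_right hC (norm_nonneg _))⟩
      intro c hc z hz
      rcases Finset.mem_insert.mp hc with rfl | hc
      · exact up C2 (le_max_right _ _) _ _ (h2 z (ball_subset_ball (min_le_right _ _) hz))
      · exact up C1 (le_max_left _ _) _ _ (h1 c hc z (ball_subset_ball (min_le_left _ _) hz))
  obtain ⟨C, r, hC, hr, h⟩ := key X.Cr (Finset.Subset.refl _)
  exact ⟨C, r, hC, hr, fun c hc => ⟨(loc2_deriv X hc).1, fun z hz => (h c hc z hz).1,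
    fun z hz => (h c hc z hz).2⟩⟩

theorem loc2_cmp {h g : ℂ → ℂ} {c : ℂ} (ha : AnalyticAt ℂ h c) (h0 : h c ≠ 0)
    (ga : AnalyticAt ℂ g c) {k m : ℕ}
    (he : ∀ᶠ z in 𝓝 c, (z - c) ^ k * h z = (z - c) ^ m * g z) : m ≤ k := by
  by_contra hlt
  have h1 : ∀ᶠ z in 𝓝[≠] c, h z = (z - c) ^ (m - k) * g z := by
    rw [eventually_nhdsWithin_iff]
    filter_upwards [he] with z hz hz1
    have h2 : z - c ≠ 0 := sub_ne_zero.mpr hz1
    have h3 : (z - c) ^ m = (z - c) ^ k * (z - c) ^ (m - k) := by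
      rw [← pow_add]
      congr 1
      omega
    rw [h3, mul_assoc] at hz
    exact mul_left_cancel₀ (pow_ne_zero k h2) hz
  have t1 : Tendsto h (𝓝[≠] c) (𝓝 (h c)) := ha.continuousAt.tendsto.mono_left nhdsWithin_le_nhds
  have t2 : Tendsto (fun z => (z - c) ^ (m - k) * g z) (𝓝[≠] c) (𝓝 ((c - c) ^ (m - k) * g c)) := by
    have h4 : ContinuousAt (fun z => (z - c) ^ (m - k) * g z) c :=
      ((continuousAt_id.sub continuousAt_const).pow _).mul ga.continuousAt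
    exact h4.tendsto.mono_left nhdsWithin_le_nhds
  have t3 : Tendsto h (𝓝[≠] c) (𝓝 ((c - c) ^ (m - k) * g c)) :=
    t2.congr' (h1.mono fun z hz => hz.symm)
  have h5 := tendsto_nhds_unique t1 t3
  rw [sub_self, zero_pow (by omega), zero_mul] at h5
  exact h0 h5

theorem loc2_order (X : W0) {c : ℂ} (hc : c ∈ X.Cr) {k : ℕ} {h : ℂ → ℂ} (ha : AnalyticAt ℂ h c)
    (h0 : h c ≠ 0) (he : ∀ᶠ z in 𝓝 c, deriv X.f z = (z - c) ^ k * h z) : k = X.mm c - 1 := by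
  obtain ⟨-, g, g1, g2, g3⟩ := loc2_deriv X hc
  have h1 : ∀ᶠ z in 𝓝 c, (z - c) ^ k * h z = (z - c) ^ (X.mm c - 1) * g z := by
    filter_upwards [he, g3] with z a b
    rw [← a, b]
  exact le_antisymm (loc2_cmp g1 g2 ha (h1.mono fun z hz => hz.symm)) (loc2_cmp ha h0 g1 h1)

end Pool.Agent.H79.PJ
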