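import Pool.Agent.H79.PJ.ChartP
import Pool.Agent.H79.Par.CFinal
import Pool.Agent.H79.Par.ChartVol
import Pool.Agent.H35.EX.DensK
import Pool.Agent.H44.LD.LFIN
import Pool.Agent.H44.LD.RAT
import Pool.Agent.H44.DN.DRT

/-!
# Assembly of the density theorem

`p_main`: full density of the hyperbolic maps at the maps whose critical points are attracted, landing or
Collet-Eckmann, with an attracting or a parabolic cycle, from the corresponding statement on one Collet-Eckmann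
critical point (`PGood`).
-/

set_option autoImplicit false

open Filter Topology Polynomial Metric Set MeasureTheory

namespace Pool.Agent.H79.PJ

open Pool.Agent.H44.Fatou Pool.Agent.H32.BT Pool.Agent.H79.Eul Pool.Agent.H79.Par Pool.Agent.H79.PB
open Pool.Agent.H35.RL Pool.Agent.H35.EX Pool.Agent.H91.CE

/-- the statement on one Collet-Eckmann critical point which does not land -/
def PGood (d : ℕ) : Prop := ∀ v0 : E d, Hyp v0 → Chart0 v0 → ∀ c : ℂ, wv v0 c = 0 → c ∈ JP v0 →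
  (∀ m : ℕ, it v0 m c ∉ PP v0) → CGood v0 c

theorem chart_hyp {d : ℕ} (hd : 2 ≤ d) {v0 : E d} (h0 : Chart0 v0) (hinf : OnePoint.infty ∈ Fa v0)
    (hc : ∀ c : ℂ, IsCrit (Rf v0) (c : OnePoint ℂ) →
      (∃ (z : ℂ) (n : ℕ), (Ty12 (Rf v0) (c : OnePoint ℂ) (z : OnePoint ℂ) n ∨
          Ty4 (Rf v0) (c : OnePoint ℂ) (z : OnePoint ℂ) n) ∧
        ∀ j, (Rf v0)^[j] (z : OnePoint ℂ) ≠ OnePoint.infty) ∨
      ∃ m : ℕ, Gr v0 (it v0 m c)) : Hyp v0 := by
  have hd1 : 1 ≤ max (pol v0.1).natDegree (pol v0.2).natDegree := by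
    rw [h0.2.1]
    omega
  refine ⟨hd, h0.1, h0.2.1, h0.2.2.1, hinf, ?_⟩
  intro c hw hcJ
  have hcr : IsCrit (Rf v0) (c : OnePoint ℂ) := by
    apply crit_of_wr h0.1 hd1
    rw [← wv_cf (d := d) (pol_deg _) (pol_deg _), cf_pol, cf_pol]
    exact hw
  rcases hc c hcr with ⟨z, n, hT, -⟩ | hG
  · rcases hT with hT | ⟨hn, hfix, m, hm⟩
    · exact absurd ⟨(z : OnePoint ℂ), n, hT⟩ hcJ
    · refine Or.inr ⟨m, n, hn, ?_⟩
      have h1 := (orb_all (h0.2.2.2 _ hcr)).2 m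
      rw [← h1, hm]
      exact hfix
  · exact Or.inl hG

theorem p_main {d : ℕ} (hd : 2 ≤ d) (hP : PGood d) {v0 : E d}
    (hcop : IsCoprime (pol v0.1) (pol v0.2))
    (hdeg : max (pol v0.1).natDegree (pol v0.2).natDegree = d)
    (h : ∀ c, IsCrit (Rf v0) c → (∃ z n, Ty12 (Rf v0) c z n ∨ Ty4 (Rf v0) c z n) ∨
      ∃ m : ℕ, CEAt (Rf v0) ((Rf v0)^[m] c))
    (hex : ∃ z n, NRCycle (Rf v0) z n) :
    Tendsto (fun r : ℝ => Pool.Agent.H44.LD.prop v0 HypDeg r) (𝓝[>] 0) (𝓝 0) := by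
  obtain ⟨s, h0, h1, h2, h3⟩ := chart_p hd hcop hdeg h hex
  have hV := rob_null hd h0.1 h0.2.1
  have hH : Hyp (Lin s v0) := chart_hyp hd h0 h2 h3
  refine chart_vol s (by omega) (c_final hd h0.1 h0.2.1 h1 fun c hcr => ?_)
  have hw : wv (Lin s v0) c = 0 := by
    have h5 := crit_coe hcr
    rw [← wv_cf (d := d) (pol_deg _) (pol_deg _), cf_pol, cf_pol] at h5
    exact h5
  have hcf := h0.2.2.2 _ hcr
  by_cases hc4 : ∃ (z : ℂ) (n : ℕ), (Ty12 (Rf (Lin s v0)) (c : OnePoint ℂ) (z : OnePoint ℂ) n ∨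
      Ty4 (Rf (Lin s v0)) (c : OnePoint ℂ) (z : OnePoint ℂ) n) ∧
      ∀ j, (Rf (Lin s v0))^[j] (z : OnePoint ℂ) ≠ OnePoint.infty
  · obtain ⟨z, n, hT, hzf⟩ := hc4
    rcases hT with hT | hT
    · exact sub_c (sub_basin ⟨z, n, hT, hcf, hzf⟩ hV)
    · exact Pool.Agent.H35.PL.land_good hd h0 hw hT
  · have hfinz : ∀ (z : OnePoint ℂ) (n : ℕ), 0 < n → (Rf (Lin s v0))^[n] z = z →
        ∀ j, (Rf (Lin s v0))^[j] z ≠ OnePoint.infty := by
      intro z n hn hz j hj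
      apply h0.2.2.1 n hn
      rw [← hj, ← Function.iterate_add_apply, Nat.add_comm, Function.iterate_add_apply, hz]
    have key : ∀ (z : OnePoint ℂ) (n : ℕ), (Ty12 (Rf (Lin s v0)) (c : OnePoint ℂ) z n ∨
        Ty4 (Rf (Lin s v0)) (c : OnePoint ℂ) z n) → False := by
      intro z n hT
      have hzp : 0 < n ∧ (Rf (Lin s v0))^[n] z = z := by
        rcases hT with (hT | hT) | hT
        · exact ⟨hT.1.1, hT.1.2.1⟩
        · exact ⟨hT.1, Pool.Agent.H80.AJ.fixMult_fix hT.2.1⟩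
        · exact ⟨hT.1, Pool.Agent.H80.AJ.fixMult_fix hT.2.1⟩
      have hzf := hfinz z n hzp.1 hzp.2
      obtain ⟨z', hz'⟩ := OnePoint.ne_infty_iff_exists.1 (hzf 0)
      rw [Function.iterate_zero, id] at hz'
      exact hc4 ⟨z', n, by rw [hz']; exact hT, by rw [hz']; exact hzf⟩
    refine hP _ hH h0 c hw ?_ ?_
    · rintro ⟨z, n, hT⟩
      exact key z n (Or.inl hT)
    · rintro m ⟨n, hn, hfix⟩
      refine key _ n (Or.inr ⟨hn, hfix, m, ?_⟩)
      exact (orb_all hcf).2 m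

end Pool.Agent.H79.PJ
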