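import Pool.Agent.H79.PJ.JF
import Pool.Agent.H44.DP.Ddf

/-!
# The data before the constants are chosen

`W0`: the part used for the local forms. `P0`: with the cones and the regions `VV`, no normality and continuation of
inverse branches. `mm c` the local degree, `tau c` the terminal time: the arrival time in `Pa` for landing points, the
first time `≥ 1` after which the orbit does not meet `Cr` otherwise; `MM c` the product of the local degrees before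
this time. `RepF v0 N X`: the data belong to the `N`-th iterate of `Rf v0`.
-/

set_option autoImplicit false

open Filter Topology Polynomial Metric Set

namespace Pool.Agent.H79.PJ

open Pool.Agent.H44.Fatou Pool.Agent.H32.BT Pool.Agent.H79.Eul Pool.Agent.H79.Par Pool.Agent.H79.PB

/-- a map near its Julia set with parabolic points, the part used for the local forms -/
structure W0 where
  f : ℂ → ℂ
  J : Set ℂ
  G : Set ℂ
  Cr : Finset ℂ
  Pa : Finset ℂ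
  δ : ℝ
  hJ : IsCompact J
  hJf : ∀ z ∈ J, f z ∈ J
  hG : IsOpen G
  hf : DifferentiableOn ℂ f G
  hδ : 0 < δ
  hδ1 : δ ≤ 1
  hU : cthickening δ J ⊆ G
  hCr : ∀ c ∈ Cr, c ∈ J
  hPa : ∀ p ∈ Pa, p ∈ J
  hne : Cr.Nonempty
  hcr : ∀ z ∈ cthickening δ J, (deriv f z = 0 ↔ z ∈ Cr)
  hpf : ∀ p ∈ Pa, f p = p
  hcp : ∀ c ∈ Cr, c ∉ Pa
  ce : ∀ c ∈ Cr, (∀ j, f^[j] c ∉ Pa) →
    ∃ (m : ℕ) (C q : ℝ), 1 < q ∧ ∀ n : ℕ, q ^ n ≤ C * ‖deriv (f^[n]) (f^[m] c)‖

namespace W0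

variable (X : W0)

open Classical in
/-- the critical and the parabolic points -/
noncomputable def S : Finset ℂ := X.Cr ∪ X.Pa

/-- the local degree -/
noncomputable def mm (c : ℂ) : ℕ := analyticOrderNatAt (fun z => X.f z - X.f c) c

open Classical in
/-- the terminal time -/
noncomputable def tau (c : ℂ) : ℕ :=
  if ∃ n, X.f^[n] c ∈ X.Pa then sInf {n : ℕ | X.f^[n] c ∈ X.Pa}
  else sInf {n : ℕ | 1 ≤ n ∧ ∀ j, n ≤ j → X.f^[j] c ∉ X.Cr}

open Classical in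
/-- the product of the local degrees along the orbit, before the time `i` -/
noncomputable def Mi (c : ℂ) (i : ℕ) : ℕ :=
  ∏ j ∈ Finset.range i, if X.f^[j] c ∈ X.Cr then X.mm (X.f^[j] c) else 1

/-- the local degree of the iterate which maps `c` to its terminal value -/
noncomputable def MM (c : ℂ) : ℕ := X.Mi c (X.tau c)

theorem mem_S {z : ℂ} : z ∈ X.S ↔ z ∈ X.Cr ∨ z ∈ X.Pa := by
  classical
  unfold S
  rw [Finset.mem_union]

end W0

/-- a map near its Julia set with parabolic points, before the constants are chosen -/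
structure P0 extends W0 where
  aa : ℂ → ℂ
  qq : ℂ → ℕ
  R : ℝ
  δV : ℝ
  hR : 0 < R
  hδV : 0 < δV
  hδV1 : δV ≤ δ / 8
  hq : ∀ p ∈ Pa, 1 ≤ qq p
  ha : ∀ p ∈ Pa, aa p ≠ 0
  /-- the parabolic points are fixed with multiplier `1` -/
  par : ∀ p ∈ Pa, ∃ k : ℂ → ℂ, NF (fun u => f (p + u) - p) k (qq p) (aa p)
  hsepR : ∀ p ∈ Pa, ∀ p' ∈ Pa, p ≠ p' → 8 * R ≤ ‖p - p'‖
  /-- near a parabolic point `J` is in the cones of the repelling directions -/
  cone : ∀ p ∈ Pa, ∀ z ∈ J, z ≠ p → ‖z - p‖ ≤ 4 * R →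
    (15 / 16) * ‖aa p * (z - p) ^ qq p‖ < (aa p * (z - p) ^ qq p).re
  /-- there is a critical point which does not land -/
  hne' : ∃ c ∈ Cr, ∀ j, f^[j] c ∉ Pa
  /-- no normality at the points of `J` -/
  nn : ∀ x ∈ J, ∀ ρ : ℝ, 0 < ρ → ∃ N : ℕ, ∀ n ≥ N,
    ¬ ((∀ i < n, ∀ z ∈ ball x ρ, f^[i] z ∈ G) ∧
      ∀ z ∈ ball x ρ, f^[n] z ∈ VV J Pa aa qq δV R (3 / 4))
  /-- continuation of inverse branches -/
  cn : ∀ (i : ℕ) (x : ℂ) (r : ℝ) (g : ℂ → ℂ) (u0 : ℂ), 0 < r →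
    ball x r ⊆ VV J Pa aa qq δV R (3 / 4) → DifferentiableOn ℂ g (ball x r) →
    (∀ w ∈ ball x r, f^[i] (g w) = w ∧ ∀ j < i, f^[j] (g w) ∈ G) →
    u0 ∈ G → f u0 = g x → deriv f u0 ≠ 0 →
    (∃ h : ℂ → ℂ, DifferentiableOn ℂ h (ball x r) ∧ h x = u0 ∧
      ∀ w ∈ ball x r, h w ∈ G ∧ f (h w) = g w) ∨
    ∃ (ρ : ℝ) (b c : ℂ) (h : ℂ → ℂ), 0 < ρ ∧ ρ < r ∧ ‖b - x‖ = ρ ∧ c ∈ Cr ∧ g b = f c ∧
      DifferentiableOn ℂ h (ball x ρ) ∧ h x = u0 ∧
      (∀ w ∈ ball x ρ, h w ∈ G ∧ f (h w) = g w) ∧ Tendsto h (𝓝[ball x ρ] b) (𝓝 c)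

end Pool.Agent.H79.PJ
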