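import Pool.Agent.H79.PJ.Mkp
import Pool.Agent.H79.PJ.PDefs

/-!
# The data `P0` of a rational map
-/

set_option autoImplicit false

open Filter Topology Polynomial Metric Set

namespace Pool.Agent.H79.PJ

open Pool.Agent.H44.Fatou Pool.Agent.H32.BT Pool.Agent.H79.Eul Pool.Agent.H79.Par Pool.Agent.H79.PB
open Pool.Agent.H91.CE (Gr)

/-- `X` belongs to the `N`-th iterate of the rational map `Rf v0` -/
structure RepF {d : ℕ} (v0 : E d) (N : ℕ) (X : P0) : Prop where
  hN : 0 < N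
  f : X.f = fun z => it v0 N z
  J : X.J = JF v0
  G : X.G = GN v0 N
  Cr : ∀ z, z ∈ X.Cr ↔ z ∈ JF v0 ∧ ∃ j < N, wv v0 (it v0 j z) = 0
  Pa : ∀ p, p ∈ X.Pa ↔ p ∈ PP v0
  /-- the parabolic points as points of period `N` of `Rf v0` -/
  pt : ∀ p ∈ X.Pa, ParPt v0 N p (X.aa p) (X.qq p)

theorem mk_p0 {d : ℕ} (hd : 2 ≤ d) {v0 : E d} (hcop : IsCoprime (pol v0.1) (pol v0.2))
    (hdeg : max (pol v0.1).natDegree (pol v0.2).natDegree = d) (hper : NPer v0)
    (hinf : OnePoint.infty ∈ Fa v0)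
    (hcr : ∀ c : ℂ, wv v0 c = 0 → c ∈ JP v0 →
      (∃ m : ℕ, Gr v0 (it v0 m c)) ∨ ∃ m : ℕ, it v0 m c ∈ PP v0)
    {c0 : ℂ} (hc0 : wv v0 c0 = 0) (hc0J : c0 ∈ JP v0) (hc0n : ∀ m : ℕ, it v0 m c0 ∉ PP v0) :
    ∃ (N : ℕ) (X : P0), RepF v0 N X := by
  classical
  obtain ⟨N, V, hN, hD, hcopV, hdegV, hV, hperV, h1V⟩ := nice_iter hd hcop hdeg hper hinf
  have hfa : Fa V = Fa v0 := fit_fa hN hV
  have hjp : JP V = JP v0 := fit_jp hN hV
  have hpp : PP V = PP v0 := fit_pp hN hV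
  have hinfV : OnePoint.infty ∈ Fa V := by rw [hfa]; exact hinf
  have hfin := pp_fin hd hcop hdeg hper hinf
  obtain ⟨Pa, hPadef⟩ : ∃ Pa : Finset ℂ, ∀ p, p ∈ Pa ↔ p ∈ PP v0 :=
    ⟨hfin.toFinset, fun p => hfin.mem_toFinset⟩
  have hPaV : ∀ p, p ∈ Pa ↔ p ∈ PP V := fun p => by rw [hPadef, hpp]
  have hfun : Rf V = (Rf v0)^[N] := by
    funext x
    exact hV x
  have h1 : ∀ p ∈ PP v0, FixMult (Rf v0)^[N] (p : OnePoint ℂ) 1 := by
    intro p hp
    have h := h1V p (by rw [hpp]; exact hp)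
    rwa [Function.iterate_one, hfun] at h
  have hJJ : JF v0 ⊆ JP v0 := jf_sub hd hcop hdeg hper
  have hJc : IsCompact (JF v0) := jf_cpt hd hcop hdeg hper hinf
  have hc0F : c0 ∈ JF v0 := cr_jf hd hcop hdeg hper hinf hc0J (hcr c0 hc0 hc0J)
  have hJn : (JF v0).Nonempty := ⟨c0, hc0F⟩
  have hPJ : ∀ p ∈ Pa, p ∈ JF v0 := fun p hp => par_jf hd hcop hdeg hper ((hPadef p).1 hp)
  have hJG : ∀ z ∈ JF v0, z ∈ GN v0 N := fun z hz => jp_gn hcop hper hinf (hJJ hz) N
  -- the data at the parabolic points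
  have hex : ∀ p : ℂ, ∃ (a : ℂ) (q : ℕ), p ∈ Pa → ParPt v0 N p a q := by
    intro p
    by_cases hp : p ∈ Pa
    · obtain ⟨p', a, q, hpe, h⟩ := par_pt hd hcop hdeg hper hN (h1 p ((hPadef p).1 hp))
      have e := OnePoint.coe_injective hpe
      subst e
      exact ⟨a, q, fun _ => h⟩
    · exact ⟨0, 0, fun h => absurd h hp⟩
  choose aa qq hA using hex
  have hB : ∀ p ∈ Pa, ParPt V 1 p (aa p) (qq p) := fun p hp => fit_par hV (hA p hp)
  -- the choice of `R`
  have hRpos : ∀ᶠ R : ℝ in 𝓝[>] 0, 0 < R := self_mem_nhdsWithin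
  have hRsep : ∀ᶠ R : ℝ in 𝓝[>] 0, ∀ p ∈ Pa, ∀ p' ∈ Pa, p ≠ p' → 8 * R ≤ ‖p - p'‖ := by
    rw [Filter.eventually_all_finset]
    intro p _
    rw [Filter.eventually_all_finset]
    intro p' _
    rcases eq_or_ne p p' with h | h
    · exact Filter.Eventually.of_forall fun s hs => absurd h hs
    · have hp : 0 < ‖p - p'‖ := norm_pos_iff.2 (sub_ne_zero.2 h)
      have : ∀ᶠ s : ℝ in 𝓝[>] 0, s < ‖p - p'‖ / 8 :=
        nhdsWithin_le_nhds (Iio_mem_nhds (by positivity))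
      filter_upwards [this] with s hs _
      linarith
  have hRcone : ∀ᶠ R : ℝ in 𝓝[>] 0, ∀ p ∈ Pa, ∀ z ∈ JF v0, z ≠ p → ‖z - p‖ ≤ 4 * R →
      (15 / 16) * ‖aa p * (z - p) ^ qq p‖ < (aa p * (z - p) ^ qq p).re := by
    rw [Filter.eventually_all_finset]
    intro p hp
    obtain ⟨r, hr, h⟩ := cone_J (hA p hp) (ε := 1 / 16) (by norm_num)
    have : ∀ᶠ s : ℝ in 𝓝[>] 0, s < r / 4 := nhdsWithin_le_nhds (Iio_mem_nhds (by positivity))
    filter_upwards [this] with s hs z hz hzp hzr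
    have h2 := h z (hJJ hz) hzp (by linarith)
    have e : (1 : ℝ) - 1 / 16 = 15 / 16 := by norm_num
    rwa [e] at h2
  obtain ⟨R, hR, hsepR, hcone⟩ := (hRpos.and (hRsep.and hRcone)).exists
  -- the choice of `δ`
  have hpos : ∀ᶠ δ : ℝ in 𝓝[>] 0, 0 < δ := self_mem_nhdsWithin
  have hone : ∀ᶠ δ : ℝ in 𝓝[>] 0, δ < 1 := nhdsWithin_le_nhds (gt_mem_nhds (by norm_num))
  have hgn : ∀ᶠ δ : ℝ in 𝓝[>] 0, cthickening δ (JF v0) ⊆ GN v0 N :=
    avp_ev hJc (gn_open v0 N) hJG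
  have hzf : {c : ℂ | wv V c = 0 ∧ c ∉ JP v0}.Finite :=
    (Pool.Agent.H91.CE.wv_ne hD hcopV hdegV).subset fun c hc => hc.1
  have hzer : ∀ᶠ δ : ℝ in 𝓝[>] 0, cthickening δ (JF v0) ⊆ {c : ℂ | wv V c = 0 ∧ c ∉ JP v0}ᶜ :=
    avp_ev hJc hzf.isClosed.isOpen_compl fun z hz h => h.2 (hJJ hz)
  obtain ⟨δ, hδ, hδ1, hGd, ha2⟩ := (hpos.and (hone.and (hgn.and hzer))).exists
  -- the choice of `δV`
  have havv := avv hD hcopV hdegV hperV hinfV h1V hPaV hB hJc hJn (by rw [hjp]; exact hJJ) hR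
    (t := 3 / 4) (by norm_num)
  rw [hjp] at havv
  have hinfo : ∀ᶠ δ : ℝ in 𝓝[>] 0, ∀ k ∈ Finset.range N, ∀ (m : ℕ) (y : ℂ),
      (Rf V)^[m] ((Rf v0)^[k] OnePoint.infty) = (y : OnePoint ℂ) →
      y ∉ VV (JF v0) Pa aa qq δ R (3 / 4) := by
    rw [Filter.eventually_all_finset]
    intro k _
    exact avv_one hD hcopV hdegV hperV h1V hPaV hB hJc hJn (by rw [hjp]; exact hJJ) hR
      (t := 3 / 4) (by norm_num) (x := (Rf v0)^[k] OnePoint.infty)
      (by rw [hfa, fa_iter hcop hper]; exact hinf)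
  have hhalf : ∀ᶠ s : ℝ in 𝓝[>] 0, s < δ / 8 := nhdsWithin_le_nhds (gt_mem_nhds (by positivity))
  obtain ⟨δV, hδV, hδV1, ha3, hio⟩ := (hpos.and (hhalf.and (havv.and hinfo))).exists
  have hCrf : {z : ℂ | z ∈ JF v0 ∧ ∃ j < N, wv v0 (it v0 j z) = 0}.Finite := by
    refine (Pool.Agent.H91.CE.wv_ne hD hcopV hdegV).subset ?_
    rintro z ⟨hz, h⟩
    exact (fit_wv hV (hJG z hz)).2 h
  -- critical points of the iterate in `JP`
  have hcrJ : ∀ z ∈ JP v0, wv V z = 0 → z ∈ JF v0 ∧ ∃ j < N, wv v0 (it v0 j z) = 0 := by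
    intro z hz hw
    obtain ⟨j, hj, h⟩ := (fit_wv hV (jp_gn hcop hper hinf hz N)).1 hw
    refine ⟨cr_jf hd hcop hdeg hper hinf hz ?_, j, hj, h⟩
    have hadd : ∀ m n : ℕ, it v0 m (it v0 n z) = it v0 (m + n) z := fun m n =>
      (Pool.Agent.H79.Par.it_add v0 m n z).symm
    rcases hcr _ h (jp_it hcop hper hinf hz j) with ⟨m, h2⟩ | ⟨m, h2⟩
    · exact Or.inl ⟨m + j, by rw [← hadd]; exact h2⟩
    · exact Or.inr ⟨m + j, by rw [← hadd]; exact h2⟩
  -- the orbit of infinity under `Rf v0`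
  have hinfall : ∀ (m : ℕ) (y : ℂ), (Rf v0)^[m] OnePoint.infty = (y : OnePoint ℂ) →
      y ∉ VV (JF v0) Pa aa qq δV R (3 / 4) := by
    intro m y hy
    refine hio (m % N) (Finset.mem_range.2 (Nat.mod_lt _ hN)) (m / N) y ?_
    rw [fit_iter hV, ← Function.iterate_add_apply, Nat.add_comm, Nat.mod_add_div]
    exact hy
  -- from `V` to the iterate
  have hback : ∀ (i : ℕ) (w y : ℂ) (y' : ℂ), w ∈ VV (JF v0) Pa aa qq δV R (3 / 4) →
      (∀ j < i, (fun z => it v0 N z)^[j] y ∈ GN v0 N) → (fun z => it v0 N z)^[i] y = w →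
      ev V.2 y' ≠ 0 → it V 1 y' = y → y' ∈ GN v0 N := by
    intro i w y y' hw hy hyw hy' hyy
    refine gn_of_fin fun j hj h0 => ?_
    have h2 : (Rf v0)^[N] (y' : OnePoint ℂ) = (y : OnePoint ℂ) := by
      rw [← hV, ← hyy]
      show rat (pol V.1) (pol V.2) (y' : OnePoint ℂ) = _
      rw [rat_coe_of_ne (by rw [pol_eval]; exact hy'), pol_eval, pol_eval]
      rfl
    have h3 : ∀ j ≤ i, (Rf v0)^[N * j] (y : OnePoint ℂ) =
        (((fun z => it v0 N z)^[j] y : ℂ) : OnePoint ℂ) := by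
      intro j
      induction j with
      | zero => intro _; rfl
      | succ j ih =>
        intro hj
        rw [Nat.mul_succ, Nat.add_comm, Function.iterate_add_apply, ih (by omega),
          gn_rat (hy j (by omega)) le_rfl, Function.iterate_succ_apply']
    have h4 : (Rf v0)^[N * i + (N - j)] OnePoint.infty = (w : OnePoint ℂ) := by
      rw [← h0, ← Function.iterate_add_apply]
      have e : N * i + (N - j) + j = N * i + N := by omega
      rw [e, Function.iterate_add_apply, h2, h3 i le_rfl, hyw]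
    exact hinfall _ w h4 hw
  have hfix : ∀ p ∈ Pa, it v0 N p = p ∧ trD v0 N p = 1 := by
    intro p hp
    obtain ⟨-, -, -, x, k, rfl, ho, hx, hmul, -⟩ := hA p hp
    exact ⟨by rw [orb_it ho N le_rfl, hx], hmul⟩
  refine ⟨N, { f := fun z => it v0 N z
               J := JF v0
               G := GN v0 N
               Cr := hCrf.toFinset
               Pa := Pa
               δ := δ
               hJ := hJc
               hJf := fun z hz => jf_it hd hcop hdeg hper hinf hz N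
               hG := gn_open v0 N
               hf := fun z hz => (gn_deriv hz).differentiableAt.differentiableWithinAt
               hδ := hδ
               hδ1 := hδ1.le
               hU := hGd
               hCr := fun c hc => (hCrf.mem_toFinset.1 hc).1
               hPa := hPJ
               hne := ⟨c0, hCrf.mem_toFinset.2 ⟨hc0F, 0, hN, hc0⟩⟩
               hcr := ?_
               hpf := fun p hp => (hfix p hp).1
               hcp := ?_
               ce := ?_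
               aa := aa
               qq := qq
               R := R
               δV := δV
               hR := hR
               hδV := hδV
               hδV1 := hδV1.le
               hq := fun p hp => (hA p hp).hq
               ha := fun p hp => (hA p hp).ha
               par := ?_
               hsepR := hsepR
               cone := hcone
               hne' := ⟨c0, hCrf.mem_toFinset.2 ⟨hc0F, 0, hN, hc0⟩, ?_⟩
               nn := ?_
               cn := ?_ }, ⟨hN, rfl, rfl, rfl, fun z => hCrf.mem_toFinset, hPadef, hA⟩⟩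
  · intro z hz
    rw [(gn_deriv (hGd hz)).deriv, trD_zero (hGd hz), hCrf.mem_toFinset]
    constructor
    · intro h
      have h2 := (fit_wv hV (hGd hz)).2 h
      refine hcrJ z ?_ h2
      by_contra h3
      exact ha2 hz ⟨h2, h3⟩
    · intro h
      exact h.2
  · intro c hc hcP
    obtain ⟨hcJ, h⟩ := hCrf.mem_toFinset.1 hc
    have h2 := (trD_zero (hJG c hcJ)).2 h
    rw [(hfix c hcP).2] at h2
    exact one_ne_zero h2
  · intro c hc hl
    obtain ⟨hcJ, j, -, hj⟩ := hCrf.mem_toFinset.1 hc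
    rcases cef hcop hper hinf hcr hN (hJJ hcJ) hj with h | ⟨m, h⟩
    · exact h
    · exact absurd ((hPadef _).2 h) (hl m)
  · intro p hp
    obtain ⟨-, -, -, x, k, rfl, -, -, -, hnf⟩ := hA p hp
    exact ⟨k, hnf⟩
  · intro j hj
    rw [itN_iter] at hj
    exact hc0n _ ((hPadef _).1 hj)
  · intro x hx ρ hρ
    have hVb : Bornology.IsBounded (VV (JF v0) Pa aa qq δV R (3 / 4)) := by
      refine (hJc.isBounded.thickening (δ := δV)).subset fun z hz => ?_
      rw [mem_thickening_iff_infDist_lt hJn]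
      exact hz.1
    obtain ⟨n0, hn0⟩ := nnv hD hcopV hdegV hperV h1V hPaV hB hVb
      (fun p hp => ⟨R, hR, fun z hz hzr => by
        have h2 := (hz.2 p hp).2 hzr.le
        have h3 := norm_nonneg (aa p * (z - p) ^ qq p)
        linarith⟩)
      (x := x) (by rw [hfa]; exact ((jf_iff hd hcop hdeg hper x).1 hx).1)
      (by rw [hjp]; exact hJJ hx) hρ
    refine ⟨n0, fun n hn hcon => hn0 n hn ⟨fun i hi z hz => ?_, fun z hz => ?_⟩⟩
    · exact (fit_its hV (i := n) fun j hj => hcon.1 j hj z hz).2 i hi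
    · rw [(fit_its hV (i := n) fun j hj => hcon.1 j hj z hz).1 n le_rfl]
      exact hcon.2 z hz
  · intro i x r g u0 hr hball hg hgi hu0 hfu hdu
    have hgiV : ∀ w ∈ ball x r, (it V 1)^[i] (g w) = w ∧
        ∀ j < i, ev V.2 ((it V 1)^[j] (g w)) ≠ 0 := by
      intro w hw
      obtain ⟨h2, h3⟩ := hgi w hw
      obtain ⟨h4, h5⟩ := fit_its hV h3
      exact ⟨by rw [h4 i le_rfl]; exact h2, h5⟩
    have hfuV : it V 1 u0 = g x := by rw [(fit_den hV hu0).2]; exact hfu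
    have hduV : deriv (it V 1) u0 ≠ 0 := by
      rw [(fit_ev hV hu0).deriv_eq]
      exact hdu
    rcases cn_gen hD hcopV hdegV ha3 i x r g u0 hr hball hg hgiV (fit_den hV hu0).1 hfuV hduV with
      ⟨h, hh, hhx, hhs⟩ | ⟨ρ, b, c, h, hρ, hρr, hb, hc, hgb, hh, hhx, hhs, hlim⟩
    · left
      refine ⟨h, hh, hhx, fun w hw => ?_⟩
      have h2 : h w ∈ GN v0 N :=
        hback i w (g w) (h w) (hball hw) (hgi w hw).2 (hgi w hw).1 (hhs w hw).1 (hhs w hw).2
      exact ⟨h2, by rw [← (fit_den hV h2).2]; exact (hhs w hw).2⟩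
    · right
      have hcG : c ∈ GN v0 N := jp_gn hcop hper hinf hc.2 N
      refine ⟨ρ, b, c, h, hρ, hρr, hb, ?_, ?_, hh, hhx, fun w hw => ?_, hlim⟩
      · rw [hCrf.mem_toFinset]
        exact hcrJ c hc.2 hc.1
      · rw [hgb, (fit_den hV hcG).2]
      · have hw' : w ∈ ball x r := ball_subset_ball hρr.le hw
        have h2 : h w ∈ GN v0 N :=
          hback i w (g w) (h w) (hball hw') (hgi w hw').2 (hgi w hw').1 (hhs w hw).1 (hhs w hw).2
        exact ⟨h2, by rw [← (fit_den hV h2).2]; exact (hhs w hw).2⟩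

end Pool.Agent.H79.PJ
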