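import Pool.Agent.H79.PJ.Ce6
import Pool.Agent.H79.PJ.MkP0
import Pool.Agent.H44.DP.Ddf

/-!
# From `P0` to `Ps`
-/

set_option autoImplicit false

open Filter Topology Polynomial Metric Set

namespace Pool.Agent.H79.PJ

open Pool.Agent.H44.DP (Ps dS)

private theorem mkp_sep (S : Finset ℂ) : ∃ s : ℝ, 0 < s ∧
    ∀ c ∈ S, ∀ c' ∈ S, c ≠ c' → 4 * s ≤ ‖c - c'‖ := by
  have h1 : ∀ᶠ s : ℝ in 𝓝[>] 0, ∀ c ∈ S, ∀ c' ∈ S, c ≠ c' → 4 * s ≤ ‖c - c'‖ := by
    rw [Filter.eventually_all_finset]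
    intro c _
    rw [Filter.eventually_all_finset]
    intro c' _
    rcases eq_or_ne c c' with h | h
    · exact Filter.Eventually.of_forall fun s hs => absurd h hs
    · have hp : 0 < ‖c - c'‖ := norm_pos_iff.2 (sub_ne_zero.2 h)
      have : ∀ᶠ s : ℝ in 𝓝[>] 0, s < ‖c - c'‖ / 4 :=
        nhdsWithin_le_nhds (Iio_mem_nhds (by positivity))
      filter_upwards [this] with s hs _
      linarith
  have h3 : ∀ᶠ s : ℝ in 𝓝[>] 0, 0 < s := self_mem_nhdsWithin
  obtain ⟨s, a, c⟩ := (h1.and h3).exists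
  exact ⟨s, c, a⟩

theorem mk_ps (X : P0) : ∃ D : Ps, D.f = X.f ∧ D.J = X.J ∧ D.G = X.G ∧ D.Cr = X.Cr ∧
    D.Pa = X.Pa ∧ D.ap = X.aa ∧ D.qp = X.qq ∧ D.V = X.V ∧ D.V1 = X.V1 ∧
    (∀ c, c ∈ D.Ce ↔ c ∈ X.Cr ∧ ∀ n, X.f^[n] c ∉ X.Pa) ∧
    (∀ c, c ∈ D.Cl ↔ c ∈ X.Cr ∧ ∃ n, X.f^[n] c ∈ X.Pa) ∧
    cthickening D.δ D.J ⊆ D.G := by
  classical
  obtain ⟨L, C1, k, hL, hC1, hLf, hdist, hk, hlow⟩ := loc1 X.toW0
  obtain ⟨C2, r2, hC2, hr2, h2⟩ := loc2 X.toW0
  obtain ⟨C3, r3, hC3, hr3, h3⟩ := pmm X.toW0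
  obtain ⟨C4, q, hC4, hq, e1, e3, e2, e4⟩ := ce_pass X.toW0
  have hδ := X.hδ
  obtain ⟨r4, hr4, h4⟩ := pmm4 X.toW0 (ϑ := X.δ / 4 / 4) (by positivity)
  obtain ⟨C5, r5, hC5, hr5, h5⟩ := pmm5 X.toW0
  obtain ⟨C6, r6, hC6, hr6, h6⟩ := pmm6 X.toW0
  obtain ⟨C7, hC7, h7⟩ := ce6 X
  obtain ⟨T, hT, hP⟩ := pbd_all X (η := X.δ / 4) (by positivity)
  obtain ⟨ϑ, hϑ, hϑ1, hVJ, hVV⟩ := X.v_disp
  obtain ⟨s, hs, hsep⟩ := mkp_sep X.S
  have hT0 : 0 < T := by linarith
  have hδV := X.hδV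
  have hR := X.hR
  obtain ⟨C, c1, c2, c3, c4, c5, c6, c7, c8⟩ : ∃ C : ℝ, C1 ≤ C ∧ C2 ≤ C ∧ C3 ≤ C ∧ C4 ≤ C ∧
      C5 ≤ C ∧ C6 ≤ C ∧ C7 ≤ C ∧ T ≤ C := by
    refine ⟨C1 + C2 + C3 + C4 + C5 + C6 + C7 + T, ?_, ?_, ?_, ?_, ?_, ?_, ?_, ?_⟩ <;> linarith
  obtain ⟨r0, hr0, l2, l3, l4, l5, l6, l7, l8, l9, l10, l11⟩ : ∃ r0 : ℝ, 0 < r0 ∧ r0 ≤ r2 ∧
      r0 ≤ r3 ∧ r0 ≤ r4 ∧ r0 ≤ r5 ∧ r0 ≤ r6 ∧ r0 ≤ X.δ / 4 / 4 ∧ r0 ≤ s ∧ r0 ≤ 1 / T ∧
      r0 ≤ X.δV / 2 ∧ r0 ≤ X.R := by
    have hp : 0 < X.δ / 4 / 4 := by positivity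
    have hp2 : 0 < 1 / T := by positivity
    have key : ∀ᶠ r : ℝ in 𝓝[>] 0, r < r2 ∧ r < r3 ∧ r < r4 ∧ r < r5 ∧ r < r6 ∧
        r < X.δ / 4 / 4 ∧ r < s ∧ r < 1 / T ∧ r < X.δV / 2 ∧ r < X.R := by
      have g : ∀ {t : ℝ}, 0 < t → ∀ᶠ r : ℝ in 𝓝[>] 0, r < t := fun ht =>
        nhdsWithin_le_nhds (gt_mem_nhds ht)
      exact (g hr2).and ((g hr3).and ((g hr4).and ((g hr5).and ((g hr6).and ((g hp).and
        ((g hs).and ((g hp2).and ((g (by positivity)).and (g hR)))))))))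
    have hpos : ∀ᶠ r : ℝ in 𝓝[>] 0, 0 < r := self_mem_nhdsWithin
    obtain ⟨r, ⟨a1, a2, a3, a4, a5, a6, a7, a8, a9, a10⟩, hr⟩ := (key.and hpos).exists
    exact ⟨r, hr, a1.le, a2.le, a3.le, a4.le, a5.le, a6.le, a7.le, a8.le, a9.le, a10.le⟩
  have hC : 1 ≤ C := hC1.trans c1
  have hmono : thickening (X.δ / 4) X.J ⊆ thickening X.δ X.J := thickening_mono (by linarith) _
  have hmono' : thickening (X.δ / 4) X.J ⊆ cthickening X.δ X.J :=
    hmono.trans (thickening_subset_cthickening _ _)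
  have e8 : X.δ / 4 / 2 = X.δ / 8 := by ring
  have up : ∀ {D a b : ℝ}, D ≤ C → 0 ≤ b → a ≤ D * b → a ≤ C * b := fun hD hb h =>
    h.trans (mul_le_mul_of_nonneg_right hD hb)
  have hdS : ∀ z : ℂ, infDist z (X.S : Set ℂ) ≤ infDist z (X.Cr : Set ℂ) := by
    intro z
    refine infDist_le_infDist_of_subset (fun c hc => ?_) (by exact_mod_cast X.hne)
    exact Finset.mem_coe.2 (X.mem_S.2 (Or.inl (Finset.mem_coe.1 hc)))
  have hSJ : ∀ c ∈ X.S, c ∈ X.J := by
    intro c hc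
    rcases X.mem_S.1 hc with h | h
    · exact X.hCr c h
    · exact X.hPa c h
  have hmm : ∀ c ∈ X.Cr, 1 ≤ X.mm c := fun c hc => by have := (h2 c hc).1; omega
  have hball : ∀ {p z : ℂ}, z ∈ ball p r0 → z ∈ ball p (1 / T) := fun hz => ball_subset_ball l9 hz
  refine ⟨{ f := X.f, J := X.J, G := X.G, V := X.V, V1 := X.V1,
            Ce := X.Cr.filter fun c => ∀ n, X.f^[n] c ∉ X.Pa,
            Cl := X.Cr.filter fun c => ∃ n, X.f^[n] c ∈ X.Pa,
            Cr := X.Cr, Pa := X.Pa, S := X.S, δ := X.δ / 4, L := L, C := C, q := q,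
            r0 := r0, κ := 1 / T, ϑ := ϑ, ε1 := 1 / 8, N6 := 1,
            τ := X.tau, M := X.MM, m := X.mm, qp := X.qq, ap := X.aa
            hJ := X.hJ, hJf := X.hJf, hG := X.hG, hf := X.hf,
            hδ := by positivity
            hδ1 := by linarith [X.hδ1]
            hU := hmono'.trans X.hU
            hSJ := hSJ
            hne := ?_
            hCr := ?_
            hS := fun z => X.mem_S
            hel := ?_
            hcp := X.hcp
            hpf := X.hpf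
            hcr := fun z hz => X.hcr z (hmono' hz)
            hL := hL
            hLf := fun z hz => hLf z (hmono' hz)
            hC := hC, hq := hq, hr0 := hr0
            hr1 := by linarith
            hsep := fun c hc c' hc' hne => le_trans (by linarith) (hsep c hc c' hc' hne)
            hdist := ?_
            hτ := fun c hc => (tau_spec X.toW0 hc).1
            hτe := ?_
            hτp := ?_
            hτl := ?_
            hτm := ?_
            hτ0 := fun p hp => tau_pa X.toW0 hp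
            hm := fun c hc => (h2 c hc).1
            hmM := fun c hc => mm_le_MM X.toW0 hmm hc
            hMp := fun p hp => MM_pa X.toW0 hp
            ce1 := ?_
            ce2 := ?_
            ce3 := fun c hc i hi hp => up c4 (norm_nonneg _) (e3 c hc i hi hp)
            ce4 := ?_
            ce6 := ?_
            rel := fun c hc i hi h => ⟨MM_rel X.toW0 hc hi h, tau_rel X.toW0 hc h⟩
            l1 := ?_
            l2 := ?_
            p1 := ?_
            p2 := ?_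
            p3 := ?_
            p4 := fun c hc z hz j hj => h4 c hc z (ball_subset_ball l4 hz) j hj
            p5 := fun c hc z hz j hj p hp =>
              (h5 c hc z (ball_subset_ball l5 hz) j hj p hp).trans
                (mul_le_mul_of_nonneg_right c5 (norm_nonneg _))
            p6 := ?_
            low := ?_
            hqp := X.hq
            hap := X.ha
            b1 := ?_
            b2 := ?_
            b3 := ?_
            hinv := ?_
            hκ := by positivity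
            hϑ := hϑ
            hϑ1 := hϑ1
            hε1 := by norm_num
            hV1 := X.v1_sub
            hV := by rw [e8]; exact X.v_thick
            hVp := fun p hp => X.v_pa hp
            hVJ := hVJ
            hVV := hVV
            hVe := fun p hp z hz hz1 => X.v_cone l10 l11 hp hz hz1
            a1 := fun p hp z hz hzV =>
              ((hP p hp).2.1 z (hball hz) (X.v_half l11 hp hz hzV)).1
            a2 := fun p hp z hz hzV =>
              ((hP p hp).2.1 z (hball hz) (X.v_half l11 hp hz hzV)).2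
            nn := X.nn
            cn := X.cn },
    rfl, rfl, rfl, rfl, rfl, rfl, rfl, rfl, rfl, fun c => Finset.mem_filter,
    fun c => Finset.mem_filter, ?_⟩
  · obtain ⟨c, hc, hl⟩ := X.hne'
    exact ⟨c, Finset.mem_filter.2 ⟨hc, hl⟩⟩
  · intro z
    rw [Finset.mem_filter, Finset.mem_filter]
    constructor
    · intro hz
      by_cases h : ∃ n, X.f^[n] z ∈ X.Pa
      · exact Or.inr ⟨hz, h⟩
      · exact Or.inl ⟨hz, fun n hn => h ⟨n, hn⟩⟩
    · rintro (h | h)
      · exact h.1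
      · exact h.1
  · intro c hc hcl
    obtain ⟨-, n, hn⟩ := Finset.mem_filter.1 hcl
    exact (Finset.mem_filter.1 hc).2 n hn
  · intro z hz w hw hwz
    rw [e8] at hz hw
    have h := hdist z hz w hw (hwz.trans (hdS z))
    calc _ ≤ ‖deriv X.f w - deriv X.f z‖ * infDist z (X.Cr : Set ℂ) :=
          mul_le_mul_of_nonneg_left (hdS z) (norm_nonneg _)
      _ ≤ C1 * ‖deriv X.f z‖ * ‖w - z‖ := h
      _ ≤ _ := by gcongr
  · intro c hc j hj h
    obtain ⟨hc1, hl⟩ := Finset.mem_filter.1 hc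
    rcases X.mem_S.1 h with h | h
    · exact (tau_e X.toW0 hc1 hl).2.1 j hj h
    · exact hl j h
  · intro c hc j
    obtain ⟨hc1, hl⟩ := Finset.mem_filter.1 hc
    refine ⟨hl j, fun h => ?_⟩
    obtain ⟨-, n, hn⟩ := Finset.mem_filter.1 h
    rw [← Function.iterate_add_apply] at hn
    exact hl _ hn
  · intro c hc
    exact (tau_l X.toW0 (Finset.mem_filter.1 hc).2).1
  · intro c hc j hj
    obtain ⟨h1, h2, -, -⟩ := tau_l X.toW0 (Finset.mem_filter.1 hc).2
    refine ⟨h2 j hj, fun h => ?_⟩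
    apply (Finset.mem_filter.1 h).2 (X.tau c - j)
    rw [← Function.iterate_add_apply, Nat.sub_add_cancel hj.le]
    exact h1
  · intro c hc n
    obtain ⟨hc1, hl⟩ := Finset.mem_filter.1 hc
    exact up c4 (norm_nonneg _) (e1 c hc1 hl n)
  · intro c hc c' hc' n
    obtain ⟨hc1, hl⟩ := Finset.mem_filter.1 hc
    have h := e2 c hc1 hl c' hc' n
    calc _ ≤ _ := h
      _ ≤ _ := by gcongr
  · intro c hc i hi hp c' hc' hne
    have h := e4 c hc i hi hp c' hc' hne
    calc _ ≤ _ := h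
      _ ≤ _ := by gcongr
  · intro c hc c' hc' hne n
    obtain ⟨hc1, hl⟩ := Finset.mem_filter.1 hc
    have hl' : ∃ n, X.f^[n] c' ∈ X.Pa := by
      rcases X.mem_S.1 hc' with h | h
      · by_contra hcon
        exact hne (Finset.mem_filter.2 ⟨h, fun n hn => hcon ⟨n, hn⟩⟩)
      · exact ⟨0, h⟩
    have h := h7 c' hc' hl' c hc1 hl n
    rw [pow_one]
    refine h.trans ?_
    gcongr
  · intro c hc z hz
    have h := (h2 c hc).2.1 z (ball_subset_ball l2 hz)
    exact ⟨up c2 (by positivity) h.1, up c2 (by positivity) h.2⟩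
  · intro c hc z hz
    have h := (h2 c hc).2.2 z (ball_subset_ball l2 hz)
    exact ⟨up c2 (by positivity) h.1, up c2 (by positivity) h.2⟩
  · intro c hc z hz
    have h := (h3 c hc z (ball_subset_ball l3 hz)).1
    exact ⟨up c3 (by positivity) h.1, up c3 (by positivity) h.2⟩
  · intro c hc z hz
    have h := (h3 c hc z (ball_subset_ball l3 hz)).2.1
    exact ⟨up c3 (by positivity) h.1, up c3 (by positivity) h.2⟩
  · intro c hc z hz j hj
    have h := ((h3 c hc z (ball_subset_ball l3 hz)).2.2 j hj).2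
    exact up c3 infDist_nonneg h
  · intro c hc z hz c' hc'
    obtain ⟨hc1, hl⟩ := Finset.mem_filter.1 hc
    exact (h6 c hc1 hl z (ball_subset_ball l6 hz) c' hc').trans
      (mul_le_mul_of_nonneg_right c6 (norm_nonneg _))
  · intro z hz N hN
    rw [e8] at hz
    obtain ⟨c0, hc0⟩ := X.hne
    have hmM : ∀ c ∈ X.Cr, X.mm c ≤ X.MM c := fun c hc => mm_le_MM X.toW0 hmm hc
    have hN1 : 1 ≤ N := by
      have a1 := (h2 c0 hc0).1
      have a2 := hmM c0 hc0
      have a3 := hN c0 hc0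
      omega
    have hkN : ∀ c ∈ X.Cr, k c ≤ N := by
      intro c hc
      obtain ⟨-, h, ha, h0, he⟩ := hk c hc
      have a1 := loc2_order X.toW0 hc ha h0 he
      have a2 := hmM c hc
      have a3 := hN c hc
      omega
    refine (pow_le_pow_left₀ infDist_nonneg (hdS z) N).trans ?_
    refine (hlow z hz N hN1 hkN).trans (mul_le_mul_of_nonneg_right ?_ (norm_nonneg _))
    exact pow_le_pow_left₀ (by linarith) c1 _
  · intro p hp z hz
    refine ((hP p hp).1 z (hball hz)).1.trans ?_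
    gcongr
  · intro p hp z hz
    refine ((hP p hp).1 z (hball hz)).2.1.trans ?_
    gcongr
  · intro p hp z hz
    refine ((hP p hp).1 z (hball hz)).2.2.trans ?_
    gcongr
  · intro p hp
    obtain ⟨-, -, φ, h8, h9, h10⟩ := hP p hp
    refine ⟨φ, h8.mono (ball_subset_ball l9), fun w hw => ?_, fun z hz _ => h10 z (hball hz)⟩
    obtain ⟨a1, a2, a3, a4⟩ := h9 w (hball hw)
    refine ⟨a1, ?_, a3, a4⟩
    rw [mem_thickening_iff]
    exact ⟨p, X.hPa p hp, by rw [dist_eq_norm]; exact a2⟩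
  · exact (cthickening_mono (by linarith : X.δ / 4 ≤ X.δ) _).trans X.hU

end Pool.Agent.H79.PJ
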