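import Pool.Agent.H79.PJ.DPDefs

/-!
# The data `DP0` of a rational map with parabolic cycles
-/

set_option autoImplicit false

open Filter Topology Polynomial Metric Set

namespace Pool.Agent.H79.PJ

open Pool.Agent.H44.Fatou Pool.Agent.H32.BT Pool.Agent.H79.Eul Pool.Agent.H79.Par Pool.Agent.H79.PB
open Pool.Agent.H91.CE (Gr)

theorem pp_it {d : ℕ} {v0 : E d} (hper : NPer v0) {p : ℂ} (hp : p ∈ PP v0) (k : ℕ) :
    it v0 k p ∈ PP v0 := by
  obtain ⟨n, hn, h⟩ := hp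
  obtain ⟨p', hpp, -, hj, -, -⟩ := par_data hper hn h
  have e := OnePoint.coe_injective hpp
  subst e
  refine ⟨n, hn, ?_⟩
  rw [← hj k]
  exact par_iter hper hn h k

theorem itN_deriv {d : ℕ} {v0 : E d} (hcop : IsCoprime (pol v0.1) (pol v0.2)) (hper : NPer v0)
    (hinf : OnePoint.infty ∈ Fa v0) {N n : ℕ} {y : ℂ} (hy : y ∈ JP v0) :
    deriv ((fun z => it v0 N z)^[n]) y = trD v0 (N * n) y := by
  have e : (fun z => it v0 N z)^[n] = fun z => it v0 (N * n) z := by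
    funext z
    exact itN_iter v0 N n z
  rw [e]
  exact (gn_deriv (jp_gn hcop hper hinf hy (N * n))).deriv

/-- the conditions on the critical points of the iterate -/
theorem cef {d : ℕ} {v0 : E d} (hcop : IsCoprime (pol v0.1) (pol v0.2)) (hper : NPer v0)
    (hinf : OnePoint.infty ∈ Fa v0)
    (hcr : ∀ c : ℂ, wv v0 c = 0 → c ∈ JP v0 →
      (∃ m : ℕ, Gr v0 (it v0 m c)) ∨ ∃ m : ℕ, it v0 m c ∈ PP v0) {N : ℕ} (hN : 0 < N)
    {c : ℂ} (hc : c ∈ JP v0) {j : ℕ} (hj : wv v0 (it v0 j c) = 0) :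
    (∃ (m : ℕ) (C q : ℝ), 1 < q ∧ ∀ n : ℕ, q ^ n ≤
      C * ‖deriv ((fun z => it v0 N z)^[n]) ((fun z => it v0 N z)^[m] c)‖) ∨
    ∃ m : ℕ, (fun z => it v0 N z)^[m] c ∈ PP v0 := by
  have hjp : ∀ i, it v0 i c ∈ JP v0 := fun i => jp_it hcop hper hinf hc i
  have hadd : ∀ m n : ℕ, it v0 m (it v0 n c) = it v0 (m + n) c := fun m n =>
    (Pool.Agent.H79.Par.it_add v0 m n c).symm
  rcases hcr _ hj (hjp j) with ⟨m, e, q, he, hq, h⟩ | ⟨m, h⟩
  · left
    rw [hadd] at h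
    obtain ⟨k, hk⟩ : ∃ k, N * (m + j) = k + (m + j) :=
      ⟨N * (m + j) - (m + j), (Nat.sub_add_cancel (Nat.le_mul_of_pos_left _ hN)).symm⟩
    have hT : 0 < ‖trD v0 k (it v0 (m + j) c)‖ := lt_of_lt_of_le (by positivity) (h k)
    refine ⟨m + j, ‖trD v0 k (it v0 (m + j) c)‖ / (e * q ^ k), q ^ N,
      one_lt_pow₀ hq (by omega), fun n => ?_⟩
    rw [itN_iter, itN_deriv hcop hper hinf (hjp _), hk, ← hadd k (m + j)]
    have h1 := h (k + N * n)
    rw [trD_add, norm_mul] at h1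
    rw [← pow_mul, div_mul_eq_mul_div, le_div_iff₀ (by positivity)]
    calc q ^ (N * n) * (e * q ^ k) = e * q ^ (k + N * n) := by rw [pow_add]; ring
      _ ≤ _ := h1
      _ = _ := by ring
  · right
    refine ⟨m + j, ?_⟩
    rw [itN_iter]
    obtain ⟨k, hk⟩ : ∃ k, N * (m + j) = k + (m + j) :=
      ⟨N * (m + j) - (m + j), (Nat.sub_add_cancel (Nat.le_mul_of_pos_left _ hN)).symm⟩
    rw [hk, ← hadd, ← hadd]
    exact pp_it hper h k

theorem mk_dp0 {d : ℕ} (hd : 2 ≤ d) {v0 : E d} (hcop : IsCoprime (pol v0.1) (pol v0.2))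
    (hdeg : max (pol v0.1).natDegree (pol v0.2).natDegree = d) (hper : NPer v0)
    (hinf : OnePoint.infty ∈ Fa v0) (hdn : Dense {z : ℂ | (z : OnePoint ℂ) ∈ Fa v0})
    (hcr : ∀ c : ℂ, wv v0 c = 0 → c ∈ JP v0 →
      (∃ m : ℕ, Gr v0 (it v0 m c)) ∨ ∃ m : ℕ, it v0 m c ∈ PP v0)
    (hP : (PP v0).Nonempty) : ∃ (N : ℕ) (X : DP0), RepP v0 N X := by
  classical
  obtain ⟨N, V, hN, hD, hcopV, hdegV, hV, hperV, h1V⟩ := nice_iter hd hcop hdeg hper hinf
  have hfa : Fa V = Fa v0 := fit_fa hN hV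
  have hjp : JP V = JP v0 := fit_jp hN hV
  have hpp : PP V = PP v0 := fit_pp hN hV
  have hinfV : OnePoint.infty ∈ Fa V := by rw [hfa]; exact hinf
  have hfin := pp_fin hd hcop hdeg hper hinf
  obtain ⟨Pa, hPadef⟩ : ∃ Pa : Finset ℂ, ∀ p, p ∈ Pa ↔ p ∈ PP v0 :=
    ⟨hfin.toFinset, fun p => hfin.mem_toFinset⟩
  have hPaV : ∀ p, p ∈ Pa ↔ p ∈ PP V := fun p => by rw [hPadef, hpp]
  have hPn : Pa.Nonempty := by
    obtain ⟨p, hp⟩ := hP
    exact ⟨p, (hPadef p).2 hp⟩
  have hfun : Rf V = (Rf v0)^[N] := by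
    funext x
    exact hV x
  have h1 : ∀ p ∈ PP v0, FixMult (Rf v0)^[N] (p : OnePoint ℂ) 1 := by
    intro p hp
    have h := h1V p (by rw [hpp]; exact hp)
    rwa [Function.iterate_one, hfun] at h
  have hPJ : ∀ p ∈ Pa, p ∈ JP v0 := fun p hp =>
    par_jp hd hcop hdeg hper hN (h1 p ((hPadef p).1 hp))
  have hJn : (JP v0).Nonempty := by
    obtain ⟨p, hp⟩ := hPn
    exact ⟨p, hPJ p hp⟩
  have hJ : IsCompact (JP v0) := jp_cpt hd hcop hdeg hper hinf
  -- the data at the parabolic points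
  have hex : ∀ p : ℂ, ∃ (a : ℂ) (q : ℕ), p ∈ Pa → ParPt v0 N p a q := by
    intro p
    by_cases hp : p ∈ Pa
    · obtain ⟨p', a, q, hpe, h⟩ := par_pt hd hcop hdeg hper hN (h1 p ((hPadef p).1 hp))
      have e := OnePoint.coe_injective hpe
      subst e
      exact ⟨a, q, fun _ => h⟩
    · exact ⟨0, 0, fun h => absurd h hp⟩
  choose aa qq hA using hex
  have hexV : ∀ p : ℂ, ∃ (a : ℂ) (q : ℕ), p ∈ Pa → ParPt V 1 p a q := by
    intro p
    by_cases hp : p ∈ Pa
    · obtain ⟨p', a, q, hpe, h⟩ := par_pt hD hcopV hdegV hperV one_pos (h1V p ((hPaV p).1 hp))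
      have e := OnePoint.coe_injective hpe
      subst e
      exact ⟨a, q, fun _ => h⟩
    · exact ⟨0, 0, fun h => absurd h hp⟩
  choose ab qb hB using hexV
  -- the choice of `δ`
  have hpos : ∀ᶠ δ : ℝ in 𝓝[>] 0, 0 < δ := self_mem_nhdsWithin
  have hhalf : ∀ᶠ δ : ℝ in 𝓝[>] 0, δ < 1 / 2 := nhdsWithin_le_nhds (gt_mem_nhds (by norm_num))
  have hgn : ∀ᶠ δ : ℝ in 𝓝[>] 0, cthickening δ (JP v0) ⊆ GN v0 N :=
    avp_ev hJ (gn_open v0 N) fun z hz => jp_gn hcop hper hinf hz N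
  have havp := avp hD hcopV hdegV hperV hinfV h1V hPaV hPn
  rw [hjp] at havp
  have hinfo : ∀ᶠ δ : ℝ in 𝓝[>] 0, ∀ k ∈ Finset.range N, ∀ (m : ℕ) (y : ℂ),
      (Rf V)^[m] ((Rf v0)^[k] OnePoint.infty) = (y : OnePoint ℂ) → y ∉ Rth (JP v0) Pa δ := by
    rw [Filter.eventually_all_finset]
    intro k _
    have h := avp_one hD hcopV hdegV hperV hinfV h1V hPaV hPn
      (x := (Rf v0)^[k] OnePoint.infty) (by rw [hfa, fa_iter hcop hper]; exact hinf)
    rwa [hjp] at h
  have hcone : ∀ᶠ δ : ℝ in 𝓝[>] 0, ∀ p ∈ Pa, ∃ r : ℝ, 0 < r ∧ ∀ z : ℂ,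
      infDist z (JP v0) < δ * ‖z - p‖ → ‖z - p‖ < r → 0 ≤ (ab p * (z - p) ^ qb p).re := by
    rw [Filter.eventually_all_finset]
    intro p hp
    obtain ⟨δ1, r, hδ1, -, hr, h⟩ := cone_rth hJn (p := p) (a := ab p) (q := qb p)
      (fun ε hε => by
        have h := cone_J (hB p hp) hε
        rwa [hjp] at h) (ε := 1) one_pos le_rfl
    have hlt : ∀ᶠ δ : ℝ in 𝓝[>] 0, δ < δ1 := nhdsWithin_le_nhds (gt_mem_nhds hδ1)
    filter_upwards [hlt] with δ hδ
    refine ⟨r, hr, fun z hz hzr => ?_⟩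
    have h2 := h z (hz.trans_le (mul_le_mul_of_nonneg_right hδ.le (norm_nonneg _))) hzr
    rw [sub_self, zero_mul] at h2
    exact h2.le
  obtain ⟨δ, hδ, hδ1, hGd, ⟨-, ha2, ha3⟩, hio, hco⟩ :=
    (hpos.and (hhalf.and (hgn.and (havp.and (hinfo.and hcone))))).exists
  have hCrf : {z : ℂ | z ∈ JP v0 ∧ ∃ j < N, wv v0 (it v0 j z) = 0}.Finite := by
    refine (Pool.Agent.H91.CE.wv_ne hD hcopV hdegV).subset ?_
    rintro z ⟨hz, h⟩
    exact (fit_wv hV (jp_gn hcop hper hinf hz N)).2 h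
  -- the orbit of infinity under `Rf v0`
  have hinfall : ∀ (m : ℕ) (y : ℂ), (Rf v0)^[m] OnePoint.infty = (y : OnePoint ℂ) →
      y ∉ Rth (JP v0) Pa δ := by
    intro m y hy
    refine hio (m % N) (Finset.mem_range.2 (Nat.mod_lt _ hN)) (m / N) y ?_
    rw [fit_iter hV, ← Function.iterate_add_apply, Nat.add_comm, Nat.mod_add_div]
    exact hy
  -- from `V` to the iterate
  have hback : ∀ (i : ℕ) (w y : ℂ) (y' : ℂ), w ∈ Rth (JP v0) Pa δ →
      (∀ j < i, (fun z => it v0 N z)^[j] y ∈ GN v0 N) → (fun z => it v0 N z)^[i] y = w →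
      ev V.2 y' ≠ 0 → it V 1 y' = y → y' ∈ GN v0 N := by
    intro i w y y' hw hy hyw hy' hyy
    refine gn_of_fin fun j hj h0 => ?_
    have h2 : (Rf v0)^[N] (y' : OnePoint ℂ) = (y : OnePoint ℂ) := by
      rw [← hV, ← hyy]
      show rat (pol V.1) (pol V.2) (y' : OnePoint ℂ) = _
      rw [rat_coe_of_ne (by rw [pol_eval]; exact hy'), pol_eval, pol_eval]
      rfl
    have h3 : ∀ j ≤ i, (Rf v0)^[N * j] (y : OnePoint ℂ) =
        (((fun z => it v0 N z)^[j] y : ℂ) : OnePoint ℂ) := by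
      intro j
      induction j with
      | zero => intro _; rfl
      | succ j ih =>
        intro hj
        rw [Nat.mul_succ, Nat.add_comm, Function.iterate_add_apply, ih (by omega),
          gn_rat (hy j (by omega)) le_rfl, Function.iterate_succ_apply']
    have h4 : (Rf v0)^[N * i + (N - j)] OnePoint.infty = (w : OnePoint ℂ) := by
      rw [← h0, ← Function.iterate_add_apply]
      have e : N * i + (N - j) + j = N * i + N := by omega
      rw [e, Function.iterate_add_apply, h2, h3 i le_rfl, hyw]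
    exact hinfall _ w h4 hw
  refine ⟨N, { f := fun z => it v0 N z
               J := JP v0
               G := GN v0 N
               Cr := hCrf.toFinset
               Pa := Pa
               aa := aa
               qq := qq
               δ := δ
               hJ := hJ
               hJf := fun z hz => jp_it hcop hper hinf hz N
               hG := gn_open v0 N
               hf := fun z hz => (gn_deriv hz).differentiableAt.differentiableWithinAt
               hδ := hδ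
               hδ1 := hδ1.le
               hU := hGd
               hCr := fun c hc => (hCrf.mem_toFinset.1 hc).1
               hPa := hPJ
               hPn := hPn
               hcr := ?_
               hq := fun p hp => (hA p hp).hq
               ha := fun p hp => (hA p hp).ha
               par := ?_
               cone := fun p hp ε hε => cone_J (hA p hp) hε
               ce := ?_
               nn := ?_
               cn := ?_ }, ⟨hN, fun z => rfl, rfl, rfl, fun z => hCrf.mem_toFinset, hPadef, hA⟩⟩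
  · intro z hz
    rw [(gn_deriv (hGd hz)).deriv, trD_zero (hGd hz), hCrf.mem_toFinset]
    constructor
    · intro h
      exact ⟨ha2 z hz ((fit_wv hV (hGd hz)).2 h), h⟩
    · intro h
      exact h.2
  · intro p hp
    obtain ⟨-, -, -, x, k, rfl, -, -, -, hnf⟩ := hA p hp
    exact ⟨k, hnf⟩
  · intro c hc
    obtain ⟨hcJ, j, -, hj⟩ := hCrf.mem_toFinset.1 hc
    rcases cef hcop hper hinf hcr hN hcJ hj with h | ⟨m, h⟩
    · exact Or.inl h
    · exact Or.inr ⟨m, (hPadef _).2 h⟩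
  · intro x hx ρ hρ
    have h := nnp hD hcopV hdegV hperV hinfV h1V hPaV hB hδ (by rw [hjp]; exact hco)
      (by rw [hfa]; exact hdn) (x := x) (by rw [hjp]; exact hx) hρ
    rw [hjp] at h
    obtain ⟨n0, hn0⟩ := h
    refine ⟨n0, fun n hn hcon => hn0 n hn ⟨fun i hi z hz => ?_, fun z hz => ?_⟩⟩
    · exact (fit_its hV (i := n) fun j hj => hcon.1 j hj z hz).2 i hi
    · rw [(fit_its hV (i := n) fun j hj => hcon.1 j hj z hz).1 n le_rfl]
      exact hcon.2 z hz
  · intro i x r g u0 hr hball hg hgi hu0 hfu hdu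
    have hgiV : ∀ w ∈ ball x r, (it V 1)^[i] (g w) = w ∧
        ∀ j < i, ev V.2 ((it V 1)^[j] (g w)) ≠ 0 := by
      intro w hw
      obtain ⟨h2, h3⟩ := hgi w hw
      obtain ⟨h4, h5⟩ := fit_its hV h3
      exact ⟨by rw [h4 i le_rfl]; exact h2, h5⟩
    have hfuV : it V 1 u0 = g x := by rw [(fit_den hV hu0).2]; exact hfu
    have hduV : deriv (it V 1) u0 ≠ 0 := by
      rw [(fit_ev hV hu0).deriv_eq]
      exact hdu
    have havd : ∀ x : OnePoint ℂ, (x = OnePoint.infty ∨ ∃ c : ℂ, wv V c = 0 ∧ c ∉ JP v0 ∧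
        x = (c : OnePoint ℂ)) → ∀ (n : ℕ) (y : ℂ), (Rf V)^[n] x = (y : OnePoint ℂ) →
        y ∉ Rth (JP v0) Pa δ := ha3
    rcases cn_gen hD hcopV hdegV havd i x r g u0 hr hball hg hgiV (fit_den hV hu0).1 hfuV hduV with
      ⟨h, hh, hhx, hhs⟩ | ⟨ρ, b, c, h, hρ, hρr, hb, hc, hgb, hh, hhx, hhs, hlim⟩
    · left
      refine ⟨h, hh, hhx, fun w hw => ?_⟩
      have h2 : h w ∈ GN v0 N :=
        hback i w (g w) (h w) (hball hw) (hgi w hw).2 (hgi w hw).1 (hhs w hw).1 (hhs w hw).2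
      exact ⟨h2, by rw [← (fit_den hV h2).2]; exact (hhs w hw).2⟩
    · right
      have hcG : c ∈ GN v0 N := jp_gn hcop hper hinf hc.2 N
      refine ⟨ρ, b, c, h, hρ, hρr, hb, ?_, ?_, hh, hhx, fun w hw => ?_, hlim⟩
      · rw [hCrf.mem_toFinset]
        exact ⟨hc.2, (fit_wv hV hcG).1 hc.1⟩
      · rw [hgb, (fit_den hV hcG).2]
      · have hw' : w ∈ ball x r := ball_subset_ball hρr.le hw
        have h2 : h w ∈ GN v0 N :=
          hback i w (g w) (h w) (hball hw') (hgi w hw').2 (hgi w hw').1 (hhs w hw).1 (hhs w hw).2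
        exact ⟨h2, by rw [← (fit_den hV h2).2]; exact (hhs w hw).2⟩

end Pool.Agent.H79.PJ
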