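import Pool.Agent.H79.PJ.Avp
import Pool.Agent.H44.DN.NNF

/-!
# No normality at the points of `JP`, with the relative thickening

The proof of `nn_rat` (H44/DN/NNF), with the points attracted to parabolic points: their orbits are outside the
relative thickening.
-/

set_option autoImplicit false

open Filter Topology Polynomial Metric Set MeasureTheory

namespace Pool.Agent.H79.PJ

open Pool.Agent.H44.Fatou Pool.Agent.H32.BT Pool.Agent.H79.Eul Pool.Agent.H79.Par Pool.Agent.H79.PB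
open Pool.Agent.H91.CE Pool.Agent.H44.DN

theorem nnp {d : ℕ} (hd : 2 ≤ d) {v0 : E d} (hcop : IsCoprime (pol v0.1) (pol v0.2))
    (hdeg : max (pol v0.1).natDegree (pol v0.2).natDegree = d) (hper : NPer v0)
    (hinf : OnePoint.infty ∈ Fa v0) (h1 : ∀ p ∈ PP v0, FixMult (Rf v0)^[1] (p : OnePoint ℂ) 1)
    {Pa : Finset ℂ} (hPa : ∀ p, p ∈ Pa ↔ p ∈ PP v0) {aa : ℂ → ℂ} {qq : ℂ → ℕ}
    (hA : ∀ p ∈ Pa, ParPt v0 1 p (aa p) (qq p)) {δ : ℝ} (hδ : 0 < δ)
    (hcone : ∀ p ∈ Pa, ∃ r : ℝ, 0 < r ∧ ∀ z : ℂ, infDist z (JP v0) < δ * ‖z - p‖ → ‖z - p‖ < r →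
      0 ≤ (aa p * (z - p) ^ qq p).re)
    (hdn : Dense {z : ℂ | (z : OnePoint ℂ) ∈ Fa v0})
    {x : ℂ} (hx : x ∈ JP v0) {ρ : ℝ} (hρ : 0 < ρ) : ∃ N : ℕ, ∀ n ≥ N,
      ¬ ((∀ i < n, ∀ z ∈ ball x ρ, ev v0.2 ((it v0 1)^[i] z) ≠ 0) ∧
        ∀ z ∈ ball x ρ, (it v0 1)^[n] z ∈ Rth (JP v0) Pa δ) := by
  classical
  have hcont : Continuous (Rf v0) := rat_continuous hcop
  by_contra hcon
  push Not at hcon
  have hfr : ∃ᶠ n in atTop, ((∀ i < n, ∀ z ∈ ball x ρ, ev v0.2 ((it v0 1)^[i] z) ≠ 0) ∧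
        ∀ z ∈ ball x ρ, (it v0 1)^[n] z ∈ Rth (JP v0) Pa δ) := by
    rw [frequently_atTop]
    intro N
    obtain ⟨n, hn, h1, h2⟩ := hcon N
    exact ⟨n, hn, h1, h2⟩
  obtain ⟨φ, hφ, hP⟩ := extraction_of_frequently_atTop hfr
  -- the finite chart
  have hne : ∀ i, ∀ z ∈ ball x ρ, ev v0.2 ((it v0 1)^[i] z) ≠ 0 := by
    intro i z hz
    obtain ⟨k, hk⟩ : ∃ k, i < φ k := ⟨i + 1, lt_of_lt_of_le (Nat.lt_succ_self i) hφ.le_apply⟩
    exact (hP k).1 i hk z hz
  have hit1 : ∀ z, it v0 1 z = (pol v0.1).eval z / (pol v0.2).eval z := by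
    intro z
    rw [pol_eval, pol_eval]
    rfl
  have hF : ∀ i, ∀ z ∈ ball x ρ, (Rf v0)^[i] (z : OnePoint ℂ) = (((it v0 1)^[i] z : ℂ) : OnePoint ℂ) := by
    intro i z hz
    induction i with
    | zero => rfl
    | succ i ih =>
      rw [Function.iterate_succ_apply', ih, Function.iterate_succ_apply']
      have h1 : (pol v0.2).eval ((it v0 1)^[i] z) ≠ 0 := by
        rw [pol_eval]
        exact hne i z hz
      have h2 := rat_coe_of_ne (P := pol v0.1) h1
      rw [hit1]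
      exact h2
  set G : Set ℂ := {z | (pol v0.2).eval z ≠ 0} with hG
  have hGo : IsOpen G := by
    have : Continuous fun z : ℂ => (pol v0.2).eval z := (pol v0.2).continuous
    exact isOpen_ne_fun this continuous_const
  have hfG : DifferentiableOn ℂ (it v0 1) G := by
    have h1 : (it v0 1) = fun z => (pol v0.1).eval z / (pol v0.2).eval z := funext hit1
    rw [h1]
    intro z hz
    exact ((pol v0.1).differentiableAt.div (pol v0.2).differentiableAt hz).differentiableWithinAt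
  have hdiff : ∀ n, DifferentiableOn ℂ ((it v0 1)^[n]) (ball x ρ) := by
    intro n z hz
    refine (itg_diff hGo hfG fun i _ => ?_).differentiableWithinAt
    have := hne i z hz
    rw [← pol_eval] at this
    exact this
  -- bounded
  have hcpt : IsCompact (JP v0) := jp_cpt hd hcop hdeg hper hinf
  have hJn : (JP v0).Nonempty := ⟨x, hx⟩
  obtain ⟨B, hB⟩ := (hcpt.isBounded.thickening (δ := δ)).exists_norm_le
  obtain ⟨σ, g, hσ, hg, hlim⟩ := montel1 (F := fun k => (it v0 1)^[φ k]) (x := x) (ρ := ρ)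
    (ρ' := ρ / 2) (B := B) (by linarith) (by linarith) (fun k => hdiff _)
    (fun k z hz => hB _ (rth_thick hJn hδ.le ((hP k).2 z hz)))
  have hsub : ball x (ρ / 2) ⊆ ball x ρ := ball_subset_ball (by linarith)
  have hlim' : ∀ z ∈ ball x (ρ / 2), Tendsto (fun k => (it v0 1)^[φ (σ k)] z) atTop (𝓝 (g z)) := by
    intro z hz
    have h1 : Tendsto (fun k : ℕ => (k, z)) atTop (atTop ×ˢ 𝓝 z) :=
      tendsto_id.prodMk tendsto_const_nhds
    exact (hlim z hz).comp h1
  have hψ : StrictMono fun k => φ (σ k) := hφ.comp hσ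
  -- the attracted points
  have hatt : ∀ z ∈ ball x (ρ / 2), (z : OnePoint ℂ) ∈ Fa v0 →
      ∃ (y : OnePoint ℂ) (n j : ℕ), IsSink (Rf v0) y n ∧ ((g z : ℂ) : OnePoint ℂ) = (Rf v0)^[j] y := by
    rintro z hz ⟨y, n, ⟨hs, hy⟩ | h2⟩
    swap
    · exfalso
      obtain ⟨p, a, q, rfl, hP'⟩ := par_pt hd hcop hdeg hper h2.1 h2.2.1
      have hp : p ∈ Pa := (hPa p).2 ⟨n, h2.1, h2.2.1⟩
      have h3 := ty2_one hcont (h1 p ((hPa p).1 hp)) h2
      obtain ⟨J0, u, h4, h5, h6, h7⟩ := ty2_dir (hA p hp) h3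
      obtain ⟨r1, hr1, h8⟩ := hcone p hp
      obtain ⟨M, hM⟩ := eventually_atTop.1
        (h7.and (h6.eventually (ball_mem_nhds (0 : ℂ) hr1)))
      obtain ⟨j, hj⟩ : ∃ j, φ (J0 + M) = J0 + (M + j) := by
        have h9 : J0 + M ≤ φ (J0 + M) := hφ.le_apply
        exact ⟨φ (J0 + M) - (J0 + M), by omega⟩
      have h10 := (hP (J0 + M)).2 z (hsub hz)
      have h11 := hF (φ (J0 + M)) z (hsub hz)
      have h12 := h4 (M + j)
      rw [Nat.one_mul, ← hj, h11] at h12
      have h13 := OnePoint.coe_injective h12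
      rw [h13] at h10
      obtain ⟨h14, h15⟩ := hM (M + j) (by omega)
      rw [dist_zero_right] at h15
      have h16 : infDist (p + u (M + j)) (JP v0) < δ * ‖p + u (M + j) - p‖ := by
        have h17 : infDist (p + u (M + j)) (JP v0) < δ * dp Pa (p + u (M + j)) := h10
        exact h17.trans_le (mul_le_mul_of_nonneg_left (dp_le Pa hp _) hδ.le)
      have h18 := h8 (p + u (M + j)) h16 (by rw [add_sub_cancel_left]; exact h15)
      rw [add_sub_cancel_left] at h18
      linarith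
    have hn : 0 < n := hs.1
    have hpig : ∃ j < n, ∃ᶠ k in atTop, φ (σ k) % n = j := by
      by_contra hno
      push Not at hno
      have h1 : ∀ j ∈ Finset.range n, ∀ᶠ k in atTop, φ (σ k) % n ≠ j := by
        intro j hj
        have := hno j (Finset.mem_range.mp hj)
        exact this
      have h2 := (eventually_all_finset (Finset.range n)).mpr h1
      obtain ⟨k, hk⟩ := h2.exists
      exact hk (φ (σ k) % n) (Finset.mem_range.mpr (Nat.mod_lt _ hn)) rfl
    obtain ⟨j, hj, hfj⟩ := hpig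
    obtain ⟨τ, hτ, hmod⟩ := extraction_of_frequently_atTop hfj
    refine ⟨y, n, j, hs, ?_⟩
    have hT : Tendsto (fun k => φ (σ (τ k)) / n) atTop atTop :=
      (Nat.tendsto_div_const_atTop hn.ne').comp (hψ.comp hτ).tendsto_atTop
    have h3 : Tendsto (fun k => (Rf v0)^[j] ((Rf v0)^[n * (φ (σ (τ k)) / n)] (z : OnePoint ℂ)))
        atTop (𝓝 ((Rf v0)^[j] y)) :=
      ((hcont.iterate j).tendsto y).comp (hy.comp hT)
    have h4 : Tendsto (fun k => (((it v0 1)^[φ (σ (τ k))] z : ℂ) : OnePoint ℂ)) atTop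
        (𝓝 ((g z : ℂ) : OnePoint ℂ)) :=
      (OnePoint.continuous_coe.tendsto _).comp ((hlim' z hz).comp hτ.tendsto_atTop)
    have h5 : (fun k => (((it v0 1)^[φ (σ (τ k))] z : ℂ) : OnePoint ℂ)) =
        fun k => (Rf v0)^[j] ((Rf v0)^[n * (φ (σ (τ k)) / n)] (z : OnePoint ℂ)) := by
      funext k
      rw [← hF _ z (hsub hz), ← Function.iterate_add_apply]
      congr 2
      have h6 := Nat.mod_add_div (φ (σ (τ k))) n
      rw [hmod k] at h6
      exact h6.symm
    rw [h5] at h4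
    exact tendsto_nhds_unique h4 h3
  have hopen : IsOpen {z : ℂ | (z : OnePoint ℂ) ∈ Fa v0} :=
    (fa_open hd hcop hdeg hper).preimage OnePoint.continuous_coe
  obtain ⟨z0, hz0a, hz0⟩ := hdn.exists_mem_open isOpen_ball
    (⟨x, mem_ball_self (by linarith)⟩ : (ball x (ρ / 2)).Nonempty)
  have hganal : AnalyticOnNhd ℂ g (ball x (ρ / 2)) := hg.analyticOnNhd isOpen_ball
  have hcst : ∃ w, ∀ z ∈ ball x (ρ / 2), g z = w := by
    rcases hganal.is_constant_or_isOpen (convex_ball x (ρ / 2)).isPreconnected with h1 | h1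
    · exact h1
    · exfalso
      set U0 : Set ℂ := ball x (ρ / 2) ∩ {z : ℂ | (z : OnePoint ℂ) ∈ Fa v0} with hU0
      have hU0o : IsOpen (g '' U0) := h1 U0 inter_subset_left (isOpen_ball.inter hopen)
      have hcount : (g '' U0).Countable := by
        have h2 := per_all_countable hcop (by rw [hdeg]; exact hd)
        have h3 : ({p : ℂ | ∃ n : ℕ, 0 < n ∧ (Rf v0)^[n] (p : OnePoint ℂ) = (p : OnePoint ℂ)}).Countable :=
          h2.preimage_of_injOn (f := fun p : ℂ => (p : OnePoint ℂ))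
            (OnePoint.coe_injective.injOn)
        refine h3.mono ?_
        rintro p ⟨z, ⟨hz, hza⟩, rfl⟩
        obtain ⟨y, n, j, hs, he⟩ := hatt z hz hza
        refine ⟨n, hs.1, ?_⟩
        rw [he, ← Function.iterate_add_apply, add_comm, Function.iterate_add_apply, hs.2.1]
      have h4 : volume (g '' U0) = 0 := hcount.measure_zero volume
      have h5 : (g '' U0).Nonempty := ⟨g z0, z0, ⟨hz0, hz0a⟩, rfl⟩
      exact (hU0o.measure_pos volume h5).ne' h4
  obtain ⟨w, hw⟩ := hcst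
  obtain ⟨y, n, j, hs, he⟩ := hatt z0 hz0 hz0a
  have hAy : y ∈ Fa v0 := by
    refine ⟨y, n, Or.inl ⟨hs, ?_⟩⟩
    have : (fun k : ℕ => (Rf v0)^[n * k] y) = fun _ => y := by
      funext k
      rw [Function.iterate_mul]
      exact Function.iterate_fixed hs.2.1 k
    rw [this]
    exact tendsto_const_nhds
  have hAw : ((g x : ℂ) : OnePoint ℂ) ∈ Fa v0 := by
    have h1 : g x = g z0 := by
      rw [hw z0 hz0, hw x (mem_ball_self (by linarith))]
    rw [h1, he, fa_iter hcop hper]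
    exact hAy
  have hev : ∀ᶠ k in atTop, (it v0 1)^[φ (σ k)] x ∈ {z : ℂ | (z : OnePoint ℂ) ∈ Fa v0} :=
    (hlim' x (mem_ball_self (by linarith))).eventually (hopen.mem_nhds hAw)
  obtain ⟨k, hk⟩ := hev.exists
  have hk' : (((it v0 1)^[φ (σ k)] x : ℂ) : OnePoint ℂ) ∈ Fa v0 := hk
  rw [← hF _ x (mem_ball_self hρ), fa_iter hcop hper] at hk'
  exact hx hk'

end Pool.Agent.H79.PJ
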