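import Pool.Agent.H79.PJ.PcrB
import Pool.Agent.H79.PJ.RIter
import Pool.Agent.H91.CE.HYPF

/-!
# Finitely many parabolic points, a common period

`pp_fin`, `pp_common`; `nice_iter`: an iterate all of whose parabolic points are fixed with multiplier `1`.
-/

set_option autoImplicit false

open Filter Topology Polynomial Metric Set

namespace Pool.Agent.H79.PJ

open Pool.Agent.H44.Fatou Pool.Agent.H32.BT Pool.Agent.H79.Eul Pool.Agent.H79.Par Pool.Agent.H79.PB
open Pool.Agent.H80.AJ (fixMult_fix iter_fixed CL cl_unique cl_mul cl_shift ty1_open ty2_open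
  tendsto_shift_iter fixMult_iter)

/-- the parabolic points -/
def PP {d : ℕ} (v0 : E d) : Set ℂ :=
  {p : ℂ | ∃ n : ℕ, 0 < n ∧ FixMult (Rf v0)^[n] (p : OnePoint ℂ) 1}

theorem orb_finite {X : Type*} {f : X → X} {z : X} {n : ℕ} (hn : 0 < n) (hz : f^[n] z = z) :
    {x : X | ∃ i : ℕ, x = f^[i] z}.Finite := by
  refine ((Finset.range n).finite_toSet.image fun i => f^[i] z).subset ?_
  rintro x ⟨i, rfl⟩
  refine ⟨i % n, by simpa using Nat.mod_lt i hn, ?_⟩
  show f^[i % n] z = f^[i] z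
  conv_rhs => rw [← Nat.mod_add_div i n, Function.iterate_add_apply, iter_fixed hz]

theorem pp_fin {d : ℕ} (hd : 2 ≤ d) {v0 : E d} (hcop : IsCoprime (pol v0.1) (pol v0.2))
    (hdeg : max (pol v0.1).natDegree (pol v0.2).natDegree = d) (hper : NPer v0)
    (hinf : OnePoint.infty ∈ Fa v0) : (PP v0).Finite := by
  have hc : Continuous (Rf v0) := rat_continuous hcop
  have hzf : {c : ℂ | wv v0 c = 0}.Finite := Pool.Agent.H91.CE.wv_ne hd hcop hdeg
  have hX : {x : OnePoint ℂ | x = OnePoint.infty ∨ ∃ c : ℂ, wv v0 c = 0 ∧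
      x = (c : OnePoint ℂ)}.Finite := by
    refine ((Set.finite_singleton (OnePoint.infty : OnePoint ℂ)).union
      (hzf.image fun c : ℂ => (c : OnePoint ℂ))).subset ?_
    rintro x (h | ⟨c, h1, h2⟩)
    · exact Or.inl h
    · exact Or.inr ⟨c, h1, h2.symm⟩
  have hS : ∀ x : OnePoint ℂ, {p : ℂ | ∃ j m : ℕ, Ty2 (Rf v0) ((Rf v0)^[j] x)
      (p : OnePoint ℂ) m}.Finite := by
    intro x
    by_cases hne : ∃ p0 : ℂ, ∃ j m : ℕ, Ty2 (Rf v0) ((Rf v0)^[j] x) (p0 : OnePoint ℂ) m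
    · obtain ⟨p0, j0, m0, h0⟩ := hne
      have h1 : {y : OnePoint ℂ | ∃ i : ℕ, y = (Rf v0)^[i] (p0 : OnePoint ℂ)}.Finite :=
        orb_finite h0.1 (fixMult_fix h0.2.1)
      refine (h1.preimage (f := fun p : ℂ => (p : OnePoint ℂ))
        (OnePoint.coe_injective.injOn)).subset ?_
      rintro p ⟨j, m, h⟩
      have c0 : CL (Rf v0) ((Rf v0)^[j0] x) (p0 : OnePoint ℂ) m0 :=
        ⟨h0.1, fixMult_fix h0.2.1, h0.2.2.1⟩
      have c1 : CL (Rf v0) ((Rf v0)^[j] x) (p : OnePoint ℂ) m :=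
        ⟨h.1, fixMult_fix h.2.1, h.2.2.1⟩
      have c0' := cl_shift hc c0 j
      have c1' := cl_shift hc c1 j0
      rw [← Function.iterate_add_apply] at c0' c1'
      rw [Nat.add_comm] at c1'
      have h2 : (Rf v0)^[j] (p0 : OnePoint ℂ) = (Rf v0)^[j0] (p : OnePoint ℂ) := cl_unique c0' c1'
      refine ⟨m * j0 - j0 + j, ?_⟩
      show (p : OnePoint ℂ) = _
      rw [Function.iterate_add_apply, h2, ← Function.iterate_add_apply]
      have e : m * j0 - j0 + j0 = m * j0 := Nat.sub_add_cancel (Nat.le_mul_of_pos_left j0 h.1)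
      rw [e, iter_fixed (fixMult_fix h.2.1)]
    · have e : {p : ℂ | ∃ j m : ℕ, Ty2 (Rf v0) ((Rf v0)^[j] x) (p : OnePoint ℂ) m} = ∅ := by
        ext p
        constructor
        · intro h
          exact absurd ⟨p, h⟩ hne
        · intro h
          exact absurd h (Set.notMem_empty p)
      rw [e]
      exact Set.finite_empty
  refine (hX.biUnion fun x _ => hS x).subset ?_
  rintro p ⟨n, hn, h⟩
  obtain ⟨p', a, q, hpp, hP⟩ := par_pt hd hcop hdeg hper hn h
  have e := OnePoint.coe_injective hpp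
  subst e
  obtain ⟨x, hx, j, m, h1⟩ := par_crit hd hcop hdeg hper hinf hP
  exact Set.mem_biUnion hx ⟨j, m, h1⟩

theorem fixMult_mul {F : OnePoint ℂ → OnePoint ℂ} {z : OnePoint ℂ} {n : ℕ}
    (h : FixMult F^[n] z 1) (m : ℕ) : FixMult F^[n * m] z 1 := by
  have h1 := fixMult_iter h m
  rwa [one_pow, ← Function.iterate_mul] at h1

theorem pp_common {d : ℕ} (hd : 2 ≤ d) {v0 : E d} (hcop : IsCoprime (pol v0.1) (pol v0.2))
    (hdeg : max (pol v0.1).natDegree (pol v0.2).natDegree = d) (hper : NPer v0)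
    (hinf : OnePoint.infty ∈ Fa v0) :
    ∃ N : ℕ, 0 < N ∧ ∀ p ∈ PP v0, FixMult (Rf v0)^[N] (p : OnePoint ℂ) 1 := by
  classical
  have hf := pp_fin hd hcop hdeg hper hinf
  have hch : ∀ p : ℂ, ∃ n : ℕ, 0 < n ∧ (p ∈ PP v0 → FixMult (Rf v0)^[n] (p : OnePoint ℂ) 1) := by
    intro p
    by_cases hp : p ∈ PP v0
    · obtain ⟨n, hn, h⟩ := hp
      exact ⟨n, hn, fun _ => h⟩
    · exact ⟨1, one_pos, fun h => absurd h hp⟩
  choose n hn h using hch
  refine ⟨∏ p ∈ hf.toFinset, n p, Finset.prod_pos fun p _ => hn p, fun p hp => ?_⟩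
  rw [← Finset.mul_prod_erase _ _ (hf.mem_toFinset.2 hp)]
  exact fixMult_mul (h p hp) _

/-- an iterate all of whose parabolic points are fixed with multiplier `1` -/
theorem nice_iter {d : ℕ} (hd : 2 ≤ d) {v0 : E d} (hcop : IsCoprime (pol v0.1) (pol v0.2))
    (hdeg : max (pol v0.1).natDegree (pol v0.2).natDegree = d) (hper : NPer v0)
    (hinf : OnePoint.infty ∈ Fa v0) :
    ∃ (N : ℕ) (V : E (d ^ N)), 0 < N ∧ 2 ≤ d ^ N ∧ IsCoprime (pol V.1) (pol V.2) ∧
      max (pol V.1).natDegree (pol V.2).natDegree = d ^ N ∧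
      (∀ x : OnePoint ℂ, Rf V x = (Rf v0)^[N] x) ∧ NPer V ∧
      ∀ p ∈ PP V, FixMult (Rf V)^[1] (p : OnePoint ℂ) 1 := by
  obtain ⟨N, hN, h⟩ := pp_common hd hcop hdeg hper hinf
  obtain ⟨V, h1, h2, h3⟩ := exists_iter (by omega) hcop hdeg N
  have hfun : Rf V = (Rf v0)^[N] := by
    funext x
    exact h3 x
  refine ⟨N, V, hN, ?_, h1, h2, h3, ?_, ?_⟩
  · calc 2 ≤ d := hd
      _ = d ^ 1 := (pow_one d).symm
      _ ≤ d ^ N := Nat.pow_le_pow_right (by omega) hN
  · intro n hn h4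
    rw [hfun, ← Function.iterate_mul] at h4
    exact hper (N * n) (Nat.mul_pos hN hn) h4
  · rintro p ⟨n, hn, h4⟩
    rw [hfun, ← Function.iterate_mul] at h4
    rw [Function.iterate_one, hfun]
    exact h p ⟨N * n, Nat.mul_pos hN hn, h4⟩

end Pool.Agent.H79.PJ
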