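import Pool.Agent.H79.PJ.PDefs

/-!
# The geometry of the cones: the regions `V1 ⊆ V`
-/

set_option autoImplicit false

open Filter Topology Polynomial Metric Set

namespace Pool.Agent.H79.PJ

open Pool.Agent.H44.DP (dS)

theorem ds_le {P : Finset ℂ} {p : ℂ} (hp : p ∈ P) (z : ℂ) : dS P z ≤ ‖z - p‖ := by
  unfold dS
  rw [if_pos ⟨p, hp⟩]
  refine (min_le_right _ _).trans ?_
  rw [← dist_eq_norm]
  exact infDist_le_dist_of_mem (by exact_mod_cast hp)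

theorem ds_one (P : Finset ℂ) (z : ℂ) : dS P z ≤ 1 := by
  unfold dS
  split_ifs with h
  · exact min_le_left _ _
  · exact le_rfl

theorem ds_nonneg (P : Finset ℂ) (z : ℂ) : 0 ≤ dS P z := by
  unfold dS
  split_ifs with h
  · exact le_min zero_le_one infDist_nonneg
  · exact zero_le_one

theorem vgeo_rot {Z e : ℂ} {s t η : ℝ} (hη : ‖e‖ ≤ η) (ht : 0 ≤ t) (hst : t * (1 + η) + η ≤ s)
    (h : s * ‖Z‖ < Z.re) : t * ‖Z * (1 + e)‖ < (Z * (1 + e)).re := by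
  have h0 := norm_nonneg Z
  have h1 : (Z * (1 + e)).re = Z.re + (Z * e).re := by
    rw [mul_add, mul_one, Complex.add_re]
  have h2 : -(‖Z‖ * η) ≤ (Z * e).re := by
    have h3 := Complex.abs_re_le_norm (Z * e)
    rw [norm_mul] at h3
    have h4 := neg_abs_le (Z * e).re
    have h5 : ‖Z‖ * ‖e‖ ≤ ‖Z‖ * η := mul_le_mul_of_nonneg_left hη h0
    linarith
  have h3 : ‖Z * (1 + e)‖ ≤ ‖Z‖ * (1 + η) := by
    rw [norm_mul]
    refine mul_le_mul_of_nonneg_left ?_ h0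
    refine (norm_add_le _ _).trans ?_
    rw [norm_one]
    linarith
  rw [h1]
  calc t * ‖Z * (1 + e)‖ ≤ t * (‖Z‖ * (1 + η)) := mul_le_mul_of_nonneg_left h3 ht
    _ = (t * (1 + η)) * ‖Z‖ := by ring
    _ ≤ (s - η) * ‖Z‖ := mul_le_mul_of_nonneg_right (by linarith) h0
    _ < Z.re + (Z * e).re := by linarith

/-- small relative displacements keep the cones -/
theorem vgeo_pert {z w p a : ℂ} {q : ℕ} {ϑ s t η : ℝ}
    (hϑ : ∀ t : ℂ, ‖t‖ ≤ ϑ → ‖(1 + t) ^ q - 1‖ ≤ η) (hzp : z ≠ p) (hw : ‖w - z‖ < ϑ * ‖z - p‖)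
    (ht : 0 ≤ t) (hst : t * (1 + η) + η ≤ s) (h : s * ‖a * (z - p) ^ q‖ < (a * (z - p) ^ q).re) :
    t * ‖a * (w - p) ^ q‖ < (a * (w - p) ^ q).re := by
  have h0 : z - p ≠ 0 := sub_ne_zero.2 hzp
  have h0n : 0 < ‖z - p‖ := norm_pos_iff.2 h0
  obtain ⟨x, hx⟩ : ∃ x : ℂ, w - p = (z - p) * (1 + x) := by
    refine ⟨(w - p) / (z - p) - 1, ?_⟩
    field_simp
    ring
  have hxn : ‖x‖ ≤ ϑ := by
    have h8 : w - z = (z - p) * x := by linear_combination hx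
    rw [h8, norm_mul, mul_comm] at hw
    exact (lt_of_mul_lt_mul_right hw h0n.le).le
  have h18 : a * (w - p) ^ q = a * (z - p) ^ q * (1 + ((1 + x) ^ q - 1)) := by
    rw [hx, mul_pow]
    ring
  rw [h18]
  exact vgeo_rot (hϑ x hxn) ht hst h

theorem vgeo_dist {z w p : ℂ} {ϑ : ℝ} (hϑ1 : ϑ ≤ 1 / 4) (hzp : z ≠ p)
    (hw : ‖w - z‖ < ϑ * ‖z - p‖) : w ≠ p ∧ ‖z - p‖ ≤ 2 * ‖w - p‖ := by
  have h0n : 0 < ‖z - p‖ := norm_pos_iff.2 (sub_ne_zero.2 hzp)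
  have h1 : ‖w - z‖ < 1 / 4 * ‖z - p‖ :=
    hw.trans_le (mul_le_mul_of_nonneg_right hϑ1 h0n.le)
  have h2 : ‖z - p‖ ≤ ‖w - z‖ + ‖w - p‖ := by
    have e : z - p = (w - p) - (w - z) := by ring
    rw [e, add_comm]
    exact norm_sub_le _ _
  constructor
  · rintro rfl
    rw [sub_self, norm_zero, add_zero] at h2
    linarith
  · linarith

/-- a common displacement for finitely many exponents -/
theorem vgeo_th (P : Finset ℂ) (q : ℂ → ℕ) {η : ℝ} (hη : 0 < η) :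
    ∃ ϑ : ℝ, 0 < ϑ ∧ ∀ p ∈ P, ∀ t : ℂ, ‖t‖ ≤ ϑ → ‖(1 + t) ^ q p - 1‖ ≤ η := by
  have h1 : ∀ᶠ ϑ : ℝ in 𝓝[>] 0, ∀ p ∈ P, ∀ t : ℂ, ‖t‖ ≤ ϑ → ‖(1 + t) ^ q p - 1‖ ≤ η := by
    rw [Filter.eventually_all_finset]
    intro p _
    have h8 : ContinuousAt (fun t : ℂ => (1 + t) ^ q p - 1) 0 := by fun_prop
    obtain ⟨e, he, he'⟩ := Metric.continuousAt_iff.1 h8 η hη
    have h2 : ∀ᶠ ϑ : ℝ in 𝓝[>] 0, ϑ < e := nhdsWithin_le_nhds (gt_mem_nhds he)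
    filter_upwards [h2] with ϑ hϑ t ht
    have h9 := he' (x := t) (by
      rw [dist_zero_right]
      linarith)
    rw [dist_eq_norm] at h9
    simpa using h9.le
  have hpos : ∀ᶠ ϑ : ℝ in 𝓝[>] 0, 0 < ϑ := self_mem_nhdsWithin
  obtain ⟨ϑ, h2, h3⟩ := (h1.and hpos).exists
  exact ⟨ϑ, h3, h2⟩

namespace P0

variable (X : P0)

/-- the large region -/
def V : Set ℂ := VV X.J X.Pa X.aa X.qq X.δV X.R (3 / 4)

/-- the small region -/
def V1 : Set ℂ := VV X.J X.Pa X.aa X.qq (X.δV / 2) (2 * X.R) (7 / 8)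

theorem v1_sub : X.V1 ⊆ X.V := by
  intro z hz
  obtain ⟨h1, h2⟩ := hz
  refine ⟨h1.trans (by linarith [X.hδV]), fun p hp => ⟨(h2 p hp).1, fun hr => ?_⟩⟩
  have h3 := (h2 p hp).2 (by linarith [X.hR])
  have h4 := norm_nonneg (X.aa p * (z - p) ^ X.qq p)
  linarith

theorem jne : X.J.Nonempty := by
  obtain ⟨c, hc⟩ := X.hne
  exact ⟨c, X.hCr c hc⟩

theorem v_thick : X.V ⊆ thickening (X.δ / 8) X.J := by
  intro z hz
  rw [mem_thickening_iff_infDist_lt X.jne]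
  exact hz.1.trans_le X.hδV1

theorem v_pa {p : ℂ} (hp : p ∈ X.Pa) : p ∉ X.V := fun h => (h.2 p hp).1 rfl

/-- the displacements -/
theorem v_disp : ∃ ϑ : ℝ, 0 < ϑ ∧ ϑ ≤ 1 / 4 ∧
    (∀ z ∈ X.J, z ∉ X.Pa → ∀ w : ℂ, ‖w - z‖ < ϑ * dS X.Pa z → w ∈ X.V1) ∧
    ∀ z ∈ X.V1, ∀ w : ℂ, ‖w - z‖ < ϑ * dS X.Pa z → w ∈ X.V := by
  obtain ⟨ϑ0, hϑ0, h0⟩ := vgeo_th X.Pa X.qq (η := 1 / 30) (by norm_num)
  have hδV := X.hδV
  have hR := X.hR
  obtain ⟨ϑ, hϑ, hϑ1, hϑ2, hϑ3⟩ : ∃ ϑ : ℝ, 0 < ϑ ∧ ϑ ≤ 1 / 4 ∧ ϑ ≤ X.δV / 2 ∧ ϑ ≤ ϑ0 :=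
    ⟨min (1 / 4) (min (X.δV / 2) ϑ0), by positivity, min_le_left _ _,
      (min_le_right _ _).trans (min_le_left _ _), (min_le_right _ _).trans (min_le_right _ _)⟩
  have h1 : ∀ p ∈ X.Pa, ∀ t : ℂ, ‖t‖ ≤ ϑ → ‖(1 + t) ^ X.qq p - 1‖ ≤ 1 / 30 :=
    fun p hp t ht => h0 p hp t (ht.trans hϑ3)
  have hlip : ∀ z w : ℂ, ‖w - z‖ < ϑ * dS X.Pa z → infDist w X.J < infDist z X.J + X.δV / 2 := by
    intro z w hw
    have h2 : infDist w X.J ≤ infDist z X.J + dist w z := infDist_le_infDist_add_dist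
    rw [dist_eq_norm] at h2
    have h3 : ϑ * dS X.Pa z ≤ ϑ * 1 := mul_le_mul_of_nonneg_left (ds_one _ _) hϑ.le
    linarith
  have hrel : ∀ z w : ℂ, ‖w - z‖ < ϑ * dS X.Pa z → ∀ p ∈ X.Pa, ‖w - z‖ < ϑ * ‖z - p‖ := by
    intro z w hw p hp
    exact hw.trans_le (mul_le_mul_of_nonneg_left (ds_le hp z) hϑ.le)
  refine ⟨ϑ, hϑ, hϑ1, fun z hz hzP w hw => ⟨?_, fun p hp => ?_⟩, fun z hz w hw => ⟨?_, fun p hp => ?_⟩⟩
  · have h2 := hlip z w hw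
    rw [infDist_zero_of_mem hz] at h2
    linarith
  · have hzp : z ≠ p := fun h => hzP (by rw [h]; exact hp)
    obtain ⟨h2, h3⟩ := vgeo_dist hϑ1 hzp (hrel z w hw p hp)
    refine ⟨h2, fun hwr => ?_⟩
    exact vgeo_pert (h1 p hp) hzp (hrel z w hw p hp) (by norm_num) (by norm_num)
      (X.cone p hp z hz hzp (by linarith))
  · have h2 := hlip z w hw
    have h3 := hz.1
    linarith
  · obtain ⟨hzp, hzc⟩ := hz.2 p hp
    obtain ⟨h2, h3⟩ := vgeo_dist hϑ1 hzp (hrel z w hw p hp)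
    refine ⟨h2, fun hwr => ?_⟩
    exact vgeo_pert (h1 p hp) hzp (hrel z w hw p hp) (by norm_num) (by norm_num)
      (hzc (by linarith))

/-- near a parabolic point `V1` is the whole cone -/
theorem v_cone {r0 : ℝ} (hr0 : r0 ≤ X.δV / 2) (hr1 : r0 ≤ X.R) {p : ℂ} (hp : p ∈ X.Pa) {z : ℂ}
    (hz : z ∈ ball p r0) (hz1 : z ∉ X.V1) :
    (X.aa p * (z - p) ^ X.qq p).re ≤ (1 - 1 / 8) * ‖X.aa p * (z - p) ^ X.qq p‖ := by
  by_contra hcon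
  rw [not_le] at hcon
  apply hz1
  rw [mem_ball, dist_eq_norm] at hz
  have hR := X.hR
  have hzp : z ≠ p := by
    rintro rfl
    have h1 := X.hq z hp
    rw [sub_self, zero_pow (by omega), mul_zero, norm_zero, mul_zero, Complex.zero_re] at hcon
    exact lt_irrefl _ hcon
  refine ⟨?_, fun p' hp' => ?_⟩
  · have h1 := infDist_le_dist_of_mem (x := z) (X.hPa p hp)
    rw [dist_eq_norm] at h1
    linarith
  · by_cases hpp : p' = p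
    · rw [hpp]
      refine ⟨hzp, fun _ => ?_⟩
      linarith
    · have h1 := X.hsepR p' hp' p hp hpp
      have h2 : ‖p' - p‖ ≤ ‖z - p'‖ + ‖z - p‖ := by
        have e : p' - p = (z - p) - (z - p') := by ring
        rw [e, add_comm]
        exact norm_sub_le _ _
      refine ⟨?_, fun h3 => ?_⟩
      · rintro rfl
        rw [sub_self, norm_zero, zero_add] at h2
        linarith
      · linarith

/-- points of `V` near a parabolic point -/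
theorem v_half {r0 : ℝ} (hr1 : r0 ≤ X.R) {p : ℂ} (hp : p ∈ X.Pa) {z : ℂ}
    (hz : z ∈ ball p r0) (hz1 : z ∈ X.V) :
    1 / 2 * ‖X.aa p * (z - p) ^ X.qq p‖ ≤ (X.aa p * (z - p) ^ X.qq p).re := by
  rw [mem_ball, dist_eq_norm] at hz
  have h1 := (hz1.2 p hp).2 (by linarith)
  have h2 := norm_nonneg (X.aa p * (z - p) ^ X.qq p)
  linarith

end P0

end Pool.Agent.H79.PJ
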