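import Pool.Agent.H79.PJ.Exp
import Pool.Agent.H79.PJ.Vgeo
import Pool.Agent.H79.PJ.Ce2W

/-!
# Common constants at the parabolic points; the Collet-Eckmann orbits stay away from `Pa` and the landing points
-/

set_option autoImplicit false

open Filter Topology Polynomial Metric Set

namespace Pool.Agent.H79.PJ

open Pool.Agent.H44.Fatou Pool.Agent.H32.BT Pool.Agent.H79.Eul Pool.Agent.H79.Par Pool.Agent.H79.PB
open Pool.Agent.H44.DN (itg_diff itg_ne itg_succ itg_add)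

/-- the bounds at a parabolic point, with the constant `T` -/
def Pbd (X : P0) (η : ℝ) (p : ℂ) (T : ℝ) : Prop :=
  (∀ z ∈ ball p (1 / T), ‖X.f z - p‖ ≤ ‖z - p‖ * Real.exp (T * ‖z - p‖ ^ X.qq p) ∧
    ‖z - p‖ ≤ ‖X.f z - p‖ * Real.exp (T * ‖z - p‖ ^ X.qq p) ∧
    ‖deriv X.f z‖ ≤ Real.exp (T * ‖z - p‖ ^ X.qq p)) ∧
  (∀ z ∈ ball p (1 / T),
    1 / 2 * ‖X.aa p * (z - p) ^ X.qq p‖ ≤ (X.aa p * (z - p) ^ X.qq p).re →
    ‖z - p‖ * Real.exp (1 / T * ‖z - p‖ ^ X.qq p) ≤ ‖X.f z - p‖ ∧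
    ‖X.f z - p‖ * Real.exp (1 / T * ‖z - p‖ ^ X.qq p) ≤ ‖z - p‖ * ‖deriv X.f z‖) ∧
  ∃ φ : ℂ → ℂ, DifferentiableOn ℂ φ (ball p (1 / T)) ∧
    (∀ w ∈ ball p (1 / T), X.f (φ w) = w ∧ ‖φ w - p‖ < η ∧ ‖φ w - p‖ ≤ 2 * ‖w - p‖ ∧
      ‖deriv φ w‖ ≤ 2) ∧ ∀ z ∈ ball p (1 / T), φ (X.f z) = z

theorem pbd_mono {X : P0} {η : ℝ} {p : ℂ} {T T' : ℝ} (hT : 0 < T) (hTT : T ≤ T')
    (h : Pbd X η p T) : Pbd X η p T' := by
  obtain ⟨h1, h2, φ, h3, h4, h5⟩ := h
  have hT' : 0 < T' := hT.trans_le hTT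
  have h6 : 1 / T' ≤ 1 / T := one_div_le_one_div_of_le hT hTT
  have hb : ball p (1 / T') ⊆ ball p (1 / T) := ball_subset_ball h6
  refine ⟨fun z hz => ?_, fun z hz hc => ?_, φ, h3.mono hb, fun w hw => h4 w (hb hw),
    fun z hz => h5 z (hb hz)⟩
  · obtain ⟨a1, a2, a3⟩ := h1 z (hb hz)
    have hx : 0 ≤ ‖z - p‖ ^ X.qq p := by positivity
    have he : Real.exp (T * ‖z - p‖ ^ X.qq p) ≤ Real.exp (T' * ‖z - p‖ ^ X.qq p) :=
      Real.exp_le_exp.2 (mul_le_mul_of_nonneg_right hTT hx)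
    exact ⟨a1.trans (mul_le_mul_of_nonneg_left he (norm_nonneg _)),
      a2.trans (mul_le_mul_of_nonneg_left he (norm_nonneg _)), a3.trans he⟩
  · obtain ⟨a1, a2⟩ := h2 z (hb hz) hc
    have hx : 0 ≤ ‖z - p‖ ^ X.qq p := by positivity
    have he : Real.exp (1 / T' * ‖z - p‖ ^ X.qq p) ≤ Real.exp (1 / T * ‖z - p‖ ^ X.qq p) :=
      Real.exp_le_exp.2 (mul_le_mul_of_nonneg_right h6 hx)
    exact ⟨(mul_le_mul_of_nonneg_left he (norm_nonneg _)).trans a1,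
      (mul_le_mul_of_nonneg_left he (norm_nonneg _)).trans a2⟩

theorem pbd_ex (X : P0) {η : ℝ} (hη : 0 < η) {p : ℂ} (hp : p ∈ X.Pa) :
    ∃ T : ℝ, 1 ≤ T ∧ Pbd X η p T := by
  obtain ⟨k, hnf⟩ := X.par p hp
  obtain ⟨r1, C1, hr1, hC1, h1⟩ := exp_up (X.hq p hp) (X.ha p hp) hnf
  obtain ⟨r2, κ, hr2, hκ, h2⟩ := exp_lo (X.hq p hp) (X.ha p hp) hnf
  obtain ⟨r3, φ, hr3, h3, h4, h5⟩ := loc_inv (X.hq p hp) hnf hη
  have hder : ∀ z : ℂ, deriv (fun u => X.f (p + u) - p) (z - p) = deriv X.f z := by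
    intro z
    rw [deriv_sub_const, deriv_comp_const_add, add_sub_cancel]
  have hval : ∀ z : ℂ, X.f (p + (z - p)) - p = X.f z - p := by
    intro z
    rw [add_sub_cancel]
  obtain ⟨T, hT, t1, t2, t3, t4, t5⟩ : ∃ T : ℝ, 1 ≤ T ∧ C1 ≤ T ∧ 1 / T ≤ κ ∧ 1 / T ≤ r1 ∧
      1 / T ≤ r2 ∧ 1 / T ≤ r3 := by
    have key : ∀ (s T : ℝ), 0 < s → 1 / s ≤ T → 0 < T → 1 / T ≤ s := by
      intro s T hs h hT
      rw [div_le_iff₀ hT]
      rw [div_le_iff₀ hs] at h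
      linarith
    obtain ⟨T, hTd⟩ : ∃ T : ℝ, T = 1 + C1 + 1 / κ + 1 / r1 + 1 / r2 + 1 / r3 := ⟨_, rfl⟩
    have p1 : 0 < 1 / κ := by positivity
    have p2 : 0 < 1 / r1 := by positivity
    have p3 : 0 < 1 / r2 := by positivity
    have p4 : 0 < 1 / r3 := by positivity
    have hT0 : 0 < T := by rw [hTd]; linarith
    exact ⟨T, by rw [hTd]; linarith, by rw [hTd]; linarith, key _ _ hκ (by rw [hTd]; linarith) hT0,
      key _ _ hr1 (by rw [hTd]; linarith) hT0, key _ _ hr2 (by rw [hTd]; linarith) hT0,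
      key _ _ hr3 (by rw [hTd]; linarith) hT0⟩
  refine ⟨T, hT, fun z hz => ?_, fun z hz hc => ?_, fun w => p + φ (w - p), ?_, fun w hw => ?_,
    fun z hz => ?_⟩
  · rw [mem_ball, dist_eq_norm] at hz
    obtain ⟨a1, a2, a3⟩ := h1 (z - p) (by linarith)
    rw [hval] at a1 a2
    rw [hder] at a3
    have hx : 0 ≤ ‖z - p‖ ^ X.qq p := by positivity
    have he : Real.exp (C1 * ‖z - p‖ ^ X.qq p) ≤ Real.exp (T * ‖z - p‖ ^ X.qq p) :=
      Real.exp_le_exp.2 (mul_le_mul_of_nonneg_right t1 hx)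
    exact ⟨a1.trans (mul_le_mul_of_nonneg_left he (norm_nonneg _)),
      a2.trans (mul_le_mul_of_nonneg_left he (norm_nonneg _)), a3.trans he⟩
  · rw [mem_ball, dist_eq_norm] at hz
    obtain ⟨a1, a2⟩ := h2 (z - p) (by linarith) hc
    rw [hval] at a1 a2
    rw [hder] at a2
    have hx : 0 ≤ ‖z - p‖ ^ X.qq p := by positivity
    have he : Real.exp (1 / T * ‖z - p‖ ^ X.qq p) ≤ Real.exp (κ * ‖z - p‖ ^ X.qq p) :=
      Real.exp_le_exp.2 (mul_le_mul_of_nonneg_right t2 hx)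
    exact ⟨(mul_le_mul_of_nonneg_left he (norm_nonneg _)).trans a1,
      (mul_le_mul_of_nonneg_left he (norm_nonneg _)).trans a2⟩
  · intro w hw
    have hw' : w - p ∈ ball (0 : ℂ) r3 := by
      rw [mem_ball, dist_zero_right]
      rw [mem_ball, dist_eq_norm] at hw
      linarith
    have h6 : DifferentiableAt ℂ φ (w - p) := h3.differentiableAt (isOpen_ball.mem_nhds hw')
    have h7 : DifferentiableAt ℂ (fun w => φ (w - p)) w :=
      DifferentiableAt.comp (𝕜 := ℂ) w h6 (differentiableAt_id.sub_const p)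
    exact (h7.const_add p).differentiableWithinAt
  · rw [mem_ball, dist_eq_norm] at hw
    obtain ⟨a1, a2, a3, a4⟩ := h4 (w - p) (by rw [mem_ball, dist_zero_right]; linarith)
    refine ⟨?_, by rw [add_sub_cancel_left]; exact a2, by rw [add_sub_cancel_left]; exact a3, ?_⟩
    · linear_combination a1
    · have h6 : deriv (fun w => p + φ (w - p)) w = deriv φ (w - p) := by
        rw [deriv_const_add, deriv_comp_sub_const]
      rw [h6]
      exact a4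
  · rw [mem_ball, dist_eq_norm] at hz
    have h6 := h5 (z - p) (by rw [mem_ball, dist_zero_right]; linarith)
    rw [hval] at h6
    show p + φ (X.f z - p) = z
    rw [h6]
    ring

theorem pbd_all (X : P0) {η : ℝ} (hη : 0 < η) : ∃ T : ℝ, 1 ≤ T ∧ ∀ p ∈ X.Pa, Pbd X η p T := by
  classical
  have h : ∀ p : ℂ, ∃ T : ℝ, 1 ≤ T ∧ (p ∈ X.Pa → Pbd X η p T) := by
    intro p
    by_cases hp : p ∈ X.Pa
    · obtain ⟨T, hT, h⟩ := pbd_ex X hη hp
      exact ⟨T, hT, fun _ => h⟩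
    · exact ⟨1, le_rfl, fun h => absurd h hp⟩
  choose T hT hb using h
  refine ⟨1 + ∑ p ∈ X.Pa, T p, ?_, fun p hp => ?_⟩
  · have : 0 ≤ ∑ p ∈ X.Pa, T p := Finset.sum_nonneg fun p _ => by linarith [hT p]
    linarith
  · refine pbd_mono (by linarith [hT p]) ?_ (hb p hp)
    have h1 : T p ≤ ∑ p ∈ X.Pa, T p :=
      Finset.single_le_sum (f := fun p => T p) (fun p _ => by linarith [hT p]) hp
    linarith

/-- a point near a parabolic point stays near it for a long time, with bounded derivatives -/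
theorem stay_par {X : P0} {η : ℝ} {p : ℂ} {T : ℝ} (hT : 1 ≤ T)
    (h : Pbd X η p T) {z : ℂ} (hz : 2 * ‖z - p‖ < 1 / T) {j : ℕ}
    (hj : T * (2 * ‖z - p‖) ^ X.qq p * j ≤ 1 / 2) :
    ‖X.f^[j] z - p‖ ≤ 2 * ‖z - p‖ ∧ ∀ i < j, ‖X.f^[i] z - p‖ ≤ 2 * ‖z - p‖ := by
  obtain ⟨e, he⟩ : ∃ e : ℝ, e = ‖z - p‖ := ⟨_, rfl⟩
  obtain ⟨s, hs⟩ : ∃ s : ℝ, s = T * (2 * e) ^ X.qq p := ⟨_, rfl⟩
  have he0 : 0 ≤ e := by rw [he]; exact norm_nonneg _
  have hs0 : 0 ≤ s := by rw [hs]; positivity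
  rw [← he] at hj hz
  rw [← hs] at hj
  have hexp : Real.exp (1 / 2) ≤ 2 := by
    have h1 := Real.abs_exp_sub_one_le (x := 1 / 2) (by rw [abs_of_nonneg] <;> norm_num)
    rw [abs_of_nonneg (show (0 : ℝ) ≤ 1 / 2 by norm_num)] at h1
    have h2 := le_abs_self (Real.exp (1 / 2) - 1)
    linarith
  have key : ∀ i ≤ j, ‖X.f^[i] z - p‖ ≤ e * Real.exp (s * i) := by
    intro i
    induction i with
    | zero =>
      intro _
      rw [Function.iterate_zero, id, ← he]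
      simp
    | succ i ih =>
      intro hi
      have h1 := ih (by omega)
      have h2 : Real.exp (s * i) ≤ 2 := by
        refine (Real.exp_le_exp.2 ?_).trans hexp
        have h3 : (i : ℝ) ≤ j := by exact_mod_cast (by omega : i ≤ j)
        exact (mul_le_mul_of_nonneg_left h3 hs0).trans hj
      have h3 : ‖X.f^[i] z - p‖ ≤ 2 * e := by
        refine h1.trans ?_
        nlinarith
      have h4 := (h.1 (X.f^[i] z) (by rw [mem_ball, dist_eq_norm]; linarith)).1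
      rw [Function.iterate_succ_apply']
      have h5 : T * ‖X.f^[i] z - p‖ ^ X.qq p ≤ s := by
        rw [hs]
        exact mul_le_mul_of_nonneg_left (pow_le_pow_left₀ (norm_nonneg _) h3 _) (by linarith)
      calc ‖X.f (X.f^[i] z) - p‖ ≤ ‖X.f^[i] z - p‖ * Real.exp (T * ‖X.f^[i] z - p‖ ^ X.qq p) := h4
        _ ≤ (e * Real.exp (s * i)) * Real.exp s :=
          mul_le_mul h1 (Real.exp_le_exp.2 h5) (Real.exp_pos _).le (by positivity)
        _ = e * Real.exp (s * (i + 1 : ℕ)) := by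
          rw [mul_assoc, ← Real.exp_add]
          congr 2
          push_cast
          ring
  have hall : ∀ i ≤ j, ‖X.f^[i] z - p‖ ≤ 2 * e := by
    intro i hi
    have h2 : Real.exp (s * i) ≤ 2 := by
      refine (Real.exp_le_exp.2 ?_).trans hexp
      have h3 : (i : ℝ) ≤ j := by exact_mod_cast hi
      exact (mul_le_mul_of_nonneg_left h3 hs0).trans hj
    refine (key i hi).trans ?_
    nlinarith
  rw [← he]
  exact ⟨hall j le_rfl, fun i hi => hall i hi.le⟩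

end Pool.Agent.H79.PJ
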