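import Pool.Agent.H79.PB.Local

/-!
# Orbits in the attracting directions

`att_orbit`: an orbit near `0` in the sector around an attracting direction. `att_der`: there the derivative is smaller
than the power `3/2` of the contraction.
-/

set_option autoImplicit false

open Filter Topology Polynomial Metric Set

namespace Pool.Agent.H79.PJ

open Pool.Agent.H44.Fatou Pool.Agent.H32.BT Pool.Agent.H79.Eul Pool.Agent.H79.Par Pool.Agent.H79.PB

theorem att_orbit {F k : ℂ → ℂ} {N : ℕ} {a : ℂ} (hN : 1 ≤ N) (ha : a ≠ 0) (h : NF F k N a)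
    {r : ℝ} (hr : 0 < r) :
    ∃ u0 : ℂ, u0 ≠ 0 ∧ (∀ j : ℕ, F^[j] u0 ≠ 0 ∧ ‖F^[j] u0‖ < r ∧
      (a * F^[j] u0 ^ N).re ≤ -(3 / 5) * ‖a * F^[j] u0 ^ N‖) ∧
      Tendsto (fun j : ℕ => F^[j] u0) atTop (𝓝 0) := by
  have hNn : N ≠ 0 := by omega
  have hNr : (0 : ℝ) < N := by exact_mod_cast (by omega : 0 < N)
  obtain ⟨r1, hr1, hc⟩ := cone_basin hN ha h (ε := 1) one_pos le_rfl
  -- a small radius
  obtain ⟨s, hs, hs1, hs2⟩ : ∃ s : ℝ, 0 < s ∧ s < r1 ∧ 4 / 1 * s ^ N < r ^ N := by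
    have h1 : Tendsto (fun s : ℝ => 4 / 1 * s ^ N) (𝓝[>] 0) (𝓝 0) := by
      have h2 : Continuous (fun s : ℝ => 4 / 1 * s ^ N) := by fun_prop
      have h3 := h2.tendsto 0
      rw [zero_pow hNn, mul_zero] at h3
      exact h3.mono_left nhdsWithin_le_nhds
    have h4 : ∀ᶠ s : ℝ in 𝓝[>] 0, s < r1 := nhdsWithin_le_nhds (gt_mem_nhds hr1)
    obtain ⟨s, h5, h6, h7⟩ := ((h1.eventually (gt_mem_nhds (show (0 : ℝ) < r ^ N by
      positivity))).and (h4.and self_mem_nhdsWithin)).exists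
    exact ⟨s, h7, h6, h5⟩
  -- the attracting direction
  obtain ⟨e, he⟩ : ∃ e : ℂ, e ^ N = -(a⁻¹ * (‖a‖ : ℂ)) :=
    IsAlgClosed.exists_pow_nat_eq _ (by omega)
  have han : 0 < ‖a‖ := norm_pos_iff.2 ha
  have hanc : (‖a‖ : ℂ) ≠ 0 := by exact_mod_cast han.ne'
  have hen : ‖e‖ = 1 := by
    have h1 : ‖e‖ ^ N = 1 := by
      rw [← norm_pow, he, norm_neg, norm_mul, norm_inv, Complex.norm_real, norm_norm,
        inv_mul_cancel₀ han.ne']
    exact (pow_eq_one_iff_of_nonneg (norm_nonneg e) hNn).1 h1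
  obtain ⟨u0, hu0⟩ : ∃ u0 : ℂ, u0 = (s : ℂ) * e := ⟨_, rfl⟩
  have hun : ‖u0‖ = s := by
    rw [hu0, norm_mul, Complex.norm_real, Real.norm_of_nonneg hs.le, hen, mul_one]
  have hu00 : u0 ≠ 0 := by
    rw [← norm_pos_iff, hun]; exact hs
  have hZ : a * u0 ^ N = ((-(‖a‖ * s ^ N) : ℝ) : ℂ) := by
    rw [hu0, mul_pow, he]
    push_cast
    field_simp
  have hcone : (a * u0 ^ N).re ≤ (1 - 1) * ‖a * u0 ^ N‖ := by
    rw [hZ, Complex.ofReal_re, sub_self, zero_mul]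
    have : 0 ≤ ‖a‖ * s ^ N := by positivity
    linarith
  obtain ⟨h1, h2⟩ := hc u0 hu00 (by rw [hun]; exact hs1) hcone
  refine ⟨u0, hu00, fun j => ?_, h2⟩
  obtain ⟨h3, h4, h5⟩ := h1 j
  refine ⟨h3, ?_, ?_⟩
  · have h6 : ‖F^[j] u0‖ ^ N < r ^ N := by
      refine h4.trans_lt ?_
      rw [hun]
      exact hs2
    exact (pow_lt_pow_iff_left₀ (norm_nonneg _) hr.le hNn).1 h6
  · -- the real part of `W`
    obtain ⟨W0, hW0, hW0e⟩ : ∃ W0 : ℝ, 0 < W0 ∧ -(1 / (N * a * u0 ^ N)) = (W0 : ℂ) := by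
      refine ⟨1 / (N * (‖a‖ * s ^ N)), by positivity, ?_⟩
      rw [mul_assoc, hZ]
      push_cast
      rw [mul_neg, div_neg, neg_neg]
    obtain ⟨W, hW⟩ : ∃ W : ℂ, W = -(1 / (N * a * F^[j] u0 ^ N)) := ⟨_, rfl⟩
    rw [← hW, hW0e] at h5
    have hj : (0 : ℝ) ≤ j := Nat.cast_nonneg j
    have hre : W0 + 3 / 4 * j ≤ W.re := by
      have h6 := (abs_le.1 ((Complex.abs_re_le_norm _).trans h5)).1
      simp only [Complex.sub_re, Complex.ofReal_re, Complex.natCast_re] at h6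
      linarith
    have hnm : ‖W‖ ≤ W0 + 5 / 4 * j := by
      have e1 : W = (W - W0 - j) + ((W0 + j : ℝ) : ℂ) := by push_cast; ring
      rw [e1]
      refine (norm_add_le _ _).trans ?_
      rw [Complex.norm_real, Real.norm_of_nonneg (by positivity)]
      linarith
    have hrn : 3 / 5 * ‖W‖ ≤ W.re := by linarith
    have hWn : W ≠ 0 := by
      intro h0
      rw [h0, Complex.zero_re] at hre
      linarith
    have hZ2 : a * F^[j] u0 ^ N = -((1 / N : ℝ) : ℂ) * W⁻¹ := by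
      have h7 : (N : ℂ) ≠ 0 := by exact_mod_cast hNn
      have h8 := pow_ne_zero N h3
      rw [hW]
      push_cast
      field_simp
    rw [hZ2]
    have h7 : (-((1 / N : ℝ) : ℂ) * W⁻¹).re = -(1 / N * (W.re / Complex.normSq W)) := by
      rw [neg_mul, Complex.neg_re, Complex.re_ofReal_mul, Complex.inv_re]
    have h8 : ‖-((1 / N : ℝ) : ℂ) * W⁻¹‖ = 1 / N * (‖W‖ / Complex.normSq W) := by
      rw [norm_mul, norm_neg, norm_inv, Complex.norm_real, Real.norm_of_nonneg (by positivity),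
        Complex.normSq_eq_norm_sq]
      have : 0 < ‖W‖ := norm_pos_iff.2 hWn
      field_simp
    rw [h7, h8]
    have h9 : 0 < Complex.normSq W := Complex.normSq_pos.2 hWn
    have h10 : 3 / 5 * ‖W‖ / Complex.normSq W ≤ W.re / Complex.normSq W :=
      div_le_div_of_nonneg_right hrn h9.le
    have h11 : 1 / (N : ℝ) * (3 / 5 * ‖W‖ / Complex.normSq W) ≤
        1 / (N : ℝ) * (W.re / Complex.normSq W) := mul_le_mul_of_nonneg_left h10 (by positivity)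
    calc -(1 / (N : ℝ) * (W.re / Complex.normSq W))
        ≤ -(1 / (N : ℝ) * (3 / 5 * ‖W‖ / Complex.normSq W)) := neg_le_neg h11
      _ = _ := by ring

/-- in the attracting sector the derivative is smaller than the power `3/2` of the contraction -/
theorem att_der {F k : ℂ → ℂ} {N : ℕ} {a : ℂ} (hN : 1 ≤ N) (ha : a ≠ 0) (h : NF F k N a) :
    ∃ r : ℝ, 0 < r ∧ ∀ u : ℂ, ‖u‖ < r → (a * u ^ N).re ≤ -(3 / 5) * ‖a * u ^ N‖ →
      ‖deriv F u‖ ^ 2 * ‖u‖ ^ 3 ≤ ‖F u‖ ^ 3 := by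
  have han : 0 < ‖a‖ := norm_pos_iff.2 ha
  have hNr : (1 : ℝ) ≤ N := by exact_mod_cast hN
  have hNn : N ≠ 0 := by omega
  obtain ⟨K, hKa, hK0, hKF⟩ := nf_der h
  obtain ⟨hk, hk0, hF⟩ := h
  obtain ⟨r1, hr1, h1⟩ := Metric.continuousAt_iff.1 hKa.continuousAt (‖a‖ / 50) (by positivity)
  obtain ⟨r2, hr2, h2⟩ := Metric.continuousAt_iff.1 hk.continuousAt (‖a‖ / 50) (by positivity)
  obtain ⟨r3, hr3, h3⟩ := Metric.eventually_nhds_iff_ball.1 (hKF.and hF)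
  -- `(N + 2)^2 |a| |u|^N ≤ 1/50`
  obtain ⟨r4, hr4, h4⟩ : ∃ r4 : ℝ, 0 < r4 ∧ ∀ s : ℝ, 0 ≤ s → s < r4 →
      ((N : ℝ) + 2) ^ 2 * (‖a‖ * s ^ N) ≤ 1 / 50 := by
    have h5 : Continuous (fun s : ℝ => ((N : ℝ) + 2) ^ 2 * (‖a‖ * s ^ N)) := by fun_prop
    have h6 := h5.tendsto 0
    rw [zero_pow hNn, mul_zero, mul_zero] at h6
    obtain ⟨r4, hr4, hb⟩ := Metric.eventually_nhds_iff_ball.1
      (h6.eventually (gt_mem_nhds (show (0 : ℝ) < 1 / 50 by norm_num)))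
    refine ⟨r4, hr4, fun s hs hs4 => (hb s ?_).le⟩
    rw [mem_ball, dist_zero_right, Real.norm_of_nonneg hs]
    exact hs4
  refine ⟨min (min r1 r2) (min r3 r4), by positivity, fun u hu hre => ?_⟩
  have hu1 : ‖u‖ < r1 := hu.trans_le ((min_le_left _ _).trans (min_le_left _ _))
  have hu2 : ‖u‖ < r2 := hu.trans_le ((min_le_left _ _).trans (min_le_right _ _))
  have hu3 : ‖u‖ < r3 := hu.trans_le ((min_le_right _ _).trans (min_le_left _ _))
  have hu4 : ‖u‖ < r4 := hu.trans_le ((min_le_right _ _).trans (min_le_right _ _))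
  obtain ⟨X, hX⟩ : ∃ X : ℝ, X = ‖a * u ^ N‖ := ⟨_, rfl⟩
  obtain ⟨ρ, hρ⟩ : ∃ ρ : ℝ, ρ = (a * u ^ N).re := ⟨_, rfl⟩
  have hX' : X = ‖a‖ * ‖u‖ ^ N := by rw [hX, norm_mul, norm_pow]
  have hX0 : 0 ≤ X := by rw [hX]; positivity
  have hX1 : ((N : ℝ) + 2) ^ 2 * X ≤ 1 / 50 := by
    rw [hX']; exact h4 _ (norm_nonneg _) hu4
  rw [← hρ, ← hX] at hre
  have hρX : -X ≤ ρ := by
    have := (abs_le.1 (Complex.abs_re_le_norm (a * u ^ N))).1
    rw [← hX, ← hρ] at this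
    exact this
  obtain ⟨h5, h6⟩ := h3 u (by rw [mem_ball, dist_zero_right]; exact hu3)
  have h7 := h1 (x := u) (by rw [dist_zero_right]; exact hu1)
  have h8 := h2 (x := u) (by rw [dist_zero_right]; exact hu2)
  rw [dist_eq_norm, hK0] at h7
  rw [dist_eq_norm, hk0] at h8
  have hup : 0 ≤ ‖u‖ ^ N := by positivity
  -- the derivative
  have hd : ‖deriv F u‖ ^ 2 ≤ 1 + 2 * (N + 1) * ρ + X / 50 * 4 := by
    obtain ⟨z, hz⟩ : ∃ z : ℂ, z = u ^ N * K u := ⟨_, rfl⟩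
    rw [h5.deriv, ← hz]
    have e1 : ‖1 + z‖ ^ 2 = 1 + 2 * z.re + ‖z‖ ^ 2 := by
      rw [← Complex.normSq_eq_norm_sq, ← Complex.normSq_eq_norm_sq, Complex.normSq_apply,
        Complex.normSq_apply]
      simp only [Complex.add_re, Complex.one_re, Complex.add_im, Complex.one_im, zero_add]
      ring
    have e2 : ‖z - (((N : ℝ) + 1 : ℝ) : ℂ) * (a * u ^ N)‖ ≤ X / 50 := by
      have e3 : z - (((N : ℝ) + 1 : ℝ) : ℂ) * (a * u ^ N) = u ^ N * (K u - ((N : ℂ) + 1) * a) := by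
        rw [hz]; push_cast; ring
      rw [e3, norm_mul, norm_pow, hX']
      calc ‖u‖ ^ N * ‖K u - ((N : ℂ) + 1) * a‖ ≤ ‖u‖ ^ N * (‖a‖ / 50) :=
            mul_le_mul_of_nonneg_left h7.le hup
        _ = _ := by ring
    have e4 : z.re ≤ (N + 1) * ρ + X / 50 := by
      have e5 := (abs_le.1 ((Complex.abs_re_le_norm _).trans e2)).2
      rw [Complex.sub_re, Complex.re_ofReal_mul, ← hρ] at e5
      linarith
    have e6 : ‖z‖ ≤ ((N : ℝ) + 2) * X := by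
      have e7 : z = (z - (((N : ℝ) + 1 : ℝ) : ℂ) * (a * u ^ N)) +
          (((N : ℝ) + 1 : ℝ) : ℂ) * (a * u ^ N) := by ring
      rw [e7]
      refine (norm_add_le _ _).trans ?_
      rw [norm_mul, Complex.norm_real, Real.norm_of_nonneg (by positivity), ← hX]
      linarith
    have e8 : ‖z‖ ^ 2 ≤ X / 50 := by
      calc ‖z‖ ^ 2 ≤ (((N : ℝ) + 2) * X) ^ 2 := pow_le_pow_left₀ (norm_nonneg _) e6 2
        _ = (((N : ℝ) + 2) ^ 2 * X) * X := by ring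
        _ ≤ 1 / 50 * X := mul_le_mul_of_nonneg_right hX1 hX0
        _ = X / 50 := by ring
    rw [e1]
    linarith
  -- the value
  have hv : (1 + ρ - X / 50) * ‖u‖ ≤ ‖F u‖ := by
    have e1 : F u = u * (1 + u ^ N * k u) := by rw [h6]; ring
    rw [e1, norm_mul, mul_comm]
    refine mul_le_mul_of_nonneg_left ?_ (norm_nonneg _)
    have e2 : |(u ^ N * (k u - a)).re| ≤ X / 50 := by
      refine (Complex.abs_re_le_norm _).trans ?_
      rw [norm_mul, norm_pow, hX']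
      calc ‖u‖ ^ N * ‖k u - a‖ ≤ ‖u‖ ^ N * (‖a‖ / 50) := mul_le_mul_of_nonneg_left h8.le hup
        _ = _ := by ring
    have e3 : (1 + u ^ N * k u).re = 1 + ρ + (u ^ N * (k u - a)).re := by
      have e4 : 1 + u ^ N * k u = 1 + a * u ^ N + u ^ N * (k u - a) := by ring
      rw [e4, Complex.add_re, Complex.add_re, Complex.one_re, hρ]
    have e5 := Complex.re_le_norm (1 + u ^ N * k u)
    rw [e3] at e5
    have e6 := (abs_le.1 e2).1
    linarith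
  have hXs : X ≤ 1 / 50 := by
    have : (1 : ℝ) ≤ ((N : ℝ) + 2) ^ 2 := by nlinarith
    nlinarith
  have hb : 0 ≤ 1 + ρ - X / 50 := by linarith
  -- Bernoulli
  have hB : 1 + 3 * (ρ - X / 50) ≤ (1 + ρ - X / 50) ^ 3 := by
    have h9 := one_add_mul_le_pow (show (-2 : ℝ) ≤ ρ - X / 50 by linarith) 3
    have e : (1 + (ρ - X / 50)) ^ 3 = (1 + ρ - X / 50) ^ 3 := by ring
    rw [e] at h9
    push_cast at h9
    linarith
  have hmain : 1 + 2 * ((N : ℝ) + 1) * ρ + X / 50 * 4 ≤ 1 + 3 * (ρ - X / 50) := by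
    have h9 : (2 * (N : ℝ) - 1) * ρ ≤ 1 * ρ := by
      have h10 : ρ ≤ 0 := by linarith
      nlinarith
    have h10 : ρ ≤ -(3 / 5) * X := hre
    nlinarith
  calc ‖deriv F u‖ ^ 2 * ‖u‖ ^ 3 ≤ (1 + ρ - X / 50) ^ 3 * ‖u‖ ^ 3 :=
        mul_le_mul_of_nonneg_right (hd.trans (hmain.trans hB)) (by positivity)
    _ = ((1 + ρ - X / 50) * ‖u‖) ^ 3 := by ring
    _ ≤ ‖F u‖ ^ 3 := pow_le_pow_left₀ (mul_nonneg hb (norm_nonneg _)) hv 3

end Pool.Agent.H79.PJ
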