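import Pool.Agent.H79.PJ.PcrA
import Pool.Agent.H79.PJ.CnGen
import Pool.Agent.H79.PJ.Bas

/-!
# Every parabolic cycle attracts infinity or a critical point

`par_crit`: the theorem of Fatou for parabolic cycles, if infinity is attracted.
-/

set_option autoImplicit false

open Filter Topology Polynomial Metric Set

namespace Pool.Agent.H79.PJ

open Pool.Agent.H44.Fatou Pool.Agent.H32.BT Pool.Agent.H79.Eul Pool.Agent.H79.Par Pool.Agent.H79.PB
open Pool.Agent.H80.AJ (fixMult_fix iter_fixed CL cl_unique cl_mul cl_shift ty1_open ty2_open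
  tendsto_shift_iter)

theorem it1_iter {d : ℕ} (v0 : E d) (m : ℕ) (z : ℂ) : (it v0 1)^[m] z = it v0 m z := by
  induction m with
  | zero => rfl
  | succ m ih =>
    rw [Function.iterate_succ_apply', ih, ← Pool.Agent.H79.Par.it_add, Nat.add_comm]

/-- all inverse branches along an orbit -/
theorem branch_all {d : ℕ} (hd : 2 ≤ d) {v0 : E d} (hcop : IsCoprime (pol v0.1) (pol v0.2))
    (hdeg : max (pol v0.1).natDegree (pol v0.2).natDegree = d) {V : Set ℂ}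
    (havd : ∀ x : OnePoint ℂ, (x = OnePoint.infty ∨ ∃ c : ℂ, wv v0 c = 0 ∧
      x = (c : OnePoint ℂ)) → ∀ (n : ℕ) (y : ℂ), (Rf v0)^[n] x = (y : OnePoint ℂ) → y ∉ V)
    {z : ℕ → ℂ} {M : ℕ} (ho : Orb v0 z M) {r : ℝ} (hr : 0 < r) (hball : ball (z M) r ⊆ V) :
    ∀ m ≤ M, ∃ g : ℂ → ℂ, DifferentiableOn ℂ g (ball (z M) r) ∧ g (z M) = z (M - m) ∧
      ∀ w ∈ ball (z M) r, (it v0 1)^[m] (g w) = w ∧
        ∀ j < m, ev v0.2 ((it v0 1)^[j] (g w)) ≠ 0 := by
  intro m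
  induction m with
  | zero =>
    intro _
    exact ⟨id, differentiableOn_id, rfl, fun w _ => ⟨rfl, fun j hj => absurd hj (by omega)⟩⟩
  | succ m ih =>
    intro hm
    obtain ⟨g, hg, hgx, hgi⟩ := ih (by omega)
    obtain ⟨l, hl⟩ : ∃ l, M = l + m + 1 := ⟨M - (m + 1), by omega⟩
    have e1 : M - (m + 1) = l := by omega
    have e2 : M - m = l + 1 := by omega
    rw [e1]
    rw [e2] at hgx
    obtain ⟨hu0, hstep⟩ := ho l (by omega)
    have he : it v0 1 (z l) = g (z M) := by rw [hgx]; exact hstep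
    have hd0 : deriv (it v0 1) (z l) ≠ 0 := by
      have h1 : HasDerivAt (it v0 1) (wv v0 (z l) / ev v0.2 (z l) ^ 2) (z l) :=
        tr_hasDerivAt_ev v0 (z l) hu0
      rw [h1.deriv]
      intro h0
      rw [div_eq_zero_iff] at h0
      rcases h0 with h0 | h0
      · have ho' : Orb v0 (fun j => z (l + j)) (M - l) := by
          intro j hj
          exact ho (l + j) (by omega)
        have h2 := orb_rat ho' (M - l) le_rfl
        have e3 : l + (M - l) = M := by omega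
        rw [e3] at h2
        exact havd (z l : OnePoint ℂ) (Or.inr ⟨z l, h0, rfl⟩) (M - l) (z M) h2
          (hball (mem_ball_self hr))
      · exact pow_ne_zero 2 hu0 h0
    have havd' : ∀ x : OnePoint ℂ, (x = OnePoint.infty ∨ ∃ c : ℂ, wv v0 c = 0 ∧ c ∉ (∅ : Set ℂ) ∧
        x = (c : OnePoint ℂ)) → ∀ (n : ℕ) (y : ℂ), (Rf v0)^[n] x = (y : OnePoint ℂ) → y ∉ V := by
      rintro x (h | ⟨c, h, -, h'⟩)
      · exact havd x (Or.inl h)
      · exact havd x (Or.inr ⟨c, h, h'⟩)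
    rcases cn_gen hd hcop hdeg havd' m (z M) r g (z l) hr hball hg hgi hu0 he hd0 with
      ⟨h, hh, hhx, hhs⟩ | ⟨ρ, b, c, h, -, -, -, hc, -⟩
    · refine ⟨h, hh, hhx, fun w hw => ⟨?_, ?_⟩⟩
      · rw [Function.iterate_succ_apply, (hhs w hw).2]
        exact (hgi w hw).1
      · intro j hj
        cases j with
        | zero => exact (hhs w hw).1
        | succ j =>
          rw [Function.iterate_succ_apply, (hhs w hw).2]
          exact (hgi w hw).2 j (by omega)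
    · exact absurd hc.2 (Set.notMem_empty c)

/-- the basin is bounded -/
theorem basin_bdd {d : ℕ} (hd : 2 ≤ d) {v0 : E d} (hcop : IsCoprime (pol v0.1) (pol v0.2))
    (hdeg : max (pol v0.1).natDegree (pol v0.2).natDegree = d) (hper : NPer v0)
    (hinf : OnePoint.infty ∈ Fa v0) {p : ℂ} {n : ℕ} (hn : 0 < n)
    (hfm : FixMult (Rf v0)^[n] (p : OnePoint ℂ) 1)
    (hno : ∀ m : ℕ, ¬ Ty2 (Rf v0) OnePoint.infty (p : OnePoint ℂ) m) :
    ∃ B : ℝ, 0 < B ∧ ∀ y : ℂ, Ty2 (Rf v0) (y : OnePoint ℂ) (p : OnePoint ℂ) n → ‖y‖ ≤ B := by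
  have hc : Continuous (Rf v0) := rat_continuous hcop
  obtain ⟨z1, n1, h1⟩ := hinf
  have h2 : ∀ᶠ y in 𝓝 (OnePoint.infty : OnePoint ℂ), CL (Rf v0) y z1 n1 := by
    rcases h1 with h1 | h1
    · exact ty1_open hc h1
    · exact ty2_open hcop (by rw [hdeg]; omega) h1
  have h3 : ∀ᶠ y : ℂ in cocompact ℂ, CL (Rf v0) (y : OnePoint ℂ) z1 n1 := by
    rw [← Filter.coclosedCompact_eq_cocompact]
    exact OnePoint.tendsto_coe_infty.eventually h2
  rw [← Metric.cobounded_eq_cocompact] at h3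
  obtain ⟨B, -, hB⟩ := Filter.hasBasis_cobounded_norm.eventually_iff.1 h3
  refine ⟨max B 1, lt_of_lt_of_le one_pos (le_max_right _ _), fun y hyV => ?_⟩
  by_contra hcon
  rw [not_le] at hcon
  have hy : CL (Rf v0) (y : OnePoint ℂ) z1 n1 := hB ((le_max_left _ _).trans hcon.le)
  have h5 : z1 = (p : OnePoint ℂ) := cl_unique hy ⟨hyV.1, fixMult_fix hyV.2.1, hyV.2.2.1⟩
  subst h5
  rcases h1 with h1 | h1
  · apply par_jp hd hcop hdeg hper hn hfm
    refine ⟨(p : OnePoint ℂ), n1, Or.inl ⟨h1.1, ?_⟩⟩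
    refine tendsto_const_nhds.congr fun k => ?_
    exact (iter_fixed h1.1.2.1 k).symm
  · exact hno n1 h1

theorem par_crit {d : ℕ} (hd : 2 ≤ d) {v0 : E d} (hcop : IsCoprime (pol v0.1) (pol v0.2))
    (hdeg : max (pol v0.1).natDegree (pol v0.2).natDegree = d) (hper : NPer v0)
    (hinf : OnePoint.infty ∈ Fa v0) {p a : ℂ} {q n : ℕ} (hP : ParPt v0 n p a q) :
    ∃ x : OnePoint ℂ, (x = OnePoint.infty ∨ ∃ c : ℂ, wv v0 c = 0 ∧ x = (c : OnePoint ℂ)) ∧
      ∃ j m : ℕ, Ty2 (Rf v0) ((Rf v0)^[j] x) (p : OnePoint ℂ) m := by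
  by_contra hcon
  push Not at hcon
  have hc : Continuous (Rf v0) := rat_continuous hcop
  obtain ⟨hn, hq, ha, x', κ, rfl, ho, hx, hmul, hnf⟩ := id hP
  have hfm : FixMult (Rf v0)^[n] (x' 0 : OnePoint ℂ) 1 := by
    have h7 := fixMult_of_orb ho hx
    rwa [hmul] at h7
  obtain ⟨V, hVdef⟩ : ∃ V : Set ℂ, V = {y : ℂ | Ty2 (Rf v0) (y : OnePoint ℂ) (x' 0 : OnePoint ℂ) n} :=
    ⟨_, rfl⟩
  have hV : ∀ y : ℂ, y ∈ V ↔ Ty2 (Rf v0) (y : OnePoint ℂ) (x' 0 : OnePoint ℂ) n := fun y => by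
    rw [hVdef]; rfl
  -- the basin is bounded
  obtain ⟨B, hB, hVB⟩ := basin_bdd hd hcop hdeg hper hinf hn hfm
    (fun m => hcon OnePoint.infty (Or.inl rfl) 0 m)
  have havd : ∀ x : OnePoint ℂ, (x = OnePoint.infty ∨ ∃ c : ℂ, wv v0 c = 0 ∧
      x = (c : OnePoint ℂ)) → ∀ (m : ℕ) (y : ℂ), (Rf v0)^[m] x = (y : OnePoint ℂ) → y ∉ V := by
    intro x hxx m y hy hyV
    rw [hV, ← hy] at hyV
    exact hcon x hxx m n hyV
  have hpull : ∀ (k : ℕ) (y w : ℂ), (Rf v0)^[n * k] (y : OnePoint ℂ) = (w : OnePoint ℂ) →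
      w ∈ V → y ∈ V := by
    intro k y w h1 h2
    rw [hV, ← h1] at h2
    rw [hV]
    refine ⟨hn, hfm, tendsto_shift_iter h2.2.2.1, fun j hj => h2.2.2.2 j ?_⟩
    rw [← Function.iterate_add_apply, Nat.add_comm, Function.iterate_add_apply, hj,
      iter_fixed (fixMult_fix hfm)]
  -- the orbit
  obtain ⟨r1, hr1, h1⟩ := ty2_near_par hP (ε := 1) one_pos
  obtain ⟨r2, hr2, h2⟩ := att_der hq ha hnf
  obtain ⟨r3, hr3, h3⟩ := stay_fin hn ho
  obtain ⟨u0, hu0, hu, hulim⟩ := att_orbit hq ha hnf (r := min (r1 / 2) (min r2 r3)) (by positivity)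
  obtain ⟨u, hud⟩ : ∃ u : ℕ → ℂ, ∀ j, u j = (fun u => it v0 n (x' 0 + u) - x' 0)^[j] u0 :=
    ⟨_, fun _ => rfl⟩
  simp only [← hud] at hu hulim
  have hu1 : ∀ j, ‖u j‖ < r1 / 2 := fun j => lt_of_lt_of_le (hu j).2.1 (min_le_left _ _)
  have hu2 : ∀ j, ‖u j‖ < r2 := fun j =>
    lt_of_lt_of_le (hu j).2.1 ((min_le_right _ _).trans (min_le_left _ _))
  have hu3 : ∀ j, ‖u j‖ < r3 := fun j =>
    lt_of_lt_of_le (hu j).2.1 ((min_le_right _ _).trans (min_le_right _ _))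
  have hu00 : u 0 = u0 := by rw [hud]; rfl
  obtain ⟨h4, h5⟩ := h3 u0 (fun k => by rw [← hud]; exact hu3 k)
  obtain ⟨z, hz⟩ : ∃ z : ℕ → ℂ, ∀ m, z m = it v0 m (x' 0 + u0) := ⟨_, fun _ => rfl⟩
  obtain ⟨h6, h7⟩ := orb_all h5
  have hoz : ∀ M, Orb v0 z M := by
    intro M
    have h8 := h6 M
    have e : (fun j => it v0 j (x' 0 + u0)) = z := by funext m; exact (hz m).symm
    rwa [e] at h8
  have hzu : ∀ k, z (n * k) = x' 0 + u k := by
    intro k
    have h8 := h4 k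
    rw [h7, ← hud, ← hz] at h8
    exact OnePoint.coe_injective h8
  have hz0 : z 0 = x' 0 + u0 := hz 0
  -- the derivatives
  have hstep : ∀ k, ‖trD v0 n (z (n * k))‖ ^ 2 * ‖u k‖ ^ 3 ≤ ‖u (k + 1)‖ ^ 3 := by
    intro k
    have h8 := h2 (u k) (hu2 k) (hu k).2.2
    have h9 : (fun u => it v0 n (x' 0 + u) - x' 0) (u k) = u (k + 1) := by
      rw [hud (k + 1), Function.iterate_succ_apply', ← hud]
    have h10 : HasDerivAt (fun u => it v0 n (x' 0 + u) - x' 0) (trD v0 n (z (n * k))) (u k) := by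
      have hoo : Orb v0 (fun j => z (n * k + j)) n := by
        intro j hj
        exact hoz (n * k + n) (n * k + j) (by omega)
      have h11 : HasDerivAt (fun z => it v0 n z) (trD v0 n (z (n * k))) (z (n * k)) :=
        (orb_deriv hoo).self_of_nhds
      rw [hzu] at h11 ⊢
      have h12 : HasDerivAt (fun u : ℂ => x' 0 + u) 1 (u k) := by
        simpa using (hasDerivAt_id (u k)).const_add (x' 0)
      have h13 := (HasDerivAt.comp (u k) h11 h12).sub_const (x' 0)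
      rwa [mul_one] at h13
    rw [h10.deriv] at h8
    have h14 : (it v0 n (x' 0 + u k) - x' 0) = u (k + 1) := h9
    rw [h14] at h8
    exact h8
  have hder : ∀ k, ‖trD v0 (n * k) (z 0)‖ ^ 2 * ‖u 0‖ ^ 3 ≤ ‖u k‖ ^ 3 := by
    intro k
    induction k with
    | zero =>
      have h8 : trD v0 (n * 0) (z 0) = 1 := by
        rw [Nat.mul_zero]
        unfold trD
        rw [Finset.prod_range_zero]
      rw [h8]
      simp
    | succ k ih =>
      have h8 : trD v0 (n * (k + 1)) (z 0) = trD v0 n (z (n * k)) * trD v0 (n * k) (z 0) := by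
        rw [Nat.mul_succ, trD_add]
        have h9 : it v0 (n * k) (z 0) = z (n * k) := orb_it (hoz (n * k)) (n * k) le_rfl
        rw [h9]
      rw [h8, norm_mul, mul_pow]
      calc ‖trD v0 n (z (n * k))‖ ^ 2 * ‖trD v0 (n * k) (z 0)‖ ^ 2 * ‖u 0‖ ^ 3
          = ‖trD v0 n (z (n * k))‖ ^ 2 * (‖trD v0 (n * k) (z 0)‖ ^ 2 * ‖u 0‖ ^ 3) := by ring
        _ ≤ ‖trD v0 n (z (n * k))‖ ^ 2 * ‖u k‖ ^ 3 :=
            mul_le_mul_of_nonneg_left ih (by positivity)
        _ ≤ ‖u (k + 1)‖ ^ 3 := hstep k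
  -- the size of the discs
  obtain ⟨c1, hc1, hc11, hc12⟩ : ∃ c1 : ℝ, 0 < c1 ∧ c1 ≤ 1 / 2 ∧ ∀ t : ℂ, ‖t‖ ≤ c1 →
      ‖(1 + t) ^ q - 1‖ ≤ 3 / 5 := by
    have h8 : ContinuousAt (fun t : ℂ => (1 + t) ^ q - 1) 0 := by fun_prop
    obtain ⟨e, he, he'⟩ := Metric.continuousAt_iff.1 h8 (3 / 5) (by norm_num)
    refine ⟨min (e / 2) (1 / 2), by positivity, min_le_right _ _, fun t ht => ?_⟩
    have h9 := he' (x := t) (by
      rw [dist_zero_right]
      exact lt_of_le_of_lt (ht.trans (min_le_left _ _)) (by linarith))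
    rw [dist_eq_norm] at h9
    simpa using h9.le
  have hdisc : ∀ k, ball (z (n * k)) (c1 * ‖u k‖) ⊆ V := by
    intro k w hw
    have huk : u k ≠ 0 := (hu k).1
    have hukn : 0 < ‖u k‖ := norm_pos_iff.2 huk
    rw [mem_ball, dist_eq_norm, hzu] at hw
    obtain ⟨t, ht⟩ : ∃ t : ℂ, w - x' 0 = u k * (1 + t) := by
      refine ⟨(w - x' 0) / u k - 1, ?_⟩
      field_simp
      ring
    have htn : ‖t‖ ≤ c1 := by
      have h8 : w - (x' 0 + u k) = u k * t := by linear_combination ht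
      rw [h8, norm_mul, mul_comm] at hw
      exact (lt_of_mul_lt_mul_right hw hukn.le).le
    have h9 : ‖(1 + t) ^ q - 1‖ ≤ 3 / 5 := hc12 t htn
    have h10 : ‖w - x' 0‖ < r1 := by
      rw [ht, norm_mul]
      have h11 : ‖1 + t‖ ≤ 3 / 2 := by
        refine (norm_add_le _ _).trans ?_
        rw [norm_one]
        linarith
      have h12 := hu1 k
      nlinarith
    have h13 : 1 + t ≠ 0 := by
      intro h0
      have h14 : t = -1 := by linear_combination h0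
      rw [h14, norm_neg, norm_one] at htn
      linarith
    have h15 : w - x' 0 ≠ 0 := by
      rw [ht]
      exact mul_ne_zero huk h13
    have h16 : (a * (w - x' 0) ^ q).re ≤ (1 - 1) * ‖a * (w - x' 0) ^ q‖ := by
      rw [sub_self, zero_mul, ht, mul_pow]
      have h17 : a * (u k ^ q * (1 + t) ^ q) = a * u k ^ q + a * u k ^ q * ((1 + t) ^ q - 1) := by
        ring
      rw [h17, Complex.add_re]
      have h18 : (a * u k ^ q * ((1 + t) ^ q - 1)).re ≤ ‖a * u k ^ q‖ * (3 / 5) := by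
        refine (Complex.re_le_norm _).trans ?_
        rw [norm_mul]
        exact mul_le_mul_of_nonneg_left h9 (norm_nonneg _)
      have h19 := (hu k).2.2
      linarith
    rw [hV]
    have h20 := (h1 (w - x' 0) h15 h10 h16).1
    have e : x' 0 + (w - x' 0) = w := by ring
    rw [e] at h20
    exact h20
  -- the contradiction
  have hkey : ∀ k, c1 ^ 2 * ‖u 0‖ ^ 3 ≤ (2 * B) ^ 2 * ‖u k‖ := by
    intro k
    have hukn : 0 < ‖u k‖ := norm_pos_iff.2 (hu k).1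
    have hr : 0 < c1 * ‖u k‖ := by positivity
    obtain ⟨g, hg, hgx, hgi⟩ := branch_all hd hcop hdeg havd (hoz (n * k)) hr (hdisc k) (n * k) le_rfl
    rw [Nat.sub_self] at hgx
    have hgB : ∀ w ∈ ball (z (n * k)) (c1 * ‖u k‖), ‖g w‖ ≤ B := by
      intro w hw
      obtain ⟨h8, h9⟩ := hgi w hw
      apply hVB
      rw [← hV]
      refine hpull k (g w) w ?_ (hdisc k hw)
      rw [rat_it fun i hi => by rw [← it1_iter]; exact h9 i hi, ← it1_iter, h8]
    have hsub : closedBall (z (n * k)) (c1 * ‖u k‖ / 2) ⊆ ball (z (n * k)) (c1 * ‖u k‖) :=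
      closedBall_subset_ball (by linarith)
    have h10 : ‖deriv g (z (n * k))‖ ≤ B / (c1 * ‖u k‖ / 2) := by
      refine Complex.norm_deriv_le_of_forall_mem_sphere_norm_le (by positivity) ?_ fun w hw =>
        hgB w (hsub (sphere_subset_closedBall hw))
      refine DifferentiableOn.diffContOnCl ?_
      rw [closure_ball _ (by positivity : c1 * ‖u k‖ / 2 ≠ 0)]
      exact hg.mono hsub
    have h11 : HasDerivAt g (deriv g (z (n * k))) (z (n * k)) :=
      (hg.differentiableAt (isOpen_ball.mem_nhds (mem_ball_self hr))).hasDerivAt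
    have h12 : HasDerivAt (fun z => it v0 (n * k) z) (trD v0 (n * k) (z 0)) (g (z (n * k))) := by
      rw [hgx]
      exact (orb_deriv (hoz (n * k))).self_of_nhds
    have h13 := HasDerivAt.comp (z (n * k)) h12 h11
    have h14 : ((fun z => it v0 (n * k) z) ∘ g) =ᶠ[𝓝 (z (n * k))] id := by
      filter_upwards [isOpen_ball.mem_nhds (mem_ball_self hr)] with w hw
      show it v0 (n * k) (g w) = w
      rw [← it1_iter]
      exact (hgi w hw).1
    have h15 : HasDerivAt ((fun z => it v0 (n * k) z) ∘ g) 1 (z (n * k)) :=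
      (hasDerivAt_id _).congr_of_eventuallyEq h14
    have h16 := h13.unique h15
    have h17 : ‖trD v0 (n * k) (z 0)‖ * ‖deriv g (z (n * k))‖ = 1 := by
      rw [← norm_mul, h16, norm_one]
    have h18 : c1 * ‖u k‖ ≤ ‖trD v0 (n * k) (z 0)‖ * (2 * B) := by
      have h19 : (1 : ℝ) ≤ ‖trD v0 (n * k) (z 0)‖ * (B / (c1 * ‖u k‖ / 2)) := by
        rw [← h17]
        exact mul_le_mul_of_nonneg_left h10 (norm_nonneg _)
      have h20 : ‖trD v0 (n * k) (z 0)‖ * (B / (c1 * ‖u k‖ / 2)) =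
          ‖trD v0 (n * k) (z 0)‖ * (2 * B) / (c1 * ‖u k‖) := by
        field_simp
      rw [h20, le_div_iff₀ hr, one_mul] at h19
      exact h19
    have h21 : (c1 * ‖u k‖) ^ 2 ≤ ‖trD v0 (n * k) (z 0)‖ ^ 2 * (2 * B) ^ 2 := by
      rw [← mul_pow]
      exact pow_le_pow_left₀ hr.le h18 2
    have h22 : (c1 * ‖u k‖) ^ 2 * ‖u 0‖ ^ 3 ≤ (2 * B) ^ 2 * ‖u k‖ ^ 3 := by
      calc (c1 * ‖u k‖) ^ 2 * ‖u 0‖ ^ 3
          ≤ ‖trD v0 (n * k) (z 0)‖ ^ 2 * (2 * B) ^ 2 * ‖u 0‖ ^ 3 :=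
            mul_le_mul_of_nonneg_right h21 (by positivity)
        _ = (2 * B) ^ 2 * (‖trD v0 (n * k) (z 0)‖ ^ 2 * ‖u 0‖ ^ 3) := by ring
        _ ≤ (2 * B) ^ 2 * ‖u k‖ ^ 3 := mul_le_mul_of_nonneg_left (hder k) (by positivity)
    have h23 : ‖u k‖ ^ 2 * (c1 ^ 2 * ‖u 0‖ ^ 3) ≤ ‖u k‖ ^ 2 * ((2 * B) ^ 2 * ‖u k‖) := by
      calc ‖u k‖ ^ 2 * (c1 ^ 2 * ‖u 0‖ ^ 3) = (c1 * ‖u k‖) ^ 2 * ‖u 0‖ ^ 3 := by ring
        _ ≤ (2 * B) ^ 2 * ‖u k‖ ^ 3 := h22
        _ = ‖u k‖ ^ 2 * ((2 * B) ^ 2 * ‖u k‖) := by ring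
    exact le_of_mul_le_mul_left h23 (by positivity)
  have h24 : Tendsto (fun k => (2 * B) ^ 2 * ‖u k‖) atTop (𝓝 ((2 * B) ^ 2 * 0)) := by
    have h25 := hulim.norm
    rw [norm_zero] at h25
    exact h25.const_mul _
  rw [mul_zero] at h24
  have h26 := ge_of_tendsto' h24 hkey
  have h27 : 0 < c1 ^ 2 * ‖u 0‖ ^ 3 := by
    have h28 : 0 < ‖u 0‖ := norm_pos_iff.2 (hu 0).1
    positivity
  linarith

end Pool.Agent.H79.PJ
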