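import Pool.Agent.H79.PJ.RepPs
import Pool.Agent.H44.DP.Fdf

/-!
# The data `PsA` of a rational map

`mk_repA`: the data `Ps` of the `N`-th iterate of a rational map together with the attracted set.
-/

set_option autoImplicit false

open Filter Topology Polynomial Metric Set

namespace Pool.Agent.H79.PJ

open Pool.Agent.H44.Fatou Pool.Agent.H32.BT Pool.Agent.H79.Eul Pool.Agent.H79.Par Pool.Agent.H79.PB
open Pool.Agent.H44.DP (Ps PsA dS)

theorem mk_A {d : ℕ} {v0 : E d} (h : Hyp v0) {N : ℕ} {D : Ps} (hR : RepPs v0 N D) :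
    ∃ X : PsA, X.toPs = D ∧ X.A = AF v0 := by
  have hJ : D.J = frontier (AF v0) := hR.J
  refine ⟨⟨D, AF v0, h.af_open, hJ, h.jp_cpt.isBounded, ?_, ?_, ?_, ?_, ?_⟩, rfl, rfl⟩
  · intro z hz
    rw [hR.G]
    exact h.jp_gn N hz
  · intro z hz
    rw [hR.f]
    exact h.jp_map N hz
  · intro z hz hzJ
    rw [hR.f]
    refine h.int_deriv N (int_of_not h.hd h.hcop h.hdeg h.hper hz ?_)
    rw [← hR.J]
    exact hzJ
  · intro x s m hs hm hb ht
    rw [hR.f] at ht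
    exact h.no_sink hR.hN (by omega) hs hb ht
  · intro p hp ε hε
    obtain ⟨r, hr, h1⟩ := par_af (hR.pt p hp) hε
    refine ⟨r, hr, fun z hz hzp h2 => h1 z hzp ?_ h2⟩
    rwa [← dist_eq_norm]

theorem mk_repA {d : ℕ} {v0 : E d} (h : Hyp v0) {c0 : ℂ} (hc0 : wv v0 c0 = 0) (hc0J : c0 ∈ JP v0)
    (hc0n : ∀ m : ℕ, it v0 m c0 ∉ PP v0) :
    ∃ (N : ℕ) (X : PsA), RepPs v0 N X.toPs ∧ X.A = AF v0 := by
  obtain ⟨N, D, hR⟩ := mk_rep h hc0 hc0J hc0n
  obtain ⟨X, h1, h2⟩ := mk_A h hR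
  exact ⟨N, X, by rw [h1]; exact hR, h2⟩

end Pool.Agent.H79.PJ
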