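import Pool.Agent.H79.PJ.MkPs

/-!
# The data `Ps` of a rational map

`mk_rep`: the data `Ps` of the `N`-th iterate of a rational map with a Collet-Eckmann critical point which does not
land. `RepPs v0 N D`: the data belong to the `N`-th iterate of `Rf v0`. Facts about the attracted set `AF v0`.
-/

set_option autoImplicit false

open Filter Topology Polynomial Metric Set

namespace Pool.Agent.H79.PJ

open Pool.Agent.H44.Fatou Pool.Agent.H32.BT Pool.Agent.H79.Eul Pool.Agent.H79.Par Pool.Agent.H79.PB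
open Pool.Agent.H44.DP (Ps dS)
open Pool.Agent.H91.CE (Gr)

/-- the normalised hypotheses on a rational map: degree, infinity attracted and not periodic, the critical points are
attracted, Collet-Eckmann or landing -/
structure Hyp {d : ℕ} (v0 : E d) : Prop where
  hd : 2 ≤ d
  hcop : IsCoprime (pol v0.1) (pol v0.2)
  hdeg : max (pol v0.1).natDegree (pol v0.2).natDegree = d
  hper : NPer v0
  hinf : OnePoint.infty ∈ Fa v0
  hcr : ∀ c : ℂ, wv v0 c = 0 → c ∈ JP v0 →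
    (∃ m : ℕ, Gr v0 (it v0 m c)) ∨ ∃ m : ℕ, it v0 m c ∈ PP v0

/-- the data `D` belong to the `N`-th iterate of `Rf v0` -/
structure RepPs {d : ℕ} (v0 : E d) (N : ℕ) (D : Ps) : Prop where
  hN : 0 < N
  f : D.f = fun z => it v0 N z
  J : D.J = JF v0
  G : D.G = GN v0 N
  Cr : ∀ z, z ∈ D.Cr ↔ z ∈ JF v0 ∧ ∃ j < N, wv v0 (it v0 j z) = 0
  Ce : ∀ z, z ∈ D.Ce ↔ z ∈ D.Cr ∧ ∀ n, it v0 n z ∉ PP v0
  Cl : ∀ z, z ∈ D.Cl ↔ z ∈ D.Cr ∧ ∃ n, it v0 n z ∈ PP v0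
  Pa : ∀ p, p ∈ D.Pa ↔ p ∈ PP v0
  /-- the parabolic points as points of period `N` of `Rf v0` -/
  pt : ∀ p ∈ D.Pa, ParPt v0 N p (D.ap p) (D.qp p)
  cl : cthickening D.δ D.J ⊆ D.G

theorem mk_rep {d : ℕ} {v0 : E d} (h : Hyp v0) {c0 : ℂ} (hc0 : wv v0 c0 = 0) (hc0J : c0 ∈ JP v0)
    (hc0n : ∀ m : ℕ, it v0 m c0 ∉ PP v0) : ∃ (N : ℕ) (D : Ps), RepPs v0 N D := by
  obtain ⟨N, X, hX⟩ := mk_p0 h.hd h.hcop h.hdeg h.hper h.hinf h.hcr hc0 hc0J hc0n
  obtain ⟨D, e1, e2, e3, e4, e5, e6, e7, -, -, e8, e9, e10⟩ := mk_ps X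
  -- landing for `f` and for the iterate
  have hland : ∀ z, (∃ n, X.f^[n] z ∈ X.Pa) ↔ ∃ n, it v0 n z ∈ PP v0 := by
    intro z
    constructor
    · rintro ⟨n, hn⟩
      rw [hX.f, itN_iter] at hn
      exact ⟨N * n, (hX.Pa _).1 hn⟩
    · rintro ⟨n, hn⟩
      refine ⟨n, ?_⟩
      rw [hX.f, itN_iter, hX.Pa]
      obtain ⟨k, hk⟩ : ∃ k, N * n = k + n :=
        ⟨N * n - n, (Nat.sub_add_cancel (Nat.le_mul_of_pos_left _ hX.hN)).symm⟩
      rw [hk, Pool.Agent.H79.Par.it_add]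
      exact pp_it h.hper hn k
  refine ⟨N, D, ⟨hX.hN, by rw [e1, hX.f], by rw [e2, hX.J], by rw [e3, hX.G],
    fun z => by rw [e4]; exact hX.Cr z, fun z => ?_, fun z => ?_, fun p => by rw [e5]; exact hX.Pa p,
    fun p hp => ?_, e10⟩⟩
  · rw [e8, e4]
    refine and_congr_right fun _ => ?_
    have h1 := hland z
    constructor
    · intro h2 n hn
      obtain ⟨m, hm⟩ := h1.2 ⟨n, hn⟩
      exact h2 m hm
    · intro h2 n hn
      obtain ⟨m, hm⟩ := h1.1 ⟨n, hn⟩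
      exact h2 m hm
  · rw [e9, e4]
    exact and_congr_right fun _ => hland z
  · rw [e6, e7]
    exact hX.pt p (by rw [← e5]; exact hp)

section

variable {d : ℕ} {v0 : E d}

theorem Hyp.af_open (h : Hyp v0) : IsOpen (AF v0) :=
  Pool.Agent.H79.PJ.af_open h.hd h.hcop h.hdeg h.hper

theorem Hyp.jp_eq (v0 : E d) : (AF v0)ᶜ = JP v0 := rfl

theorem Hyp.jp_cpt (h : Hyp v0) : IsCompact (JP v0) :=
  Pool.Agent.H79.PJ.jp_cpt h.hd h.hcop h.hdeg h.hper h.hinf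

theorem Hyp.jp_gn (h : Hyp v0) (N : ℕ) : JP v0 ⊆ GN v0 N := fun _ hz =>
  Pool.Agent.H79.PJ.jp_gn h.hcop h.hper h.hinf hz N

theorem Hyp.jp_map (h : Hyp v0) (N : ℕ) {z : ℂ} (hz : z ∈ JP v0) : it v0 N z ∈ JP v0 :=
  jp_it h.hcop h.hper h.hinf hz N

theorem Hyp.jf_sub (h : Hyp v0) : JF v0 ⊆ JP v0 :=
  Pool.Agent.H79.PJ.jf_sub h.hd h.hcop h.hdeg h.hper

/-- no critical points in the interior of the complement of the attracted set -/
theorem Hyp.int_deriv (h : Hyp v0) (N : ℕ) {z : ℂ} (hz : z ∈ interior (JP v0)) :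
    deriv (fun z => it v0 N z) z ≠ 0 := by
  have hJ : z ∈ JP v0 := interior_subset hz
  have hG := h.jp_gn N hJ
  rw [(gn_deriv hG).deriv]
  intro h0
  obtain ⟨j, -, hj⟩ := (trD_zero hG).1 h0
  have h1 := int_it h.hd h.hcop h.hdeg h.hper h.hinf hz j
  have h2 : it v0 j z ∈ JP v0 := interior_subset h1
  exact int_not h.hd h.hcop h.hdeg h.hper h1
    (cr_jf h.hd h.hcop h.hdeg h.hper h.hinf h2 (h.hcr _ hj h2))

/-- a point of the complement is not a sink -/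
theorem Hyp.no_sink (h : Hyp v0) {N m : ℕ} (hN : 0 < N) (hm : 0 < m) {x : ℂ} {ρ : ℝ} (hρ : 0 < ρ)
    (hb : ball x ρ ⊆ JP v0)
    (ht : ∀ w ∈ ball x ρ, Tendsto (fun j : ℕ => (fun z => it v0 N z)^[m * j] w) atTop (𝓝 x)) :
    False := by
  have hc : Continuous (Rf v0) := rat_continuous h.hcop
  have hval : ∀ w ∈ ball x ρ, ∀ k : ℕ, (Rf v0)^[(N * m) * k] (w : OnePoint ℂ) =
      (((fun z => it v0 N z)^[m * k] w : ℂ) : OnePoint ℂ) := by
    intro w hw k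
    rw [itN_iter, rat_it, Nat.mul_assoc]
    intro i _
    exact Pool.Agent.H79.PJ.jp_gn h.hcop h.hper h.hinf (hb hw) (i + 1) i (Nat.lt_succ_self i)
  have hT : ∀ w ∈ ball x ρ, Tendsto (fun k : ℕ => (Rf v0)^[(N * m) * k] (w : OnePoint ℂ)) atTop
      (𝓝 (x : OnePoint ℂ)) := by
    intro w hw
    exact ((OnePoint.continuous_coe.tendsto x).comp (ht w hw)).congr fun k => (hval w hw k).symm
  have hx := hT x (mem_ball_self hρ)
  have hfix : (Rf v0)^[N * m] (x : OnePoint ℂ) = (x : OnePoint ℂ) := by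
    have h1 := (hx.comp (tendsto_add_atTop_nat 1))
    have h2 := ((hc.iterate (N * m)).tendsto (x : OnePoint ℂ)).comp hx
    refine tendsto_nhds_unique h2 (h1.congr fun k => ?_)
    simp only [Function.comp_apply]
    rw [← Function.iterate_add_apply]
    congr 1
    ring
  apply hb (mem_ball_self hρ)
  refine ⟨(x : OnePoint ℂ), N * m, Or.inl ⟨⟨Nat.mul_pos hN hm, hfix,
    ((↑) : ℂ → OnePoint ℂ) '' ball x ρ, ?_, ?_⟩, hx⟩⟩
  · exact (OnePoint.isOpenEmbedding_coe.isOpenMap _ isOpen_ball).mem_nhds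
      ⟨x, mem_ball_self hρ, rfl⟩
  · rintro _ ⟨w, hw, rfl⟩
    exact hT w hw

/-- the points near a parabolic point outside the cones are attracted -/
theorem par_af {N : ℕ} {p a : ℂ} {q : ℕ} (hP : ParPt v0 N p a q) {ε : ℝ} (hε : 0 < ε) :
    ∃ r : ℝ, 0 < r ∧ ∀ z : ℂ, z ≠ p → ‖z - p‖ < r →
      (a * (z - p) ^ q).re ≤ (1 - ε) * ‖a * (z - p) ^ q‖ → z ∈ AF v0 := by
  obtain ⟨r, hr, h⟩ := basin_near_par hP hε
  refine ⟨r, hr, fun z h1 h2 h3 => ?_⟩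
  have h4 := fa_of_basin (h (z - p) (sub_ne_zero.2 h1) h2 h3)
  rwa [add_sub_cancel] at h4

end

end Pool.Agent.H79.PJ
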