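import Pool.Agent.H79.PJ.PFin

/-!
# The relative thickening

`dp Pa z = min 1 (infDist z Pa)`; `Rth J Pa δ`: the points whose distance from `J` is less than `δ * dp Pa z`.
`cone_J`, `cone_rth`: near a parabolic point `J` and the relative thickening are in the cones of the repelling
directions.
-/

set_option autoImplicit false

open Filter Topology Polynomial Metric Set

namespace Pool.Agent.H79.PJ

open Pool.Agent.H44.Fatou Pool.Agent.H32.BT Pool.Agent.H79.Eul Pool.Agent.H79.Par Pool.Agent.H79.PB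

/-- the truncated distance from the parabolic points -/
noncomputable def dp (Pa : Finset ℂ) (z : ℂ) : ℝ := min 1 (infDist z (Pa : Set ℂ))

/-- the relative thickening -/
def Rth (J : Set ℂ) (Pa : Finset ℂ) (δ : ℝ) : Set ℂ := {z | infDist z J < δ * dp Pa z}

theorem dp_nonneg (Pa : Finset ℂ) (z : ℂ) : 0 ≤ dp Pa z := le_min zero_le_one infDist_nonneg

theorem dp_le_one (Pa : Finset ℂ) (z : ℂ) : dp Pa z ≤ 1 := min_le_left _ _

theorem dp_le (Pa : Finset ℂ) {p : ℂ} (hp : p ∈ Pa) (z : ℂ) : dp Pa z ≤ ‖z - p‖ := by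
  refine (min_le_right _ _).trans ?_
  rw [← dist_eq_norm]
  exact infDist_le_dist_of_mem (by exact_mod_cast hp)

theorem dp_lip (Pa : Finset ℂ) (z w : ℂ) : dp Pa z ≤ dp Pa w + ‖z - w‖ := by
  have h1 : infDist z (Pa : Set ℂ) ≤ infDist w (Pa : Set ℂ) + dist z w :=
    infDist_le_infDist_add_dist
  rw [dist_eq_norm] at h1
  have h2 := norm_nonneg (z - w)
  unfold dp
  rcases min_choice (1 : ℝ) (infDist w (Pa : Set ℂ)) with h | h
  · rw [h]
    exact (min_le_left _ _).trans (by linarith)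
  · rw [h]
    exact (min_le_right _ _).trans h1

theorem dp_abs (Pa : Finset ℂ) (z w : ℂ) : |dp Pa z - dp Pa w| ≤ ‖z - w‖ := by
  rw [abs_le]
  have h1 := dp_lip Pa z w
  have h2 := dp_lip Pa w z
  rw [norm_sub_rev] at h2
  constructor <;> linarith

theorem dp_cont (Pa : Finset ℂ) : Continuous (dp Pa) :=
  continuous_const.min (continuous_infDist_pt _)

theorem dp_pos {Pa : Finset ℂ} (hne : Pa.Nonempty) {z : ℂ} : 0 < dp Pa z ↔ z ∉ Pa := by
  have hcl : IsClosed (Pa : Set ℂ) := Pa.finite_toSet.isClosed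
  have hn : (Pa : Set ℂ).Nonempty := by exact_mod_cast hne
  have h1 := hcl.notMem_iff_infDist_pos hn (x := z)
  unfold dp
  rw [lt_min_iff, ← h1]
  simp

theorem rth_open (J : Set ℂ) (Pa : Finset ℂ) (δ : ℝ) : IsOpen (Rth J Pa δ) :=
  isOpen_lt (continuous_infDist_pt _) (continuous_const.mul (dp_cont Pa))

theorem rth_mono {J : Set ℂ} {Pa : Finset ℂ} {δ δ' : ℝ} (h : δ ≤ δ') : Rth J Pa δ ⊆ Rth J Pa δ' :=
  fun z hz => lt_of_lt_of_le hz (mul_le_mul_of_nonneg_right h (dp_nonneg Pa z))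

theorem rth_not {J : Set ℂ} {Pa : Finset ℂ} {δ : ℝ} {z : ℂ} (hz : z ∈ Rth J Pa δ) : z ∉ Pa := by
  intro h
  have h1 : infDist z J < δ * dp Pa z := hz
  have h2 : dp Pa z = 0 := by
    refine le_antisymm ?_ (dp_nonneg Pa z)
    have h3 := dp_le Pa h z
    rwa [sub_self, norm_zero] at h3
  rw [h2, mul_zero] at h1
  exact absurd h1 (not_lt.2 infDist_nonneg)

theorem rth_pos {J : Set ℂ} {Pa : Finset ℂ} {δ : ℝ} (hδ : 0 ≤ δ) {z : ℂ} (hz : z ∈ Rth J Pa δ) :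
    0 < dp Pa z := by
  have h1 : infDist z J < δ * dp Pa z := hz
  have h2 : 0 ≤ infDist z J := infDist_nonneg
  by_contra h
  have h3 : dp Pa z = 0 := le_antisymm (not_lt.1 h) (dp_nonneg Pa z)
  rw [h3, mul_zero] at h1
  linarith

theorem rth_of_mem {J : Set ℂ} {Pa : Finset ℂ} (hne : Pa.Nonempty) {δ : ℝ} (hδ : 0 < δ) {z : ℂ}
    (hz : z ∈ J) (hzP : z ∉ Pa) : z ∈ Rth J Pa δ := by
  show infDist z J < δ * dp Pa z
  rw [infDist_zero_of_mem hz]
  exact mul_pos hδ ((dp_pos hne).2 hzP)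

theorem rth_thick {J : Set ℂ} (hJ : J.Nonempty) {Pa : Finset ℂ} {δ : ℝ} (hδ : 0 ≤ δ) :
    Rth J Pa δ ⊆ thickening δ J := by
  intro z hz
  have h1 : infDist z J < δ * dp Pa z := hz
  rw [mem_thickening_iff_infDist_lt hJ]
  refine h1.trans_le ?_
  calc δ * dp Pa z ≤ δ * 1 := mul_le_mul_of_nonneg_left (dp_le_one Pa z) hδ
    _ = δ := mul_one δ

/-- discs which are small relatively to the distance from the parabolic points -/
theorem rth_ball {J : Set ℂ} {Pa : Finset ℂ} {δ κ : ℝ} (hκ : 0 ≤ κ) (hκ1 : κ ≤ 1 / 2)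
    (hδ : 0 ≤ δ) {z w : ℂ} (hz : z ∈ Rth J Pa δ) (hw : ‖w - z‖ ≤ κ * dp Pa z) :
    w ∈ Rth J Pa (2 * (δ + κ)) := by
  have h1 : infDist z J < δ * dp Pa z := hz
  have h0 := dp_nonneg Pa z
  have h2 : infDist w J ≤ infDist z J + dist w z := infDist_le_infDist_add_dist
  rw [dist_eq_norm] at h2
  have h3 := dp_lip Pa z w
  rw [norm_sub_rev] at h3
  have h4 : κ * dp Pa z ≤ 1 / 2 * dp Pa z := mul_le_mul_of_nonneg_right hκ1 h0
  have h5 : dp Pa z ≤ 2 * dp Pa w := by linarith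
  show infDist w J < 2 * (δ + κ) * dp Pa w
  have h6 : (δ + κ) * dp Pa z ≤ (δ + κ) * (2 * dp Pa w) :=
    mul_le_mul_of_nonneg_left h5 (by linarith)
  nlinarith

/-- near a parabolic point `JP` is in the cones of the repelling directions -/
theorem cone_J {d : ℕ} {v0 : E d} {n : ℕ} {p a : ℂ} {q : ℕ} (hP : ParPt v0 n p a q)
    {ε : ℝ} (hε : 0 < ε) :
    ∃ r : ℝ, 0 < r ∧ ∀ z ∈ JP v0, z ≠ p → ‖z - p‖ < r →
      (1 - ε) * ‖a * (z - p) ^ q‖ < (a * (z - p) ^ q).re := by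
  obtain ⟨r, hr, h⟩ := basin_near_par hP hε
  refine ⟨r, hr, fun z hz hne hzr => ?_⟩
  by_contra hcon
  rw [not_lt] at hcon
  have h1 := h (z - p) (sub_ne_zero.2 hne) hzr hcon
  rw [add_sub_cancel] at h1
  exact hz (fa_of_basin h1)

theorem cone_rth {J : Set ℂ} (hJ : J.Nonempty) {p a : ℂ} {q : ℕ} (H : ∀ ε : ℝ, 0 < ε → ∃ r : ℝ, 0 < r ∧ ∀ z ∈ J, z ≠ p → ‖z - p‖ < r →
      (1 - ε) * ‖a * (z - p) ^ q‖ < (a * (z - p) ^ q).re) {ε : ℝ} (hε : 0 < ε) (hε1 : ε ≤ 1) :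
    ∃ δ r : ℝ, 0 < δ ∧ δ ≤ 1 / 2 ∧ 0 < r ∧ ∀ z : ℂ, infDist z J < δ * ‖z - p‖ → ‖z - p‖ < r →
      (1 - ε) * ‖a * (z - p) ^ q‖ < (a * (z - p) ^ q).re := by
  obtain ⟨r, hr, h⟩ := H (ε / 4) (by positivity)
  obtain ⟨δ, hδ, hδ1, hδ2⟩ : ∃ δ : ℝ, 0 < δ ∧ δ ≤ 1 / 2 ∧ ∀ t : ℂ, ‖t‖ ≤ δ →
      ‖(1 + t) ^ q - 1‖ ≤ ε / 4 := by
    have h8 : ContinuousAt (fun t : ℂ => (1 + t) ^ q - 1) 0 := by fun_prop
    obtain ⟨e, he, he'⟩ := Metric.continuousAt_iff.1 h8 (ε / 4) (by positivity)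
    refine ⟨min (e / 2) (1 / 2), by positivity, min_le_right _ _, fun t ht => ?_⟩
    have h9 := he' (x := t) (by
      rw [dist_zero_right]
      exact lt_of_le_of_lt (ht.trans (min_le_left _ _)) (by linarith))
    rw [dist_eq_norm] at h9
    simpa using h9.le
  refine ⟨δ, r / 2, hδ, hδ1, by positivity, fun z hz hzr => ?_⟩
  by_contra hcon
  rw [not_lt] at hcon
  have hzp : 0 < ‖z - p‖ := by
    by_contra h0
    have h1 : ‖z - p‖ = 0 := le_antisymm (not_lt.1 h0) (norm_nonneg _)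
    rw [h1, mul_zero] at hz
    exact absurd hz (not_lt.2 infDist_nonneg)
  obtain ⟨z', hz', hd⟩ := (infDist_lt_iff hJ).1 hz
  rw [dist_eq_norm] at hd
  have hzp0 : z - p ≠ 0 := norm_pos_iff.1 hzp
  obtain ⟨t, ht⟩ : ∃ t : ℂ, z' - p = (z - p) * (1 + t) := by
    refine ⟨(z' - p) / (z - p) - 1, ?_⟩
    field_simp
    ring
  have htn : ‖t‖ ≤ δ := by
    have h8 : z - z' = (z - p) * (-t) := by linear_combination -ht
    rw [h8, norm_mul, norm_neg, mul_comm] at hd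
    exact (lt_of_mul_lt_mul_right hd hzp.le).le
  have h13 : 1 + t ≠ 0 := by
    intro h0
    have h14 : t = -1 := by linear_combination h0
    rw [h14, norm_neg, norm_one] at htn
    linarith
  have h15 : z' ≠ p := by
    rw [← sub_ne_zero, ht]
    exact mul_ne_zero hzp0 h13
  have h10 : ‖z' - p‖ < r := by
    rw [ht, norm_mul]
    have h11 : ‖1 + t‖ ≤ 3 / 2 := by
      refine (norm_add_le _ _).trans ?_
      rw [norm_one]
      linarith
    nlinarith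
  have h16 := h z' hz' h15 h10
  have h17 := cone_pert (Z := a * (z - p) ^ q) (e := (1 + t) ^ q - 1) hε hε1 (hδ2 t htn) hcon
  have h18 : a * (z' - p) ^ q = a * (z - p) ^ q * (1 + ((1 + t) ^ q - 1)) := by
    rw [ht, mul_pow]
    ring
  rw [h18] at h16
  linarith

end Pool.Agent.H79.PJ
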